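import Pool.Agent.Work.MP_d2a4bb_nt.QE.Defs

/-!
# Power saving in the quantum variance of holomorphic Hecke forms (MP_d2a4bb_nt): definitions

The orders, groups, Hecke operators and fundamental domains are those of `QE/Defs.lean`.
-/

open UpperHalfPlane MeasureTheory Matrix
open scoped MatrixGroups Manifold Topology ComplexConjugate

namespace HQ

/-- A plentiful set of natural numbers: for all `ε > 0` and all large `N` it has at least `N ^ (1 - ε)`
elements between `N` and `3 N`. -/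
def Plenty (P : Set ℕ) : Prop := ∀ ε : ℝ, 0 < ε → ∃ N₀ : ℕ, ∀ N : ℕ, N₀ ≤ N →
  (N : ℝ) ^ (1 - ε) ≤ (({n : ℕ | n ∈ P ∧ N < n ∧ n ≤ 3 * N}.ncard : ℕ) : ℝ)

namespace QuatOrder
variable (Q : QuatOrder)

/-- A plentiful set of good primes of the order: `O / p O` is isomorphic to `M₂(𝔽_p)` and there are
exactly `p + 1` classes `Γ x`, `x ∈ O`, `nrd x = p`. (By Eichler's theorem all primes which do not divide
the discriminant have these two properties if `O` is a maximal order or an Eichler order.) -/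
structure PlentyGood (P : Set ℕ) : Prop where
  plenty : Plenty P
  prime : ∀ p ∈ P, p.Prime
  good : ∀ p ∈ P, Q.Good p
  index : ∀ p ∈ P, Q.index p = p + 1

/-- `B` is an orthonormal set of forms of weight `k` which are eigenfunctions of all Hecke operators
`T_p`, `p ∈ P`; the inner product is `∫_X f ḡ y^k dμ`, `X` represented by the fundamental domain `F`. -/
structure IsHeckeFamily (F : Set ℍ) (P : Set ℕ) (k : ℕ) (B : Finset (ℍ → ℂ)) : Prop where
  form : ∀ f ∈ B, Q.IsForm k f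
  eigen : ∀ f ∈ B, ∀ p ∈ P, Q.IsEigen p k f
  ortho : ∀ f ∈ B, ∀ g ∈ B, f ≠ g → ∫ z in F, f z * conj (g z) * ((z.im : ℝ) : ℂ) ^ k = 0
  norm : ∀ f ∈ B, ∫ z in F, ‖f z‖ ^ 2 * z.im ^ k = 1

end QuatOrder

/-- THEOREM QV: power saving in the quantum variance.  The second part is the case of a basis. -/
def MainV : Prop := ∀ (Q : QuatOrder) (P : Set ℕ), Q.PlentyGood P → ∀ F : Set ℍ, Q.IsFund F →
  ∀ ψ : ℍ → ℝ, Q.IsTest ψ → (∃ L : ℝ, ∀ z w : ℍ, |ψ z - ψ w| ≤ L * dist z w) →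
  ∃ C : ℝ, ∀ m : ℕ, 0 < m → ∀ B : Finset (ℍ → ℂ), Q.IsHeckeFamily F P (2 * m) B →
    ∑ f ∈ B, ((∫ z in F, ψ z * (‖f z‖ ^ 2 * z.im ^ (2 * m))) - (∫ z in F, ψ z) / (volume F).toReal) ^ 2
      ≤ C * (m : ℝ) ^ (1 - 1 / 2000 : ℝ) ∧
    ((∀ h, Q.IsForm (2 * m) h → h ∈ Submodule.span ℂ (B : Set (ℍ → ℂ))) →
      ∑ f ∈ B, ((∫ z in F, ψ z * (‖f z‖ ^ 2 * z.im ^ (2 * m))) - (∫ z in F, ψ z) / (volume F).toReal) ^ 2
        ≤ C * (m : ℝ) ^ (-1 / 2000 : ℝ) * B.card)

end HQ
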