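import Pool.Agent.Work.MP_d2a4bb_nt.QV.Defs
import Pool.Agent.Work.MP_d2a4bb_nt.QE.Example6
import Pool.Agent.Work.MP_d2a4bb_nt.NC.I_Pr

/-!
# The maximal order of discriminant 6: all primes `p > 3` form a plentiful set of good primes
-/

set_option autoImplicit false

namespace HQ

/-- There are at least `N ^ (1 - ε)` primes between `N` and `3 N` (`N` large). -/
theorem plenty_primes : Plenty {p : ℕ | p.Prime ∧ 3 < p} := by
  intro ε hε
  obtain ⟨n₀, hn₀⟩ := Pool.Agent.HoloQUE.prf_Pr ε hε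
  refine ⟨max n₀ 3, fun N hN => le_trans (hn₀ N (le_trans (le_max_left _ _) hN)) ?_⟩
  have hN3 : 3 ≤ N := le_trans (le_max_right _ _) hN
  have hfin : {n : ℕ | n ∈ {p : ℕ | p.Prime ∧ 3 < p} ∧ N < n ∧ n ≤ 3 * N}.Finite :=
    (Set.finite_Iic (3 * N)).subset fun n hn => hn.2.2
  rw [← Set.ncard_coe_finset]
  refine Nat.cast_le.2 (Set.ncard_le_ncard (fun p hp => ?_) hfin)
  rw [Finset.mem_coe, Finset.mem_filter, Finset.mem_Ioc] at hp
  exact ⟨⟨hp.2, by omega⟩, hp.1.1, hp.1.2⟩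

/-- The maximal order of discriminant `6`: the primes `p > 3` form a plentiful set of good primes. -/
theorem example6V : ∃ Q : QuatOrder, Q.PlentyGood {p : ℕ | p.Prime ∧ 3 < p} := by
  obtain ⟨Q, hQ⟩ := example6
  exact ⟨Q, plenty_primes, fun p hp => hp.1, fun p hp => (hQ p hp.1 hp.2).1,
    fun p hp => (hQ p hp.1 hp.2).2⟩

end HQ
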