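import Pool.Agent.Work.MP_d2a4bb_nt.QV.Stmts

/-!
# Item CS of the block [d2a4bb QV]: the mass of the heat-like kernel of the hyperbolic plane
-/

set_option autoImplicit false

open UpperHalfPlane MeasureTheory Matrix
open scoped MatrixGroups Manifold Topology ComplexConjugate ENNReal

namespace HQ

namespace VCS

/-- integrals over `ℍ` in coordinates -/
theorem lint_coord (G : ℝ × ℝ → ℝ≥0∞) (hG : Measurable G) :
    ∫⁻ w : ℍ, G (w.re, w.im) =
      ∫⁻ y in Set.Ioi (0 : ℝ), ∫⁻ x : ℝ, ENNReal.ofReal (1 / y ^ 2) * G (x, y) := by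
  have hH : Measurable (fun z : ℂ => ENNReal.ofReal (1 / z.im ^ 2) * G (z.re, z.im)) := by
    refine Measurable.mul ?_ (hG.comp (Complex.measurable_re.prodMk Complex.measurable_im))
    exact ENNReal.measurable_ofReal.comp ((measurable_const).div (Complex.measurable_im.pow_const 2))
  have hd : Measurable (fun z : ℍ => ((((1 : NNReal) / NNReal.mk z.im z.im_pos.le) ^ 2 : NNReal) : ℝ≥0∞)) := by
    refine measurable_coe_nnreal_ennreal.comp ?_
    refine Measurable.pow_const ?_ 2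
    refine Measurable.div measurable_const ?_
    exact (Complex.measurable_im.comp measurable_coe).subtype_mk
  have hGw : Measurable (fun w : ℍ => G (w.re, w.im)) :=
    hG.comp ((Complex.measurable_re.comp measurable_coe).prodMk
      (Complex.measurable_im.comp measurable_coe))
  have e1 : ∫⁻ w : ℍ, G (w.re, w.im) = ∫⁻ w : ℍ,
      (fun z : ℂ => ENNReal.ofReal (1 / z.im ^ 2) * G (z.re, z.im)) (w : ℂ)
        ∂(volume.comap UpperHalfPlane.coe) := by
    rw [UpperHalfPlane.volume_def, lintegral_withDensity_eq_lintegral_mul _ hd hGw]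
    refine lintegral_congr fun w => ?_
    simp only [Pi.mul_apply]
    congr 1
    rw [← ENNReal.ofReal_coe_nnreal]
    congr 1
    push_cast
    rw [_root_.one_div_pow]
    rfl
  have e3 := measurableEmbedding_coe.lintegral_map (μ := volume.comap UpperHalfPlane.coe)
    (fun z : ℂ => ENNReal.ofReal (1 / z.im ^ 2) * G (z.re, z.im))
  rw [e1, ← e3, measurableEmbedding_coe.map_comap]
  have hr : Set.range UpperHalfPlane.coe = Complex.measurableEquivRealProd ⁻¹'
      (Set.univ ×ˢ Set.Ioi (0 : ℝ)) := by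
    ext z
    simp only [Set.mem_range, Set.mem_preimage, Set.mem_prod, Set.mem_univ, true_and, Set.mem_Ioi]
    constructor
    · rintro ⟨w, rfl⟩
      exact w.im_pos
    · intro h
      exact ⟨⟨z, h⟩, rfl⟩
  rw [hr]
  have e2 := Complex.volume_preserving_equiv_real_prod.setLIntegral_comp_preimage
    (s := Set.univ ×ˢ Set.Ioi (0 : ℝ)) (MeasurableSet.univ.prod measurableSet_Ioi)
    (f := fun p : ℝ × ℝ => ENNReal.ofReal (1 / p.2 ^ 2) * G p) (by
      refine Measurable.mul ?_ hG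
      exact ENNReal.measurable_ofReal.comp ((measurable_const).div (measurable_snd.pow_const 2)))
  refine (Eq.trans ?_ e2).trans ?_
  · rfl
  · rw [Measure.volume_eq_prod, ← Measure.prod_restrict, Measure.restrict_univ,
      lintegral_prod_symm]
    refine Measurable.aemeasurable (Measurable.mul ?_ hG)
    exact ENNReal.measurable_ofReal.comp ((measurable_const).div (measurable_snd.pow_const 2))

/-- the weight of the line of height `y` -/
noncomputable def K (s y : ℝ) : ℝ :=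
  √(2 * Real.pi / s) * (√y / y ^ 2) * Real.exp (-(s / 2) * ((y - 1) ^ 2 / y))

theorem K_nonneg (s y : ℝ) : 0 ≤ K s y := by unfold K; positivity

/-- the integral over the horizontal line of height `y` -/
theorem xint (s y : ℝ) (hs : 0 < s) (hy : 0 < y) :
    ∫⁻ x : ℝ, ENNReal.ofReal (1 / y ^ 2) *
      ENNReal.ofReal (Real.exp (-s * ((x ^ 2 + (y - 1) ^ 2) / (2 * y)))) =
      ENNReal.ofReal (K s y) := by
  have hb : 0 < s / (2 * y) := by positivity
  have e : ∀ x : ℝ, ENNReal.ofReal (1 / y ^ 2) *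
      ENNReal.ofReal (Real.exp (-s * ((x ^ 2 + (y - 1) ^ 2) / (2 * y)))) =
      ENNReal.ofReal (1 / y ^ 2 * Real.exp (-(s / 2) * ((y - 1) ^ 2 / y))) *
        ENNReal.ofReal (Real.exp (-(s / (2 * y)) * x ^ 2)) := by
    intro x
    rw [← ENNReal.ofReal_mul (by positivity), ← ENNReal.ofReal_mul (by positivity), mul_assoc,
      ← Real.exp_add]
    congr 3
    field_simp
    ring
  simp_rw [e]
  rw [lintegral_const_mul' _ _ ENNReal.ofReal_ne_top,
    ← ofReal_integral_eq_lintegral_ofReal (integrable_exp_neg_mul_sq hb)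
      (Filter.Eventually.of_forall fun x => (Real.exp_pos _).le), integral_gaussian,
    ← ENNReal.ofReal_mul (by positivity)]
  congr 1
  have h1 : Real.pi / (s / (2 * y)) = 2 * Real.pi / s * y := by field_simp
  rw [h1, Real.sqrt_mul (by positivity)]
  unfold K
  ring

/-- the mass as an integral over heights -/
theorem mass (s : ℝ) (hs : 0 < s) :
    ∫⁻ w : ℍ, ENNReal.ofReal (Real.exp (-s * ((w.re ^ 2 + (w.im - 1) ^ 2) / (2 * w.im)))) =
      ∫⁻ y in Set.Ioi (0 : ℝ), ENNReal.ofReal (K s y) := by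
  have h := lint_coord (fun p : ℝ × ℝ =>
    ENNReal.ofReal (Real.exp (-s * ((p.1 ^ 2 + (p.2 - 1) ^ 2) / (2 * p.2))))) (by
      refine ENNReal.measurable_ofReal.comp (Real.measurable_exp.comp ?_)
      refine Measurable.mul measurable_const (Measurable.div ?_ (measurable_const.mul measurable_snd))
      exact (measurable_fst.pow_const 2).add ((measurable_snd.sub_const 1).pow_const 2))
  rw [h]
  exact setLIntegral_congr_fun measurableSet_Ioi fun y hy => xint s y hs hy

/-- upper bound -/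
theorem mass_le (s : ℝ) (hs : 0 < s) :
    ∫⁻ y in Set.Ioi (0 : ℝ), ENNReal.ofReal (K s y) ≤ ENNReal.ofReal (4 * Real.pi / s) := by
  have hb : 0 < s / 2 := by positivity
  obtain ⟨Y, hY⟩ : ∃ Y : ℝ → ℝ, Y = fun y => √y - (√y)⁻¹ := ⟨_, rfl⟩
  obtain ⟨Y', hY'⟩ : ∃ Y' : ℝ → ℝ, Y' = fun y => 1 / (2 * √y) - -(1 / (2 * √y)) / √y ^ 2 :=
    ⟨_, rfl⟩
  have hd : ∀ y ∈ Set.Ioi (0 : ℝ), HasDerivWithinAt Y (Y' y) (Set.Ioi 0) y := by
    intro y hy
    have hy' : (0 : ℝ) < y := hy
    have h1 := Real.hasDerivAt_sqrt hy'.ne'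
    have h2 := h1.inv (Real.sqrt_pos.2 hy').ne'
    rw [hY, hY']
    exact (h1.sub h2).hasDerivWithinAt
  have hinj : Set.InjOn Y (Set.Ioi 0) := by
    intro a ha b hb hab
    have ha' : 0 < √a := Real.sqrt_pos.2 ha
    have hb' : 0 < √b := Real.sqrt_pos.2 hb
    rw [hY] at hab
    simp only at hab
    have h1 : (√a - √b) * (1 + (√a)⁻¹ * (√b)⁻¹) = 0 := by
      have h2 : (√a - √b) * ((√a)⁻¹ * (√b)⁻¹) = (√b)⁻¹ - (√a)⁻¹ := by
        field_simp
      rw [mul_add, mul_one, h2]
      linarith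
    have h3 : 0 < 1 + (√a)⁻¹ * (√b)⁻¹ := by positivity
    have h4 : √a - √b = 0 := by
      rcases mul_eq_zero.1 h1 with h | h
      · exact h
      · exact absurd h h3.ne'
    have h5 : √a = √b := by linarith
    exact (Real.sqrt_inj (le_of_lt ha) (le_of_lt hb)).1 h5
  have hle : ∀ y ∈ Set.Ioi (0 : ℝ), ENNReal.ofReal (K s y) ≤ ENNReal.ofReal |Y' y| *
      ENNReal.ofReal (2 * √(2 * Real.pi / s) * Real.exp (-(s / 2) * (Y y) ^ 2)) := by
    intro y hy
    have hy' : (0 : ℝ) < y := hy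
    obtain ⟨t, ht⟩ : ∃ t, t = √y := ⟨_, rfl⟩
    have ht0 : 0 < t := by rw [ht]; exact Real.sqrt_pos.2 hy'
    have hty : y = t ^ 2 := by rw [ht, Real.sq_sqrt hy'.le]
    rw [← ENNReal.ofReal_mul (abs_nonneg _)]
    refine ENNReal.ofReal_le_ofReal ?_
    have e1 : (Y y) ^ 2 = (y - 1) ^ 2 / y := by
      rw [hY]
      simp only
      rw [← ht, hty]
      field_simp
    have e2 : 1 / 2 * (√y / y ^ 2) ≤ |Y' y| := by
      rw [hY']
      simp only
      rw [← ht, hty]
      refine le_trans ?_ (le_abs_self _)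
      have h1 : 1 / (2 * t) - -(1 / (2 * t)) / t ^ 2 = 1 / (2 * t) + 1 / 2 * (t / (t ^ 2) ^ 2) := by
        field_simp
        ring
      rw [h1]
      have h2 : 0 < 1 / (2 * t) := by positivity
      linarith
    rw [e1]
    unfold K
    have h3 : 0 ≤ 2 * √(2 * Real.pi / s) * Real.exp (-(s / 2) * ((y - 1) ^ 2 / y)) := by positivity
    calc √(2 * Real.pi / s) * (√y / y ^ 2) * Real.exp (-(s / 2) * ((y - 1) ^ 2 / y))
        = 1 / 2 * (√y / y ^ 2) *
          (2 * √(2 * Real.pi / s) * Real.exp (-(s / 2) * ((y - 1) ^ 2 / y))) := by ring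
      _ ≤ |Y' y| * (2 * √(2 * Real.pi / s) * Real.exp (-(s / 2) * ((y - 1) ^ 2 / y))) :=
          mul_le_mul_of_nonneg_right e2 h3
  refine (setLIntegral_mono_ae' measurableSet_Ioi (Filter.Eventually.of_forall hle)).trans ?_
  have e3 := lintegral_image_eq_lintegral_abs_deriv_mul measurableSet_Ioi hd hinj
    (fun v => ENNReal.ofReal (2 * √(2 * Real.pi / s) * Real.exp (-(s / 2) * v ^ 2)))
  rw [← e3]
  refine (setLIntegral_le_lintegral _ _).trans ?_
  have e4 : ∀ v : ℝ, ENNReal.ofReal (2 * √(2 * Real.pi / s) * Real.exp (-(s / 2) * v ^ 2)) =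
      ENNReal.ofReal (2 * √(2 * Real.pi / s)) * ENNReal.ofReal (Real.exp (-(s / 2) * v ^ 2)) :=
    fun v => ENNReal.ofReal_mul (by positivity)
  simp_rw [e4]
  rw [lintegral_const_mul' _ _ ENNReal.ofReal_ne_top,
    ← ofReal_integral_eq_lintegral_ofReal (integrable_exp_neg_mul_sq hb)
      (Filter.Eventually.of_forall fun x => (Real.exp_pos _).le), integral_gaussian,
    ← ENNReal.ofReal_mul (by positivity)]
  refine ENNReal.ofReal_le_ofReal (le_of_eq ?_)
  have h1 : Real.pi / (s / 2) = 2 * Real.pi / s := by field_simp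
  rw [h1, mul_assoc, Real.mul_self_sqrt (by positivity)]
  ring

/-- lower bound -/
theorem le_mass (s : ℝ) (hs : 1 ≤ s) :
    ENNReal.ofReal (Real.exp (-(1 / 2)) / 4 / s) ≤
      ∫⁻ y in Set.Ioi (0 : ℝ), ENNReal.ofReal (K s y) := by
  have hs0 : 0 < s := by linarith
  have hq : 1 ≤ √s := by
    rw [← Real.sqrt_one]
    exact Real.sqrt_le_sqrt hs
  have hq0 : 0 < √s := by linarith
  obtain ⟨δ, hδ⟩ : ∃ δ, δ = 1 / √s := ⟨_, rfl⟩
  have hδ0 : 0 < δ := by rw [hδ]; positivity
  have hδ1 : δ ≤ 1 := by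
    rw [hδ, div_le_one hq0]
    exact hq
  have hδs : s * δ ^ 2 = 1 := by
    rw [hδ, div_pow, one_pow, Real.sq_sqrt hs0.le]
    field_simp
  have hsub : Set.Icc (1 : ℝ) (1 + δ) ⊆ Set.Ioi 0 := fun y hy => by
    have := hy.1
    exact Set.mem_Ioi.2 (by linarith)
  have hK : ∀ y ∈ Set.Icc (1 : ℝ) (1 + δ), δ * (1 / 4) * Real.exp (-(1 / 2)) ≤ K s y := by
    intro y hy
    have hy1 := hy.1
    have hy2 := hy.2
    have hy0 : 0 < y := by linarith
    unfold K
    have h1 : δ ≤ √(2 * Real.pi / s) := by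
      refine Real.le_sqrt_of_sq_le ?_
      rw [le_div_iff₀ hs0, mul_comm, hδs]
      have := Real.pi_gt_three
      linarith
    have h2 : 1 / 4 ≤ √y / y ^ 2 := by
      have h3 : 1 ≤ √y := by
        rw [← Real.sqrt_one]
        exact Real.sqrt_le_sqrt hy1
      rw [le_div_iff₀ (by positivity)]
      nlinarith
    have h3 : Real.exp (-(1 / 2)) ≤ Real.exp (-(s / 2) * ((y - 1) ^ 2 / y)) := by
      refine Real.exp_le_exp.2 ?_
      have h4 : (y - 1) ^ 2 / y ≤ δ ^ 2 := by
        rw [div_le_iff₀ hy0]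
        have h5 : (y - 1) ^ 2 ≤ δ ^ 2 := by
          refine pow_le_pow_left₀ (by linarith) (by linarith) 2
        nlinarith [sq_nonneg δ]
      nlinarith
    have h8 : δ * (1 / 4) * Real.exp (-(1 / 2)) ≤
        √(2 * Real.pi / s) * (√y / y ^ 2) * Real.exp (-(s / 2) * ((y - 1) ^ 2 / y)) := by
      gcongr
    exact h8
  calc ENNReal.ofReal (Real.exp (-(1 / 2)) / 4 / s)
      = ENNReal.ofReal (δ * (1 / 4) * Real.exp (-(1 / 2))) * ENNReal.ofReal δ := by
        rw [← ENNReal.ofReal_mul (by positivity)]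
        congr 1
        have h6 : 1 / s = δ ^ 2 := by
          field_simp
          linarith
        have h7 : Real.exp (-(1 / 2)) / 4 / s = Real.exp (-(1 / 2)) / 4 * (1 / s) := by ring
        rw [h7, h6]
        ring
    _ = ∫⁻ y in Set.Icc (1 : ℝ) (1 + δ), ENNReal.ofReal (δ * (1 / 4) * Real.exp (-(1 / 2))) := by
        rw [setLIntegral_const, Real.volume_Icc]
        congr 2
        ring
    _ ≤ ∫⁻ y in Set.Icc (1 : ℝ) (1 + δ), ENNReal.ofReal (K s y) :=
        setLIntegral_mono_ae' measurableSet_Icc (Filter.Eventually.of_forall fun y hy =>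
          ENNReal.ofReal_le_ofReal (hK y hy))
    _ ≤ ∫⁻ y in Set.Ioi (0 : ℝ), ENNReal.ofReal (K s y) := lintegral_mono_set hsub

theorem coshI (w : ℍ) :
    Real.cosh (dist (I : ℍ) w) - 1 = (w.re ^ 2 + (w.im - 1) ^ 2) / (2 * w.im) := by
  rw [UpperHalfPlane.cosh_dist, Complex.dist_eq, Complex.sq_norm, Complex.normSq_apply]
  have h1 : ((I : ℍ) : ℂ).re = 0 := rfl
  have h2 : ((I : ℍ) : ℂ).im = 1 := rfl
  have h3 : (I : ℍ).im = 1 := rfl
  rw [Complex.sub_re, Complex.sub_im, h1, h2, h3, UpperHalfPlane.coe_re, UpperHalfPlane.coe_im]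
  have := w.im_pos
  field_simp
  ring

/-- the kernel -/
noncomputable def kr (s : ℝ) (u w : ℍ) : ℝ := Real.exp (-s * (Real.cosh (dist u w) - 1))

theorem kr_cont (s : ℝ) (u : ℍ) : Continuous (kr s u) := by
  unfold kr
  exact Real.continuous_exp.comp (continuous_const.mul
    ((Real.continuous_cosh.comp (continuous_const.dist continuous_id)).sub continuous_const))

theorem kr_inv (hV : StVOL) (s : ℝ) (u : ℍ) :
    ∫⁻ w : ℍ, ENNReal.ofReal (kr s u w) = ∫⁻ w : ℍ, ENNReal.ofReal (kr s I w) := by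
  have h1 := (hV.1 u.toSL2R).lintegral_comp (f := fun w : ℍ => ENNReal.ofReal (kr s u w))
    (ENNReal.measurable_ofReal.comp (kr_cont s u).measurable)
  rw [← h1]
  refine lintegral_congr fun w => ?_
  have h2 : dist u (u.toSL2R • w) = dist (I : ℍ) w := by
    conv_lhs => rw [← toSL2R_smul_I u]
    rw [toSL2R_smul_I u]
    have h3 := dist_smul u.toSL2R (I : ℍ) w
    rw [toSL2R_smul_I u] at h3
    exact h3
  unfold kr
  rw [h2]

theorem kr_mass (hV : StVOL) (s : ℝ) (hs : 0 < s) (u : ℍ) :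
    ∫⁻ w : ℍ, ENNReal.ofReal (kr s u w) = ∫⁻ y in Set.Ioi (0 : ℝ), ENNReal.ofReal (K s y) := by
  rw [kr_inv hV s u, ← mass s hs]
  refine lintegral_congr fun w => ?_
  unfold kr
  rw [coshI]

theorem kr_le (hV : StVOL) (s : ℝ) (hs : 0 < s) (u : ℍ) :
    ∫⁻ w : ℍ, ENNReal.ofReal (kr s u w) ≤ ENNReal.ofReal (4 * Real.pi / s) :=
  (kr_mass hV s hs u).trans_le (mass_le s hs)

theorem kr_int (hV : StVOL) (s : ℝ) (hs : 0 < s) (u : ℍ) : Integrable (kr s u) volume := by
  refine ⟨(kr_cont s u).aestronglyMeasurable, ?_⟩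
  have h0 : ∀ w, 0 ≤ kr s u w := fun _ => (Real.exp_pos _).le
  rw [hasFiniteIntegral_iff_ofReal (Filter.Eventually.of_forall h0)]
  exact (kr_le hV s hs u).trans_lt ENNReal.ofReal_lt_top

theorem kr_integral (s : ℝ) (u : ℍ) :
    ∫ w : ℍ, kr s u w = (∫⁻ w : ℍ, ENNReal.ofReal (kr s u w)).toReal :=
  integral_eq_lintegral_of_nonneg_ae (Filter.Eventually.of_forall fun _ => (Real.exp_pos _).le)
    (kr_cont s u).aestronglyMeasurable

theorem half_sq_le (d : ℝ) : d ^ 2 / 2 ≤ Real.cosh d - 1 := by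
  have h1 : Real.cosh d = 1 + 2 * Real.sinh (d / 2) ^ 2 := by
    have h2 := Real.cosh_two_mul (d / 2)
    have h3 := Real.cosh_sq (d / 2)
    have h4 : 2 * (d / 2) = d := by ring
    rw [h4] at h2
    linarith
  have h5 : (d / 2) ^ 2 ≤ Real.sinh (d / 2) ^ 2 := by
    rcases le_total 0 (d / 2) with h | h
    · exact pow_le_pow_left₀ h (Real.self_le_sinh_iff.2 h) 2
    · have h6 : -(d / 2) ≤ Real.sinh (-(d / 2)) := Real.self_le_sinh_iff.2 (by linarith)
      rw [Real.sinh_neg] at h6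
      nlinarith
  linarith

theorem mom (s d : ℝ) (hs : 0 < s) :
    d * Real.exp (-s * (Real.cosh d - 1)) ≤ √(2 / s) * Real.exp (-(s / 2) * (Real.cosh d - 1)) := by
  obtain ⟨c, hc⟩ : ∃ c, c = Real.cosh d - 1 := ⟨_, rfl⟩
  have hdc : d ^ 2 / 2 ≤ c := hc ▸ half_sq_le d
  rw [← hc]
  have h1 : d * Real.exp (-(s / 2) * c) ≤ √(2 / s) := by
    refine Real.le_sqrt_of_sq_le ?_
    rw [mul_pow, ← Real.exp_nat_mul]
    have h2 : ((2 : ℕ) : ℝ) * (-(s / 2) * c) = -(s * c) := by
      push_cast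
      ring
    rw [h2, Real.exp_neg]
    have h3 : s * c ≤ Real.exp (s * c) := by
      have := Real.add_one_le_exp (s * c)
      linarith
    have h4 : 0 < Real.exp (s * c) := Real.exp_pos _
    rw [← div_eq_mul_inv, div_le_div_iff₀ h4 hs]
    nlinarith
  have h5 : Real.exp (-s * c) = Real.exp (-(s / 2) * c) * Real.exp (-(s / 2) * c) := by
    rw [← Real.exp_add]
    congr 1
    ring
  rw [h5, ← mul_assoc]
  exact mul_le_mul_of_nonneg_right h1 (Real.exp_pos _).le

end VCS

open VCS in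
theorem pvCS : SvCS := by
  have hV : StVOL := prVOL
  refine ⟨fun s => (∫⁻ w : ℍ, ENNReal.ofReal (kr s I w)).toReal, Real.exp (-(1 / 2)) / 4,
    8 * Real.pi * √2, by positivity, by positivity, fun s hs => ?_⟩
  have hs0 : 0 < s := by linarith
  have hπ := Real.pi_pos
  have h2 : 1 ≤ √2 := by
    rw [← Real.sqrt_one]
    exact Real.sqrt_le_sqrt (by norm_num)
  have htop : ∀ s : ℝ, 0 < s → ∫⁻ w : ℍ, ENNReal.ofReal (kr s I w) ≠ ⊤ := fun s hs =>
    ((kr_le hV s hs I).trans_lt ENNReal.ofReal_lt_top).ne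
  have hup : ∀ s : ℝ, 0 < s → (∫⁻ w : ℍ, ENNReal.ofReal (kr s I w)).toReal ≤
      4 * Real.pi / s := fun s hs =>
    ENNReal.toReal_le_of_le_ofReal (by positivity) (kr_le hV s hs I)
  have hint : ∀ s : ℝ, 0 < s → ∀ u : ℍ, ∫ w : ℍ, kr s u w ≤ 4 * Real.pi / s := by
    intro s hs u
    rw [kr_integral, kr_inv hV]
    exact hup s hs
  refine ⟨?_, ?_, fun u => ⟨?_, ?_, ?_, ?_⟩⟩
  · refine (ENNReal.ofReal_le_iff_le_toReal (htop s hs0)).1 ?_
    rw [kr_mass hV s hs0]
    exact le_mass s hs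
  · refine (hup s hs0).trans ?_
    refine div_le_div_of_nonneg_right ?_ hs0.le
    nlinarith
  · exact kr_int hV s hs0 u
  · have h := kr_integral s u
    rw [kr_inv hV] at h
    exact h
  · have hb := (kr_int hV (s / 2) (by positivity) u).const_mul (√(2 / s))
    refine hb.mono' ?_ (Filter.Eventually.of_forall fun w => ?_)
    · exact ((continuous_const.dist continuous_id).mul (kr_cont s u)).aestronglyMeasurable
    · rw [Real.norm_of_nonneg (mul_nonneg dist_nonneg (Real.exp_pos _).le)]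
      exact mom s (dist u w) hs0
  · have hb := (kr_int hV (s / 2) (by positivity) u).const_mul (√(2 / s))
    have h3 : ∫ w : ℍ, dist u w * Real.exp (-s * (Real.cosh (dist u w) - 1)) ≤
        ∫ w : ℍ, √(2 / s) * kr (s / 2) u w := by
      refine integral_mono_of_nonneg
        (Filter.Eventually.of_forall fun w => mul_nonneg dist_nonneg (Real.exp_pos _).le) hb
        (Filter.Eventually.of_forall fun w => mom s (dist u w) hs0)
    refine h3.trans ?_
    rw [integral_const_mul]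
    have h4 := hint (s / 2) (by positivity) u
    have h5 : s ^ (-3 / 2 : ℝ) = (s * √s)⁻¹ := by
      have h6 : (-3 / 2 : ℝ) = -(1 + 1 / 2) := by norm_num
      rw [h6, Real.rpow_neg hs0.le, Real.rpow_add hs0, Real.rpow_one, ← Real.sqrt_eq_rpow]
    rw [h5]
    refine (mul_le_mul_of_nonneg_left h4 (Real.sqrt_nonneg _)).trans (le_of_eq ?_)
    rw [Real.sqrt_div (by norm_num)]
    have h7 : 0 < √s := Real.sqrt_pos.2 hs0
    field_simp
    ring

end HQ
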