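import Pool.Agent.Work.MP_d2a4bb_nt.QV.Stmts

/-!
# MP_d2a4bb_nt, block QV, item D1: the words of different primes are different
-/

open UpperHalfPlane MeasureTheory Matrix
open scoped MatrixGroups Manifold Topology ComplexConjugate

namespace HQ

namespace VD1

theorem cop (Q : QuatOrder) {p p' : ℕ} (hp : p.Prime) (hp' : p'.Prime) (hne : p ≠ p')
    (x : Matrix (Fin 2) (Fin 2) ℝ) (h1 : (p : ℝ) • x ∈ Q.O) (h2 : (p' : ℝ) • x ∈ Q.O) :
    x ∈ Q.O := by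
  have hc : IsCoprime (p : ℤ) (p' : ℤ) :=
    Nat.isCoprime_iff_coprime.mpr ((Nat.coprime_primes hp hp').mpr hne)
  obtain ⟨u, v, huv⟩ := hc
  have h3 : u • ((p : ℝ) • x) + v • ((p' : ℝ) • x) ∈ Q.O :=
    Q.O.add_mem (zsmul_mem h1 u) (zsmul_mem h2 v)
  have e : u • ((p : ℝ) • x) + v • ((p' : ℝ) • x) = x := by
    rw [← Int.cast_smul_eq_zsmul ℝ, ← Int.cast_smul_eq_zsmul ℝ, smul_smul, smul_smul, ← add_smul]
    have h4 : (u : ℝ) * p + v * p' = 1 := by exact_mod_cast huv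
    rw [h4, one_smul]
  rwa [e] at h3

theorem mul_O (Q : QuatOrder) (p : ℕ) (β α : SL(2, ℝ)) (hβ : β ∈ Q.E p) (hα : α ∈ Q.E p) :
    (p : ℝ) • ((β * α : SL(2, ℝ)) : Matrix (Fin 2) (Fin 2) ℝ) ∈ Q.O := by
  have h := Q.O.mul_mem hβ hα
  have e : Real.sqrt p • (β : Matrix (Fin 2) (Fin 2) ℝ) * Real.sqrt p • (α : Matrix (Fin 2) (Fin 2) ℝ) =
      (p : ℝ) • ((β * α : SL(2, ℝ)) : Matrix (Fin 2) (Fin 2) ℝ) := by
    rw [smul_mul_smul_comm, Real.mul_self_sqrt (Nat.cast_nonneg p)]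
    rfl
  rw [← e]
  exact h

theorem word (Q : QuatOrder) (p : ℕ) (R : Finset SL(2, ℝ)) (hR : HeckR Q p R) (a : List SL(2, ℝ))
    (ha : a ∈ words Q.Γ R 2) :
    (p : ℝ) • ((a.prod : SL(2, ℝ)) : Matrix (Fin 2) (Fin 2) ℝ) ∈ Q.O ∧ a.prod ∉ Q.Γ := by
  obtain ⟨hl, hw, hc⟩ := (hR.mem a).1 ha
  match a, hl with
  | [β, α], _ =>
    have e : [β, α].prod = β * α := by simp
    rw [e]
    refine ⟨mul_O Q p β α (hR.reps.1 β (hw β (by simp))) (hR.reps.1 α (hw α (by simp))), ?_⟩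
    simpa using hc

theorem key (Q : QuatOrder) {p p' : ℕ} (R R' : Finset SL(2, ℝ)) (hR : HeckR Q p R)
    (hR' : HeckR Q p' R') (hne : p ≠ p') (a b : List SL(2, ℝ)) (ha : a ∈ words Q.Γ R 2)
    (hb : b ∈ words Q.Γ R' 2) (hab : a.prod * b.prod⁻¹ ∈ Q.Γ) : False := by
  obtain ⟨h1, h2⟩ := word Q p R hR a ha
  obtain ⟨h3, -⟩ := word Q p' R' hR' b hb
  have h4 : ((a.prod * b.prod⁻¹ : SL(2, ℝ)) : Matrix (Fin 2) (Fin 2) ℝ) ∈ Q.O := hab.1
  have h5 := Q.O.mul_mem h4 h3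
  have e : ((a.prod * b.prod⁻¹ : SL(2, ℝ)) : Matrix (Fin 2) (Fin 2) ℝ) *
      (p' : ℝ) • ((b.prod : SL(2, ℝ)) : Matrix (Fin 2) (Fin 2) ℝ) =
      (p' : ℝ) • ((a.prod : SL(2, ℝ)) : Matrix (Fin 2) (Fin 2) ℝ) := by
    rw [mul_smul_comm]
    congr 1
    have e1 : (a.prod * b.prod⁻¹) * b.prod = a.prod := by group
    exact congrArg (fun x : SL(2, ℝ) => (x : Matrix (Fin 2) (Fin 2) ℝ)) e1
  rw [e] at h5
  exact h2 ((prGAM Q).1 _ (cop Q hR.prime hR'.prime hne _ h1 h5))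

end VD1

theorem pvD1 : SvD1 := by
  intro Q T R hT
  refine ⟨fun a ha b hb hab => ?_, fun p hp p' hp' hne => ?_⟩
  · obtain ⟨p, hp, hap⟩ : ∃ p ∈ T, a ∈ words Q.Γ (R p) 2 := by
      classical
      simpa [VV] using ha
    obtain ⟨p', hp', hbp⟩ : ∃ p ∈ T, b ∈ words Q.Γ (R p) 2 := by
      classical
      simpa [VV] using hb
    by_cases hne : p = p'
    · subst hne
      exact (hT p hp).inj a hap b hbp hab
    · exact (VD1.key Q (R p) (R p') (hT p hp) (hT p' hp') hne a b hap hbp hab).elim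
  · rw [Finset.disjoint_left]
    intro a ha ha'
    refine VD1.key Q (R p) (R p') (hT p hp) (hT p' hp') hne a a ha ha' ?_
    rw [mul_inv_cancel]
    exact Q.Γ.one_mem

end HQ
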