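import Pool.Agent.Work.MP_d2a4bb_nt.QV.Stmts

/-!
# MP_d2a4bb_nt, block QV, item D2: a polynomial bound for the multiplicities
-/

open UpperHalfPlane MeasureTheory Matrix
open scoped MatrixGroups Manifold Topology ComplexConjugate

namespace HQ

namespace VD2

/-- a linear functional is bounded by the entries -/
theorem bound (l : Matrix (Fin 2) (Fin 2) ℝ →ₗ[ℝ] ℝ) (C : ℝ) (x : Matrix (Fin 2) (Fin 2) ℝ)
    (hx : ∀ i j, |x i j| ≤ C) :
    |l x| ≤ C * ∑ i, ∑ j, |l (Matrix.single i j (1 : ℝ))| := by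
  have e : l x = ∑ i, ∑ j, x i j * l (Matrix.single i j (1 : ℝ)) := by
    conv_lhs => rw [Matrix.matrix_eq_sum_single x]
    rw [map_sum]
    refine Finset.sum_congr rfl fun i _ => ?_
    rw [map_sum]
    refine Finset.sum_congr rfl fun j _ => ?_
    have e2 : Matrix.single i j (x i j) = x i j • Matrix.single i j (1 : ℝ) := by
      rw [Matrix.smul_single, smul_eq_mul, mul_one]
    rw [e2, map_smul, smul_eq_mul]
  rw [e, Finset.mul_sum]
  refine le_trans (Finset.abs_sum_le_sum_abs _ _) (Finset.sum_le_sum fun i _ => ?_)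
  rw [Finset.mul_sum]
  refine le_trans (Finset.abs_sum_le_sum_abs _ _) (Finset.sum_le_sum fun j _ => ?_)
  rw [abs_mul]
  exact mul_le_mul_of_nonneg_right (hx i j) (abs_nonneg _)

/-- the elements which map a point of a compact set into it have bounded entries -/
theorem entries (K : Set ℍ) (hK : IsCompact K) : ∃ C : ℝ, 0 ≤ C ∧ ∀ x : SL(2, ℝ),
    (∃ z ∈ K, x • z ∈ K) → ∀ i j, |(x : Matrix (Fin 2) (Fin 2) ℝ) i j| ≤ C := by
  have hcomp : IsCompact {x : SL(2, ℝ) | ∃ z ∈ K, x • z ∈ K} := by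
    have h1 : IsProperMap (fun q : SL(2, ℝ) × ℍ => (q.1 • q.2, q.2)) :=
      ProperSMul.isProperMap_smul_pair
    have h2 : IsCompact ((fun q : SL(2, ℝ) × ℍ => (q.1 • q.2, q.2)) ⁻¹' (K ×ˢ K)) :=
      h1.isCompact_preimage (hK.prod hK)
    have h3 : {x : SL(2, ℝ) | ∃ z ∈ K, x • z ∈ K} =
        Prod.fst '' ((fun q : SL(2, ℝ) × ℍ => (q.1 • q.2, q.2)) ⁻¹' (K ×ˢ K)) := by
      ext x
      constructor
      · rintro ⟨z, hz, hxz⟩
        exact ⟨(x, z), ⟨hxz, hz⟩, rfl⟩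
      · rintro ⟨⟨y, z⟩, ⟨h4, h5⟩, rfl⟩
        exact ⟨z, h5, h4⟩
    rw [h3]
    exact h2.image continuous_fst
  have h1 : ∀ i j : Fin 2, ∃ C : ℝ, ∀ x : SL(2, ℝ), (∃ z ∈ K, x • z ∈ K) →
      |(x : Matrix (Fin 2) (Fin 2) ℝ) i j| ≤ C := by
    intro i j
    have hc : Continuous fun x : SL(2, ℝ) => |(x : Matrix (Fin 2) (Fin 2) ℝ) i j| := by
      refine continuous_abs.comp ?_
      exact (Continuous.matrix_elem continuous_subtype_val i j)
    obtain ⟨C, hC⟩ := hcomp.bddAbove_image hc.continuousOn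
    exact ⟨C, fun x hx => hC ⟨x, hx, rfl⟩⟩
  choose C hC using h1
  refine ⟨∑ i, ∑ j, |C i j|, Finset.sum_nonneg fun _ _ => Finset.sum_nonneg fun _ _ => abs_nonneg _,
    fun x hx i j => ?_⟩
  calc |(x : Matrix (Fin 2) (Fin 2) ℝ) i j| ≤ C i j := hC i j x hx
    _ ≤ |C i j| := le_abs_self _
    _ ≤ ∑ j, |C i j| := Finset.single_le_sum (f := fun j => |C i j|)
        (fun _ _ => abs_nonneg _) (Finset.mem_univ j)
    _ ≤ ∑ i, ∑ j, |C i j| := Finset.single_le_sum (f := fun i => ∑ j, |C i j|)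
        (fun _ _ => Finset.sum_nonneg fun _ _ => abs_nonneg _) (Finset.mem_univ i)

/-- `p a.prod ∈ O` for a word of length two -/
theorem word_mem {Q : QuatOrder} {p : ℕ} {R : Finset SL(2, ℝ)} (h : HeckR Q p R)
    {a : List SL(2, ℝ)} (ha : a ∈ words Q.Γ R 2) :
    (p : ℝ) • ((a.prod : SL(2, ℝ)) : Matrix (Fin 2) (Fin 2) ℝ) ∈ Q.O := by
  obtain ⟨hl, hw⟩ := (h.mem a).1 ha
  obtain ⟨β, α, rfl⟩ := List.length_eq_two.1 hl
  have h1 : β ∈ Q.E p := h.reps.1 β (hw.1 β (by simp))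
  have h2 : α ∈ Q.E p := h.reps.1 α (hw.1 α (by simp))
  have h3 : (p : ℝ) • ((([β, α] : List SL(2, ℝ)).prod : SL(2, ℝ)) : Matrix (Fin 2) (Fin 2) ℝ) =
      (Real.sqrt p • (β : Matrix (Fin 2) (Fin 2) ℝ)) *
        (Real.sqrt p • (α : Matrix (Fin 2) (Fin 2) ℝ)) := by
    rw [smul_mul_smul_comm, Real.mul_self_sqrt (Nat.cast_nonneg p), List.prod_cons,
      List.prod_singleton, Matrix.SpecialLinearGroup.coe_mul]
  rw [h3]
  exact Q.O.mul_mem h1 h2

end VD2

open VD2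

theorem pvD2' : SvD2 := by
  intro Q K hK
  obtain ⟨C0, hC0, hent⟩ := entries (Metric.cthickening 1 K) hK.cthickening
  set D0 : ℝ := ∑ k, ∑ i, ∑ j, |Q.basis.coord k (Matrix.single i j (1 : ℝ))| with hD0
  have hD0' : 0 ≤ D0 := Finset.sum_nonneg fun _ _ => Finset.sum_nonneg fun _ _ =>
    Finset.sum_nonneg fun _ _ => abs_nonneg _
  set D : ℝ := 3 * C0 * D0 with hD
  have hD' : 0 ≤ D := by positivity
  refine ⟨4 * (2 * D + 1) ^ 4, by positivity, ?_⟩
  intro P T R hP hT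
  have hP' : (1 : ℝ) ≤ P := by exact_mod_cast hP
  set N : ℕ := ⌊D * P⌋₊ with hN
  have hNle : (N : ℝ) ≤ D * P := Nat.floor_le (by positivity)
  set S : Finset (ℕ × (Fin 4 → ℤ)) :=
    (Finset.range (3 * P + 1)) ×ˢ (Fintype.piFinset fun _ : Fin 4 => Finset.Icc (-(N : ℤ)) N) with hS
  have hScard : S.card = (3 * P + 1) * (2 * N + 1) ^ 4 := by
    have h1 : (Finset.Icc (-(N : ℤ)) N).card = 2 * N + 1 := by
      rw [Int.card_Icc]
      omega
    rw [hS, Finset.card_product, Finset.card_range, Fintype.card_piFinset, Finset.prod_const, h1,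
      Finset.card_univ, Fintype.card_fin]
  refine ⟨S.card, ?_, ?_⟩
  · rw [hScard]
    push_cast
    have h1 : (3 * (P : ℝ) + 1) ≤ 4 * P := by linarith
    have h2 : (2 * (N : ℝ) + 1) ≤ (2 * D + 1) * P := by nlinarith
    calc (3 * (P : ℝ) + 1) * (2 * (N : ℝ) + 1) ^ 4 ≤ (4 * P) * ((2 * D + 1) * P) ^ 4 := by gcongr
      _ = 4 * (2 * D + 1) ^ 4 * (P : ℝ) ^ 5 := by ring
  · intro z hz u hu r hr
    rw [← Set.encard_coe_eq_coe_finsetCard]
    have key : ∀ x : SL(2, ℝ) × List SL(2, ℝ), x ∈ {x : SL(2, ℝ) × List SL(2, ℝ) | x.1 ∈ Q.Γ ∧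
        x.2 ∈ VV Q T R ∧ dist (x.1 • u) (x.2.prod • z) < r} → ∃ q : ℕ × (Fin 4 → ℤ), q ∈ S ∧
        q.1 ∈ T ∧ x.2 ∈ words Q.Γ (R q.1) 2 ∧
        (q.1 : ℝ) • ((x.1⁻¹ * x.2.prod : SL(2, ℝ)) : Matrix (Fin 2) (Fin 2) ℝ) =
          ∑ i, (q.2 i : ℝ) • Q.basis i := by
      rintro ⟨γ, a⟩ ⟨hγ, ha, hdist⟩
      simp only at hγ ha hdist
      unfold VV at ha
      rw [Finset.mem_biUnion] at ha
      obtain ⟨p, hp, hap⟩ := ha
      obtain ⟨hp3, hH⟩ := hT p hp
      set g : SL(2, ℝ) := γ⁻¹ * a.prod with hg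
      have hmem : (p : ℝ) • ((g : SL(2, ℝ)) : Matrix (Fin 2) (Fin 2) ℝ) ∈ Q.O := by
        have h1 : (p : ℝ) • ((g : SL(2, ℝ)) : Matrix (Fin 2) (Fin 2) ℝ) =
            ((γ⁻¹ : SL(2, ℝ)) : Matrix (Fin 2) (Fin 2) ℝ) *
              ((p : ℝ) • ((a.prod : SL(2, ℝ)) : Matrix (Fin 2) (Fin 2) ℝ)) := by
          rw [hg, Matrix.SpecialLinearGroup.coe_mul, mul_smul_comm]
        rw [h1]
        exact Q.O.mul_mem hγ.2 (word_mem hH hap)
      obtain ⟨c, hc⟩ := (Q.mem_iff _).1 hmem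
      have hgz : g • z ∈ Metric.cthickening 1 K := by
        refine Metric.mem_cthickening_of_dist_le (g • z) u 1 K hu ?_
        have h1 : dist (g • z) u = dist (a.prod • z) (γ • u) := by
          rw [hg, mul_smul, ← dist_smul γ, smul_inv_smul]
        rw [h1, dist_comm]
        exact (hdist.trans_le hr).le
      have hz' : z ∈ Metric.cthickening 1 K := Metric.self_subset_cthickening K hz
      have hb : ∀ i j, |((p : ℝ) • ((g : SL(2, ℝ)) : Matrix (Fin 2) (Fin 2) ℝ)) i j| ≤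
          3 * P * C0 := by
        intro i j
        rw [Matrix.smul_apply, smul_eq_mul, abs_mul, abs_of_nonneg (Nat.cast_nonneg p : (0:ℝ) ≤ p)]
        have h1 : (p : ℝ) ≤ 3 * P := by exact_mod_cast hp3
        exact mul_le_mul h1 (hent g ⟨z, hz', hgz⟩ i j) (abs_nonneg _) (by positivity)
      have hcb : ∀ k, |(c k : ℝ)| ≤ D * P := by
        intro k
        have h1 := bound (Q.basis.coord k) _ _ hb
        have h2 : Q.basis.coord k ((p : ℝ) • ((g : SL(2, ℝ)) : Matrix (Fin 2) (Fin 2) ℝ)) = c k := by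
          rw [hc, map_sum, Finset.sum_eq_single k]
          · rw [map_smul, Module.Basis.coord_apply, Module.Basis.repr_self, Finsupp.single_eq_same,
              smul_eq_mul, mul_one]
          · intro b _ hbk
            rw [map_smul, Module.Basis.coord_apply, Module.Basis.repr_self,
              Finsupp.single_eq_of_ne (Ne.symm hbk), smul_zero]
          · intro h
            exact absurd (Finset.mem_univ k) h
        rw [h2] at h1
        refine h1.trans ?_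
        have h3 : ∑ i, ∑ j, |Q.basis.coord k (Matrix.single i j (1 : ℝ))| ≤ D0 := by
          rw [hD0]
          exact Finset.single_le_sum
            (f := fun k => ∑ i, ∑ j, |Q.basis.coord k (Matrix.single i j (1 : ℝ))|)
            (fun _ _ => Finset.sum_nonneg fun _ _ => Finset.sum_nonneg fun _ _ => abs_nonneg _)
            (Finset.mem_univ k)
        calc 3 * P * C0 * ∑ i, ∑ j, |Q.basis.coord k (Matrix.single i j (1 : ℝ))|
            ≤ 3 * P * C0 * D0 := by gcongr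
          _ = D * P := by rw [hD]; ring
      refine ⟨(p, c), ?_, hp, hap, hc⟩
      rw [hS, Finset.mem_product, Finset.mem_range, Fintype.mem_piFinset]
      refine ⟨by simp only; omega, fun k => ?_⟩
      have h4 : |c k| ≤ (N : ℤ) := by
        have h5 : ((c k).natAbs : ℝ) ≤ D * P := by
          rw [Nat.cast_natAbs, Int.cast_abs]
          exact hcb k
        have h6 : (c k).natAbs ≤ N := Nat.le_floor h5
        rw [Int.abs_eq_natAbs]
        exact_mod_cast h6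
      rw [Finset.mem_Icc]
      exact abs_le.1 h4
    choose! f hf using key
    refine Set.encard_le_encard_of_injOn (f := f) (fun x hx => (hf x hx).1) ?_
    intro x hx y hy hxy
    obtain ⟨-, hpT, hxw, hxe⟩ := hf x hx
    obtain ⟨-, -, hyw, hye⟩ := hf y hy
    rw [← hxy] at hyw hye
    obtain ⟨-, hH⟩ := hT _ hpT
    have hp0 : ((f x).1 : ℝ) ≠ 0 := by
      have := hH.prime.pos
      positivity
    have e1 : ((x.1⁻¹ * x.2.prod : SL(2, ℝ)) : Matrix (Fin 2) (Fin 2) ℝ) =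
        ((y.1⁻¹ * y.2.prod : SL(2, ℝ)) : Matrix (Fin 2) (Fin 2) ℝ) := by
      have := hxe.trans hye.symm
      exact smul_right_injective _ hp0 this
    have e2 : x.1⁻¹ * x.2.prod = y.1⁻¹ * y.2.prod := Subtype.ext e1
    have e3 : x.2.prod * y.2.prod⁻¹ = x.1 * y.1⁻¹ := by
      have h1 : x.2.prod = x.1 * (y.1⁻¹ * y.2.prod) := by rw [← e2, mul_inv_cancel_left]
      rw [h1]
      group
    have e4 : x.2 = y.2 := hH.inj _ hxw _ hyw (by
      rw [e3]
      exact Q.Γ.mul_mem hx.1 (Q.Γ.inv_mem hy.1))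
    have e5 : x.1 = y.1 := by
      rw [e4] at e2
      exact inv_injective (mul_right_cancel e2)
    exact Prod.ext e5 e4

theorem pvD2 (_hD1 : SvD1) : SvD2 := pvD2'

end HQ
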