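import Pool.Agent.Work.MP_d2a4bb_nt.QV.Stmts

set_option autoImplicit false

/-! # Block [d2a4bb QV], item D3: sublevel sets of quadratic polynomials -/

open UpperHalfPlane MeasureTheory Matrix
open scoped MatrixGroups Manifold Topology ComplexConjugate

namespace HQ

namespace VD3

/-- bounds on a compact set -/
theorem bounds {K : Set ℍ} (hK : IsCompact K) :
    ∃ y₀ M : ℝ, 0 < y₀ ∧ 1 ≤ M ∧ ∀ z ∈ K, y₀ ≤ z.im ∧ ‖(z : ℂ)‖ ≤ M := by
  obtain ⟨M, hM⟩ := hK.exists_bound_of_continuousOn (f := fun z : ℍ => (z : ℂ))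
    UpperHalfPlane.continuous_coe.continuousOn
  obtain ⟨Y, hY⟩ := hK.exists_bound_of_continuousOn (f := fun z : ℍ => (z.im)⁻¹)
    (UpperHalfPlane.continuous_im.inv₀ fun z => z.im_ne_zero).continuousOn
  refine ⟨(max Y 1)⁻¹, max M 1, by positivity, le_max_right _ _,
    fun z hz => ⟨?_, (hM z hz).trans (le_max_left _ _)⟩⟩
  have h1 := hY z hz
  rw [Real.norm_eq_abs, abs_of_pos (inv_pos.2 z.im_pos)] at h1
  rw [inv_le_comm₀ (by positivity) z.im_pos]
  exact h1.trans (le_max_left _ _)

/-- volume of a set in a strip -/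
theorem strip {S : Set ℍ} {y₀ M u r : ℝ} (hy : 0 < y₀)
    (h : ∀ z ∈ S, y₀ ≤ z.im ∧ z.im ≤ M ∧ |z.re - u| ≤ r) :
    volume S ≤ ENNReal.ofReal (y₀⁻¹ ^ 2) * (ENNReal.ofReal (2 * r) * ENNReal.ofReal M) := by
  set S' : Set ℍ := {z | y₀ ≤ z.im ∧ z.im ≤ M ∧ |z.re - u| ≤ r} with hS'
  have hm : MeasurableSet S' := by
    have e1 : IsClosed {z : ℍ | y₀ ≤ z.im} := isClosed_le continuous_const continuous_im
    have e2 : IsClosed {z : ℍ | z.im ≤ M} := isClosed_le continuous_im continuous_const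
    have e3 : IsClosed {z : ℍ | |z.re - u| ≤ r} :=
      isClosed_le ((continuous_re.sub continuous_const).abs) continuous_const
    exact ((e1.inter (e2.inter e3))).measurableSet
  refine (measure_mono (show S ⊆ S' from h)).trans ?_
  rw [volume_eq_lintegral]
  have hm' : MeasurableSet (UpperHalfPlane.coe '' S') :=
    measurableEmbedding_coe.measurableSet_image.2 hm
  have h1 : UpperHalfPlane.coe '' S' ⊆
      Complex.measurableEquivRealProd ⁻¹' (Set.Icc (u - r) (u + r) ×ˢ Set.Icc 0 M) := by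
    rintro _ ⟨z, hz, rfl⟩
    obtain ⟨a1, a2, a3⟩ := hz
    have a4 := abs_le.1 a3
    refine ⟨⟨?_, ?_⟩, ⟨?_, ?_⟩⟩
    · show u - r ≤ (z : ℂ).re
      have := a4.1
      simp only [UpperHalfPlane.coe_re] at *
      linarith
    · show (z : ℂ).re ≤ u + r
      have := a4.2
      simp only [UpperHalfPlane.coe_re] at *
      linarith
    · show 0 ≤ (z : ℂ).im
      exact z.im_pos.le
    · show (z : ℂ).im ≤ M
      exact a2
  have h2 : volume (UpperHalfPlane.coe '' S') ≤ ENNReal.ofReal (2 * r) * ENNReal.ofReal M := by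
    refine (measure_mono h1).trans ?_
    rw [Complex.volume_preserving_equiv_real_prod.measure_preimage_equiv, Measure.volume_eq_prod,
      Measure.prod_prod, Real.volume_Icc, Real.volume_Icc]
    refine le_of_eq ?_
    congr 2 <;> ring
  refine le_trans (setLIntegral_mono' (g := fun _ => ENNReal.ofReal (y₀⁻¹ ^ 2)) hm' ?_) ?_
  · rintro _ ⟨z, hz, rfl⟩
    rw [ENNReal.ofReal, ENNReal.coe_le_coe, ← NNReal.coe_le_coe,
      Real.coe_toNNReal _ (by positivity)]
    push_cast
    have a1 : y₀ ≤ z.im := hz.1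
    have a2 : |(z : ℂ).im| = z.im := by
      rw [UpperHalfPlane.coe_im]; exact abs_of_pos z.im_pos
    rw [Real.norm_eq_abs, a2, one_div]
    exact pow_le_pow_left₀ (inv_nonneg.2 z.im_pos.le) (inv_anti₀ hy a1) 2
  · rw [setLIntegral_const]
    gcongr

end VD3

theorem pvD3 : SvD3 := by
  intro K c₀ hK hc
  obtain ⟨y₀, M, hy, hM, hb⟩ := VD3.bounds hK
  have hM0 : 0 < M := by linarith
  set V : ℝ := (volume K).toReal with hV
  have hVt : volume K ≠ ⊤ := hK.measure_lt_top.ne
  have hV0 : 0 ≤ V := ENNReal.toReal_nonneg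
  set ε : ℝ := c₀ / (12 * M ^ 2) with hε
  have hε0 : 0 < ε := by positivity
  have hε1 : ε * M ^ 2 = c₀ / 12 := by rw [hε]; field_simp
  -- the trivial bound
  have triv : ∀ (S : Set ℍ) (t ρ : ℝ), S ⊆ K → 0 < t → t ≤ ρ →
      volume S ≤ ENNReal.ofReal (V / t * ρ) := by
    intro S t ρ hS ht htρ
    refine (measure_mono hS).trans ?_
    rw [← ENNReal.ofReal_toReal hVt]
    refine ENNReal.ofReal_le_ofReal ?_
    have : V ≤ V / t * ρ := by
      rw [div_mul_eq_mul_div, le_div_iff₀ ht]
      exact mul_le_mul_of_nonneg_left htρ hV0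
    exact this
  set C1 : ℝ := y₀⁻¹ ^ 2 * M / (y₀ * ε) with hC1
  set C2 : ℝ := V / (y₀ * (5 * M * ε) / 2) with hC2
  set C3 : ℝ := V / (c₀ / 2) with hC3
  have p1 : 0 ≤ C1 := by positivity
  have p2 : 0 ≤ C2 := by positivity
  have p3 : 0 ≤ C3 := by positivity
  refine ⟨C1 + C2 + C3 + 1, by positivity, ?_⟩
  intro e a b ρ hor hρ
  set S : Set ℍ := {z : ℍ | z ∈ K ∧ ‖(e : ℂ) * (z : ℂ) ^ 2 + (a : ℂ) * (z : ℂ) - (b : ℂ)‖ ≤ ρ}
    with hS
  have hSK : S ⊆ K := fun z hz => hz.1
  have key : ∀ z ∈ S, |2 * e * z.re + a| ≤ ρ / y₀ := by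
    intro z hz
    have h1 := (Complex.abs_im_le_norm _).trans hz.2
    have h2 : ((e : ℂ) * (z : ℂ) ^ 2 + (a : ℂ) * (z : ℂ) - (b : ℂ)).im =
        z.im * (2 * e * z.re + a) := by
      simp only [Complex.sub_im, Complex.add_im, Complex.mul_im, Complex.ofReal_re,
        Complex.ofReal_im, pow_two, Complex.mul_re, UpperHalfPlane.coe_re, UpperHalfPlane.coe_im]
      ring
    rw [h2, abs_mul, abs_of_pos z.im_pos] at h1
    rw [le_div_iff₀ hy]
    have h3 := (hb z hz.1).1
    nlinarith [abs_nonneg (2 * e * z.re + a)]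
  have hre : ∀ z ∈ K, |z.re| ≤ M := fun z hz => (Complex.abs_re_le_norm (z : ℂ)).trans (hb z hz).2
  have him : ∀ z ∈ K, z.im ≤ M := fun z hz =>
    (le_abs_self _).trans ((Complex.abs_im_le_norm (z : ℂ)).trans (hb z hz).2)
  rcases le_or_gt ε |e| with he | he
  · -- the leading coefficient is large
    have he0 : e ≠ 0 := by
      intro h
      rw [h, abs_zero] at he
      linarith
    have hap : 0 < |e| := abs_pos.2 he0
    have h1 : ∀ z ∈ S, y₀ ≤ z.im ∧ z.im ≤ M ∧ |z.re - (-a / (2 * e))| ≤ ρ / (2 * (y₀ * ε)) := by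
      intro z hz
      refine ⟨(hb z hz.1).1, him z hz.1, ?_⟩
      have h2 := key z hz
      have h3 : z.re - (-a / (2 * e)) = (2 * e * z.re + a) / (2 * e) := by
        field_simp
        ring
      rw [h3, abs_div, abs_mul, abs_two, div_le_div_iff₀ (by positivity) (by positivity)]
      rw [le_div_iff₀ hy] at h2
      calc |2 * e * z.re + a| * (2 * (y₀ * ε)) = (|2 * e * z.re + a| * y₀) * (2 * ε) := by ring
        _ ≤ ρ * (2 * |e|) := by
          apply mul_le_mul h2 (by linarith) (by positivity) hρ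
    refine (VD3.strip hy h1).trans ?_
    rw [← ENNReal.ofReal_mul (by positivity), ← ENNReal.ofReal_mul (by positivity)]
    refine ENNReal.ofReal_le_ofReal ?_
    have h4 : y₀⁻¹ ^ 2 * (2 * (ρ / (2 * (y₀ * ε))) * M) = C1 * ρ := by
      rw [hC1]
      field_simp
    rw [h4]
    exact mul_le_mul_of_nonneg_right (by linarith) hρ
  · rcases S.eq_empty_or_nonempty with hE | ⟨z, hz⟩
    · rw [hE, measure_empty]
      simp
    · rcases le_or_gt (5 * M * ε) |a| with ha | ha
      · have h1 := key z hz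
        have h2 : 5 * M * ε / 2 ≤ |2 * e * z.re + a| := by
          have h3 : |2 * e * z.re| ≤ 2 * M * ε := by
            rw [abs_mul, abs_mul, abs_two]
            nlinarith [hre z hz.1, abs_nonneg e, abs_nonneg z.re]
          have h4 : |a| - |2 * e * z.re| ≤ |2 * e * z.re + a| := by
            have := abs_sub_abs_le_abs_sub a (-(2 * e * z.re))
            rw [abs_neg, sub_neg_eq_add, add_comm a] at this
            exact this
          nlinarith [mul_pos hM0 hε0]
        have h5 : y₀ * (5 * M * ε) / 2 ≤ ρ := by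
          rw [le_div_iff₀ hy] at h1
          nlinarith
        refine (triv S _ ρ hSK (by positivity) h5).trans ?_
        refine ENNReal.ofReal_le_ofReal ?_
        exact mul_le_mul_of_nonneg_right (by linarith) hρ
      · have hb0 : c₀ ≤ |b| := by
          rcases hor with h | h | h
          · exfalso
            have h7 : ε * 1 ≤ ε * M ^ 2 := mul_le_mul_of_nonneg_left (one_le_pow₀ hM) hε0.le
            have : ε ≤ c₀ := by linarith
            linarith
          · exfalso
            have : 5 * M * ε ≤ c₀ := by nlinarith [mul_pos hM0 hε0]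
            linarith
          · exact h
        have h1 : c₀ / 2 ≤ ρ := by
          refine le_trans ?_ hz.2
          have hzM := (hb z hz.1).2
          have h2 : ‖(e : ℂ) * (z : ℂ) ^ 2 + (a : ℂ) * (z : ℂ)‖ ≤ ε * M ^ 2 + 5 * M * ε * M := by
            refine (norm_add_le _ _).trans ?_
            rw [norm_mul, norm_mul, norm_pow, Complex.norm_real, Complex.norm_real,
              Real.norm_eq_abs, Real.norm_eq_abs]
            have := norm_nonneg (z : ℂ)
            gcongr
          have h3 : ‖(b : ℂ)‖ = |b| := by rw [Complex.norm_real, Real.norm_eq_abs]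
          have h4 : ‖(b : ℂ)‖ ≤ ‖(e : ℂ) * (z : ℂ) ^ 2 + (a : ℂ) * (z : ℂ)‖ +
              ‖(e : ℂ) * (z : ℂ) ^ 2 + (a : ℂ) * (z : ℂ) - (b : ℂ)‖ := by
            have := norm_sub_le ((e : ℂ) * (z : ℂ) ^ 2 + (a : ℂ) * (z : ℂ))
              ((e : ℂ) * (z : ℂ) ^ 2 + (a : ℂ) * (z : ℂ) - (b : ℂ))
            rwa [sub_sub_cancel] at this
          rw [h3] at h4
          nlinarith
        refine (triv S _ ρ hSK (by positivity) h1).trans ?_
        refine ENNReal.ofReal_le_ofReal ?_
        exact mul_le_mul_of_nonneg_right (by linarith) hρ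

end HQ
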