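import Pool.Agent.Work.MP_d2a4bb_nt.QV.Stmts

/-!
# Item D4 of the block [d2a4bb QV]: the bad set
-/

open UpperHalfPlane MeasureTheory Matrix
open scoped MatrixGroups Manifold Topology ComplexConjugate

namespace HQ

namespace VD4

/-- bounds for the entries of a matrix which moves a point of `K` by at most `2` -/
theorem entries (K : Set ℍ) (hK : IsCompact K) : ∃ C : ℝ, 0 < C ∧ ∀ (g : SL(2, ℝ)), ∀ z ∈ K,
    dist (g • z) z ≤ 2 → ∀ i j, |(g : Matrix (Fin 2) (Fin 2) ℝ) i j| ≤ C := by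
  obtain ⟨h1, h2, h3⟩ := prRHO
  obtain ⟨c, hc⟩ := h3 UpperHalfPlane.I K hK
  have hK2 : IsCompact (Metric.cthickening 2 K) := hK.cthickening
  have hcont : ContinuousOn (fun z : ℍ => (rho UpperHalfPlane.I z)⁻¹) (Metric.cthickening 2 K) :=
    ((h2 UpperHalfPlane.I).inv₀ (fun z => (h1 UpperHalfPlane.I z).1.ne')).continuousOn
  obtain ⟨B, hB⟩ := hK2.exists_bound_of_continuousOn hcont
  refine ⟨|B| * |c| + 1, by positivity, fun g z hz hd i j => ?_⟩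
  have hm : g • z ∈ Metric.cthickening 2 K := Metric.mem_cthickening_of_dist_le _ z 2 K hz hd
  have hb : (rho UpperHalfPlane.I (g • z))⁻¹ ≤ |B| :=
    (le_abs_self _).trans ((hB _ hm).trans (le_abs_self B))
  have hr := (h1 UpperHalfPlane.I (g • z)).1
  have hS : ∑ i, ∑ j, (g : Matrix (Fin 2) (Fin 2) ℝ) i j ^ 2 ≤ |B| * |c| := by
    have h4 := hc g z hz
    have h5 : ∑ i, ∑ j, (g : Matrix (Fin 2) (Fin 2) ℝ) i j ^ 2 =
        (rho UpperHalfPlane.I (g • z))⁻¹ * (rho UpperHalfPlane.I (g • z) *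
          ∑ i, ∑ j, (g : Matrix (Fin 2) (Fin 2) ℝ) i j ^ 2) := by
      rw [← mul_assoc, inv_mul_cancel₀ hr.ne', one_mul]
    rw [h5]
    have h6 : rho UpperHalfPlane.I (g • z) *
        ∑ i, ∑ j, (g : Matrix (Fin 2) (Fin 2) ℝ) i j ^ 2 ≤ |c| := h4.trans (le_abs_self c)
    have h7 : 0 ≤ rho UpperHalfPlane.I (g • z) *
        ∑ i, ∑ j, (g : Matrix (Fin 2) (Fin 2) ℝ) i j ^ 2 :=
      mul_nonneg hr.le (Finset.sum_nonneg fun i _ => Finset.sum_nonneg fun j _ => sq_nonneg _)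
    exact mul_le_mul hb h6 h7 (abs_nonneg B)
  have hs : (g : Matrix (Fin 2) (Fin 2) ℝ) i j ^ 2 ≤
      ∑ i, ∑ j, (g : Matrix (Fin 2) (Fin 2) ℝ) i j ^ 2 :=
    (Finset.single_le_sum (f := fun j => (g : Matrix (Fin 2) (Fin 2) ℝ) i j ^ 2)
      (fun j _ => sq_nonneg _) (Finset.mem_univ j)).trans
      (Finset.single_le_sum (f := fun i => ∑ j, (g : Matrix (Fin 2) (Fin 2) ℝ) i j ^ 2)
      (fun i _ => Finset.sum_nonneg fun j _ => sq_nonneg _) (Finset.mem_univ i))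
  have h8 : |(g : Matrix (Fin 2) (Fin 2) ℝ) i j| ^ 2 ≤ |B| * |c| := by
    rw [sq_abs]
    exact hs.trans hS
  nlinarith [abs_nonneg ((g : Matrix (Fin 2) (Fin 2) ℝ) i j)]

/-- the coordinates are bounded by the entries -/
theorem coords (Q : QuatOrder) : ∃ κ : ℝ, 0 < κ ∧ ∀ (c : Fin 4 → ℤ) (B : ℝ),
    (∀ i j, |cs Q c i j| ≤ B) → ∀ k, |(c k : ℝ)| ≤ κ * B := by
  let e : Fin 2 → Fin 2 → Fin 4 → ℝ := fun i j k =>
    Q.basis.repr (Matrix.single i j (1 : ℝ)) k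
  have hnn : ∀ k, 0 ≤ ∑ i, ∑ j, |e i j k| := fun k =>
    Finset.sum_nonneg fun i _ => Finset.sum_nonneg fun j _ => abs_nonneg _
  have hnn2 : 0 ≤ ∑ k, ∑ i, ∑ j, |e i j k| := Finset.sum_nonneg fun k _ => hnn k
  refine ⟨1 + ∑ k, ∑ i, ∑ j, |e i j k|, by linarith, fun c B hB k => ?_⟩
  have hB0 : 0 ≤ B := (abs_nonneg _).trans (hB 0 0)
  have h1 : (c k : ℝ) = Q.basis.repr (cs Q c) k := by
    have h := congrFun (Q.basis.repr_sum_self (fun i => (c i : ℝ))) k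
    exact h.symm
  have h2 : cs Q c = ∑ i, ∑ j, cs Q c i j • Matrix.single i j (1 : ℝ) := by
    conv_lhs => rw [Matrix.matrix_eq_sum_single (cs Q c)]
    refine Finset.sum_congr rfl fun i _ => Finset.sum_congr rfl fun j _ => ?_
    rw [Matrix.smul_single, smul_eq_mul, mul_one]
  have h3 : Q.basis.repr (cs Q c) k = ∑ i, ∑ j, cs Q c i j * e i j k := by
    conv_lhs => rw [h2]
    simp only [map_sum, map_smul, Finsupp.coe_finset_sum, Finsupp.coe_smul, Finset.sum_apply,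
      Pi.smul_apply, smul_eq_mul, e]
  rw [h1, h3]
  have h4 : |∑ i, ∑ j, cs Q c i j * e i j k| ≤ ∑ i, ∑ j, B * |e i j k| := by
    refine (Finset.abs_sum_le_sum_abs _ _).trans (Finset.sum_le_sum fun i _ => ?_)
    refine (Finset.abs_sum_le_sum_abs _ _).trans (Finset.sum_le_sum fun j _ => ?_)
    rw [abs_mul]
    exact mul_le_mul_of_nonneg_right (hB i j) (abs_nonneg _)
  have h5 : ∑ i, ∑ j, B * |e i j k| = B * ∑ i, ∑ j, |e i j k| := by
    rw [Finset.mul_sum]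
    refine Finset.sum_congr rfl fun i _ => ?_
    rw [Finset.mul_sum]
  have h6 : ∑ i, ∑ j, |e i j k| ≤ ∑ k, ∑ i, ∑ j, |e i j k| :=
    Finset.single_le_sum (f := fun k => ∑ i, ∑ j, |e i j k|) (fun k _ => hnn k)
      (Finset.mem_univ k)
  rw [h5] at h4
  nlinarith

/-- the part of the bad set which belongs to the coordinates `c` -/
def bad (Q : QuatOrder) (K : Set ℍ) (P : ℕ) (r : ℝ) (c : Fin 4 → ℤ) : Set ℍ :=
  {z | z ∈ K ∧ ∃ (g : SL(2, ℝ)) (N : ℕ), 1 ≤ N ∧ N ≤ 9 * P ^ 2 ∧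
    (N : ℝ) • (g : Matrix (Fin 2) (Fin 2) ℝ) = cs Q c ∧ g ≠ 1 ∧ g ≠ -1 ∧
    dist (g • z) z ≤ 2 * r}

theorem uniq {g g' : SL(2, ℝ)} {N N' : ℕ} (h1 : 1 ≤ N)
    (h : (N : ℝ) • (g : Matrix (Fin 2) (Fin 2) ℝ) = (N' : ℝ) • (g' : Matrix (Fin 2) (Fin 2) ℝ)) :
    g = g' := by
  have h2 := congrArg Matrix.det h
  rw [Matrix.det_smul, Matrix.det_smul, g.det_coe, g'.det_coe, Fintype.card_fin, mul_one,
    mul_one] at h2
  have hN : (0 : ℝ) < N := by exact_mod_cast h1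
  have h3 : (N : ℝ) = N' := by
    have h4 : (0 : ℝ) ≤ N' := Nat.cast_nonneg _
    exact (pow_left_inj₀ hN.le h4 two_ne_zero).1 h2
  rw [← h3] at h
  apply Subtype.ext
  exact smul_right_injective _ hN.ne' h

theorem bad_closed (Q : QuatOrder) {K : Set ℍ} (hK : IsCompact K) (P : ℕ) (r : ℝ)
    (c : Fin 4 → ℤ) : IsClosed (bad Q K P r c) := by
  by_cases h : ∃ (g : SL(2, ℝ)) (N : ℕ), 1 ≤ N ∧ N ≤ 9 * P ^ 2 ∧
    (N : ℝ) • (g : Matrix (Fin 2) (Fin 2) ℝ) = cs Q c ∧ g ≠ 1 ∧ g ≠ -1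
  · obtain ⟨g, N, h1, h2, h3, h4, h5⟩ := h
    have he : bad Q K P r c = K ∩ {z | dist (g • z) z ≤ 2 * r} := by
      ext z
      constructor
      · rintro ⟨hz, g', N', h1', -, h3', -, -, h6'⟩
        have hg : g' = g := uniq h1' (h3'.trans h3.symm)
        rw [hg] at h6'
        exact ⟨hz, h6'⟩
      · rintro ⟨hz, hd⟩
        exact ⟨hz, g, N, h1, h2, h3, h4, h5, hd⟩
    rw [he]
    refine hK.isClosed.inter (isClosed_le ?_ continuous_const)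
    exact (continuous_const_smul g).dist continuous_id
  · have he : bad Q K P r c = ∅ := by
      ext z
      simp only [Set.mem_empty_iff_false, iff_false]
      rintro ⟨-, g, N, h1, h2, h3, h4, h5, -⟩
      exact h ⟨g, N, h1, h2, h3, h4, h5⟩
    rw [he]
    exact isClosed_empty

/-- elements of the order which are not scalar have large entries -/
theorem nonscalar (Q : QuatOrder) {x : Matrix (Fin 2) (Fin 2) ℝ} (hx : x ∈ Q.O)
    (h : ¬ (x 1 0 = 0 ∧ x 1 1 - x 0 0 = 0 ∧ x 0 1 = 0)) :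
    (1 / 4 : ℝ) ≤ |x 1 0| ∨ (1 / 4 : ℝ) ≤ |x 1 1 - x 0 0| ∨ (1 / 4 : ℝ) ≤ |x 0 1| := by
  by_contra hcon
  rw [not_or, not_or, not_le, not_le, not_le] at hcon
  obtain ⟨h1, h2, h3⟩ := hcon
  have hadj := (prINT Q x hx).2.2
  have hy : x - x.adjugate ∈ Q.O := Q.O.sub_mem hx hadj
  have e00 : (x - x.adjugate) 0 0 = x 0 0 - x 1 1 := by
    rw [Matrix.sub_apply, Matrix.adjugate_fin_two]
    rfl
  have e01 : (x - x.adjugate) 0 1 = 2 * x 0 1 := by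
    rw [Matrix.sub_apply, Matrix.adjugate_fin_two]
    show x 0 1 - -(x 0 1) = 2 * x 0 1
    ring
  have e10 : (x - x.adjugate) 1 0 = 2 * x 1 0 := by
    rw [Matrix.sub_apply, Matrix.adjugate_fin_two]
    show x 1 0 - -(x 1 0) = 2 * x 1 0
    ring
  have e11 : (x - x.adjugate) 1 1 = x 1 1 - x 0 0 := by
    rw [Matrix.sub_apply, Matrix.adjugate_fin_two]
    rfl
  have hne : x - x.adjugate ≠ 0 := by
    intro h0
    apply h
    have f10 := congrFun (congrFun h0 1) 0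
    have f11 := congrFun (congrFun h0 1) 1
    have f01 := congrFun (congrFun h0 0) 1
    rw [e10] at f10
    rw [e11] at f11
    rw [e01] at f01
    simp only [Matrix.zero_apply] at f10 f11 f01
    exact ⟨by linarith, f11, by linarith⟩
  have hdet := Q.det_ne_zero _ hy hne
  obtain ⟨n, hn⟩ := (prINT Q _ hy).2.1
  have hn0 : n ≠ 0 := by
    rintro rfl
    apply hdet
    rw [hn]
    simp
  have hn1 : (1 : ℝ) ≤ |(x - x.adjugate).det| := by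
    rw [hn]
    exact_mod_cast Int.one_le_abs hn0
  rw [Matrix.det_fin_two, e00, e01, e10, e11] at hn1
  obtain ⟨a1, a2⟩ := abs_lt.1 h1
  obtain ⟨b1, b2⟩ := abs_lt.1 h2
  obtain ⟨c1, c2⟩ := abs_lt.1 h3
  have hlt : |(x 0 0 - x 1 1) * (x 1 1 - x 0 0) - 2 * x 0 1 * (2 * x 1 0)| < 1 := by
    rw [abs_lt]
    constructor <;> nlinarith
  linarith

theorem not_scalar_of_ne {g : SL(2, ℝ)} {N : ℕ} {x : Matrix (Fin 2) (Fin 2) ℝ} (hN : 1 ≤ N)
    (hx : (N : ℝ) • (g : Matrix (Fin 2) (Fin 2) ℝ) = x) (h1 : g ≠ 1) (h2 : g ≠ -1) :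
    ¬ (x 1 0 = 0 ∧ x 1 1 - x 0 0 = 0 ∧ x 0 1 = 0) := by
  rintro ⟨a, b, c⟩
  have hN0 : (N : ℝ) ≠ 0 := by
    have : (0 : ℝ) < N := by exact_mod_cast hN
    exact this.ne'
  subst hx
  simp only [Matrix.smul_apply, smul_eq_mul, mul_eq_zero, hN0, false_or] at a c
  rw [Matrix.smul_apply, Matrix.smul_apply, smul_eq_mul, smul_eq_mul, ← mul_sub, mul_eq_zero] at b
  have b' := b.resolve_left hN0
  have hd := g.det_coe
  rw [Matrix.det_fin_two, a, c] at hd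
  have h11 : (g : Matrix (Fin 2) (Fin 2) ℝ) 1 1 = (g : Matrix (Fin 2) (Fin 2) ℝ) 0 0 := by linarith
  rw [h11] at hd
  have hsq : ((g : Matrix (Fin 2) (Fin 2) ℝ) 0 0 - 1) * ((g : Matrix (Fin 2) (Fin 2) ℝ) 0 0 + 1) = 0 := by
    linarith
  rcases mul_eq_zero.1 hsq with h | h
  · apply h1
    have h00 : (g : Matrix (Fin 2) (Fin 2) ℝ) 0 0 = 1 := by linarith
    apply Subtype.ext
    ext i j
    fin_cases i <;> fin_cases j
    · exact h00
    · exact c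
    · exact a
    · exact h11.trans h00
  · apply h2
    have h00 : (g : Matrix (Fin 2) (Fin 2) ℝ) 0 0 = -1 := by linarith
    apply Subtype.ext
    ext i j
    fin_cases i <;> fin_cases j
    · show (g : Matrix (Fin 2) (Fin 2) ℝ) 0 0 = _
      rw [h00]
      simp
    · show (g : Matrix (Fin 2) (Fin 2) ℝ) 0 1 = _
      rw [c]
      simp
    · show (g : Matrix (Fin 2) (Fin 2) ℝ) 1 0 = _
      rw [a]
      simp
    · show (g : Matrix (Fin 2) (Fin 2) ℝ) 1 1 = _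
      rw [h11, h00]
      simp

theorem cosh_bd {t r : ℝ} (h0 : 0 ≤ t) (h : t ≤ 2 * r) (hr : r ≤ 1) :
    Real.cosh t - 1 ≤ 18 * r ^ 2 := by
  have h1 := Real.cosh_le_exp_half_sq t
  have hr0 : 0 ≤ r := by linarith
  have hs : t ^ 2 / 2 ≤ 2 * r ^ 2 := by nlinarith
  have hs2 : t ^ 2 / 2 ≤ 2 := by nlinarith
  have h2 : Real.exp (t ^ 2 / 2) - 1 ≤ (t ^ 2 / 2) * Real.exp (t ^ 2 / 2) := by
    have h3 := Real.one_sub_le_exp_neg (t ^ 2 / 2)
    have h4 := mul_le_mul_of_nonneg_right h3 (Real.exp_pos (t ^ 2 / 2)).le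
    rw [← Real.exp_add, neg_add_cancel, Real.exp_zero] at h4
    linarith
  have h5 : Real.exp (t ^ 2 / 2) ≤ 9 := by
    have h6 : Real.exp (t ^ 2 / 2) ≤ Real.exp 2 := Real.exp_le_exp.2 hs2
    have h7 : Real.exp 2 = Real.exp 1 * Real.exp 1 := by
      rw [← Real.exp_add]
      norm_num
    have h8 := Real.exp_one_lt_d9
    have h9 := Real.exp_pos 1
    nlinarith
  have h10 : (t ^ 2 / 2) * Real.exp (t ^ 2 / 2) ≤ (2 * r ^ 2) * 9 :=
    mul_le_mul hs h5 (Real.exp_pos _).le (by positivity)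
  linarith

theorem bad_sub (hQI : SvQI) (Q : QuatOrder) {K : Set ℍ} {Y : ℝ} (hY : ∀ z ∈ K, z.im ≤ Y)
    {P : ℕ} {r : ℝ} (hr0 : 0 < r) (hr : r ≤ 1) (c : Fin 4 → ℤ) :
    bad Q K P r c ⊆ {z : ℍ | z ∈ K ∧ ‖((cs Q c 1 0 : ℝ) : ℂ) * (z : ℂ) ^ 2 +
      ((cs Q c 1 1 - cs Q c 0 0 : ℝ) : ℂ) * (z : ℂ) - ((cs Q c 0 1 : ℝ) : ℂ)‖ ≤
      54 * Y * (P : ℝ) ^ 2 * r} := by
  rintro z ⟨hz, g, N, hN1, hN2, hx, -, -, hd⟩
  refine ⟨hz, ?_⟩
  have h1 := hQI z z g (N : ℝ)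
  rw [hx, qm] at h1
  have hzp : 0 < z.im * z.im := mul_pos z.im_pos z.im_pos
  rw [div_eq_iff hzp.ne'] at h1
  have h2 : ((cs Q c 1 0 : ℝ) : ℂ) * (z : ℂ) ^ 2 +
      ((cs Q c 1 1 - cs Q c 0 0 : ℝ) : ℂ) * (z : ℂ) - ((cs Q c 0 1 : ℝ) : ℂ) =
      -(((cs Q c 0 0 : ℝ) : ℂ) * (z : ℂ) + ((cs Q c 0 1 : ℝ) : ℂ) -
        (z : ℂ) * (((cs Q c 1 0 : ℝ) : ℂ) * (z : ℂ) + ((cs Q c 1 1 : ℝ) : ℂ))) := by
    push_cast
    ring
  rw [h2, norm_neg]
  have hY0 : 0 < Y := z.im_pos.trans_le (hY z hz)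
  have hc := cosh_bd (dist_nonneg) hd hr
  have hc0 : 0 ≤ Real.cosh (dist (g • z) z) - 1 := by
    have := Real.one_le_cosh (dist (g • z) z)
    linarith
  have hN : (N : ℝ) ≤ 9 * (P : ℝ) ^ 2 := by exact_mod_cast hN2
  have hN0 : (0 : ℝ) ≤ N := Nat.cast_nonneg N
  have h3 : z.im * z.im ≤ Y * Y := mul_le_mul (hY z hz) (hY z hz) z.im_pos.le hY0.le
  have h4 : ‖((cs Q c 0 0 : ℝ) : ℂ) * (z : ℂ) + ((cs Q c 0 1 : ℝ) : ℂ) -
        (z : ℂ) * (((cs Q c 1 0 : ℝ) : ℂ) * (z : ℂ) + ((cs Q c 1 1 : ℝ) : ℂ))‖ ^ 2 ≤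
      (6 * Y * N * r) ^ 2 := by
    rw [h1]
    calc 2 * (N : ℝ) ^ 2 * (Real.cosh (dist (g • z) z) - 1) * (z.im * z.im)
        ≤ 2 * (N : ℝ) ^ 2 * (18 * r ^ 2) * (Y * Y) := by
          apply mul_le_mul _ h3 hzp.le (by positivity)
          exact mul_le_mul_of_nonneg_left hc (by positivity)
      _ = (6 * Y * N * r) ^ 2 := by ring
  have h5 := (pow_le_pow_iff_left₀ (norm_nonneg _) (by positivity) two_ne_zero).1 h4
  refine h5.trans ?_
  calc 6 * Y * (N : ℝ) * r ≤ 6 * Y * (9 * (P : ℝ) ^ 2) * r := by gcongr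
    _ = 54 * Y * (P : ℝ) ^ 2 * r := by ring

end VD4

open VD4 in
theorem pvD4 (h3 : SvD3) (hQI : SvQI) : SvD4 := by
  intro Q K hK
  obtain ⟨C1, hC1, hent⟩ := entries K hK
  obtain ⟨κ, hκ, hco⟩ := coords Q
  obtain ⟨Y, hY1, hY⟩ : ∃ Y : ℝ, 0 < Y ∧ ∀ z ∈ K, z.im ≤ Y := by
    obtain ⟨B, hB⟩ := hK.exists_bound_of_continuousOn
      (f := fun z : ℍ => z.im) UpperHalfPlane.continuous_im.continuousOn
    refine ⟨|B| + 1, by positivity, fun z hz => ?_⟩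
    have h1 := hB z hz
    have h2 := le_abs_self (z.im)
    have h4 := le_abs_self B
    rw [Real.norm_eq_abs] at h1
    linarith
  obtain ⟨C3, hC3, hvol⟩ := h3 K (1 / 4) hK (by norm_num)
  obtain ⟨n, hn⟩ := exists_nat_ge (9 * κ * C1)
  refine ⟨(2 * (n : ℝ) + 1) ^ 4 * (C3 * (54 * Y)), by positivity, fun P r hP hr hr1 => ?_⟩
  have hP1 : (1 : ℝ) ≤ (P : ℝ) := by exact_mod_cast hP
  set B : Finset (Fin 4 → ℤ) :=
    Fintype.piFinset (fun _ : Fin 4 => Finset.Icc (-((n * P ^ 2 : ℕ) : ℤ)) ((n * P ^ 2 : ℕ) : ℤ))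
    with hB
  have hcard : (B.card : ℝ) ≤ (2 * (n : ℝ) + 1) ^ 4 * (P : ℝ) ^ 8 := by
    have h1 : B.card = (2 * (n * P ^ 2) + 1) ^ 4 := by
      rw [hB, Fintype.card_piFinset, Finset.prod_const, Finset.card_univ, Fintype.card_fin,
        Int.card_Icc]
      congr 1
      omega
    rw [h1]
    push_cast
    have h2 : (2 * ((n : ℝ) * (P : ℝ) ^ 2) + 1) ≤ (2 * (n : ℝ) + 1) * (P : ℝ) ^ 2 := by
      nlinarith [one_le_pow₀ hP1 (n := 2)]
    calc (2 * ((n : ℝ) * (P : ℝ) ^ 2) + 1) ^ 4 ≤ ((2 * (n : ℝ) + 1) * (P : ℝ) ^ 2) ^ 4 :=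
          pow_le_pow_left₀ (by positivity) h2 4
      _ = (2 * (n : ℝ) + 1) ^ 4 * (P : ℝ) ^ 8 := by ring
  have hvolc : ∀ c, volume (bad Q K P r c) ≤ ENNReal.ofReal (C3 * (54 * Y * (P : ℝ) ^ 2 * r)) := by
    intro c
    by_cases hne : (bad Q K P r c).Nonempty
    · obtain ⟨z, -, g, N, hN1, -, hx, hg1, hg2, -⟩ := hne
      have hmem : cs Q c ∈ Q.O := (Q.mem_iff _).2 ⟨c, rfl⟩
      have hns := nonscalar Q hmem (not_scalar_of_ne hN1 hx hg1 hg2)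
      refine (measure_mono (bad_sub hQI Q hY hr hr1 c)).trans ?_
      exact hvol _ _ _ _ hns (by positivity)
    · rw [Set.not_nonempty_iff_eq_empty] at hne
      rw [hne, measure_empty]
      exact zero_le
  refine ⟨⋃ c ∈ B, bad Q K P r c, ?_, ?_, ?_, ?_⟩
  · exact isClosed_biUnion_finset fun c _ => bad_closed Q hK P r c
  · exact Set.iUnion₂_subset fun c _ z hz => hz.1
  · refine (measure_biUnion_finset_le B _).trans ?_
    refine (Finset.sum_le_card_nsmul B _ _ fun c _ => hvolc c).trans ?_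
    rw [nsmul_eq_mul, ← ENNReal.ofReal_natCast, ← ENNReal.ofReal_mul (Nat.cast_nonneg _)]
    apply ENNReal.ofReal_le_ofReal
    calc (B.card : ℝ) * (C3 * (54 * Y * (P : ℝ) ^ 2 * r))
        ≤ ((2 * (n : ℝ) + 1) ^ 4 * (P : ℝ) ^ 8) * (C3 * (54 * Y * (P : ℝ) ^ 2 * r)) :=
          mul_le_mul_of_nonneg_right hcard (by positivity)
      _ = (2 * (n : ℝ) + 1) ^ 4 * (C3 * (54 * Y)) * (P : ℝ) ^ 10 * r := by ring
  · intro z hz hzA g N hN1 hN2 hgO hd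
    by_contra hne
    rw [not_or] at hne
    apply hzA
    obtain ⟨c, hc⟩ := (Q.mem_iff _).1 hgO
    have hcs : (N : ℝ) • (g : Matrix (Fin 2) (Fin 2) ℝ) = cs Q c := hc
    refine Set.mem_iUnion₂.2 ⟨c, ?_, hz, g, N, hN1, hN2, hcs, hne.1, hne.2, hd.le⟩
    rw [hB, Fintype.mem_piFinset]
    intro k
    rw [Finset.mem_Icc, ← abs_le]
    have h1 : ∀ i j, |cs Q c i j| ≤ 9 * (P : ℝ) ^ 2 * C1 := by
      intro i j
      rw [← hcs, Matrix.smul_apply, smul_eq_mul, abs_mul, abs_of_nonneg (Nat.cast_nonneg N)]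
      have h2 := hent g z hz (by linarith) i j
      have h4 : (N : ℝ) ≤ 9 * (P : ℝ) ^ 2 := by exact_mod_cast hN2
      exact mul_le_mul h4 h2 (abs_nonneg _) (by positivity)
    have h5 := hco c _ h1 k
    have h6 : κ * (9 * (P : ℝ) ^ 2 * C1) ≤ (n : ℝ) * (P : ℝ) ^ 2 := by
      have h7 := mul_le_mul_of_nonneg_right hn (by positivity : (0 : ℝ) ≤ (P : ℝ) ^ 2)
      linarith
    have h8 : |(c k : ℝ)| ≤ ((n * P ^ 2 : ℕ) : ℝ) := by
      push_cast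
      linarith
    exact_mod_cast h8

end HQ
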