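import Pool.Agent.Work.MP_d2a4bb_nt.QV.Stmts

/-!
# MP_d2a4bb_nt, block QV, item D5: multiplicity two off the bad set
-/

open UpperHalfPlane MeasureTheory Matrix
open scoped MatrixGroups Manifold Topology ComplexConjugate

namespace HQ

namespace VD5

theorem mul_O (Q : QuatOrder) (p : ℕ) (β α : SL(2, ℝ)) (hβ : β ∈ Q.E p) (hα : α ∈ Q.E p) :
    (p : ℝ) • ((β * α : SL(2, ℝ)) : Matrix (Fin 2) (Fin 2) ℝ) ∈ Q.O := by
  have h := Q.O.mul_mem hβ hα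
  have e : Real.sqrt p • (β : Matrix (Fin 2) (Fin 2) ℝ) * Real.sqrt p • (α : Matrix (Fin 2) (Fin 2) ℝ) =
      (p : ℝ) • ((β * α : SL(2, ℝ)) : Matrix (Fin 2) (Fin 2) ℝ) := by
    rw [smul_mul_smul_comm, Real.mul_self_sqrt (Nat.cast_nonneg p)]
    rfl
  rw [← e]
  exact h

theorem word (Q : QuatOrder) (p : ℕ) (R : Finset SL(2, ℝ)) (hR : HeckR Q p R) (a : List SL(2, ℝ))
    (ha : a ∈ words Q.Γ R 2) : ∃ β ∈ Q.E p, ∃ α ∈ Q.E p, a.prod = β * α := by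
  obtain ⟨hl, hw, -⟩ := (hR.mem a).1 ha
  match a, hl with
  | [β, α], _ =>
    exact ⟨β, hR.reps.1 β (hw β (by simp)), α, hR.reps.1 α (hw α (by simp)), by simp⟩

end VD5

theorem pvD5 (hD1 : SvD1) : SvD5 := by
  intro Q P T R hP hT z r hbad u
  have hD := (hD1 Q T R fun p hp => (hT p hp).2).1
  obtain ⟨-, hneg, hE⟩ := prGAM Q
  set S : Set (SL(2, ℝ) × List SL(2, ℝ)) := {x | x.1 ∈ Q.Γ ∧ x.2 ∈ VV Q T R ∧
    dist (x.1 • u) (x.2.prod • z) < r} with hS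
  rcases S.eq_empty_or_nonempty with h0 | ⟨⟨γ, a⟩, hγ, ha, hd⟩
  · rw [h0]; simp
  simp only at hγ ha hd
  have hsub : S ⊆ {(γ, a), (-1 * γ, a)} := by
    rintro ⟨γ', a'⟩ ⟨hγ', ha', hd'⟩
    simp only at hγ' ha' hd'
    obtain ⟨p, hp, hap⟩ : ∃ p ∈ T, a ∈ words Q.Γ (R p) 2 := by
      classical
      simpa [VV] using ha
    obtain ⟨p', hp', hap'⟩ : ∃ p ∈ T, a' ∈ words Q.Γ (R p) 2 := by
      classical
      simpa [VV] using ha'
    obtain ⟨β, hβ, α, hα, e⟩ := VD5.word Q p (R p) (hT p hp).2 a hap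
    obtain ⟨β', hβ', α', hα', e'⟩ := VD5.word Q p' (R p') (hT p' hp').2 a' hap'
    have h1 : (p : ℝ) • ((a.prod : SL(2, ℝ)) : Matrix (Fin 2) (Fin 2) ℝ) ∈ Q.O := by
      rw [e]; exact VD5.mul_O Q p β α hβ hα
    have h2 : (p' : ℝ) • (((a'.prod)⁻¹ : SL(2, ℝ)) : Matrix (Fin 2) (Fin 2) ℝ) ∈ Q.O := by
      rw [e', _root_.mul_inv_rev]
      exact VD5.mul_O Q p' _ _ ((hE p').1 _ hα') ((hE p').1 _ hβ')
    have h3 : ((γ' * γ⁻¹ : SL(2, ℝ)) : Matrix (Fin 2) (Fin 2) ℝ) ∈ Q.O :=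
      (Q.Γ.mul_mem hγ' (Q.Γ.inv_mem hγ)).1
    have hN : ((p' * p : ℕ) : ℝ) • (((a'.prod)⁻¹ * (γ' * γ⁻¹) * a.prod : SL(2, ℝ)) :
        Matrix (Fin 2) (Fin 2) ℝ) ∈ Q.O := by
      have h := Q.O.mul_mem (Q.O.mul_mem h2 h3) h1
      have ee : (p' : ℝ) • (((a'.prod)⁻¹ : SL(2, ℝ)) : Matrix (Fin 2) (Fin 2) ℝ) *
          ((γ' * γ⁻¹ : SL(2, ℝ)) : Matrix (Fin 2) (Fin 2) ℝ) *
          (p : ℝ) • ((a.prod : SL(2, ℝ)) : Matrix (Fin 2) (Fin 2) ℝ) =
          ((p' * p : ℕ) : ℝ) • (((a'.prod)⁻¹ * (γ' * γ⁻¹) * a.prod : SL(2, ℝ)) :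
            Matrix (Fin 2) (Fin 2) ℝ) := by
        rw [smul_mul_assoc, smul_mul_smul_comm, Nat.cast_mul]
        rfl
      rw [← ee]
      exact h
    have hpp : 1 ≤ p' * p := Nat.mul_pos (hT p' hp').2.prime.pos (hT p hp).2.prime.pos
    have hpP : p' * p ≤ 9 * P ^ 2 := by
      have := Nat.mul_le_mul (hT p' hp').1 (hT p hp).1
      nlinarith
    have hdist : dist (((a'.prod)⁻¹ * (γ' * γ⁻¹) * a.prod : SL(2, ℝ)) • z) z < 2 * r := by
      have e1 : dist (((a'.prod)⁻¹ * (γ' * γ⁻¹) * a.prod : SL(2, ℝ)) • z) z =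
          dist ((γ' * γ⁻¹ * a.prod : SL(2, ℝ)) • z) (a'.prod • z) := by
        rw [← dist_smul (a'.prod) (((a'.prod)⁻¹ * (γ' * γ⁻¹) * a.prod : SL(2, ℝ)) • z) z, smul_smul]
        congr 2
        group
      have e2 : dist ((γ' * γ⁻¹ * a.prod : SL(2, ℝ)) • z) (γ' • u) = dist (γ • u) (a.prod • z) := by
        rw [← dist_smul (γ * γ'⁻¹) ((γ' * γ⁻¹ * a.prod : SL(2, ℝ)) • z) (γ' • u), smul_smul, smul_smul,
          dist_comm]
        congr 2 <;> group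
      have e3 := dist_triangle ((γ' * γ⁻¹ * a.prod : SL(2, ℝ)) • z) (γ' • u) (a'.prod • z)
      rw [e1]
      rw [e2] at e3
      linarith
    rcases hbad _ _ hpp hpP hN hdist with h | h
    · have h4 : a'.prod * (a.prod)⁻¹ = γ' * γ⁻¹ := by
        have h5 : (a'.prod) * ((a'.prod)⁻¹ * (γ' * γ⁻¹) * a.prod) = a'.prod := by rw [h, mul_one]
        rw [mul_assoc, mul_inv_cancel_left] at h5
        rw [← h5]
        group
      have h6 : a' = a := hD a' ha' a ha (h4 ▸ Q.Γ.mul_mem hγ' (Q.Γ.inv_mem hγ))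
      subst h6
      rw [mul_inv_cancel] at h4
      have h7 : γ' = γ := by
        rw [eq_comm, mul_inv_eq_one] at h4
        exact h4
      left
      rw [h7]
    · have h4 : a'.prod * (a.prod)⁻¹ = -1 * (γ' * γ⁻¹) := by
        have h5 : (a'.prod) * ((a'.prod)⁻¹ * (γ' * γ⁻¹) * a.prod) = - a'.prod := by
          rw [h, mul_neg, mul_one]
        rw [mul_assoc, mul_inv_cancel_left] at h5
        have h8 : a'.prod = - (γ' * γ⁻¹ * a.prod) := by rw [h5, neg_neg]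
        rw [h8, neg_one_mul, neg_mul]
        congr 1
        group
      have h6 : a' = a := hD a' ha' a ha (h4 ▸ Q.Γ.mul_mem hneg (Q.Γ.mul_mem hγ' (Q.Γ.inv_mem hγ)))
      subst h6
      rw [mul_inv_cancel, neg_one_mul, eq_comm, neg_eq_iff_eq_neg] at h4
      have h7 : γ' = -1 * γ := by
        rw [← h4]
        group
      right
      rw [h7]
      rfl
  refine (Set.encard_le_encard hsub).trans ((Set.encard_insert_le _ _).trans ?_)
  rw [Set.encard_singleton]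
  norm_num

end HQ
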