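import Pool.Agent.Work.MP_d2a4bb_nt.QV.Stmts
import Pool.Agent.Work.MP_d2a4bb_nt.QE.Closed

open UpperHalfPlane MeasureTheory Matrix
open scoped MatrixGroups Manifold Topology ComplexConjugate

namespace HQ

open ITRC in
/-- Item D6: the trace bound for the words of many primes. -/
theorem pvD6 (hD2 : SvD2) (hD4 : SvD4) (hD5 : SvD5) : SvD6 := by
  intro Q W
  obtain ⟨C, hC, hP⟩ := clPTW
  obtain ⟨B, hB0, hB⟩ := exists_bound W
  have hKc : IsCompact (tsupport W.w) := W.supp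
  obtain ⟨C₂, hC₂, h2⟩ := hD2 Q (tsupport W.w) hKc
  obtain ⟨C₄, hC₄, h4⟩ := hD4 Q (tsupport W.w) hKc
  have hw0 : 0 ≤ ∫ z : ℍ, W.w z := integral_nonneg W.nonneg
  refine ⟨2 * C * (∫ z : ℍ, W.w z) + C * B * (C₂ * C₄) + 1, by positivity, ?_⟩
  intro P T R hP1 hT κ M hκ hM m hm ι _ f hf
  set V := VV Q T R with hV
  have hP1' : (1 : ℝ) ≤ (P : ℝ) := by exact_mod_cast hP1
  have hm1 : 1 ≤ m := le_trans (Nat.one_le_pow _ _ hP1) hm
  have hm1' : (1 : ℝ) ≤ (m : ℝ) := by exact_mod_cast hm1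
  have hmpos : (0 : ℝ) < m := by linarith
  set s : ℝ := Real.sqrt m with hs
  have hs1 : 1 ≤ s := by
    rw [hs, Real.one_le_sqrt]
    exact hm1'
  have hs0 : 0 < s := by linarith
  have hss : s ^ 2 = m := Real.sq_sqrt hmpos.le
  set r : ℝ := s⁻¹ with hr
  have hr0 : 0 < r := inv_pos.2 hs0
  have hr1 : r ≤ 1 := inv_le_one_of_one_le₀ hs1
  have hmr : 1 ≤ (m : ℝ) * r ^ 2 := by
    rw [hr, ← hss, ← mul_pow, mul_inv_cancel₀ hs0.ne', one_pow]
  obtain ⟨M₁, hM₁C, hM₁⟩ := h2 P T R hP1 hT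
  obtain ⟨A, hAc, hAK, hAv, hA2⟩ := h4 P r hP1 hr0 hr1
  set M₂ : ℝ := ∑ a ∈ V, M a ^ 2 with hM₂
  have hM₂0 : 0 ≤ M₂ := Finset.sum_nonneg (fun a _ => sq_nonneg _)
  set D : ℝ := C * M₁ * M₂ * B with hD
  have hD0 : 0 ≤ D := by positivity
  -- the sum of squares of the coefficients
  have hsq : ∀ z : ℍ, ∑ a ∈ V, κ a z ^ 2 ≤ M₂ := by
    intro z
    refine Finset.sum_le_sum (fun a ha => ?_)
    have h1 := hM a ha z
    rw [← sq_abs]
    exact pow_le_pow_left₀ (abs_nonneg _) h1 2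
  -- pointwise bounds
  have hgood : ∀ z ∈ tsupport W.w, z ∉ A →
      ∑ i, ‖∑ a ∈ V, (κ a z : ℂ) * phi m (f i) z a.prod‖ ^ 2 ≤ 2 * C * m * M₂ := by
    intro z hz hzA
    have h := hP Q.Γ W V (fun a => κ a z) z r 2 m hm1 hr0 hr1 hmr (fun u _ => by
      exact_mod_cast hD5 Q P T R hP1 hT z r (hA2 z hz hzA) u) ι f hf
    refine h.trans ?_
    have h2 := hsq z
    have h3 : (0 : ℝ) ≤ C * m * 2 := by positivity
    push_cast
    calc C * (m : ℝ) * 2 * ∑ a ∈ V, κ a z ^ 2 ≤ C * m * 2 * M₂ := mul_le_mul_of_nonneg_left h2 h3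
      _ = 2 * C * m * M₂ := by ring
  have hbad : ∀ z ∈ tsupport W.w,
      ∑ i, ‖∑ a ∈ V, (κ a z : ℂ) * phi m (f i) z a.prod‖ ^ 2 ≤ C * m * M₁ * M₂ := by
    intro z hz
    have h := hP Q.Γ W V (fun a => κ a z) z r M₁ m hm1 hr0 hr1 hmr (fun u hu => by
      exact hM₁ z hz u (subset_tsupport _ hu) r hr1) ι f hf
    refine h.trans ?_
    have h2 := hsq z
    have h3 : (0 : ℝ) ≤ C * m * M₁ := by positivity
    exact mul_le_mul_of_nonneg_left h2 h3
  -- the pointwise bound with the weight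
  have hpt : ∀ z : ℍ, W.w z * ∑ i, ‖∑ a ∈ V, (κ a z : ℂ) * phi m (f i) z a.prod‖ ^ 2 ≤
      2 * C * m * M₂ * W.w z + A.indicator (fun _ => D * m) z := by
    intro z
    by_cases hz : z ∈ tsupport W.w
    · by_cases hzA : z ∈ A
      · rw [Set.indicator_of_mem hzA]
        have h1 := hbad z hz
        have h2 : W.w z * ∑ i, ‖∑ a ∈ V, (κ a z : ℂ) * phi m (f i) z a.prod‖ ^ 2 ≤ B * (C * m * M₁ * M₂) :=
          mul_le_mul (hB z) h1 (Finset.sum_nonneg (fun i _ => sq_nonneg _)) hB0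
        have h3 : 0 ≤ 2 * C * m * M₂ * W.w z := by
          have := W.nonneg z
          positivity
        have h4 : B * (C * m * M₁ * M₂) = D * m := by rw [hD]; ring
        linarith
      · rw [Set.indicator_of_notMem hzA, add_zero]
        have h1 := mul_le_mul_of_nonneg_left (hgood z hz hzA) (W.nonneg z)
        linarith [mul_comm (W.w z) (2 * C * m * M₂)]
    · have h0 : W.w z = 0 := image_eq_zero_of_notMem_tsupport hz
      rw [h0]
      have : 0 ≤ A.indicator (fun _ => D * (m : ℝ)) z := Set.indicator_nonneg (fun _ _ => by positivity) z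
      simpa using this
  have hAm : MeasurableSet A := hAc.measurableSet
  have hAfin : volume A < ⊤ := lt_of_le_of_lt hAv ENNReal.ofReal_lt_top
  have hwint : Integrable W.w := W.cont.integrable_of_hasCompactSupport W.supp
  have hind : Integrable (A.indicator (fun _ => D * (m : ℝ))) := by
    rw [integrable_indicator_iff hAm]
    exact integrableOn_const hAfin.ne
  have hint : ∀ i ∈ (Finset.univ : Finset ι), Integrable fun z : ℍ =>
      W.w z * ‖∑ a ∈ V, (κ a z : ℂ) * phi m (f i) z a.prod‖ ^ 2 := fun i _ =>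
    integrable_inner clPHB W V κ hκ m (f i) (hf.1 i)
  -- the volume of the bad set
  have hvol : (M₁ : ℝ) * (volume A).toReal ≤ C₂ * C₄ := by
    have h1 : (volume A).toReal ≤ C₄ * (P : ℝ) ^ 10 * r :=
      ENNReal.toReal_le_of_le_ofReal (by positivity) hAv
    have h15 : (P : ℝ) ^ 15 ≤ s := by
      rw [hs]
      refine Real.le_sqrt_of_sq_le ?_
      rw [← pow_mul]
      exact_mod_cast hm
    calc (M₁ : ℝ) * (volume A).toReal ≤ (C₂ * (P : ℝ) ^ 5) * (C₄ * (P : ℝ) ^ 10 * r) :=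
          mul_le_mul hM₁C h1 ENNReal.toReal_nonneg (by positivity)
      _ = C₂ * C₄ * ((P : ℝ) ^ 15 * r) := by ring
      _ ≤ C₂ * C₄ * 1 := by
          refine mul_le_mul_of_nonneg_left ?_ (by positivity)
          rw [hr, ← div_eq_mul_inv]
          exact (div_le_one hs0).2 h15
      _ = C₂ * C₄ := mul_one _
  calc ∑ i, ∫ z : ℍ, W.w z * ‖∑ a ∈ V, (κ a z : ℂ) * phi m (f i) z a.prod‖ ^ 2
      = ∫ z : ℍ, ∑ i, W.w z * ‖∑ a ∈ V, (κ a z : ℂ) * phi m (f i) z a.prod‖ ^ 2 :=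
        (integral_finsetSum _ hint).symm
    _ ≤ ∫ z : ℍ, (2 * C * m * M₂ * W.w z + A.indicator (fun _ => D * (m : ℝ)) z) := by
        refine integral_mono (integrable_finsetSum _ hint) ((hwint.const_mul _).add hind) (fun z => ?_)
        have := hpt z
        rw [Finset.mul_sum] at this
        exact this
    _ = 2 * C * m * M₂ * (∫ z : ℍ, W.w z) + (volume A).toReal * (D * m) := by
        rw [integral_add (hwint.const_mul _) hind, integral_const_mul, integral_indicator hAm,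
          setIntegral_const]
        rfl
    _ ≤ (2 * C * (∫ z : ℍ, W.w z) + C * B * (C₂ * C₄) + 1) * m * M₂ := by
        have h1 : (volume A).toReal * (D * m) = C * B * m * M₂ * ((M₁ : ℝ) * (volume A).toReal) := by
          rw [hD]
          ring
        have h2 : C * B * m * M₂ * ((M₁ : ℝ) * (volume A).toReal) ≤ C * B * m * M₂ * (C₂ * C₄) :=
          mul_le_mul_of_nonneg_left hvol (by positivity)
        have h3 : 0 ≤ (m : ℝ) * M₂ := by positivity
        rw [h1]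
        nlinarith [h2, h3]

end HQ
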