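import Pool.Agent.Work.MP_d2a4bb_nt.QV.Stmts
import Pool.Agent.Work.MP_d2a4bb_nt.QE.Closed

/-!
# Item D7 of the block [d2a4bb QV]: at most `C m` orthonormal forms
-/

open UpperHalfPlane MeasureTheory Matrix
open scoped MatrixGroups Manifold Topology ComplexConjugate

namespace HQ

namespace VD7

/-- A bound for the number of elements of the group which move a point of `K` close to a point of `K`. -/
theorem mult (Q : QuatOrder) (K : Set ℍ) (hK : IsCompact K) : ∃ M : ℕ, ∀ z ∈ K, ∀ u ∈ K,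
    {p : SL(2, ℝ) × List SL(2, ℝ) | p.1 ∈ Q.Γ ∧ p.2 ∈ ({[]} : Finset (List SL(2, ℝ))) ∧
      dist (p.1 • u) (p.2.prod • z) < 1}.encard ≤ M := by
  have hK1 : IsCompact (Metric.cthickening 1 K) := hK.cthickening
  have hfin := prFIW Q 1 1 one_pos (Metric.cthickening 1 K) hK1
  refine ⟨hfin.toFinset.card, fun z hz u hu => ?_⟩
  have hsub : {p : SL(2, ℝ) × List SL(2, ℝ) | p.1 ∈ Q.Γ ∧
      p.2 ∈ ({[]} : Finset (List SL(2, ℝ))) ∧ dist (p.1 • u) (p.2.prod • z) < 1} ⊆
      (fun x : SL(2, ℝ) => (x, ([] : List SL(2, ℝ)))) ''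
        {x : SL(2, ℝ) | Walk Q.Γ (Q.E 1) 1 x ∧ ∃ z ∈ Metric.cthickening 1 K,
          x • z ∈ Metric.cthickening 1 K} := by
    rintro ⟨g, l⟩ ⟨h1, h2, h3⟩
    have hl : l = [] := by simpa using h2
    subst hl
    refine ⟨g, ⟨⟨[g], rfl, ?_, by simp⟩, u, Metric.self_subset_cthickening K hu, ?_⟩, rfl⟩
    · intro e he
      rw [List.mem_singleton] at he
      rw [he]
      exact Or.inr h1
    · simp only [List.prod_nil, one_smul] at h3
      exact Metric.mem_cthickening_of_dist_le _ z 1 K hz h3.le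
  refine (Set.encard_le_encard hsub).trans ((Set.encard_image_le _ _).trans ?_)
  rw [hfin.encard_eq_coe_toFinset_card]

end VD7

open VD7 ITRC in
/-- Item D7: an orthonormal family has at most `C m` elements. -/
theorem pvD7 : SvD7 := by
  intro Q W
  obtain ⟨C, hC, hP⟩ := clPTW
  have hKc : IsCompact (tsupport W.w) := W.supp
  obtain ⟨M, hM⟩ := mult Q (tsupport W.w) hKc
  have hw0 : 0 ≤ ∫ z : ℍ, W.w z := integral_nonneg W.nonneg
  have hwint : Integrable W.w := W.cont.integrable_of_hasCompactSupport W.supp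
  refine ⟨C * M * (∫ z : ℍ, W.w z) + 1, by positivity, ?_⟩
  intro m hm ι _ f hf
  have hm' : (1 : ℝ) ≤ (m : ℝ) := by exact_mod_cast hm
  -- the pointwise bound
  have hpt : ∀ z ∈ tsupport W.w, ∑ i, FF m (f i) z ^ 2 ≤ C * m * M := by
    intro z hz
    have h := hP Q.Γ W {[]} (fun _ => 1) z 1 M m hm one_pos le_rfl (by simpa using hm') (fun u hu =>
      hM z hz u (subset_tsupport _ hu)) ι f hf
    have e : ∀ i, ‖∑ a ∈ ({[]} : Finset (List SL(2, ℝ))), ((1 : ℝ) : ℂ) * phi m (f i) z a.prod‖ ^ 2 =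
        FF m (f i) z ^ 2 := by
      intro i
      rw [Finset.sum_singleton, Complex.ofReal_one, one_mul, List.prod_nil, clPHA.2.2.1, one_smul]
    simp only [e] at h
    simpa using h
  have hpt2 : ∀ z : ℍ, ∑ i, W.w z * FF m (f i) z ^ 2 ≤ C * m * M * W.w z := by
    intro z
    rw [← Finset.mul_sum]
    by_cases hz : z ∈ tsupport W.w
    · have := mul_le_mul_of_nonneg_left (hpt z hz) (W.nonneg z)
      linarith [mul_comm (W.w z) (C * m * M)]
    · have h0 : W.w z = 0 := image_eq_zero_of_notMem_tsupport hz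
      rw [h0, zero_mul, mul_zero]
  have hint : ∀ i ∈ (Finset.univ : Finset ι), Integrable fun z : ℍ =>
      W.w z * FF m (f i) z ^ 2 := by
    intro i _
    refine Continuous.integrable_of_hasCompactSupport ?_ ?_
    · exact W.cont.mul ((clPHB.2.2.1 Q.Γ m (f i) (hf.1 i)).2.pow 2)
    · exact W.supp.mul_right
  have hcard : (Fintype.card ι : ℝ) = ∑ i : ι, ∫ z : ℍ, W.w z * FF m (f i) z ^ 2 := by
    simp [hf.2.2]
  calc (Fintype.card ι : ℝ) = ∑ i : ι, ∫ z : ℍ, W.w z * FF m (f i) z ^ 2 := hcard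
    _ = ∫ z : ℍ, ∑ i : ι, W.w z * FF m (f i) z ^ 2 := (integral_finsetSum _ hint).symm
    _ ≤ ∫ z : ℍ, C * m * M * W.w z :=
        integral_mono (integrable_finsetSum _ hint) (hwint.const_mul _) hpt2
    _ = C * M * (∫ z : ℍ, W.w z) * m := by
        rw [integral_const_mul]
        ring
    _ ≤ (C * M * (∫ z : ℍ, W.w z) + 1) * m := by
        nlinarith

end HQ
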