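import Pool.Agent.Work.MP_d2a4bb_nt.QV.Stmts

/-!
Item EQ of the block [d2a4bb QV]: the weighted number of elements of determinant `p` as a sum over
the elements of reduced norm `p`, divided by `√p`.
-/

open UpperHalfPlane MeasureTheory Matrix
open scoped MatrixGroups Manifold Topology ComplexConjugate

namespace HQ

namespace VEQ

theorem cs_injective (Q : QuatOrder) : Function.Injective (cs Q) := by
  intro c d h
  have h1 : ∑ i, ((c i : ℝ) - (d i : ℝ)) • Q.basis i = 0 := by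
    simp only [sub_smul, Finset.sum_sub_distrib]
    exact sub_eq_zero.mpr h
  have h2 := Fintype.linearIndependent_iff.mp Q.basis.linearIndependent _ h1
  funext i
  have h3 := h2 i
  exact_mod_cast sub_eq_zero.mp h3

theorem cs_mem (Q : QuatOrder) (c : Fin 4 → ℤ) : cs Q c ∈ Q.O := (Q.mem_iff _).mpr ⟨c, rfl⟩

theorem sqrt_ne (p : ℕ) (hp : 0 < p) : Real.sqrt (p : ℝ) ≠ 0 := by
  have h : (0 : ℝ) < (p : ℝ) := by exact_mod_cast hp
  exact (Real.sqrt_pos.mpr h).ne'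

theorem det_inv_smul (Q : QuatOrder) (p : ℕ) (hp : 0 < p) (c : Fin 4 → ℤ)
    (hc : (cs Q c).det = (p : ℝ)) : ((Real.sqrt (p : ℝ))⁻¹ • cs Q c).det = 1 := by
  have h : (p : ℝ) ≠ 0 := by exact_mod_cast hp.ne'
  rw [Matrix.det_smul, hc, Fintype.card_fin, inv_pow, Real.sq_sqrt (Nat.cast_nonneg p)]
  exact inv_mul_cancel₀ h

theorem smul_inv_smul' (Q : QuatOrder) (p : ℕ) (hp : 0 < p) (c : Fin 4 → ℤ) :
    Real.sqrt (p : ℝ) • ((Real.sqrt (p : ℝ))⁻¹ • cs Q c) = cs Q c := by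
  rw [smul_smul, mul_inv_cancel₀ (sqrt_ne p hp), one_smul]

/-- From coordinates to elements of `E p`. -/
noncomputable def toE (Q : QuatOrder) (p : ℕ) (hp : 0 < p)
    (c : {c : Fin 4 → ℤ | (cs Q c).det = (p : ℝ)}) : Q.E p :=
  ⟨⟨(Real.sqrt (p : ℝ))⁻¹ • cs Q c.1, det_inv_smul Q p hp c.1 c.2⟩, by
    show Real.sqrt (p : ℝ) • ((Real.sqrt (p : ℝ))⁻¹ • cs Q c.1) ∈ Q.O
    rw [smul_inv_smul' Q p hp]
    exact cs_mem Q c.1⟩

theorem smul_toE (Q : QuatOrder) (p : ℕ) (hp : 0 < p)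
    (c : {c : Fin 4 → ℤ | (cs Q c).det = (p : ℝ)}) :
    Real.sqrt (p : ℝ) • (((toE Q p hp c : Q.E p) : SL(2, ℝ)) : Matrix (Fin 2) (Fin 2) ℝ) = cs Q c.1 :=
  smul_inv_smul' Q p hp c.1

theorem toE_bijective (Q : QuatOrder) (p : ℕ) (hp : 0 < p) : Function.Bijective (toE Q p hp) := by
  constructor
  · intro c d h
    have h1 := smul_toE Q p hp c
    rw [h, smul_toE Q p hp d] at h1
    exact Subtype.ext (cs_injective Q h1.symm)
  · intro g
    obtain ⟨c, hc⟩ := (Q.mem_iff _).mp g.2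
    have hc' : Real.sqrt (p : ℝ) • ((g : SL(2, ℝ)) : Matrix (Fin 2) (Fin 2) ℝ) = cs Q c := hc
    have hdet : (cs Q c).det = (p : ℝ) := by
      rw [← hc', Matrix.det_smul, Fintype.card_fin, Real.sq_sqrt (Nat.cast_nonneg p),
        Matrix.SpecialLinearGroup.det_coe, mul_one]
    refine ⟨⟨c, hdet⟩, ?_⟩
    apply Subtype.ext
    apply Subtype.ext
    show (Real.sqrt (p : ℝ))⁻¹ • cs Q c = _
    rw [← hc', smul_smul, inv_mul_cancel₀ (sqrt_ne p hp), one_smul]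

theorem QQ_toE (hQI : SvQI) (Q : QuatOrder) (p : ℕ) (hp : 0 < p) (lam P : ℝ) (z w : ℍ)
    (c : {c : Fin 4 → ℤ | (cs Q c).det = (p : ℝ)}) :
    Real.exp (-Real.pi * QQ lam z w (cs Q c.1) / P) = Real.exp (-2 * Real.pi * p / P) *
      Real.exp (-(2 * Real.pi * lam * p / P) *
        (Real.cosh (dist (((toE Q p hp c : Q.E p) : SL(2, ℝ)) • z) w) - 1)) := by
  have h1 := hQI z w ((toE Q p hp c : Q.E p) : SL(2, ℝ)) (Real.sqrt (p : ℝ))
  rw [smul_toE Q p hp c, Real.sq_sqrt (Nat.cast_nonneg p)] at h1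
  have h2 : (cs Q c.1).det = (p : ℝ) := c.2
  rw [← Real.exp_add]
  congr 1
  unfold QQ
  rw [h1, h2]
  ring

end VEQ

theorem pvEQ (hQI : SvQI) : SvEQ := by
  intro Q p hp lam P z w
  classical
  have h1 : rr Q lam P z w (p : ℤ) = ∑' c : {c : Fin 4 → ℤ | (cs Q c).det = (p : ℝ)},
      Real.exp (-Real.pi * QQ lam z w (cs Q c.1) / P) := by
    rw [tsum_subtype {c : Fin 4 → ℤ | (cs Q c).det = (p : ℝ)}
      (fun c => Real.exp (-Real.pi * QQ lam z w (cs Q c) / P))]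
    unfold rr
    refine tsum_congr (fun c => ?_)
    by_cases hc : (cs Q c).det = (p : ℝ)
    · have hc2 : (cs Q c).det = (((p : ℤ)) : ℝ) := by rw [hc]; simp
      rw [if_pos hc2, Set.indicator_of_mem (show c ∈ {c : Fin 4 → ℤ | (cs Q c).det = (p : ℝ)} from hc)]
    · have hc2 : ¬ (cs Q c).det = (((p : ℤ)) : ℝ) := by
        intro h
        apply hc
        rw [h]
        simp
      rw [if_neg hc2, Set.indicator_of_notMem (show c ∉ {c : Fin 4 → ℤ | (cs Q c).det = (p : ℝ)} from hc)]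
  rw [h1, ← tsum_mul_left]
  rw [← (Equiv.ofBijective _ (VEQ.toE_bijective Q p hp)).tsum_eq]
  refine tsum_congr (fun c => ?_)
  exact VEQ.QQ_toE hQI Q p hp lam P z w c

end HQ
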