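import Pool.Agent.Work.MP_d2a4bb_nt.QV.Stmts
import Pool.Agent.Work.MP_d2a4bb_nt.QE.Closed

open UpperHalfPlane MeasureTheory Matrix
open scoped MatrixGroups Manifold Topology ComplexConjugate

namespace HQ
namespace VFB

theorem eigen_smul (Q : QuatOrder) (p k : ℕ) (f : ℍ → ℂ) (a : ℂ) (h : Q.IsEigen p k f) : Q.IsEigen p k (fun u => a * f u) := by
  obtain ⟨l, hl⟩ := h
  refine ⟨l, fun z => ?_⟩
  have e1 := hl z
  unfold QuatOrder.T at e1 ⊢
  calc (∑ᶠ c : Quotient (Q.heckeSetoid p), a * f (((Quotient.out c : Q.E p) : SL(2, ℝ)) • z) / jj ((Quotient.out c : Q.E p) : SL(2, ℝ)) z ^ k)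
      = ∑ᶠ c : Quotient (Q.heckeSetoid p), a • (f (((Quotient.out c : Q.E p) : SL(2, ℝ)) • z) / jj ((Quotient.out c : Q.E p) : SL(2, ℝ)) z ^ k) := by
        refine finsum_congr fun c => ?_
        rw [smul_eq_mul, mul_div_assoc]
    _ = a • ∑ᶠ c : Quotient (Q.heckeSetoid p), f (((Quotient.out c : Q.E p) : SL(2, ℝ)) • z) / jj ((Quotient.out c : Q.E p) : SL(2, ℝ)) z ^ k := by
        rw [smul_finsum]
    _ = l * (a * f z) := by rw [e1, smul_eq_mul]; ring

theorem card_ge (Q : QuatOrder) (m n : ℕ) (B : Finset (ℍ → ℂ)) (hB : ∀ h, Q.IsForm (2 * m) h → h ∈ Submodule.span ℂ (B : Set (ℍ → ℂ)))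
    (g : Fin n → ℍ → ℂ) (hg : ∀ i, Form Q.Γ m (g i)) (hl : LinearIndependent ℂ g) : n ≤ B.card := by
  have h1 : Submodule.span ℂ (Set.range g) ≤ Submodule.span ℂ (B : Set (ℍ → ℂ)) := by
    rw [Submodule.span_le]
    rintro _ ⟨i, rfl⟩
    exact hB _ (hg i)
  have h2 := Submodule.finrank_mono h1
  rw [finrank_span_eq_card hl, Fintype.card_fin] at h2
  exact h2.trans (finrank_span_finset_le_card B)

end VFB

theorem pvFB (hFA : SvFA) : SvFB := by
  intro Q P hP F hF ψ hψ ⟨L, hL⟩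
  obtain ⟨K, hK, hKc⟩ := clCOC Q
  have hfin : ∀ K : Set ℍ, IsCompact K → {γ : SL(2, ℝ) | γ ∈ Q.Γ ∧ ∃ z ∈ K, γ • z ∈ K}.Finite := by
    intro K hK
    refine (clFIW Q 2 1 (by norm_num) K hK).subset ?_
    rintro γ ⟨hγ, h⟩
    refine ⟨⟨[γ], rfl, ?_, ?_⟩, h⟩
    · intro e he
      rw [List.mem_singleton] at he
      exact Or.inr (he ▸ hγ)
    · simp
  obtain ⟨W⟩ := clWGT Q.Γ hfin ⟨K, hK, hKc⟩
  obtain ⟨hv, hwp, hvw, hR, hC⟩ := clFUN Q W F hF
  have hvpos : 0 < (volume F).toReal := by rw [hvw]; linarith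
  have hI : ∀ h : ℍ → ℝ, Continuous h → (∀ γ ∈ Q.Γ, ∀ z : ℍ, h (γ • z) = h z) → IntegrableOn h F volume := fun h a b =>
    IEQD.intOn Q.Γ K hK hKc F hv h a b
  set c : ℝ := (∫ z in F, ψ z) / (volume F).toReal with hc
  have hT0 : Test Q.Γ (fun z => ψ z - c) := by
    refine ⟨hψ.1.sub continuous_const, ?_⟩
    intro γ hγ z
    simp only [hψ.2 γ hγ z]
  have hz0 : ∫ z : ℍ, W.w z * (ψ z - c) = 0 := by
    have e1 := hR (fun z => ψ z - c) hT0.1 hT0.2
    have e2 : ∫ z in F, (ψ z - c) = 0 := by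
      rw [integral_sub (hI ψ hψ.1 hψ.2) (integrableOn_const hv.ne), setIntegral_const, smul_eq_mul]
      have e3 : volume.real F = (volume F).toReal := rfl
      rw [e3, hc]
      field_simp
      ring
    simp only [e2] at e1
    linarith
  obtain ⟨C₁, hC₁, hmain⟩ := hFA Q P hP W (fun z => ψ z - c) L hT0 (fun z w => by
    have : (ψ z - c) - (ψ w - c) = ψ z - ψ w := by ring
    simp only [this]
    exact hL z w) hz0
  -- the family version
  have hfam : ∀ m : ℕ, 0 < m → ∀ B : Finset (ℍ → ℂ), Q.IsHeckeFamily F P (2 * m) B →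
      ∑ f ∈ B, ((∫ z in F, ψ z * (‖f z‖ ^ 2 * z.im ^ (2 * m))) - c) ^ 2 ≤ C₁ * (m : ℝ) ^ (1 - 1 / 2000 : ℝ) := by
    intro m hm0 B hb
    have hform : ∀ f ∈ B, Form Q.Γ m f := fun f hf => hb.form f hf
    have hcont : ∀ f ∈ B, Continuous f ∧ Continuous (FF m f) := fun f hf => clPHB.2.2.1 Q.Γ m f (hform f hf)
    have hinv : ∀ f ∈ B, ∀ γ ∈ Q.Γ, ∀ z : ℍ, FF m f (γ • z) = FF m f z := fun f hf => clPHA.2.2.2.1 Q.Γ m f (hform f hf)
    have hnorm : ∀ f ∈ B, ∫ z in F, FF m f z ^ 2 = 1 := by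
      intro f hf
      rw [← hb.norm f hf]
      exact integral_congr_ae (Filter.Eventually.of_forall fun z => (IEQD.dens_eq m f z).symm)
    -- the value of the discrepancy
    have hval : ∀ f ∈ B, (∫ z in F, ψ z * (‖f z‖ ^ 2 * z.im ^ (2 * m))) - c =
        ∫ z : ℍ, W.w z * ((ψ z - c) * FF m (fun u => ((Real.sqrt 2 : ℝ) : ℂ) * f u) z ^ 2) := by
      intro f hf
      have e1 := hR (fun z => (ψ z - c) * FF m f z ^ 2) (hT0.1.mul ((hcont f hf).2.pow 2)) (by
        intro γ hγ z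
        have := hT0.2 γ hγ z
        simp only at this ⊢
        rw [this, hinv f hf γ hγ z])
      have e2 : ∫ z in F, (ψ z - c) * FF m f z ^ 2 = (∫ z in F, ψ z * (‖f z‖ ^ 2 * z.im ^ (2 * m))) - c := by
        have i1 : IntegrableOn (fun z => ψ z * FF m f z ^ 2) F volume := hI _ (hψ.1.mul ((hcont f hf).2.pow 2)) (by
          intro γ hγ z; simp only [hψ.2 γ hγ z, hinv f hf γ hγ z])
        have i3 : IntegrableOn (fun z => FF m f z ^ 2) F volume := hI _ ((hcont f hf).2.pow 2) (by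
          intro γ hγ z; simp only [hinv f hf γ hγ z])
        calc ∫ z in F, (ψ z - c) * FF m f z ^ 2 = ∫ z in F, (ψ z * FF m f z ^ 2 - c * FF m f z ^ 2) := by
              refine integral_congr_ae (Filter.Eventually.of_forall fun z => ?_)
              simp only; ring
          _ = (∫ z in F, ψ z * FF m f z ^ 2) - c := by
              rw [integral_sub i1 (i3.const_mul c), integral_const_mul, hnorm f hf, mul_one]
          _ = _ := by
              congr 1
              refine integral_congr_ae (Filter.Eventually.of_forall fun z => ?_)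
              simp only [IEQD.dens_eq]
      rw [← e2, e1, ← integral_const_mul]
      refine integral_congr_ae (Filter.Eventually.of_forall fun z => ?_)
      simp only [IEQD.FF_smul]
      ring
    have hOrt : Ortho Q.Γ W m (fun (i : {f : ℍ → ℂ // f ∈ B}) u => ((Real.sqrt 2 : ℝ) : ℂ) * i.1 u) := by
      refine ⟨?_, ?_, ?_⟩
      · intro i
        obtain ⟨h1, h2⟩ := hform i.1 i.2
        refine ⟨?_, ?_⟩
        · exact mdifferentiable_const.mul h1
        · intro γ hγ z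
          simp only [h2 γ hγ z]
          ring
      · intro i j hij
        have e1 := hC (fun z => i.1 z * conj (j.1 z) * ((z.im : ℝ) : ℂ) ^ (2 * m)) (by
          have a1 := (hcont i.1 i.2).1
          have a2 := (hcont j.1 j.2).1
          have a3 : Continuous fun z : ℍ => ((z.im : ℝ) : ℂ) := Complex.continuous_ofReal.comp UpperHalfPlane.continuous_im
          exact (a1.mul (Complex.continuous_conj.comp a2)).mul (a3.pow _))
          (fun γ hγ z => IEQD.inv_sesq clPHA Q.Γ m i.1 j.1 (hform i.1 i.2) (hform j.1 j.2) γ hγ z)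
        rw [hb.ortho i.1 i.2 j.1 j.2 (fun h => hij (Subtype.ext h))] at e1
        have e2 : ∫ z : ℍ, (W.w z : ℂ) * (i.1 z * conj (j.1 z) * ((z.im : ℝ) : ℂ) ^ (2 * m)) = 0 := by
          have := e1.symm
          rwa [mul_eq_zero, or_iff_right (by norm_num : (2 : ℂ) ≠ 0)] at this
        calc ∫ z : ℍ, (W.w z : ℂ) * (((Real.sqrt 2 : ℝ) : ℂ) * i.1 z * conj (((Real.sqrt 2 : ℝ) : ℂ) * j.1 z) * ((z.im : ℝ) : ℂ) ^ (2 * m))
            = ∫ z : ℍ, 2 * ((W.w z : ℂ) * (i.1 z * conj (j.1 z) * ((z.im : ℝ) : ℂ) ^ (2 * m))) := by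
              refine integral_congr_ae (Filter.Eventually.of_forall fun z => ?_)
              simp only [map_mul, Complex.conj_ofReal]
              have hs : ((Real.sqrt 2 : ℝ) : ℂ) * ((Real.sqrt 2 : ℝ) : ℂ) = 2 := by
                rw [← Complex.ofReal_mul, Real.mul_self_sqrt (by norm_num)]; norm_num
              linear_combination ((W.w z : ℂ) * (i.1 z * conj (j.1 z) * ((z.im : ℝ) : ℂ) ^ (2 * m))) * hs
          _ = 0 := by rw [integral_const_mul, e2, mul_zero]
      · intro i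
        have e1 := hR (fun z => FF m i.1 z ^ 2) ((hcont i.1 i.2).2.pow 2) (by
          intro γ hγ z
          simp only [hinv i.1 i.2 γ hγ z])
        rw [hnorm i.1 i.2, ← integral_const_mul] at e1
        rw [e1]
        refine integral_congr_ae (Filter.Eventually.of_forall fun z => ?_)
        simp only [IEQD.FF_smul]
        ring
    have hm := hmain m hm0 {f : ℍ → ℂ // f ∈ B} (fun i u => ((Real.sqrt 2 : ℝ) : ℂ) * i.1 u) hOrt
      (fun i p hp => VFB.eigen_smul Q p (2 * m) i.1 _ (hb.eigen i.1 i.2 p hp))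
    refine le_trans (le_of_eq ?_) hm
    rw [← Finset.sum_coe_sort B]
    exact Finset.sum_congr rfl fun i _ => by rw [hval i.1 i.2]
  -- the dimension
  obtain ⟨c', hc', m₁, hdim⟩ := clDIM Q
  have hm₁ : (0 : ℝ) ≤ (m₁ : ℝ) := Nat.cast_nonneg _
  have hci : 0 < 1 / c' := one_div_pos.2 hc'
  refine ⟨C₁ * (1 + m₁ + 1 / c'), ?_⟩
  intro m hm0 B hb
  have hmR : (0 : ℝ) < (m : ℝ) := by exact_mod_cast hm0
  have h1 := hfam m hm0 B hb
  refine ⟨h1.trans ?_, ?_⟩
  · refine mul_le_mul_of_nonneg_right ?_ (Real.rpow_nonneg hmR.le _)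
    nlinarith
  · intro hspan
    have e3 : (m : ℝ) ^ (1 - 1 / 2000 : ℝ) = (m : ℝ) ^ (-1 / 2000 : ℝ) * m := by
      have := Real.rpow_add hmR (-1 / 2000) 1
      rw [Real.rpow_one] at this
      rw [← this]
      norm_num
    have hp0 : 0 ≤ (m : ℝ) ^ (-1 / 2000 : ℝ) := Real.rpow_nonneg hmR.le _
    rcases Finset.eq_empty_or_nonempty B with hB0 | hBne
    · subst hB0
      simp
    · have hcard : (1 : ℝ) ≤ (B.card : ℝ) := by exact_mod_cast hBne.card_pos
      have key : (m : ℝ) ≤ (1 + m₁ + 1 / c') * B.card := by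
        rcases le_or_gt m₁ m with hle | hlt
        · obtain ⟨n, hn, g, hg1, hg2⟩ := hdim m hle
          have h4 : n ≤ B.card := VFB.card_ge Q m n B hspan g hg1 hg2
          have h5 : c' * m ≤ (B.card : ℝ) := hn.trans (by exact_mod_cast h4)
          have h6 : (m : ℝ) ≤ 1 / c' * B.card := by
            rw [one_div, ← div_eq_inv_mul, le_div_iff₀ hc', mul_comm]
            exact h5
          nlinarith
        · have h5 : (m : ℝ) ≤ (m₁ : ℝ) := by exact_mod_cast hlt.le
          nlinarith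
      calc _ ≤ C₁ * (m : ℝ) ^ (1 - 1 / 2000 : ℝ) := h1
        _ = C₁ * (m : ℝ) ^ (-1 / 2000 : ℝ) * m := by rw [e3]; ring
        _ ≤ C₁ * (m : ℝ) ^ (-1 / 2000 : ℝ) * ((1 + m₁ + 1 / c') * B.card) := by
            exact mul_le_mul_of_nonneg_left key (mul_nonneg hC₁.le hp0)
        _ = _ := by ring

end HQ
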