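import Pool.Agent.Work.MP_d2a4bb_nt.QV.Stmts

/-!
# Block [d2a4bb QV], item G4: four dimensional Gaussian sums
-/

open UpperHalfPlane MeasureTheory Matrix
open scoped MatrixGroups Manifold Topology ComplexConjugate

namespace HQ

namespace VG4

/-- a product of summable families of nonnegative numbers -/
theorem piSum (n : ℕ) (g : Fin n → ℤ → ℝ) (hg : ∀ j k, 0 ≤ g j k)
    (hs : ∀ j, Summable (g j)) :
    HasSum (fun c : Fin n → ℤ => ∏ j, g j (c j)) (∏ j, ∑' k, g j k) := by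
  induction n with
  | zero =>
    have h := hasSum_unique (fun c : Fin 0 → ℤ => ∏ j, g j (c j))
    simp only [Finset.univ_eq_empty, Finset.prod_empty] at h ⊢
    exact h
  | succ n ih =>
    have h1 := ih (fun j => g j.succ) (fun j k => hg _ _) fun j => hs _
    have h2 : HasSum (g 0) (∑' k, g 0 k) := (hs 0).hasSum
    obtain ⟨G, hG⟩ : ∃ G : (Fin n → ℤ) → ℝ, G = fun c => ∏ j, g j.succ (c j) := ⟨_, rfl⟩
    rw [← hG] at h1
    have hg0 : 0 ≤ g 0 := fun k => hg 0 k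
    have hG0 : 0 ≤ G := fun c => by
      rw [hG]
      exact Finset.prod_nonneg fun j _ => hg _ _
    have h3 : Summable (fun p : ℤ × (Fin n → ℤ) => g 0 p.1 * G p.2) :=
      (hs 0).mul_of_nonneg h1.summable hg0 hG0
    have h4 := h2.mul h1 h3
    rw [Fin.prod_univ_succ]
    have h5 : (fun c : Fin (n + 1) → ℤ => ∏ j, g j (c j)) ∘
        (Fin.consEquiv (fun _ : Fin (n + 1) => ℤ)) =
        fun p : ℤ × (Fin n → ℤ) => g 0 p.1 * G p.2 := by
      funext p
      rw [hG]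
      simp only [Function.comp_apply, Fin.prod_univ_succ, Fin.consEquiv, Equiv.coe_fn_mk,
        Fin.cons_zero, Fin.cons_succ]
    rw [← (Fin.consEquiv (fun _ : Fin (n + 1) => ℤ)).hasSum_iff, h5]
    exact h4

theorem split {c₁ Λ : ℝ} {q : (Fin 4 → ℝ) → ℝ} (hc : 0 < c₁) (hq : PosForm c₁ Λ q) (i : Fin 4) :
    ∃ (A : ℝ) (B C : (Fin 3 → ℝ) → ℝ), c₁ ≤ A ∧ A ≤ Λ ∧
      (∀ r x, q (i.insertNth x r) = A * (x + B r) ^ 2 + C r) ∧
      ∀ r, c₁ * ∑ j, r j ^ 2 ≤ C r := by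
  obtain ⟨M, _, hM⟩ := hq.quad
  set b : (Fin 3 → ℝ) → ℝ := fun r => ∑ j, M i (i.succAbove j) * r j +
    ∑ j, M (i.succAbove j) i * r j with hb
  set c : (Fin 3 → ℝ) → ℝ := fun r => ∑ k, ∑ j, M (i.succAbove k) (i.succAbove j) * r k * r j
    with hcc
  have h1 : ∀ r x, q (i.insertNth x r) = M i i * x ^ 2 + b r * x + c r := by
    intro r x
    rw [hM, Fin.sum_univ_succAbove _ i, Fin.sum_univ_succAbove _ i]
    simp only [Fin.insertNth_apply_same, Fin.insertNth_apply_succAbove]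
    have h2 : ∀ k, ∑ j, M (i.succAbove k) j * r k *
        (i.insertNth (α := fun _ => ℝ) x r j) = M (i.succAbove k) i * r k * x +
        ∑ j, M (i.succAbove k) (i.succAbove j) * r k * r j := by
      intro k
      rw [Fin.sum_univ_succAbove _ i]
      simp only [Fin.insertNth_apply_same, Fin.insertNth_apply_succAbove]
    rw [Finset.sum_congr rfl fun k _ => h2 k, Finset.sum_add_distrib, hb, hcc]
    simp only [add_mul, Finset.sum_mul]
    have h3 : ∑ j, M i (i.succAbove j) * x * r j = ∑ j, M i (i.succAbove j) * r j * x :=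
      Finset.sum_congr rfl fun j _ => by ring
    rw [h3]
    ring
  have hsum : ∀ (x : ℝ) (r : Fin 3 → ℝ), ∑ j, (i.insertNth (α := fun _ => ℝ) x r j) ^ 2 =
      x ^ 2 + ∑ j, r j ^ 2 := by
    intro x r
    rw [Fin.sum_univ_succAbove _ i]
    simp only [Fin.insertNth_apply_same, Fin.insertNth_apply_succAbove]
  have hA : q (i.insertNth 1 0) = M i i := by
    rw [h1]
    simp [hb, hcc]
  have hA1 : c₁ ≤ M i i := by
    have h := hq.lower (i.insertNth 1 0)
    rw [hA, hsum] at h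
    simpa using h
  have hA2 : M i i ≤ Λ := by
    have h := hq.upper (i.insertNth 1 0)
    rw [hA, hsum] at h
    simpa using h
  have hA0 : 0 < M i i := hc.trans_le hA1
  refine ⟨M i i, fun r => b r / (2 * M i i), fun r => c r - b r ^ 2 / (4 * M i i), hA1, hA2,
    fun r x => ?_, fun r => ?_⟩
  · rw [h1]
    field_simp
    ring
  · have h := hq.lower (i.insertNth (-(b r / (2 * M i i))) r)
    rw [h1, hsum] at h
    have h5 : M i i * (-(b r / (2 * M i i))) ^ 2 + b r * (-(b r / (2 * M i i))) + c r =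
        c r - b r ^ 2 / (4 * M i i) := by
      field_simp
      ring
    rw [h5] at h
    refine le_trans ?_ h
    have : 0 ≤ c₁ * (-(b r / (2 * M i i))) ^ 2 := by positivity
    nlinarith

/-- the comparison product -/
theorem cmp (hG1 : SvG1) {c₁ P : ℝ} (hc : 0 < c₁) (hP : c₁ ≤ P) (n : ℕ) (s : Fin n → ℝ) :
    ∃ S, HasSum (fun c : Fin n → ℤ =>
        Real.exp (-Real.pi * (c₁ * ∑ j, ((c j : ℝ) + s j) ^ 2) / P)) S ∧
      S ≤ (4 * Real.sqrt (P / c₁)) ^ n := by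
  have h1 := piSum n (fun j k => Real.exp (-Real.pi * c₁ * ((k : ℝ) + s j) ^ 2 / P))
    (fun j k => (Real.exp_pos _).le) fun j => (hG1 c₁ P (s j) hc hP).1
  refine ⟨∏ j, ∑' k : ℤ, Real.exp (-Real.pi * c₁ * ((k : ℝ) + s j) ^ 2 / P), ?_, ?_⟩
  · have h2 : (fun c : Fin n → ℤ =>
        Real.exp (-Real.pi * (c₁ * ∑ j, ((c j : ℝ) + s j) ^ 2) / P)) =
        fun c : Fin n → ℤ => ∏ j, Real.exp (-Real.pi * c₁ * ((c j : ℝ) + s j) ^ 2 / P) := by
      funext c
      rw [← Real.exp_sum]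
      congr 1
      rw [Finset.mul_sum, Finset.mul_sum, Finset.sum_div]
      exact Finset.sum_congr rfl fun j _ => by ring
    rw [h2]
    exact h1
  · calc ∏ j, ∑' k : ℤ, Real.exp (-Real.pi * c₁ * ((k : ℝ) + s j) ^ 2 / P)
        ≤ ∏ _j : Fin n, (4 * Real.sqrt (P / c₁)) :=
          Finset.prod_le_prod (fun j _ => tsum_nonneg fun k => (Real.exp_pos _).le)
            fun j _ => (hG1 c₁ P (s j) hc hP).2.2
      _ = (4 * Real.sqrt (P / c₁)) ^ n := by simp

theorem norm_ee (a b : ℝ) :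
    ‖Complex.exp ((a : ℂ) + 2 * Real.pi * Complex.I * (b : ℂ))‖ = Real.exp a := by
  rw [Complex.norm_exp]
  congr 1
  simp

theorem summ (hG1 : SvG1) {c₁ Λ P : ℝ} {q : (Fin 4 → ℝ) → ℝ} (hc : 0 < c₁) (h1 : c₁ ≤ Λ)
    (h2 : Λ ≤ P) (hq : PosForm c₁ Λ q) (s : Fin 4 → ℝ) :
    Summable (fun c : Fin 4 → ℤ => Real.exp (-Real.pi * q (fun i => (c i : ℝ) + s i) / P)) := by
  obtain ⟨S, hS, _⟩ := cmp hG1 hc (h1.trans h2) 4 s
  have hP : 0 < P := hc.trans_le (h1.trans h2)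
  refine Summable.of_nonneg_of_le (fun c => (Real.exp_pos _).le) (fun c => ?_) hS.summable
  refine Real.exp_le_exp.2 ?_
  have h3 := hq.lower (fun i => (c i : ℝ) + s i)
  rw [div_le_div_iff_of_pos_right hP, neg_mul, neg_mul, neg_le_neg_iff]
  exact mul_le_mul_of_nonneg_left h3 Real.pi_pos.le

theorem ins (i : Fin 4) (n : ℤ) (u : Fin 3 → ℤ) (s : Fin 4 → ℝ) :
    (fun j => (((i.insertNth (α := fun _ => ℤ) n u) j : ℤ) : ℝ) + s j) =
      i.insertNth (α := fun _ => ℝ) ((n : ℝ) + s i) (fun j => (u j : ℝ) + s (i.succAbove j)) := by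
  funext j
  refine Fin.succAboveCases i ?_ (fun k => ?_) j
  · simp only [Fin.insertNth_apply_same]
  · simp only [Fin.insertNth_apply_succAbove]

theorem insum (i : Fin 4) (n : ℤ) (u : Fin 3 → ℤ) (ξ : Fin 4 → ℝ) :
    ∑ j, (((i.insertNth (α := fun _ => ℤ) n u) j : ℤ) : ℝ) * ξ j =
      (n : ℝ) * ξ i + ∑ j, (u j : ℝ) * ξ (i.succAbove j) := by
  rw [Fin.sum_univ_succAbove _ i]
  simp only [Fin.insertNth_apply_same, Fin.insertNth_apply_succAbove]

end VG4

theorem pvG4 (hG1 : SvG1) : SvG4 := by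
  intro c₁ Λ P q hc h1 h2 hq s
  refine ⟨VG4.summ hG1 hc h1 h2 hq s, fun ξ i => ?_⟩
  have hP : 0 < P := hc.trans_le (h1.trans h2)
  have hΛ : 0 < Λ := hc.trans_le h1
  set F : (Fin 4 → ℤ) → ℂ := fun c =>
    Complex.exp (((-Real.pi * q (fun i => (c i : ℝ) + s i) / P : ℝ) : ℂ) +
      2 * Real.pi * Complex.I * ((∑ j, (c j : ℝ) * ξ j : ℝ) : ℂ)) with hF
  have hFn : ∀ c, ‖F c‖ = Real.exp (-Real.pi * q (fun i => (c i : ℝ) + s i) / P) := fun c =>
    VG4.norm_ee _ _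
  have hFs : Summable F := by
    refine Summable.of_norm ?_
    simp_rw [hFn]
    exact VG4.summ hG1 hc h1 h2 hq s
  obtain ⟨A, B, C, hA1, hA2, hAq, hCl⟩ := VG4.split hc hq i
  have hA0 : 0 < A := hc.trans_le hA1
  set e : (Fin 3 → ℤ) × ℤ ≃ (Fin 4 → ℤ) :=
    (Equiv.prodComm _ _).trans (Fin.insertNthEquiv (fun _ : Fin 4 => ℤ) i) with he
  have hee : ∀ u n, e (u, n) = i.insertNth (α := fun _ => ℤ) n u := fun u n => rfl
  have hFe : Summable (fun p : (Fin 3 → ℤ) × ℤ => F (e p)) := hFs.comp_injective e.injective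
  have hsum : ∑' c, F c = ∑' u : Fin 3 → ℤ, ∑' n : ℤ, F (e (u, n)) := by
    rw [← e.tsum_eq F, hFe.tsum_prod]
  set K : ℝ := 4 * Real.sqrt (P / c₁) * Real.exp (-(Real.pi / 2) * (P / Λ) * dn (ξ i) ^ 2)
    with hK
  obtain ⟨S, hS, hS3⟩ := VG4.cmp hG1 hc (h1.trans h2) 3 (fun j => s (i.succAbove j))
  have hbd : ∀ u : Fin 3 → ℤ, ‖∑' n : ℤ, F (e (u, n))‖ ≤ K *
      Real.exp (-Real.pi * (c₁ * ∑ j, ((u j : ℝ) + s (i.succAbove j)) ^ 2) / P) := by
    intro u
    set r : Fin 3 → ℝ := fun j => (u j : ℝ) + s (i.succAbove j) with hr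
    have h3 : ∀ n : ℤ, F (e (u, n)) =
        Complex.exp (((-Real.pi * C r / P : ℝ) : ℂ) + 2 * Real.pi * Complex.I *
          ((∑ j, (u j : ℝ) * ξ (i.succAbove j) : ℝ) : ℂ)) *
        Complex.exp (((-Real.pi * A * ((n : ℝ) + (s i + B r)) ^ 2 / P : ℝ) : ℂ) +
          2 * Real.pi * Complex.I * (((n : ℝ) * ξ i : ℝ) : ℂ)) := by
      intro n
      rw [← Complex.exp_add, hF, hee]
      simp only
      rw [VG4.ins i n u s, VG4.insum i n u ξ, hAq]
      congr 1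
      push_cast
      ring
    simp_rw [h3]
    rw [tsum_mul_left, norm_mul, VG4.norm_ee]
    have h4 := (hG1 A P (s i + B r) hA0 (hA2.trans h2)).2.1 (ξ i)
    have h5 : Real.exp (-Real.pi * C r / P) ≤
        Real.exp (-Real.pi * (c₁ * ∑ j, r j ^ 2) / P) := by
      refine Real.exp_le_exp.2 ?_
      rw [div_le_div_iff_of_pos_right hP, neg_mul, neg_mul, neg_le_neg_iff]
      exact mul_le_mul_of_nonneg_left (hCl r) Real.pi_pos.le
    have h6 : 4 * Real.sqrt (P / A) * Real.exp (-(Real.pi / 2) * (P / A) * dn (ξ i) ^ 2) ≤ K := by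
      have h7 : P / A ≤ P / c₁ := div_le_div_of_nonneg_left hP.le hc hA1
      have h8 : P / Λ ≤ P / A := div_le_div_of_nonneg_left hP.le hA0 hA2
      refine mul_le_mul (mul_le_mul_of_nonneg_left (Real.sqrt_le_sqrt h7) (by norm_num))
        (Real.exp_le_exp.2 ?_) (Real.exp_pos _).le (by positivity)
      have h9 : (Real.pi / 2) * (P / Λ) * dn (ξ i) ^ 2 ≤ (Real.pi / 2) * (P / A) * dn (ξ i) ^ 2 :=
        mul_le_mul_of_nonneg_right (mul_le_mul_of_nonneg_left h8 (by positivity)) (sq_nonneg _)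
      linarith
    rw [mul_comm K]
    exact mul_le_mul h5 (h4.trans h6) (norm_nonneg _) (Real.exp_pos _).le
  rw [hsum]
  refine (tsum_of_norm_bounded (hS.mul_left K) hbd).trans ?_
  have hK0 : 0 ≤ K := by positivity
  refine (mul_le_mul_of_nonneg_left hS3 hK0).trans (le_of_eq ?_)
  have h10 : Real.sqrt (P / c₁) ^ 4 = P ^ 2 / c₁ ^ 2 := by
    have : Real.sqrt (P / c₁) ^ 2 = P / c₁ := Real.sq_sqrt (by positivity)
    calc Real.sqrt (P / c₁) ^ 4 = (Real.sqrt (P / c₁) ^ 2) ^ 2 := by ring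
      _ = (P / c₁) ^ 2 := by rw [this]
      _ = P ^ 2 / c₁ ^ 2 := by rw [div_pow]
  rw [hK]
  calc 4 * Real.sqrt (P / c₁) * Real.exp (-(Real.pi / 2) * (P / Λ) * dn (ξ i) ^ 2) *
        (4 * Real.sqrt (P / c₁)) ^ 3 = 256 * Real.sqrt (P / c₁) ^ 4 *
        Real.exp (-(Real.pi / 2) * (P / Λ) * dn (ξ i) ^ 2) := by ring
    _ = _ := by rw [h10]; ring

end HQ
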