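import Pool.Agent.Work.MP_d2a4bb_nt.QV.Stmts

/-!
# I1: the facts about one Hecke operator
-/

open UpperHalfPlane MeasureTheory Matrix
open scoped MatrixGroups Manifold Topology ComplexConjugate

namespace HQ

namespace VI1

theorem reps_card {Γ : Subgroup SL(2, ℝ)} {E : Set SL(2, ℝ)} {R R' : Finset SL(2, ℝ)}
    (h : Reps Γ E R) (h' : Reps Γ E R') : R.card ≤ R'.card := by
  classical
  have h1 : ∀ α ∈ R, ∃ β ∈ R', α * β⁻¹ ∈ Γ := fun α hα => h'.2.1 α (h.1 α hα)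
  choose! g hg hg' using h1
  refine Finset.card_le_card_of_injOn g (fun α hα => hg α hα) ?_
  intro α hα β hβ hab
  have h2 := hg' α hα
  have h3 := hg' β hβ
  have hab' : g α = g β := hab
  rw [hab'] at h2
  refine h.2.2 α hα β hβ ?_
  have h4 := Γ.mul_mem h2 (Γ.inv_mem h3)
  have h5 : α * (g β)⁻¹ * (β * (g β)⁻¹)⁻¹ = α * β⁻¹ := by group
  rwa [h5] at h4

theorem core (S : Setup) (Γ' : Subgroup SL(2, ℝ)) (h : S.Γ = Γ') :
    Reps Γ' S.E S.R ∧
    (∀ a : List SL(2, ℝ), a ∈ words Γ' S.R 2 ↔ a.length = 2 ∧ IsWord Γ' S.R a) ∧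
    (words Γ' S.R 2).card = S.R.card * (S.R.card - 1) ∧
    (∀ a ∈ words Γ' S.R 2, ∀ b ∈ words Γ' S.R 2, a.prod * b.prod⁻¹ ∈ Γ' → a = b) ∧
    (∀ y : ℍ → ℝ, Test Γ' y → Test Γ' (Tf S.R y)) ∧
    (∀ (W : Weight Γ') (m : ℕ) (f : ℍ → ℂ) (l : ℂ), Form Γ' m f → Eigen S.R m f l →
      ∫ z : ℍ, W.w z * FF m f z ^ 2 = 1 → l.im = 0) ∧
    (∀ (W : Weight Γ') (m : ℕ) (f : ℍ → ℂ) (l : ℝ) (y : ℍ → ℝ), Form Γ' m f →
      Eigen S.R m f (l : ℂ) → Test Γ' y →
      (∫ z : ℍ, (W.w z : ℂ) * ∑ a ∈ words Γ' S.R 2, ((y (vtx a 1 • z) - y z : ℝ) : ℂ) *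
        (phi m f z 1 * conj (phi m f z a.prod))).re =
      ∫ z : ℍ, W.w z * (((S.R.card : ℝ) * y z - Tf S.R y z) * FF m f z ^ 2)) := by
  subst h
  have VOL : StVOL := prVOL
  have JJ : StJJ := prJJ
  have PHA : StPHA := prPHA JJ
  have PHB : StPHB := prPHB JJ
  have WRD : StWRD := prWRD
  have EXT : StEXT := prEXT PHA PHB WRD
  have REV : StREV := prREV
  have MTP : StMTP := prMTP VOL
  have SYM : StSYM := prSYM MTP REV WRD PHA PHB
  have RED : StRED := prRED SYM WRD PHA PHB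
  have BAS : StBAS := prBAS WRD EXT SYM PHA PHB
  have TFI : StTFI := prTFI MTP
  have hmem := (WRD S).1
  have hvtx : ∀ a : List SL(2, ℝ), vtx a 0 = 1 := fun a => ((WRD S).2.2.2.2.1 a).2
  have hcard := (WRD S).2.2.2.2.2.2
  have hW : Nonempty (Weight S.Γ) := by
    refine prWGT S.Γ (fun K hK => (S.fin 1 K hK).subset ?_) ⟨S.K, S.K_compact, S.K_cover⟩
    rintro γ ⟨h1, h2⟩
    exact ⟨⟨[γ], rfl, by intro e he; right; rw [List.mem_singleton.1 he]; exact h1, by simp⟩, h2⟩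
  obtain ⟨W0⟩ := hW
  refine ⟨⟨S.R_mem, S.R_rep, S.R_inj⟩, hmem 2, ?_, ?_, fun y hy => (TFI S W0 y hy).1,
    fun W m f l h1 h2 h3 => RED S W m f l h1 h2 h3, ?_⟩
  · have h1 := hcard 1
    rw [pow_one] at h1
    exact h1
  · intro a ha b hb hab
    exact S.inj a b ((hmem 2 a).1 ha).2 ((hmem 2 b).1 hb).2 hab
  · intro W m f l y hf he hy
    rw [← BAS S W m f l y hf he hy]
    obtain ⟨hfc, hFc⟩ := PHB.2.2.1 S.Γ m f hf
    have hph : ∀ g, Continuous fun z => phi m f z g := fun g => PHB.2.1 m f hfc g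
    have hyc : Continuous y := hy.1
    have hi : ∀ i : ℕ, Integrable fun z : ℍ => (W.w z : ℂ) * ∑ a ∈ words S.Γ S.R 2,
        (y (vtx a i • z) : ℂ) * (phi m f z 1 * conj (phi m f z a.prod)) := by
      intro i
      apply IBAS.intgC W
      refine continuous_finsetSum _ fun a _ => ?_
      have h1 : Continuous fun z : ℍ => (y (vtx a i • z) : ℂ) :=
        Complex.continuous_ofReal.comp (hyc.comp (continuous_const_smul _))
      exact h1.mul ((hph 1).mul (Complex.continuous_conj.comp (hph a.prod)))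
    rw [← Complex.sub_re]
    congr 1
    unfold NN
    rw [← integral_sub (hi 1) (hi 0)]
    refine integral_congr_ae (Filter.Eventually.of_forall fun z => ?_)
    simp only [hvtx, one_smul]
    rw [← mul_sub, ← Finset.sum_sub_distrib]
    congr 1
    refine Finset.sum_congr rfl fun a _ => ?_
    push_cast
    ring

end VI1

theorem pvI1 : SvI1 := by
  intro Q p hp hg hi
  obtain ⟨S, hΓ, hE, hT⟩ := prSTP Q p hp hg (by rw [hi]; have := hp.two_le; omega)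
  obtain ⟨h1, h2, h3, h4, h5, h6, h7⟩ := VI1.core S Q.Γ hΓ
  obtain ⟨R', hR', hc, -⟩ := prREP Q p hp
  rw [hE] at h1
  have hcard : S.R.card = p + 1 := by
    rw [← hi, ← hc]
    exact le_antisymm (VI1.reps_card h1 hR') (VI1.reps_card hR' h1)
  refine ⟨S.R, ⟨hp, h1, hcard, hT, h2, ?_, h4, h5, h6, ?_⟩⟩
  · rw [h3, hcard, Nat.add_sub_cancel]
  · intro W m f l y hf he hy
    rw [h7 W m f l y hf he hy, hcard]
    push_cast
    rfl

end HQ
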