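import Pool.Agent.Work.MP_d2a4bb_nt.QV.Stmts

/-!
# Item I2: average of the exact identities over the primes
-/

set_option autoImplicit false

open UpperHalfPlane MeasureTheory Matrix
open scoped MatrixGroups Manifold Topology ComplexConjugate

namespace HQ

namespace VI2

/-- Cauchy-Schwarz for the average of the Hecke operators -/
theorem avg (T : Finset ℕ) (hT : T.Nonempty) (x : ℕ → ℝ) (η : ℝ) (hη : 0 ≤ η)
    (h : ∑ p ∈ T, x p ^ 2 ≤ η ^ 2 * T.card) : |(1 / (T.card : ℝ)) * ∑ p ∈ T, x p| ≤ η := by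
  have hN : (0 : ℝ) < T.card := by exact_mod_cast hT.card_pos
  have h1 : (∑ p ∈ T, x p) ^ 2 ≤ (T.card : ℝ) * ∑ p ∈ T, x p ^ 2 := sq_sum_le_card_mul_sum_sq
  have h2 : ((1 / (T.card : ℝ)) * ∑ p ∈ T, x p) ^ 2 ≤ η ^ 2 := by
    rw [mul_pow, one_div, inv_pow, inv_mul_le_iff₀ (by positivity)]
    calc (∑ p ∈ T, x p) ^ 2 ≤ (T.card : ℝ) * ∑ p ∈ T, x p ^ 2 := h1
      _ ≤ (T.card : ℝ) * (η ^ 2 * T.card) := by gcongr
      _ = (T.card : ℝ) ^ 2 * η ^ 2 := by ring
  exact abs_le_of_sq_le_sq h2 hη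

end VI2

open ICSI VI2 in
theorem pvI2 : SvI2 := by
  intro Q W T R hT hR ψ m f η hψ hf hE hn hη hA
  have hPHA : StPHA := prPHA prJJ
  have hPHB : StPHB := prPHB prJJ
  have hyc : Continuous ψ := hψ.1
  have hfc : Continuous f := (hPHB.2.2.1 Q.Γ m f hf).1
  have hFc : Continuous (FF m f) := (hPHB.2.2.1 Q.Γ m f hf).2
  have hphi : ∀ g : SL(2, ℝ), Continuous fun z : ℍ => phi m f z g := hPHB.2.1 m f hfc
  have hcv : ∀ g : SL(2, ℝ), Continuous fun z : ℍ => ψ (g • z) := fun g =>
    hyc.comp (continuous_const_smul g)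
  have hN : (0 : ℝ) < T.card := by exact_mod_cast hT.card_pos
  set N : ℝ := ((T.card : ℕ) : ℝ) with hNdef
  -- the sum over the words, for one prime
  set G : ℍ → ℂ := fun z => ∑ p ∈ T, ∑ a ∈ words Q.Γ (R p) 2,
    (((ψ (vtx a 1 • z) - ψ z) / ((p + 1) * N) : ℝ) : ℂ) * phi m f z a.prod with hG
  have hGc : Continuous G := by
    refine continuous_finsetSum _ fun p _ => continuous_finsetSum _ fun a _ => ?_
    refine (Complex.continuous_ofReal.comp ?_).mul (hphi a.prod)
    exact ((hcv _).sub hyc).div_const _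
  set A : ℍ → ℝ := fun z => (1 / N) * ∑ p ∈ T, Tf (R p) ψ z / (p + 1) with hAdef
  have hTc : ∀ p : ℕ, Continuous (Tf (R p) ψ) := by
    intro p
    unfold Tf
    exact continuous_finsetSum _ fun β _ => hcv β
  have hAc : Continuous A :=
    continuous_const.mul (continuous_finsetSum _ fun p _ => (hTc p).div_const _)
  have hAle : ∀ z, |A z| ≤ η := by
    intro z
    exact avg T hT (fun p => Tf (R p) ψ z / (p + 1)) η hη (hA z)
  -- the averaged identity
  have key : ∫ z : ℍ, W.w z * (phi m f z 1 * conj (G z)).re =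
      ∫ z : ℍ, W.w z * ((ψ z - A z) * FF m f z ^ 2) := by
    -- each prime
    have hone : ∀ p ∈ T, ∫ z : ℍ, W.w z * (phi m f z 1 * conj (∑ a ∈ words Q.Γ (R p) 2,
        (((ψ (vtx a 1 • z) - ψ z) / ((p + 1) * N) : ℝ) : ℂ) * phi m f z a.prod)).re =
        ∫ z : ℍ, W.w z * ((ψ z / N - Tf (R p) ψ z / ((p + 1) * N)) * FF m f z ^ 2) := by
      intro p hp
      obtain ⟨l, hl⟩ := hE p hp
      have hl0 := (hR p hp).real W m f l hf hl hn
      have hl' : l = (l.re : ℂ) := by
        apply Complex.ext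
        · simp
        · simp [hl0]
      rw [hl'] at hl
      have hid := (hR p hp).ident W m f l.re ψ hf hl hψ
      have hp1 : (0 : ℝ) < (p : ℝ) + 1 := by positivity
      have hcc : Continuous fun z : ℍ => ∑ a ∈ words Q.Γ (R p) 2,
          ((ψ (vtx a 1 • z) - ψ z : ℝ) : ℂ) * (phi m f z 1 * conj (phi m f z a.prod)) := by
        refine continuous_finsetSum _ fun a _ => ?_
        exact (Complex.continuous_ofReal.comp ((hcv _).sub hyc)).mul
          ((hphi 1).mul (Complex.continuous_conj.comp (hphi a.prod)))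
      have hk := Complex.reCLM.integral_comp_comm (intC W hcc)
      simp only [Complex.reCLM_apply] at hk
      rw [← hk] at hid
      have e1 : ∀ z : ℍ, W.w z * (phi m f z 1 * conj (∑ a ∈ words Q.Γ (R p) 2,
          (((ψ (vtx a 1 • z) - ψ z) / ((p + 1) * N) : ℝ) : ℂ) * phi m f z a.prod)).re =
          (1 / ((p + 1) * N)) * ((W.w z : ℂ) * ∑ a ∈ words Q.Γ (R p) 2,
            ((ψ (vtx a 1 • z) - ψ z : ℝ) : ℂ) *
              (phi m f z 1 * conj (phi m f z a.prod))).re := by
        intro z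
        rw [Complex.re_ofReal_mul]
        have e2 : phi m f z 1 * conj (∑ a ∈ words Q.Γ (R p) 2,
            (((ψ (vtx a 1 • z) - ψ z) / ((p + 1) * N) : ℝ) : ℂ) * phi m f z a.prod) =
            ((1 / ((p + 1) * N) : ℝ) : ℂ) * ∑ a ∈ words Q.Γ (R p) 2,
              ((ψ (vtx a 1 • z) - ψ z : ℝ) : ℂ) *
                (phi m f z 1 * conj (phi m f z a.prod)) := by
          rw [map_sum, Finset.mul_sum, Finset.mul_sum]
          refine Finset.sum_congr rfl fun a _ => ?_
          rw [map_mul, Complex.conj_ofReal]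
          push_cast
          ring
        rw [e2, Complex.re_ofReal_mul]
        ring
      have e3 : ∀ z : ℍ, W.w z * ((ψ z / N - Tf (R p) ψ z / ((p + 1) * N)) * FF m f z ^ 2) =
          (1 / ((p + 1) * N)) *
            (W.w z * ((((p : ℝ) + 1) * ψ z - Tf (R p) ψ z) * FF m f z ^ 2)) := by
        intro z
        field_simp
      simp_rw [e1, e3]
      rw [integral_const_mul, integral_const_mul, hid]
    have e4 : ∀ z : ℍ, W.w z * (phi m f z 1 * conj (G z)).re =
        ∑ p ∈ T, W.w z * (phi m f z 1 * conj (∑ a ∈ words Q.Γ (R p) 2,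
        (((ψ (vtx a 1 • z) - ψ z) / ((p + 1) * N) : ℝ) : ℂ) * phi m f z a.prod)).re := by
      intro z
      rw [hG]
      simp only []
      rw [map_sum, Finset.mul_sum, Complex.re_sum, Finset.mul_sum]
    have e5 : ∀ z : ℍ, W.w z * ((ψ z - A z) * FF m f z ^ 2) =
        ∑ p ∈ T, W.w z * ((ψ z / N - Tf (R p) ψ z / ((p + 1) * N)) * FF m f z ^ 2) := by
      intro z
      have e6 : ∑ p ∈ T, Tf (R p) ψ z / (((p : ℝ) + 1) * N) = A z := by
        rw [hAdef]
        simp only []
        rw [Finset.mul_sum]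
        refine Finset.sum_congr rfl fun p _ => ?_
        rw [← div_div]
        ring
      rw [← Finset.mul_sum, ← Finset.sum_mul, Finset.sum_sub_distrib, Finset.sum_const,
        nsmul_eq_mul, ← hNdef, mul_div_cancel₀ _ hN.ne', e6]
    simp_rw [e4, e5]
    rw [integral_finsetSum, integral_finsetSum]
    · exact Finset.sum_congr rfl hone
    · intro p _
      refine intR W ?_
      exact ((hyc.div_const _).sub ((hTc p).div_const _)).mul (hFc.pow 2)
    · intro p _
      refine intR W ?_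
      refine Complex.continuous_re.comp ((hphi 1).mul (Complex.continuous_conj.comp ?_))
      refine continuous_finsetSum _ fun a _ => ?_
      refine (Complex.continuous_ofReal.comp ?_).mul (hphi a.prod)
      exact ((hcv _).sub hyc).div_const _
  -- Cauchy-Schwarz
  have h1 : ∫ z : ℍ, W.w z * ‖phi m f z 1‖ ^ 2 = 1 := by
    simp_rw [hPHA.2.2.1 m f, one_smul]
    exact hn
  have hI := ICSI.cs W (fun z => phi m f z 1) G (hphi 1) hGc h1 _ key
  -- the mean
  have hJ : |∫ z : ℍ, W.w z * (A z * FF m f z ^ 2)| ≤ η := by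
    have hb : ∀ z : ℍ, |W.w z * (A z * FF m f z ^ 2)| ≤ η * (W.w z * FF m f z ^ 2) := by
      intro z
      rw [abs_mul, abs_mul, abs_of_nonneg (W.nonneg z), abs_of_nonneg (sq_nonneg (FF m f z))]
      have := mul_le_mul_of_nonneg_right (hAle z)
        (mul_nonneg (W.nonneg z) (sq_nonneg (FF m f z)))
      calc W.w z * (|A z| * FF m f z ^ 2) = |A z| * (W.w z * FF m f z ^ 2) := by ring
        _ ≤ _ := this
    have hi1 : Integrable (fun z : ℍ => W.w z * (A z * FF m f z ^ 2)) :=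
      intR W (hAc.mul (hFc.pow 2))
    have hi2 : Integrable (fun z : ℍ => η * (W.w z * FF m f z ^ 2)) :=
      (intR W (hFc.pow 2)).const_mul _
    calc |∫ z : ℍ, W.w z * (A z * FF m f z ^ 2)|
        ≤ ∫ z : ℍ, |W.w z * (A z * FF m f z ^ 2)| := abs_integral_le_integral_abs
      _ ≤ ∫ z : ℍ, η * (W.w z * FF m f z ^ 2) := integral_mono hi1.abs hi2 hb
      _ = η := by rw [integral_const_mul, hn, mul_one]
  have hsplit : ∫ z : ℍ, W.w z * (ψ z * FF m f z ^ 2) =
      (∫ z : ℍ, W.w z * ((ψ z - A z) * FF m f z ^ 2)) +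
        ∫ z : ℍ, W.w z * (A z * FF m f z ^ 2) := by
    have i1 : Integrable (fun z : ℍ => W.w z * ((ψ z - A z) * FF m f z ^ 2)) :=
      intR W ((hyc.sub hAc).mul (hFc.pow 2))
    have i2 : Integrable (fun z : ℍ => W.w z * (A z * FF m f z ^ 2)) :=
      intR W (hAc.mul (hFc.pow 2))
    rw [← integral_add i1 i2]
    refine integral_congr_ae (Filter.Eventually.of_forall fun z => ?_)
    simp only []
    ring
  have hJ2 : (∫ z : ℍ, W.w z * (A z * FF m f z ^ 2)) ^ 2 ≤ η ^ 2 := by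
    rw [← sq_abs]
    exact pow_le_pow_left₀ (abs_nonneg _) hJ 2
  rw [hsplit]
  have hfin := add_sq_le (a := ∫ z : ℍ, W.w z * ((ψ z - A z) * FF m f z ^ 2))
    (b := ∫ z : ℍ, W.w z * (A z * FF m f z ^ 2))
  calc _ ≤ 2 * ((∫ z : ℍ, W.w z * ((ψ z - A z) * FF m f z ^ 2)) ^ 2 +
        (∫ z : ℍ, W.w z * (A z * FF m f z ^ 2)) ^ 2) := hfin
    _ ≤ 2 * ((∫ z : ℍ, W.w z * ‖G z‖ ^ 2) + η ^ 2) := by gcongr
    _ = _ := by ring

end HQ
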