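import Pool.Agent.Work.MP_d2a4bb_nt.QV.Stmts

/-!
# Block QV, item M1: Riemann sums for Gaussian theta integrands
-/

open UpperHalfPlane MeasureTheory Matrix
open scoped MatrixGroups Manifold Topology ComplexConjugate

namespace HQ

namespace VM1

/-- variation of a quadratic form -/
theorem form_diff {C : ℝ} {q : (Fin 4 → ℝ) → ℝ} (hq : BddForm C q) (x s : Fin 4 → ℝ) (e : ℝ)
    (he : 0 < e) : |q (fun i => x i + s i) - q x| ≤
      C * (e ^ 2 * ∑ i, x i ^ 2 + (∑ i, s i ^ 2) / e ^ 2) + C * ∑ i, s i ^ 2 := by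
  obtain ⟨⟨M, hM, hq1⟩, hb⟩ := hq
  have s10 := hM.apply 0 1
  have s20 := hM.apply 0 2
  have s30 := hM.apply 0 3
  have s21 := hM.apply 1 2
  have s31 := hM.apply 1 3
  have s32 := hM.apply 2 3
  have h1 := hb (fun i => e * x i + s i / e)
  have h2 := hb (fun i => e * x i - s i / e)
  have h3 := hb s
  have e1 : q (fun i => x i + s i) - q x =
      (q (fun i => e * x i + s i / e) - q (fun i => e * x i - s i / e)) / 2 + q s := by
    simp only [hq1, Fin.sum_univ_four]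
    rw [s10, s20, s30, s21, s31, s32]
    field_simp
    ring
  have e2 : (∑ i, (e * x i + s i / e) ^ 2) + ∑ i, (e * x i - s i / e) ^ 2 =
      2 * (e ^ 2 * ∑ i, x i ^ 2 + (∑ i, s i ^ 2) / e ^ 2) := by
    simp only [Fin.sum_univ_four]
    field_simp
    ring
  have e3 : C * (∑ i, (e * x i + s i / e) ^ 2) + C * ∑ i, (e * x i - s i / e) ^ 2 =
      2 * (C * (e ^ 2 * ∑ i, x i ^ 2 + (∑ i, s i ^ 2) / e ^ 2)) := by
    rw [← mul_add, e2]; ring
  rw [e1, abs_le]
  rw [abs_le] at h1 h2 h3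
  constructor <;> linarith [h1.1, h1.2, h2.1, h2.2, h3.1, h3.2]

/-- difference of exponentials -/
theorem exp_diff (z w : ℂ) (m : ℝ) (hz : z.re ≤ m) (hw : w.re ≤ m) :
    ‖Complex.exp z - Complex.exp w‖ ≤ Real.exp m * ‖z - w‖ := by
  refine Convex.norm_image_sub_le_of_norm_deriv_le (𝕜 := ℂ) (s := {c : ℂ | c.re ≤ m})
    (fun x _ => Complex.differentiableAt_exp) ?_ (convex_halfSpace_re_le m) hw hz
  intro x hx
  rw [Complex.deriv_exp, Complex.norm_exp]
  exact Real.exp_le_exp.2 hx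

noncomputable def F (P β : ℝ) (q D : (Fin 4 → ℝ) → ℝ) (t : Fin 4 → ℝ) : ℂ :=
  Complex.exp (((-Real.pi * q t / P : ℝ) : ℂ) + 2 * Real.pi * Complex.I * ((β * D t : ℝ) : ℂ))

theorem F_norm (P β : ℝ) (q D : (Fin 4 → ℝ) → ℝ) (t : Fin 4 → ℝ) :
    ‖F P β q D t‖ = Real.exp (-Real.pi * q t / P) := by
  unfold F
  rw [Complex.norm_exp]
  congr 1
  simp

/-- the pointwise estimate -/
theorem ptw {c₁ C₃ Λ P β y g : ℝ} {q D : (Fin 4 → ℝ) → ℝ} (hc : 0 < c₁) (hc1 : c₁ ≤ 1)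
    (hC : 0 < C₃) (hΛ : 1 ≤ Λ) (hP : 0 < P) (hy : 0 < y) (hyP : y ^ 2 = P) (hg : 0 < g)
    (hgy : g ≤ y) (hq : PosForm c₁ Λ q) (hD : BddForm C₃ D) (x s : Fin 4 → ℝ)
    (hs : ∀ i, |s i| ≤ g) :
    ‖F P β q D x - F P β q D (fun i => x i + s i)‖ ≤
      ((Real.pi + 2 * Real.pi * C₃) * Real.exp (4 * Real.pi) * (8 + 4 / (Real.pi * c₁))) *
        ((Λ + |β| * P) * (g / y)) * Real.exp (-(Real.pi * c₁ / 4) * ((∑ i, x i ^ 2) / P)) := by
  have hpi := Real.pi_pos
  set X : ℝ := ∑ i, x i ^ 2 with hX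
  set S : ℝ := ∑ i, s i ^ 2 with hS
  have hX0 : 0 ≤ X := Finset.sum_nonneg fun i _ => sq_nonneg _
  have hS0 : 0 ≤ S := Finset.sum_nonneg fun i _ => sq_nonneg _
  have hS4 : S ≤ 4 * g ^ 2 := by
    have h1 : S ≤ ∑ _i : Fin 4, g ^ 2 := by
      apply Finset.sum_le_sum
      intro i _
      rw [← sq_abs (s i)]
      exact pow_le_pow_left₀ (abs_nonneg _) (hs i) 2
    simpa using h1
  have hq' : BddForm Λ q := by
    refine ⟨hq.quad, fun t => ?_⟩
    rw [abs_of_nonneg]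
    · exact hq.upper t
    · exact le_trans (mul_nonneg hc.le (Finset.sum_nonneg fun i _ => sq_nonneg _)) (hq.lower t)
  set ε : ℝ := g / y with hε
  have hε0 : 0 < ε := div_pos hg hy
  have hε1 : ε ≤ 1 := (div_le_one hy).2 hgy
  have hge : g = ε * y := by rw [hε]; field_simp
  have he : 0 < Real.sqrt ε := Real.sqrt_pos.2 hε0
  have hee : Real.sqrt ε ^ 2 = ε := Real.sq_sqrt hε0.le
  have key : ∀ (C : ℝ) (r : (Fin 4 → ℝ) → ℝ), 0 < C → BddForm C r →
      |r (fun i => x i + s i) - r x| ≤ C * (ε * (X + 8 * P)) := by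
    intro C r hC0 hr
    have h1 := form_diff hr x s (Real.sqrt ε) he
    rw [hee, ← hX, ← hS] at h1
    have h2 : S / ε ≤ 4 * ε * P := by
      rw [div_le_iff₀ hε0]
      calc S ≤ 4 * g ^ 2 := hS4
        _ = 4 * ε * P * ε := by rw [hge, ← hyP]; ring
    have h3 : S ≤ 4 * ε * P := by
      calc S ≤ 4 * g ^ 2 := hS4
        _ = (4 * ε * P) * ε := by rw [hge, ← hyP]; ring
        _ ≤ (4 * ε * P) * 1 := by gcongr
        _ = 4 * ε * P := mul_one _
    calc |r (fun i => x i + s i) - r x| ≤ C * (ε * X + S / ε) + C * S := h1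
      _ ≤ C * (ε * X + 4 * ε * P) + C * (4 * ε * P) := by gcongr
      _ = C * (ε * (X + 8 * P)) := by ring
  set w : ℝ := X / P with hw
  have hw0 : 0 ≤ w := div_nonneg hX0 hP.le
  have k1 := key Λ q (by linarith) hq'
  have k2 := key C₃ D hC hD
  set t : Fin 4 → ℝ := fun i => x i + s i with ht
  have hT : X / 2 - S ≤ ∑ i, t i ^ 2 := by
    rw [hX, hS, ht]
    simp only [Fin.sum_univ_four]
    nlinarith [sq_nonneg (x 0 + 2 * s 0), sq_nonneg (x 1 + 2 * s 1), sq_nonneg (x 2 + 2 * s 2),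
      sq_nonneg (x 3 + 2 * s 3)]
  have hSP : S ≤ 4 * P := by
    calc S ≤ 4 * g ^ 2 := hS4
      _ ≤ 4 * y ^ 2 := by gcongr
      _ = 4 * P := by rw [hyP]
  -- real parts
  have r1 : -Real.pi * q x / P ≤ 4 * Real.pi - Real.pi * c₁ / 2 * w := by
    have h1 := hq.lower x
    rw [← hX] at h1
    have h2 : -Real.pi * q x / P ≤ -Real.pi * (c₁ * X) / P := by
      apply div_le_div_of_nonneg_right _ hP.le
      nlinarith
    have h3 : -Real.pi * (c₁ * X) / P = -(Real.pi * c₁ * w) := by rw [hw]; ring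
    have h4 : 0 ≤ Real.pi * c₁ * w := by positivity
    rw [h3] at h2
    nlinarith
  have r2 : -Real.pi * q t / P ≤ 4 * Real.pi - Real.pi * c₁ / 2 * w := by
    have h1 := hq.lower t
    have h2 : c₁ * (X / 2 - S) ≤ q t := le_trans (by gcongr) h1
    have h3 : -Real.pi * q t / P ≤ -Real.pi * (c₁ * (X / 2 - S)) / P := by
      apply div_le_div_of_nonneg_right _ hP.le
      nlinarith
    have h4 : -Real.pi * (c₁ * (X / 2 - S)) / P = Real.pi * c₁ * (S / P) - Real.pi * c₁ / 2 * w := by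
      rw [hw]; ring
    have h5 : S / P ≤ 4 := by rw [div_le_iff₀ hP]; linarith
    have h6 : Real.pi * c₁ * (S / P) ≤ Real.pi * 1 * 4 := by
      have : 0 ≤ S / P := div_nonneg hS0 hP.le
      gcongr
    rw [h4] at h3
    linarith
  have hd : ‖F P β q D x - F P β q D t‖ ≤ Real.exp (4 * Real.pi - Real.pi * c₁ / 2 * w) *
      ((Real.pi + 2 * Real.pi * C₃) * ((Λ + |β| * P) * ε) * (w + 8)) := by
    unfold F
    refine le_trans (exp_diff _ _ (4 * Real.pi - Real.pi * c₁ / 2 * w) (by simpa using r1)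
      (by simpa using r2)) ?_
    apply mul_le_mul_of_nonneg_left _ (Real.exp_pos _).le
    have e1 : (((-Real.pi * q x / P : ℝ) : ℂ) + 2 * Real.pi * Complex.I * ((β * D x : ℝ) : ℂ)) -
        (((-Real.pi * q t / P : ℝ) : ℂ) + 2 * Real.pi * Complex.I * ((β * D t : ℝ) : ℂ)) =
        ((Real.pi / P * (q t - q x) : ℝ) : ℂ) +
          ((2 * Real.pi * β * (D x - D t) : ℝ) : ℂ) * Complex.I := by
      push_cast; ring
    rw [e1]
    refine le_trans (norm_add_le _ _) ?_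
    rw [norm_mul, Complex.norm_I, mul_one, Complex.norm_real, Complex.norm_real, Real.norm_eq_abs,
      Real.norm_eq_abs, abs_mul, abs_mul, abs_mul, abs_of_pos (div_pos hpi hP),
      abs_of_pos (by positivity : (0 : ℝ) < 2 * Real.pi), abs_sub_comm (D x)]
    have a1 : Real.pi / P * |q t - q x| ≤ Real.pi * Λ * ε * (w + 8) := by
      calc Real.pi / P * |q t - q x| ≤ Real.pi / P * (Λ * (ε * (X + 8 * P))) := by gcongr
        _ = Real.pi * Λ * ε * (w + 8) := by rw [hw]; field_simp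
    have a2 : 2 * Real.pi * |β| * |D t - D x| ≤ 2 * Real.pi * C₃ * (|β| * P) * ε * (w + 8) := by
      calc 2 * Real.pi * |β| * |D t - D x| ≤ 2 * Real.pi * |β| * (C₃ * (ε * (X + 8 * P))) := by
            gcongr
        _ = 2 * Real.pi * C₃ * (|β| * P) * ε * (w + 8) := by rw [hw]; field_simp
    have b0 : 0 ≤ |β| * P := by positivity
    have b1 : 0 ≤ Real.pi * (|β| * P) * ε * (w + 8) := by positivity
    have b2 : 0 ≤ 2 * Real.pi * C₃ * Λ * ε * (w + 8) := by positivity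
    calc Real.pi / P * |q t - q x| + 2 * Real.pi * |β| * |D t - D x|
        ≤ Real.pi * Λ * ε * (w + 8) + 2 * Real.pi * C₃ * (|β| * P) * ε * (w + 8) :=
          add_le_add a1 a2
      _ ≤ (Real.pi + 2 * Real.pi * C₃) * ((Λ + |β| * P) * ε) * (w + 8) := by
          nlinarith [b1, b2]
  have hwe : Real.exp (-(Real.pi * c₁ / 4) * w) * (w + 8) ≤ 8 + 4 / (Real.pi * c₁) := by
    set a : ℝ := Real.pi * c₁ / 4 with ha
    have ha0 : 0 < a := by positivity
    have h1 : Real.exp (-a * w) ≤ 1 := by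
      rw [Real.exp_le_one_iff]; nlinarith
    have h2 : w * Real.exp (-a * w) ≤ 1 / a := by
      have h3 : a * w ≤ Real.exp (a * w) := by
        have := Real.add_one_le_exp (a * w); linarith
      have h5 : (a * w) / Real.exp (a * w) ≤ 1 := (div_le_one (Real.exp_pos _)).2 h3
      rw [neg_mul, Real.exp_neg, le_div_iff₀ ha0]
      calc w * (Real.exp (a * w))⁻¹ * a = (a * w) / Real.exp (a * w) := by ring
        _ ≤ 1 := h5
    have h4 : 1 / a = 4 / (Real.pi * c₁) := by rw [ha]; field_simp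
    rw [← h4]
    nlinarith
  have hexp : Real.exp (4 * Real.pi - Real.pi * c₁ / 2 * w) =
      Real.exp (4 * Real.pi) * Real.exp (-(Real.pi * c₁ / 4) * w) *
        Real.exp (-(Real.pi * c₁ / 4) * w) := by
    rw [← Real.exp_add, ← Real.exp_add]; congr 1; ring
  refine le_trans hd ?_
  rw [hexp]
  have hp0 : 0 ≤ (Real.pi + 2 * Real.pi * C₃) * ((Λ + |β| * P) * ε) := by positivity
  calc Real.exp (4 * Real.pi) * Real.exp (-(Real.pi * c₁ / 4) * w) *
        Real.exp (-(Real.pi * c₁ / 4) * w) *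
      ((Real.pi + 2 * Real.pi * C₃) * ((Λ + |β| * P) * ε) * (w + 8))
      = (Real.exp (4 * Real.pi) * ((Real.pi + 2 * Real.pi * C₃) * ((Λ + |β| * P) * ε)) *
          Real.exp (-(Real.pi * c₁ / 4) * w)) * (Real.exp (-(Real.pi * c₁ / 4) * w) * (w + 8)) := by
        ring
    _ ≤ (Real.exp (4 * Real.pi) * ((Real.pi + 2 * Real.pi * C₃) * ((Λ + |β| * P) * ε)) *
          Real.exp (-(Real.pi * c₁ / 4) * w)) * (8 + 4 / (Real.pi * c₁)) := by
        apply mul_le_mul_of_nonneg_left hwe; positivity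
    _ = _ := by ring

/-- the cubes -/
def cube (b : Fin 4 → ℝ) (g : ℝ) (c : Fin 4 → ℤ) : Set (Fin 4 → ℝ) :=
  Set.pi Set.univ (fun i => Set.Ico (b i + g * (c i : ℝ)) (b i + g * (c i : ℝ) + g))

theorem cube_meas (b : Fin 4 → ℝ) (g : ℝ) (c : Fin 4 → ℤ) : MeasurableSet (cube b g c) :=
  MeasurableSet.univ_pi fun _ => measurableSet_Ico

theorem cube_disj (b : Fin 4 → ℝ) (g : ℝ) (hg : 0 < g) :
    Pairwise (Function.onFun Disjoint (cube b g)) := by
  intro c c' hne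
  rw [Function.onFun, Set.disjoint_left]
  intro t ht ht'
  apply hne
  funext i
  have h1 := ht i (Set.mem_univ i)
  have h2 := ht' i (Set.mem_univ i)
  simp only [Set.mem_Ico] at h1 h2
  have h3 : g * (c i : ℝ) < g * ((c' i : ℝ) + 1) := by linarith [h1.1, h2.2]
  have h4 : g * (c' i : ℝ) < g * ((c i : ℝ) + 1) := by linarith [h2.1, h1.2]
  have h5 : (c i : ℝ) < (c' i : ℝ) + 1 := lt_of_mul_lt_mul_left h3 hg.le
  have h6 : (c' i : ℝ) < (c i : ℝ) + 1 := lt_of_mul_lt_mul_left h4 hg.le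
  have h7 : c i < c' i + 1 := by exact_mod_cast h5
  have h8 : c' i < c i + 1 := by exact_mod_cast h6
  omega

theorem cube_union (b : Fin 4 → ℝ) (g : ℝ) (hg : 0 < g) : ⋃ c, cube b g c = Set.univ := by
  rw [Set.eq_univ_iff_forall]
  intro t
  rw [Set.mem_iUnion]
  refine ⟨fun i => ⌊(t i - b i) / g⌋, fun i _ => ?_⟩
  simp only [Set.mem_Ico]
  have h1 := Int.floor_le ((t i - b i) / g)
  have h2 := Int.lt_floor_add_one ((t i - b i) / g)
  rw [le_div_iff₀ hg] at h1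
  rw [div_lt_iff₀ hg] at h2
  constructor <;> nlinarith

theorem cube_vol (b : Fin 4 → ℝ) (g : ℝ) (hg : 0 < g) (c : Fin 4 → ℤ) :
    volume.real (cube b g c) = g ^ 4 := by
  unfold cube
  rw [Measure.real, Real.volume_pi_Ico_toReal]
  · simp
  · intro i
    simp only
    linarith

theorem cube_lt_top (b : Fin 4 → ℝ) (g : ℝ) (c : Fin 4 → ℤ) :
    volume (cube b g c) < ⊤ := by
  unfold cube
  rw [Real.volume_pi_Ico]
  exact ENNReal.prod_lt_top fun i _ => ENNReal.ofReal_lt_top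

theorem cont_quad {q : (Fin 4 → ℝ) → ℝ}
    (h : ∃ M : Matrix (Fin 4) (Fin 4) ℝ, M.IsSymm ∧ ∀ t, q t = ∑ i, ∑ j, M i j * t i * t j) :
    Continuous q := by
  obtain ⟨M, _, h2⟩ := h
  have : q = fun t => ∑ i, ∑ j, M i j * t i * t j := funext h2
  rw [this]
  fun_prop

theorem F_cont {P β : ℝ} {q D : (Fin 4 → ℝ) → ℝ} (hq : Continuous q) (hD : Continuous D) :
    Continuous (F P β q D) := by
  unfold F
  fun_prop

theorem F_int {c₁ Λ C₃ P β : ℝ} {q D : (Fin 4 → ℝ) → ℝ} (hc : 0 < c₁) (hP : 0 < P)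
    (hq : PosForm c₁ Λ q) (hD : BddForm C₃ D) : Integrable (F P β q D) := by
  have h1 : Integrable (fun t : Fin 4 → ℝ => ∏ i, Real.exp (-(Real.pi * c₁ / P) * t i ^ 2)) :=
    Integrable.fintype_prod (f := fun (_ : Fin 4) (x : ℝ) => Real.exp (-(Real.pi * c₁ / P) * x ^ 2))
      fun _ => integrable_exp_neg_mul_sq (by have := Real.pi_pos; positivity)
  refine h1.mono' (F_cont (cont_quad hq.quad) (cont_quad hD.quad)).aestronglyMeasurable ?_
  refine Filter.Eventually.of_forall fun t => ?_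
  rw [F_norm, ← Real.exp_sum, ← Finset.mul_sum]
  apply Real.exp_le_exp.2
  have h2 := hq.lower t
  have h3 : -Real.pi * q t / P ≤ -Real.pi * (c₁ * ∑ i, t i ^ 2) / P := by
    apply div_le_div_of_nonneg_right _ hP.le
    have := Real.pi_pos
    nlinarith
  refine le_trans h3 (le_of_eq ?_)
  ring

/-- the Gaussian sum over a shifted lattice -/
theorem gsum (hG4 : SvG4) {c₁ P : ℝ} (hc : 0 < c₁) (hc1 : c₁ ≤ 1) (g : ℕ) (hg : 1 ≤ g)
    (hgP : (g : ℝ) ^ 2 ≤ P) (b : Fin 4 → ℝ) :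
    Summable (fun c : Fin 4 → ℤ =>
      Real.exp (-(Real.pi * c₁ / 4) * ((∑ i, (b i + g * (c i : ℝ)) ^ 2) / P))) ∧
    ∑' c : Fin 4 → ℤ, Real.exp (-(Real.pi * c₁ / 4) * ((∑ i, (b i + g * (c i : ℝ)) ^ 2) / P)) ≤
      4096 * P ^ 2 / (g ^ 4 * c₁ ^ 2) := by
  have hg0 : (0 : ℝ) < g := by exact_mod_cast hg
  have hP : 0 < P := lt_of_lt_of_le (by positivity) hgP
  have hP' : 1 ≤ P / (g : ℝ) ^ 2 := (one_le_div (by positivity)).2 hgP
  have hpi := Real.pi_pos
  have hform : PosForm (c₁ / 4) (c₁ / 4) (fun t => c₁ / 4 * ∑ i, t i ^ 2) := by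
    refine ⟨⟨(c₁ / 4) • (1 : Matrix (Fin 4) (Fin 4) ℝ), ?_, ?_⟩, fun t => le_refl _,
      fun t => le_refl _⟩
    · exact (Matrix.isSymm_one).smul _
    · intro t
      simp [Fin.sum_univ_four, Matrix.one_apply]
      ring
  have h := hG4 (c₁ / 4) (c₁ / 4) (P / (g : ℝ) ^ 2) _ (by positivity) le_rfl (by linarith) hform
    (fun i => b i / g)
  have e1 : ∀ c : Fin 4 → ℤ, -Real.pi * (c₁ / 4 * ∑ i, ((c i : ℝ) + b i / g) ^ 2) /
      (P / (g : ℝ) ^ 2) = -(Real.pi * c₁ / 4) * ((∑ i, (b i + g * (c i : ℝ)) ^ 2) / P) := by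
    intro c
    have e2 : ∑ i, (b i + g * (c i : ℝ)) ^ 2 = (g : ℝ) ^ 2 * ∑ i, ((c i : ℝ) + b i / g) ^ 2 := by
      rw [Finset.mul_sum]
      apply Finset.sum_congr rfl
      intro i _
      field_simp
      ring
    rw [e2]
    generalize (∑ i, ((c i : ℝ) + b i / g) ^ 2) = z
    field_simp
  simp only [e1] at h
  refine ⟨h.1, ?_⟩
  have h2 := h.2 0 0
  have e3 : ∀ c : Fin 4 → ℤ, Complex.exp
      (((-(Real.pi * c₁ / 4) * ((∑ i, (b i + g * (c i : ℝ)) ^ 2) / P) : ℝ) : ℂ) +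
        2 * Real.pi * Complex.I * ((∑ j, (c j : ℝ) * (0 : Fin 4 → ℝ) j : ℝ) : ℂ)) =
      ((Real.exp (-(Real.pi * c₁ / 4) * ((∑ i, (b i + g * (c i : ℝ)) ^ 2) / P)) : ℝ) : ℂ) := by
    intro c
    rw [Complex.ofReal_exp]
    congr 1
    simp
  simp only [e3] at h2
  rw [← Complex.ofReal_tsum, Complex.norm_real, Real.norm_eq_abs] at h2
  refine le_trans (le_abs_self _) (le_trans h2 ?_)
  have h3 : Real.exp (-(Real.pi / 2) * (P / (g : ℝ) ^ 2 / (c₁ / 4)) *
      dn ((0 : Fin 4 → ℝ) 0) ^ 2) ≤ 1 := by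
    rw [Real.exp_le_one_iff]
    have : 0 ≤ (Real.pi / 2) * (P / (g : ℝ) ^ 2 / (c₁ / 4)) * dn ((0 : Fin 4 → ℝ) 0) ^ 2 := by
      positivity
    linarith
  calc 256 * (P / (g : ℝ) ^ 2) ^ 2 / (c₁ / 4) ^ 2 * Real.exp (-(Real.pi / 2) *
        (P / (g : ℝ) ^ 2 / (c₁ / 4)) * dn ((0 : Fin 4 → ℝ) 0) ^ 2)
      ≤ 256 * (P / (g : ℝ) ^ 2) ^ 2 / (c₁ / 4) ^ 2 * 1 := by
        apply mul_le_mul_of_nonneg_left h3
        positivity
    _ = 4096 * P ^ 2 / (g ^ 4 * c₁ ^ 2) := by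
        field_simp
        ring

end VM1

open VM1 in
theorem pvM1 (hG4 : SvG4) : SvM1 := by
  intro c₁ C₃ hc hc1 hC
  have hpi := Real.pi_pos
  set K : ℝ := (Real.pi + 2 * Real.pi * C₃) * Real.exp (4 * Real.pi) * (8 + 4 / (Real.pi * c₁))
    with hK
  have hK0 : 0 < K := by positivity
  refine ⟨K * 4096 / c₁ ^ 2, by positivity, ?_⟩
  intro Λ P β q D g b hΛ hΛP hg hgP hq hD
  have hg0 : (0 : ℝ) < g := by exact_mod_cast hg
  have hP : 0 < P := by linarith
  set y : ℝ := Real.sqrt P with hy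
  have hy0 : 0 < y := Real.sqrt_pos.2 hP
  have hyP : y ^ 2 = P := Real.sq_sqrt hP.le
  have hgy : (g : ℝ) ≤ y := Real.le_sqrt_of_sq_le hgP
  set x : (Fin 4 → ℤ) → Fin 4 → ℝ := fun c i => b i + g * (c i : ℝ) with hx
  set E : (Fin 4 → ℤ) → ℝ := fun c => Real.exp (-(Real.pi * c₁ / 4) * ((∑ i, x c i ^ 2) / P))
    with hE
  obtain ⟨hs, hb⟩ := gsum hG4 hc hc1 g hg hgP b
  have hsE : Summable E := hs
  have hbE : ∑' c, E c ≤ 4096 * P ^ 2 / (g ^ 4 * c₁ ^ 2) := hb
  set B : ℝ := K * ((Λ + |β| * P) * (g / y)) with hB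
  have hB0 : 0 ≤ B := by positivity
  have hint : Integrable (F P β q D) := F_int hc hP hq hD
  -- the sum
  have hsF : Summable (fun c => F P β q D (x c)) := by
    refine Summable.of_norm_bounded hsE ?_
    intro c
    rw [F_norm]
    apply Real.exp_le_exp.2
    have h1 := hq.lower (x c)
    have h0 : 0 ≤ ∑ i, x c i ^ 2 := Finset.sum_nonneg fun i _ => sq_nonneg _
    have h3 : -Real.pi * q (x c) / P ≤ -Real.pi * (c₁ * ∑ i, x c i ^ 2) / P := by
      apply div_le_div_of_nonneg_right _ hP.le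
      nlinarith
    have h4 : -Real.pi * (c₁ * ∑ i, x c i ^ 2) / P = -(Real.pi * c₁) * ((∑ i, x c i ^ 2) / P) := by
      ring
    have h5 : 0 ≤ Real.pi * c₁ * ((∑ i, x c i ^ 2) / P) := by positivity
    rw [h4] at h3
    nlinarith
  have hI : HasSum (fun c => ∫ t in cube b g c, F P β q D t) (∫ t, F P β q D t) := by
    have h := hasSum_integral_iUnion (μ := volume) (f := F P β q D) (s := cube b (g : ℝ))
      (fun c => cube_meas b g c) (cube_disj b g hg0) (by
        rw [cube_union b g hg0]; exact hint.integrableOn)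
    rwa [cube_union b g hg0, setIntegral_univ] at h
  -- each cube
  have hcube : ∀ c, ‖F P β q D (x c) - (1 / (g : ℂ) ^ 4) * ∫ t in cube b g c, F P β q D t‖ ≤
      B * E c := by
    intro c
    have hgc : (g : ℂ) ≠ 0 := by
      have : g ≠ 0 := by omega
      exact_mod_cast this
    have hvol : volume.real (cube b (g : ℝ) c) = (g : ℝ) ^ 4 := cube_vol b g hg0 c
    have e1 : ∫ _t in cube b (g : ℝ) c, F P β q D (x c) = (g : ℂ) ^ 4 * F P β q D (x c) := by
      rw [setIntegral_const, hvol]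
      simp
    have e2 : F P β q D (x c) - (1 / (g : ℂ) ^ 4) * ∫ t in cube b g c, F P β q D t =
        (1 / (g : ℂ) ^ 4) * ∫ t in cube b g c, (F P β q D (x c) - F P β q D t) := by
      have hi1 : IntegrableOn (fun _ : Fin 4 → ℝ => F P β q D (x c)) (cube b (g : ℝ) c) volume :=
        integrableOn_const (cube_lt_top b (g : ℝ) c).ne
      rw [integral_sub hi1 hint.integrableOn, e1]
      field_simp
    rw [e2, norm_mul]
    have e3 : ‖∫ t in cube b (g : ℝ) c, (F P β q D (x c) - F P β q D t)‖ ≤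
        B * E c * volume.real (cube b (g : ℝ) c) := by
      apply norm_setIntegral_le_of_norm_le_const (cube_lt_top b g c)
      intro t ht
      have ht' : ∀ i, |t i - x c i| ≤ g := by
        intro i
        have h1 := ht i (Set.mem_univ i)
        simp only [Set.mem_Ico] at h1
        rw [abs_le]
        constructor
        · have := h1.1
          simp only [hx]
          linarith
        · have := h1.2
          simp only [hx]
          linarith
      have h2 := ptw (β := β) hc hc1 hC hΛ hP hy0 hyP hg0 hgy hq hD (x c) (fun i => t i - x c i) ht'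
      have h3 : (fun i => x c i + (t i - x c i)) = t := by
        funext i; ring
      rw [h3] at h2
      exact h2
    rw [hvol] at e3
    have e4 : ‖(1 / (g : ℂ) ^ 4)‖ = 1 / (g : ℝ) ^ 4 := by
      rw [norm_div, norm_pow, norm_one, Complex.norm_natCast]
    rw [e4]
    calc 1 / (g : ℝ) ^ 4 * ‖∫ t in cube b (g : ℝ) c, (F P β q D (x c) - F P β q D t)‖
        ≤ 1 / (g : ℝ) ^ 4 * (B * E c * (g : ℝ) ^ 4) := by gcongr
      _ = B * E c := by field_simp
  have hfin : (∑' c, F P β q D (x c)) - (1 / (g : ℂ) ^ 4) * ∫ t, F P β q D t =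
      ∑' c, (F P β q D (x c) - (1 / (g : ℂ) ^ 4) * ∫ t in cube b g c, F P β q D t) := by
    rw [hsF.tsum_sub (hI.summable.mul_left _), tsum_mul_left, hI.tsum_eq]
  have hmain : ‖(∑' c, F P β q D (x c)) - (1 / (g : ℂ) ^ 4) * ∫ t, F P β q D t‖ ≤
      B * ∑' c, E c := by
    rw [hfin]
    exact tsum_of_norm_bounded (hsE.hasSum.mul_left B) hcube
  refine le_trans hmain ?_
  have h32 : P ^ (3 / 2 : ℝ) = P * y := by
    rw [hy, Real.sqrt_eq_rpow, ← Real.rpow_one_add' hP.le (by norm_num)]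
    norm_num
  rw [h32]
  calc B * ∑' c, E c ≤ B * (4096 * P ^ 2 / (g ^ 4 * c₁ ^ 2)) := by gcongr
    _ = K * 4096 / c₁ ^ 2 * (Λ + |β| * P) * (P * y) / (g : ℝ) ^ 3 := by
        rw [hB, ← hyP]
        field_simp

end HQ
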