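import Pool.Agent.Work.MP_d2a4bb_nt.QV.Stmts

/-!
# Item M2 of the block [d2a4bb QV]: the main term does not depend on the points
-/

open UpperHalfPlane MeasureTheory Matrix
open scoped MatrixGroups Manifold Topology ComplexConjugate

namespace HQ

namespace VM2

/-- the space of matrices -/
abbrev Mt := Matrix (Fin 2) (Fin 2) ℝ

/-- the entries of a matrix -/
noncomputable def ent : Mt ≃ₗ[ℝ] (Fin 4 → ℝ) where
  toFun x := ![x 0 0, x 0 1, x 1 0, x 1 1]
  map_add' x y := by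
    ext i
    fin_cases i <;> rfl
  map_smul' c x := by
    ext i
    fin_cases i <;> rfl
  invFun y := !![y 0, y 1; y 2, y 3]
  left_inv x := by
    ext i j
    fin_cases i <;> fin_cases j <;> rfl
  right_inv y := by
    ext i
    fin_cases i <;> rfl

/-- left multiplication in terms of the entries -/
noncomputable def lm (g : Mt) : Matrix (Fin 4) (Fin 4) ℝ :=
  !![g 0 0, 0, g 0 1, 0; 0, g 0 0, 0, g 0 1; g 1 0, 0, g 1 1, 0; 0, g 1 0, 0, g 1 1]

/-- right multiplication in terms of the entries -/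
noncomputable def rm (g : Mt) : Matrix (Fin 4) (Fin 4) ℝ :=
  !![g 0 0, g 1 0, 0, 0; g 0 1, g 1 1, 0, 0; 0, 0, g 0 0, g 1 0; 0, 0, g 0 1, g 1 1]

theorem lm_det (g : Mt) : (lm g).det = g.det ^ 2 := by
  rw [Matrix.det_fin_two, lm, Matrix.det_succ_row_zero]
  simp [Fin.sum_univ_succ, Matrix.det_fin_three, Fin.succAbove]
  ring

theorem rm_det (g : Mt) : (rm g).det = g.det ^ 2 := by
  rw [Matrix.det_fin_two, rm, Matrix.det_succ_row_zero]
  simp [Fin.sum_univ_succ, Matrix.det_fin_three, Fin.succAbove]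
  ring

/-- the map `y ↦ h y g` -/
noncomputable def TT (h g : Mt) : Mt →ₗ[ℝ] Mt where
  toFun y := h * y * g
  map_add' x y := by rw [Matrix.mul_add, Matrix.add_mul]
  map_smul' c x := by
    rw [Matrix.mul_smul, Matrix.smul_mul]
    rfl

theorem TT_det (h g : Mt) : LinearMap.det (TT h g) = h.det ^ 2 * g.det ^ 2 := by
  have h1 : (ent : Mt →ₗ[ℝ] (Fin 4 → ℝ)) ∘ₗ (TT h g) ∘ₗ (ent.symm : (Fin 4 → ℝ) →ₗ[ℝ] Mt) =
      (Matrix.toLin' (lm h)).comp (Matrix.toLin' (rm g)) := by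
    apply LinearMap.ext
    intro y
    ext i
    fin_cases i <;>
      simp [TT, ent, lm, rm, Matrix.mulVec, dotProduct, Fin.sum_univ_succ, Matrix.mul_apply] <;>
      ring
  have h2 := LinearMap.det_conj (TT h g) ent
  rw [← h2, h1, LinearMap.det_comp, LinearMap.det_toLin', LinearMap.det_toLin', lm_det, rm_det]

/-- linear maps of determinant one preserve integrals -/
theorem integral_det_one (f : (Fin 4 → ℝ) →ₗ[ℝ] (Fin 4 → ℝ)) (hf : LinearMap.det f = 1)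
    (F : (Fin 4 → ℝ) → ℂ) : ∫ t : Fin 4 → ℝ, F (f t) = ∫ t : Fin 4 → ℝ, F t := by
  have hf0 : LinearMap.det f ≠ 0 := by
    rw [hf]
    exact one_ne_zero
  let e : (Fin 4 → ℝ) ≃L[ℝ] (Fin 4 → ℝ) := (LinearMap.equivOfDetNeZero f hf0).toContinuousLinearEquiv
  have he : (e : (Fin 4 → ℝ) → (Fin 4 → ℝ)) = f := rfl
  have hm : MeasurableEmbedding (f : (Fin 4 → ℝ) → (Fin 4 → ℝ)) := by
    rw [← he]
    exact e.toHomeomorph.measurableEmbedding
  have hp : MeasurePreserving (f : (Fin 4 → ℝ) → (Fin 4 → ℝ)) volume volume := by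
    refine ⟨hm.measurable, ?_⟩
    rw [Real.map_linearMap_volume_pi_eq_smul_volume_pi hf0, hf]
    simp
  exact hp.integral_comp hm F

/-- the upper triangular matrix which moves `i` to `z` -/
noncomputable def hh (z : ℍ) : Mt := !![Real.sqrt z.im, z.re / Real.sqrt z.im; 0, 1 / Real.sqrt z.im]

/-- its inverse -/
noncomputable def hi (z : ℍ) : Mt := !![1 / Real.sqrt z.im, -(z.re / Real.sqrt z.im); 0, Real.sqrt z.im]

theorem sq_pos (z : ℍ) : 0 < Real.sqrt z.im := Real.sqrt_pos.2 z.im_pos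

theorem hh_det (z : ℍ) : (hh z).det = 1 := by
  have := (sq_pos z).ne'
  rw [hh, Matrix.det_fin_two_of]
  field_simp
  ring

theorem hi_det (z : ℍ) : (hi z).det = 1 := by
  have := (sq_pos z).ne'
  rw [hi, Matrix.det_fin_two_of]
  field_simp
  ring

theorem key (z w : ℍ) (y : Mt) :
    ((((hh w * y * hi z) 0 0 : ℝ) : ℂ) * (z : ℂ) + (((hh w * y * hi z) 0 1 : ℝ) : ℂ) -
      (w : ℂ) * ((((hh w * y * hi z) 1 0 : ℝ) : ℂ) * (z : ℂ) +
        (((hh w * y * hi z) 1 1 : ℝ) : ℂ))) =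
    ((Real.sqrt z.im * Real.sqrt w.im : ℝ) : ℂ) *
      (((y 0 0 : ℝ) : ℂ) * Complex.I + ((y 0 1 : ℝ) : ℂ) -
        Complex.I * (((y 1 0 : ℝ) : ℂ) * Complex.I + ((y 1 1 : ℝ) : ℂ))) := by
  have hz : (z : ℂ) = (z.re : ℂ) + ((Real.sqrt z.im ^ 2 : ℝ) : ℂ) * Complex.I := by
    rw [Real.sq_sqrt z.im_pos.le]
    exact (Complex.re_add_im (z : ℂ)).symm
  have hw : (w : ℂ) = (w.re : ℂ) + ((Real.sqrt w.im ^ 2 : ℝ) : ℂ) * Complex.I := by
    rw [Real.sq_sqrt w.im_pos.le]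
    exact (Complex.re_add_im (w : ℂ)).symm
  have h1 : ((Real.sqrt z.im : ℝ) : ℂ) ≠ 0 := by exact_mod_cast (sq_pos z).ne'
  have h2 : ((Real.sqrt w.im : ℝ) : ℂ) ≠ 0 := by exact_mod_cast (sq_pos w).ne'
  rw [hz, hw]
  simp only [hh, hi, Matrix.mul_apply, Fin.sum_univ_two, Matrix.of_apply, Matrix.cons_val',
    Matrix.cons_val_zero, Matrix.cons_val_one, Matrix.cons_val_fin_one]
  push_cast
  field_simp
  ring

theorem qm_eq (z w : ℍ) (y : Mt) : qm z w (hh w * y * hi z) = qm UpperHalfPlane.I UpperHalfPlane.I y := by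
  rw [qm, qm, key, norm_mul, Complex.norm_real, Real.norm_eq_abs, mul_pow, sq_abs, mul_pow,
    Real.sq_sqrt z.im_pos.le, Real.sq_sqrt w.im_pos.le]
  have h1 : (z.im * w.im) ≠ 0 := (mul_pos z.im_pos w.im_pos).ne'
  rw [mul_div_cancel_left₀ _ h1]
  simp

theorem QQ_eq (lam : ℝ) (z w : ℍ) (y : Mt) :
    QQ lam z w (hh w * y * hi z) = QQ lam UpperHalfPlane.I UpperHalfPlane.I y := by
  rw [QQ, QQ, qm_eq, Matrix.det_mul, Matrix.det_mul, hh_det, hi_det, one_mul, mul_one]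

theorem main (Q : QuatOrder) (lam P β : ℝ) (z w : ℍ) :
    ∫ t : Fin 4 → ℝ, Complex.exp (((-Real.pi * QQ lam z w (cr Q t) / P : ℝ) : ℂ) +
      2 * Real.pi * Complex.I * ((β * (cr Q t).det : ℝ) : ℂ)) =
    ∫ t : Fin 4 → ℝ, Complex.exp (((-Real.pi * QQ lam UpperHalfPlane.I UpperHalfPlane.I
      (cr Q t) / P : ℝ) : ℂ) + 2 * Real.pi * Complex.I * ((β * (cr Q t).det : ℝ) : ℂ)) := by
  let f : (Fin 4 → ℝ) →ₗ[ℝ] (Fin 4 → ℝ) :=
    (Q.basis.equivFun : Mt →ₗ[ℝ] (Fin 4 → ℝ)) ∘ₗ (TT (hh w) (hi z)) ∘ₗ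
      (Q.basis.equivFun.symm : (Fin 4 → ℝ) →ₗ[ℝ] Mt)
  have hf : LinearMap.det f = 1 := by
    have h1 := LinearMap.det_conj (TT (hh w) (hi z)) Q.basis.equivFun
    have h2 : LinearMap.det f = LinearMap.det (TT (hh w) (hi z)) := h1
    rw [h2, TT_det, hh_det, hi_det]
    norm_num
  have hcr : ∀ t, cr Q t = Q.basis.equivFun.symm t := fun t => by
    rw [cr, Module.Basis.equivFun_symm_apply]
  have hft : ∀ t, cr Q (f t) = hh w * cr Q t * hi z := fun t => by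
    rw [hcr, hcr]
    show Q.basis.equivFun.symm (Q.basis.equivFun (TT (hh w) (hi z) (Q.basis.equivFun.symm t))) = _
    rw [LinearEquiv.symm_apply_apply]
    rfl
  have h := integral_det_one f hf (fun t => Complex.exp (((-Real.pi * QQ lam z w (cr Q t) / P : ℝ) : ℂ) +
      2 * Real.pi * Complex.I * ((β * (cr Q t).det : ℝ) : ℂ)))
  rw [← h]
  congr 1
  funext t
  simp only [hft]
  rw [QQ_eq, Matrix.det_mul, Matrix.det_mul, hh_det, hi_det, one_mul, mul_one]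

end VM2

theorem pvM2 : SvM2 := by
  intro Q lam P β z w z' w'
  rw [VM2.main Q lam P β z w, VM2.main Q lam P β z' w']

end HQ
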