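import Pool.Agent.Work.MP_d2a4bb_nt.QV.Stmts

/-!
# Item M3 of the block [d2a4bb QV]: major arcs
-/

open UpperHalfPlane MeasureTheory Matrix
open scoped MatrixGroups Manifold Topology ComplexConjugate

namespace HQ

namespace VM3

/-- the splitting `c = b + g c'` -/
noncomputable def spl (g : ℕ) [NeZero g] : (Fin 4 → Fin g) × (Fin 4 → ℤ) ≃ (Fin 4 → ℤ) where
  toFun p i := (Int.divModEquiv g).symm (p.2 i, p.1 i)
  invFun c := (fun i => ((Int.divModEquiv g) (c i)).2, fun i => ((Int.divModEquiv g) (c i)).1)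
  left_inv p := Prod.ext
    (funext fun i => congrArg Prod.snd ((Int.divModEquiv g).apply_symm_apply (p.2 i, p.1 i)))
    (funext fun i => congrArg Prod.fst ((Int.divModEquiv g).apply_symm_apply (p.2 i, p.1 i)))
  right_inv c := funext fun i => (Int.divModEquiv g).symm_apply_apply (c i)

theorem spl_apply (g : ℕ) [NeZero g] (b : Fin 4 → Fin g) (c : Fin 4 → ℤ) (i : Fin 4) :
    spl g (b, c) i = ((b i : ℕ) : ℤ) + g * c i := by
  change (c i) * (g : ℤ) + ((b i : ℕ) : ℤ) = _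
  ring

theorem split_sum (g : ℕ) [NeZero g] (F : (Fin 4 → ℤ) → ℂ) (hF : Summable F) :
    ∑' c, F c = ∑ b : Fin 4 → Fin g, ∑' c : Fin 4 → ℤ, F (spl g (b, c)) := by
  rw [← (spl g).tsum_eq F]
  have hs : Summable (fun p => F (spl g p)) := (spl g).summable_iff.mpr hF
  rw [hs.tsum_prod, tsum_fintype]

theorem cs_add (Q : QuatOrder) (b c : Fin 4 → ℤ) : cs Q (b + c) = cs Q b + cs Q c := by
  unfold cs
  rw [← Finset.sum_add_distrib]
  refine Finset.sum_congr rfl fun i _ => ?_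
  rw [← add_smul]
  simp

theorem cs_smul (Q : QuatOrder) (g : ℕ) (c : Fin 4 → ℤ) :
    cs Q (fun i => (g : ℤ) * c i) = (g : ℝ) • cs Q c := by
  unfold cs
  rw [Finset.smul_sum]
  refine Finset.sum_congr rfl fun i _ => ?_
  rw [smul_smul]
  simp

theorem det_add_smul (x y : Matrix (Fin 2) (Fin 2) ℝ) (s : ℝ) :
    (x + s • y).det = x.det + s * ((x + y).det - x.det - y.det + s * y.det) := by
  simp only [Matrix.det_fin_two, Matrix.add_apply, Matrix.smul_apply, smul_eq_mul]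
  ring

theorem norm_congr (Q : QuatOrder) (N : (Fin 4 → ℤ) → ℤ) (hN : ∀ c, (N c : ℝ) = (cs Q c).det)
    (g : ℕ) (b c : Fin 4 → ℤ) :
    N (fun i => b i + g * c i) = N b + g * (N (b + c) - N b - N c + g * N c) := by
  have h : ((N (fun i => b i + g * c i) : ℤ) : ℝ) =
      ((N b + g * (N (b + c) - N b - N c + g * N c) : ℤ) : ℝ) := by
    push_cast
    rw [hN, hN, hN, hN]
    have h1 : (fun i => b i + (g : ℤ) * c i) = b + fun i => (g : ℤ) * c i := rfl
    rw [h1, cs_add, cs_smul, cs_add, det_add_smul]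
  exact_mod_cast h

theorem phase (a : ℤ) (g : ℕ) (hg : 1 ≤ g) (β X : ℝ) (n n0 M : ℤ) (hn : n = n0 + g * M) :
    Complex.exp ((X : ℂ) + 2 * Real.pi * Complex.I * ((((a : ℝ) / g + β) * (n : ℝ) : ℝ) : ℂ)) =
      Complex.exp (((2 * Real.pi * ((a : ℝ) * n0 / g) : ℝ) : ℂ) * Complex.I) *
        Complex.exp ((X : ℂ) + 2 * Real.pi * Complex.I * ((β * (n : ℝ) : ℝ) : ℂ)) := by
  have hg0 : (g : ℂ) ≠ 0 := by
    have : g ≠ 0 := by omega
    exact_mod_cast this
  have h1 : Complex.exp (((a * M : ℤ) : ℂ) * (2 * Real.pi * Complex.I)) = 1 :=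
    Complex.exp_int_mul_two_pi_mul_I _
  rw [← Complex.exp_add]
  have h2 : (X : ℂ) + 2 * Real.pi * Complex.I * ((((a : ℝ) / g + β) * (n : ℝ) : ℝ) : ℂ) =
      (((2 * Real.pi * ((a : ℝ) * n0 / g) : ℝ) : ℂ) * Complex.I +
        ((X : ℂ) + 2 * Real.pi * Complex.I * ((β * (n : ℝ) : ℝ) : ℂ))) +
        ((a * M : ℤ) : ℂ) * (2 * Real.pi * Complex.I) := by
    subst hn
    push_cast
    field_simp
    ring
  rw [h2, Complex.exp_add, h1, mul_one]

end VM3

open VM3 in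
/-- item M3 -/
theorem pvM3 (hM1 : SvM1) (hM2 : SvM2) (hQF : SvQF) (hQN : SvQN) (hG4 : SvG4) : SvM3 := by
  intro Q K hK
  obtain ⟨c₁, C₁, C₃, hc₁, hc₁1, hC₁, hC₃, hD, hq⟩ := hQF Q K hK
  obtain ⟨N, L, C₂, hC₂, hN, hL, -, -⟩ := hQN Q
  obtain ⟨C, hC, hM⟩ := hM1 c₁ C₃ hc₁ hc₁1 hC₃
  refine ⟨2 * C * C₁, C₁, by positivity, by linarith, ?_⟩
  intro lam P β g a hlam hP hg hgP z hz w hw z' hz' w' hw'
  have : NeZero g := ⟨by omega⟩
  have hΛ1 : 1 ≤ C₁ * lam := by nlinarith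
  have hP0 : 0 < P := by linarith
  have hg0 : (0 : ℝ) < g := by
    have : 0 < g := by omega
    exact_mod_cast this
  -- the inner sums
  let T : ℍ → ℍ → (Fin 4 → Fin g) → ℂ := fun z w b =>
    ∑' c : Fin 4 → ℤ, Complex.exp (((-Real.pi * QQ lam z w
      (cr Q (fun i => ((b i : ℕ) : ℝ) + g * (c i : ℝ))) / P : ℝ) : ℂ) +
      2 * Real.pi * Complex.I * ((β * (cr Q (fun i => ((b i : ℕ) : ℝ) + g * (c i : ℝ))).det : ℝ) : ℂ))
  let ph : (Fin 4 → Fin g) → ℂ := fun b =>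
    Complex.exp (((2 * Real.pi * ((a : ℝ) * (N fun i => ((b i : ℕ) : ℤ)) / g) : ℝ) : ℂ) * Complex.I)
  have hph : ∀ b, ‖ph b‖ = 1 := fun b => Complex.norm_exp_ofReal_mul_I _
  have key : ∀ z ∈ K, ∀ w ∈ K, SS Q lam P z w (a / g + β) = ∑ b, ph b * T z w b := by
    intro z hz w hw
    have hsum : Summable (fun c : Fin 4 → ℤ => Complex.exp
        (((-Real.pi * QQ lam z w (cs Q c) / P : ℝ) : ℂ) +
          2 * Real.pi * Complex.I * (((((a : ℝ) / g + β)) * (cs Q c).det : ℝ) : ℂ))) := by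
      have h1 := (hG4 c₁ (C₁ * lam) P (fun t => QQ lam z w (cr Q t)) hc₁ (by linarith) hP
        (hq z hz w hw lam hlam) (fun _ => 0)).1
      refine Summable.of_norm ?_
      refine h1.congr fun c => ?_
      rw [Complex.norm_exp]
      have h2 : (fun i => (c i : ℝ) + (fun _ : Fin 4 => (0 : ℝ)) i) = fun i => (c i : ℝ) := by
        funext i; simp
      rw [h2]
      have h3 : cr Q (fun i => (c i : ℝ)) = cs Q c := rfl
      rw [h3]
      congr 1
      simp only [Complex.add_re, Complex.ofReal_re, Complex.mul_re, Complex.mul_im,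
        Complex.ofReal_im, Complex.I_re, Complex.I_im, Complex.re_ofNat, Complex.im_ofNat]
      ring
    unfold SS
    rw [split_sum g _ hsum]
    refine Finset.sum_congr rfl fun b _ => ?_
    rw [← tsum_mul_left]
    refine tsum_congr fun c => ?_
    have h1 : spl g (b, c) = fun i => ((b i : ℕ) : ℤ) + g * c i := by
      funext i; exact spl_apply g b c i
    have h2 : cs Q (spl g (b, c)) = cr Q (fun i => ((b i : ℕ) : ℝ) + g * (c i : ℝ)) := by
      rw [h1]
      unfold cs cr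
      refine Finset.sum_congr rfl fun i _ => ?_
      push_cast
      rfl
    rw [h2]
    have h3 : (cr Q (fun i => ((b i : ℕ) : ℝ) + g * (c i : ℝ))).det =
        ((N (fun i => ((b i : ℕ) : ℤ) + g * c i) : ℤ) : ℝ) := by
      rw [hN, ← h2, h1]
    rw [h3]
    exact phase a g hg β _ _ _ _ (norm_congr Q N hN g (fun i => ((b i : ℕ) : ℤ)) c)
  rw [key z hz w hw, key z' hz' w' hw', ← Finset.sum_sub_distrib]
  have hTT : ∀ b, ‖T z w b - T z' w' b‖ ≤
      2 * (C * (C₁ * lam + |β| * P) * P ^ (3 / 2 : ℝ) / (g : ℝ) ^ 3) := by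
    intro b
    have h1 := hM (C₁ * lam) P β (fun t => QQ lam z w (cr Q t)) (fun t => (cr Q t).det) g
      (fun i => ((b i : ℕ) : ℝ)) hΛ1 hP hg hgP (hq z hz w hw lam hlam) hD
    have h2 := hM (C₁ * lam) P β (fun t => QQ lam z' w' (cr Q t)) (fun t => (cr Q t).det) g
      (fun i => ((b i : ℕ) : ℝ)) hΛ1 hP hg hgP (hq z' hz' w' hw' lam hlam) hD
    rw [← hM2 Q lam P β z w z' w'] at h2
    have h3 : ‖T z w b - T z' w' b‖ ≤ ‖T z w b - (1 / (g : ℂ) ^ 4) * ∫ t : Fin 4 → ℝ,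
        Complex.exp (((-Real.pi * QQ lam z w (cr Q t) / P : ℝ) : ℂ) +
          2 * Real.pi * Complex.I * ((β * (cr Q t).det : ℝ) : ℂ))‖ +
        ‖T z' w' b - (1 / (g : ℂ) ^ 4) * ∫ t : Fin 4 → ℝ,
        Complex.exp (((-Real.pi * QQ lam z w (cr Q t) / P : ℝ) : ℂ) +
          2 * Real.pi * Complex.I * ((β * (cr Q t).det : ℝ) : ℂ))‖ := by
      refine le_trans (le_of_eq ?_) (norm_sub_le _ _)
      congr 1
      ring
    refine h3.trans ?_
    have := add_le_add h1 h2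
    refine this.trans (le_of_eq ?_)
    ring
  calc ‖∑ b, (ph b * T z w b - ph b * T z' w' b)‖
      ≤ ∑ b : Fin 4 → Fin g, ‖ph b * T z w b - ph b * T z' w' b‖ := norm_sum_le _ _
    _ ≤ ∑ _b : Fin 4 → Fin g, 2 * (C * (C₁ * lam + |β| * P) * P ^ (3 / 2 : ℝ) / (g : ℝ) ^ 3) := by
        refine Finset.sum_le_sum fun b _ => ?_
        rw [← mul_sub, norm_mul, hph, one_mul]
        exact hTT b
    _ = (g : ℝ) ^ 4 * (2 * (C * (C₁ * lam + |β| * P) * P ^ (3 / 2 : ℝ) / (g : ℝ) ^ 3)) := by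
        rw [Finset.sum_const, nsmul_eq_mul]
        simp
    _ = 2 * C * (C₁ * lam + |β| * P) * g * P ^ (3 / 2 : ℝ) := by
        field_simp
    _ ≤ 2 * C * C₁ * (lam + |β| * P) * g * P ^ (3 / 2 : ℝ) := by
        have hp : 0 ≤ P ^ (3 / 2 : ℝ) := Real.rpow_nonneg hP0.le _
        have h1 : C₁ * lam + |β| * P ≤ C₁ * (lam + |β| * P) := by
          have : 0 ≤ |β| * P := by positivity
          nlinarith
        have h2 : 2 * C * (C₁ * lam + |β| * P) ≤ 2 * C * C₁ * (lam + |β| * P) := by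
          have := mul_le_mul_of_nonneg_left h1 (by positivity : (0 : ℝ) ≤ 2 * C)
          linarith
        exact mul_le_mul_of_nonneg_right (mul_le_mul_of_nonneg_right h2 hg0.le) hp

end HQ
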