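import Pool.Agent.Work.MP_d2a4bb_nt.QV.Stmts

/-!
# Block [d2a4bb QV], item MI: the minor arcs
-/

open UpperHalfPlane MeasureTheory Matrix
open scoped MatrixGroups Manifold Topology ComplexConjugate

namespace HQ

namespace VMI

theorem gsum (b : ℝ) (hb : 0 < b) : Summable (fun k : ℤ => Real.exp (-b * (k : ℝ) ^ 2)) := by
  have h : Summable (fun k : ℤ => (1 / b) * (1 / (k : ℝ) ^ 2)) :=
    ((Real.summable_one_div_int_pow (p := 2)).2 (by norm_num)).mul_left _
  refine Summable.of_norm_bounded_eventually h ?_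
  have h0 : ∀ᶠ k : ℤ in Filter.cofinite, k ≠ 0 := by
    rw [Filter.eventually_cofinite]
    simp
  filter_upwards [h0] with k hk
  have hk' : (k : ℝ) ≠ 0 := by exact_mod_cast hk
  have hk2 : 0 < (k : ℝ) ^ 2 := by positivity
  have hx : 0 < b * (k : ℝ) ^ 2 := by positivity
  rw [Real.norm_eq_abs, abs_of_pos (Real.exp_pos _), neg_mul, Real.exp_neg, one_div_mul_one_div,
    one_div]
  apply inv_anti₀ hx
  linarith [Real.add_one_le_exp (b * (k : ℝ) ^ 2)]

theorem dn_cont : Continuous dn := by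
  have h : dn = fun x : ℝ => ‖(x : UnitAddCircle)‖ := by
    ext x
    unfold dn
    exact UnitAddCircle.norm_eq.symm
  rw [h]
  exact continuous_norm.comp (AddCircle.continuous_mk' 1)

theorem NA_cont (c Λ P : ℝ) (hc : 0 < c) (hΛ : 0 < Λ) (hP : 0 < P) :
    Continuous (fun α : ℝ => NA c Λ P α) := by
  unfold NA
  refine continuous_tsum (u := fun k : ℤ => Real.exp (-(c / P) * (k : ℝ) ^ 2)) ?_
    (gsum _ (by positivity)) ?_
  · intro k
    refine Real.continuous_exp.comp ?_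
    exact continuous_const.sub
      (continuous_const.mul ((dn_cont.comp (continuous_id.mul continuous_const)).pow 2))
  · intro k α
    rw [Real.norm_eq_abs, abs_of_pos (Real.exp_pos _)]
    apply Real.exp_le_exp.2
    have h1 : 0 ≤ c * (P / Λ) * dn (α * k) ^ 2 := by positivity
    have h2 : -c * (k : ℝ) ^ 2 / P = -(c / P) * (k : ℝ) ^ 2 := by ring
    rw [h2]
    linarith

theorem NA_nonneg (c Λ P α : ℝ) : 0 ≤ NA c Λ P α := tsum_nonneg fun _ => (Real.exp_pos _).le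

theorem pow4 (y : ℝ) (hy : 0 ≤ y) : (1 + y) ^ 4 ≤ 8 * (1 + y ^ 4) := by
  have h1 : (1 + y) ^ 2 ≤ 2 * (1 + y ^ 2) := by nlinarith [sq_nonneg (1 - y)]
  have h2 : (1 + y ^ 2) ^ 2 ≤ 2 * (1 + y ^ 4) := by nlinarith [sq_nonneg (1 - y ^ 2)]
  have h3 : 0 ≤ (1 + y) ^ 2 := sq_nonneg _
  calc (1 + y) ^ 4 = ((1 + y) ^ 2) ^ 2 := by ring
    _ ≤ (2 * (1 + y ^ 2)) ^ 2 := pow_le_pow_left₀ h3 h1 2
    _ = 4 * (1 + y ^ 2) ^ 2 := by ring
    _ ≤ 8 * (1 + y ^ 4) := by linarith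

/-- the weight of the denominators -/
noncomputable def kap (R : ℝ) (g : ℕ) : ℝ := if (g : ℝ) ≤ R then 1 / R ^ 2 else 1

theorem kap_nonneg (R : ℝ) (g : ℕ) : 0 ≤ kap R g := by
  unfold kap
  split_ifs <;> positivity

/-- the sum over the denominators -/
theorem kapsum (R : ℝ) (hR : 1 ≤ R) (n : ℕ) :
    ∑ g ∈ Finset.Icc 1 n, kap R g / (g : ℝ) ^ 3 ≤
      (if (n : ℝ) ≤ R then (3 - 2 / ((n : ℝ) + 1)) / R ^ 2 else 5 / R ^ 2 - 1 / (n : ℝ) ^ 2) := by
  have hR2 : 0 < R ^ 2 := by positivity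
  induction n with
  | zero =>
    have : ((0 : ℕ) : ℝ) ≤ R := by
      simp
      linarith
    rw [if_pos this]
    simp
    norm_num
    positivity
  | succ n ih =>
    rw [Finset.sum_Icc_succ_top (by omega)]
    have hn1 : (0 : ℝ) < (n : ℝ) + 1 := by positivity
    by_cases h1 : ((n + 1 : ℕ) : ℝ) ≤ R
    · have h0 : (n : ℝ) ≤ R := by
        push_cast at h1
        linarith
      rw [if_pos h0] at ih
      rw [if_pos h1]
      unfold kap at ih ⊢
      rw [if_pos h1]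
      push_cast
      have e : (3 - 2 / ((n : ℝ) + 1)) / R ^ 2 + 1 / R ^ 2 / ((n : ℝ) + 1) ^ 3 ≤
          (3 - 2 / ((n : ℝ) + 1 + 1)) / R ^ 2 := by
        have e1 : 1 / R ^ 2 / ((n : ℝ) + 1) ^ 3 = (1 / ((n : ℝ) + 1) ^ 3) / R ^ 2 := by
          field_simp
        rw [e1, ← add_div]
        apply div_le_div_of_nonneg_right _ hR2.le
        have e2 : 2 / ((n : ℝ) + 1) - 2 / ((n : ℝ) + 1 + 1) - 1 / ((n : ℝ) + 1) ^ 3 =
            (2 * ((n : ℝ) + 1) ^ 2 - ((n : ℝ) + 2)) / (((n : ℝ) + 1) ^ 3 * ((n : ℝ) + 2)) := by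
          field_simp
          ring
        have e3 : 0 ≤ (2 * ((n : ℝ) + 1) ^ 2 - ((n : ℝ) + 2)) /
            (((n : ℝ) + 1) ^ 3 * ((n : ℝ) + 2)) := by
          apply div_nonneg _ (by positivity)
          have : (0 : ℝ) ≤ n := by positivity
          nlinarith
        linarith
      linarith
    · rw [if_neg h1]
      have hk : kap R (n + 1) = 1 := by
        unfold kap
        rw [if_neg h1]
      rw [hk]
      push Not at h1
      push_cast at h1 ⊢
      by_cases h0 : (n : ℝ) ≤ R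
      · rw [if_pos h0] at ih
        have e1 : 1 / ((n : ℝ) + 1) ^ 2 ≤ 1 / R ^ 2 :=
          one_div_le_one_div_of_le hR2 (pow_le_pow_left₀ (by linarith) h1.le 2)
        have e2 : 1 / ((n : ℝ) + 1) ^ 3 ≤ 1 / ((n : ℝ) + 1) ^ 2 := by
          apply one_div_le_one_div_of_le (by positivity)
          have : (1 : ℝ) ≤ (n : ℝ) + 1 := by linarith [(Nat.cast_nonneg n : (0 : ℝ) ≤ n)]
          calc ((n : ℝ) + 1) ^ 2 = ((n : ℝ) + 1) ^ 2 * 1 := by ring
            _ ≤ ((n : ℝ) + 1) ^ 2 * ((n : ℝ) + 1) :=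
              mul_le_mul_of_nonneg_left this (by positivity)
            _ = ((n : ℝ) + 1) ^ 3 := by ring
        have e3 : (3 - 2 / ((n : ℝ) + 1)) / R ^ 2 ≤ 3 / R ^ 2 := by
          apply div_le_div_of_nonneg_right _ hR2.le
          have : 0 ≤ 2 / ((n : ℝ) + 1) := by positivity
          linarith
        have e4 : 5 / R ^ 2 = 3 / R ^ 2 + 1 / R ^ 2 + 1 / R ^ 2 := by ring
        linarith
      · rw [if_neg h0] at ih
        push Not at h0
        have hn : (0 : ℝ) < n := by linarith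
        have e1 : 1 / ((n : ℝ) + 1) ^ 3 ≤ 1 / (n : ℝ) ^ 2 - 1 / ((n : ℝ) + 1) ^ 2 := by
          have e2 : 1 / (n : ℝ) ^ 2 - 1 / ((n : ℝ) + 1) ^ 2 - 1 / ((n : ℝ) + 1) ^ 3 =
              ((2 * (n : ℝ) + 1) * ((n : ℝ) + 1) - (n : ℝ) ^ 2) /
                ((n : ℝ) ^ 2 * ((n : ℝ) + 1) ^ 3) := by
            field_simp
            ring
          have e3 : 0 ≤ ((2 * (n : ℝ) + 1) * ((n : ℝ) + 1) - (n : ℝ) ^ 2) /
                ((n : ℝ) ^ 2 * ((n : ℝ) + 1) ^ 3) := by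
            apply div_nonneg _ (by positivity)
            nlinarith
          linarith
        linarith

theorem kapsum' (R : ℝ) (hR : 1 ≤ R) (n : ℕ) :
    ∑ g ∈ Finset.Icc 1 n, kap R g / (g : ℝ) ^ 3 ≤ 5 / R ^ 2 := by
  refine (kapsum R hR n).trans ?_
  have hR2 : 0 < R ^ 2 := by positivity
  split_ifs
  · apply div_le_div_of_nonneg_right _ hR2.le
    have : 0 ≤ 2 / ((n : ℝ) + 1) := by positivity
    linarith
  · have : 0 ≤ 1 / (n : ℝ) ^ 2 := by positivity
    linarith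

/-- the kernel -/
noncomputable def ker (P t α : ℝ) : ℝ := (1 + (P * (α - t)) ^ 2)⁻¹

theorem ker_nonneg (P t α : ℝ) : 0 ≤ ker P t α := by
  unfold ker
  positivity

theorem ker_cont (P t : ℝ) : Continuous (ker P t) := by
  unfold ker
  refine Continuous.inv₀ (by fun_prop) ?_
  intro x
  positivity

theorem ker_integrable (P t : ℝ) (hP : 0 < P) : Integrable (ker P t) := by
  have h1 : Integrable (fun x : ℝ => (1 + (P * x) ^ 2)⁻¹) :=
    integrable_inv_one_add_sq.comp_mul_left' hP.ne'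
  exact h1.comp_sub_right t

theorem ker_int (P t : ℝ) (hP : 0 < P) : ∫ α, ker P t α = Real.pi / P := by
  unfold ker
  rw [integral_sub_right_eq_self (fun x : ℝ => (1 + (P * x) ^ 2)⁻¹) t,
    Measure.integral_comp_mul_left (fun x : ℝ => (1 + x ^ 2)⁻¹) P, integral_univ_inv_one_add_sq,
    abs_of_pos (inv_pos.2 hP), smul_eq_mul]
  ring

theorem Maj_meas (R P : ℝ) : MeasurableSet (Maj R P) := by
  have h : Maj R P = ⋃ g : ℕ, ⋃ (_ : 1 ≤ g ∧ (g : ℝ) ≤ R), ⋃ a : ℤ,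
      {α : ℝ | |α - a / g| ≤ R / P} := by
    ext α
    simp only [Maj, Set.mem_iUnion, Set.mem_ofPred_eq]
    constructor
    · rintro ⟨g, h1, h2, a, h3⟩
      exact ⟨g, ⟨h1, h2⟩, a, h3⟩
    · rintro ⟨g, ⟨h1, h2⟩, a, h3⟩
      exact ⟨g, h1, h2, a, h3⟩
  rw [h]
  refine MeasurableSet.iUnion fun g => MeasurableSet.iUnion fun _ => MeasurableSet.iUnion fun a => ?_
  exact (isClosed_le (by fun_prop) continuous_const).measurableSet

/-- the pointwise bound -/
theorem ptw {K Λ P R α β N : ℝ} {g : ℕ} (hK : 0 < K) (hΛ : 1 ≤ Λ) (hP : 0 < P) (hR : 1 ≤ R)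
    (hg : 1 ≤ g) (hN : 0 ≤ N) (h1 : N ≤ K * Λ * (1 + Real.sqrt P / g))
    (h2 : β ≠ 0 → N ≤ K * Λ * (1 + 1 / (Real.sqrt P * g * |β|)))
    (h3 : R < g ∨ R / P < |β|) :
    N ^ 4 ≤ 8 * (K * Λ) ^ 4 * (1 + 2 * (kap R g * (P ^ 2 / (g : ℝ) ^ 4)) *
      (1 + (P * β) ^ 2)⁻¹) := by
  have hg0 : (0 : ℝ) < g := by exact_mod_cast hg
  have hKL : 0 < K * Λ := by positivity
  have hs : 0 < Real.sqrt P := Real.sqrt_pos.2 hP
  have hs4 : Real.sqrt P ^ 4 = P ^ 2 := by
    calc Real.sqrt P ^ 4 = (Real.sqrt P ^ 2) ^ 2 := by ring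
      _ = P ^ 2 := by rw [Real.sq_sqrt hP.le]
  have hsq : (P * β) ^ 2 = (P * |β|) ^ 2 := by rw [mul_pow, mul_pow, sq_abs]
  rw [hsq]
  obtain ⟨x, hx⟩ : ∃ x, x = P * |β| := ⟨_, rfl⟩
  rw [← hx]
  have hx0 : 0 ≤ x := by
    rw [hx]
    positivity
  have key : ∀ y : ℝ, 0 ≤ y → N ≤ K * Λ * (1 + y) →
      y ^ 4 ≤ 2 * (kap R g * (P ^ 2 / (g : ℝ) ^ 4)) * (1 + x ^ 2)⁻¹ →
      N ^ 4 ≤ 8 * (K * Λ) ^ 4 * (1 + 2 * (kap R g * (P ^ 2 / (g : ℝ) ^ 4)) * (1 + x ^ 2)⁻¹) := by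
    intro y hy hNy hy4
    calc N ^ 4 ≤ (K * Λ * (1 + y)) ^ 4 := pow_le_pow_left₀ hN hNy 4
      _ = (K * Λ) ^ 4 * (1 + y) ^ 4 := by rw [mul_pow]
      _ ≤ (K * Λ) ^ 4 * (8 * (1 + y ^ 4)) := mul_le_mul_of_nonneg_left (pow4 y hy) (by positivity)
      _ ≤ (K * Λ) ^ 4 * (8 * (1 + 2 * (kap R g * (P ^ 2 / (g : ℝ) ^ 4)) * (1 + x ^ 2)⁻¹)) := by
        apply mul_le_mul_of_nonneg_left _ (by positivity)
        linarith
      _ = _ := by ring
  by_cases hx1 : 1 < x
  · -- use the second bound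
    have hβ : β ≠ 0 := by
      intro h0
      rw [hx, h0, abs_zero, mul_zero] at hx1
      linarith
    have hβ0 : 0 < |β| := abs_pos.2 hβ
    refine key (1 / (Real.sqrt P * g * |β|)) (by positivity) (h2 hβ) ?_
    have e1 : (1 / (Real.sqrt P * g * |β|)) ^ 4 = (P ^ 2 / (g : ℝ) ^ 4) * (1 / x ^ 4) := by
      rw [div_pow, mul_pow, mul_pow, hs4, hx]
      field_simp
    rw [e1]
    have hq : 0 ≤ P ^ 2 / (g : ℝ) ^ 4 := by positivity
    have e2 : 1 / x ^ 4 ≤ 2 * kap R g * (1 + x ^ 2)⁻¹ := by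
      have hx2 : 1 < x ^ 2 := by nlinarith
      have hx2' : 0 < x ^ 2 := by positivity
      have e3 : 1 / x ^ 2 ≤ 2 * (1 + x ^ 2)⁻¹ := by
        rw [← div_eq_mul_inv, div_le_div_iff₀ hx2' (by positivity)]
        linarith
      have e4 : 1 / x ^ 2 ≤ kap R g := by
        unfold kap
        split_ifs with hgR
        · have : R < x := by
            rcases h3 with h3 | h3
            · linarith
            · rw [div_lt_iff₀ hP] at h3
              rw [hx]
              linarith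
          exact one_div_le_one_div_of_le (by positivity)
            (pow_le_pow_left₀ (by linarith) this.le 2)
        · rw [div_le_one hx2']
          exact hx2.le
      calc 1 / x ^ 4 = (1 / x ^ 2) * (1 / x ^ 2) := by field_simp
        _ ≤ kap R g * (2 * (1 + x ^ 2)⁻¹) :=
          mul_le_mul e4 e3 (by positivity) (kap_nonneg R g)
        _ = _ := by ring
    calc P ^ 2 / (g : ℝ) ^ 4 * (1 / x ^ 4) ≤ P ^ 2 / (g : ℝ) ^ 4 *
        (2 * kap R g * (1 + x ^ 2)⁻¹) := mul_le_mul_of_nonneg_left e2 hq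
      _ = _ := by ring
  · push Not at hx1
    have hgR : ¬ ((g : ℝ) ≤ R) := by
      rcases h3 with h3 | h3
      · exact not_le.2 h3
      · rw [div_lt_iff₀ hP] at h3
        rw [hx] at hx1
        linarith
    have hk : kap R g = 1 := by
      unfold kap
      rw [if_neg hgR]
    refine key (Real.sqrt P / g) (by positivity) h1 ?_
    rw [hk, one_mul, div_pow, hs4]
    have e1 : 1 ≤ 2 * (1 + x ^ 2)⁻¹ := by
      rw [← div_eq_mul_inv, le_div_iff₀ (by positivity)]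
      nlinarith
    calc P ^ 2 / (g : ℝ) ^ 4 = P ^ 2 / (g : ℝ) ^ 4 * 1 := by ring
      _ ≤ P ^ 2 / (g : ℝ) ^ 4 * (2 * (1 + x ^ 2)⁻¹) :=
        mul_le_mul_of_nonneg_left e1 (by positivity)
      _ = _ := by ring

end VMI

open VMI in
theorem pvMI (hN1 : SvN1) : SvMI := by
  intro c hc
  obtain ⟨K, hK, hKb⟩ := hN1 c hc
  refine ⟨160 * Real.pi * K ^ 4, by positivity, ?_⟩
  intro Λ P R hΛ hΛP hR hRP
  have hP1 : 1 ≤ P := hΛ.trans hΛP
  have hP : 0 < P := by linarith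
  have hcont := NA_cont c Λ P hc (by linarith) hP
  refine ⟨hcont, ?_⟩
  obtain ⟨n, hn⟩ : ∃ n : ℕ, n = ⌊Real.sqrt P⌋₊ := ⟨_, rfl⟩
  have hsP : 1 ≤ Real.sqrt P := Real.one_le_sqrt.2 hP1
  have hn1 : 1 ≤ n := by
    rw [hn]
    exact Nat.le_floor (by simpa using hsP)
  have hn2 : (n : ℝ) ≤ Real.sqrt P := by
    rw [hn]
    exact Nat.floor_le (by positivity)
  have hn3 : Real.sqrt P < n + 1 := by
    rw [hn]
    exact Nat.lt_floor_add_one _
  have hR2 : 0 < R ^ 2 := by positivity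
  -- the majorant
  obtain ⟨F, hF⟩ : ∃ F : ℝ → ℝ, F = fun α => 8 * (K * Λ) ^ 4 * (1 + ∑ g ∈ Finset.Icc 1 n,
    ∑ a ∈ Finset.range (g + 1), 2 * (kap R g * (P ^ 2 / (g : ℝ) ^ 4)) *
      ker P ((a : ℝ) / g) α) := ⟨_, rfl⟩
  have hFc : Continuous F := by
    rw [hF]
    refine continuous_const.mul (continuous_const.add ?_)
    refine continuous_finset_sum _ fun g _ => continuous_finset_sum _ fun a _ => ?_
    exact continuous_const.mul (ker_cont _ _)
  have hterm : ∀ (g a : ℕ) (α : ℝ), 0 ≤ 2 * (kap R g * (P ^ 2 / (g : ℝ) ^ 4)) *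
      ker P ((a : ℝ) / g) α := by
    intro g a α
    have := kap_nonneg R g
    have := ker_nonneg P ((a : ℝ) / g) α
    positivity
  have hF0 : ∀ α, 0 ≤ F α := by
    intro α
    rw [hF]
    have : 0 ≤ ∑ g ∈ Finset.Icc 1 n,
      ∑ a ∈ Finset.range (g + 1), 2 * (kap R g * (P ^ 2 / (g : ℝ) ^ 4)) *
        ker P ((a : ℝ) / g) α := Finset.sum_nonneg fun g _ => Finset.sum_nonneg fun a _ =>
          hterm g a α
    show 0 ≤ 8 * (K * Λ) ^ 4 * (1 + _)
    positivity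
  have hpt : ∀ α ∈ Set.Icc (0 : ℝ) 1 \ Maj R P, NA c Λ P α ^ 4 ≤ F α := by
    rintro α ⟨⟨hα0, hα1⟩, hαM⟩
    obtain ⟨q, hq1, hq2⟩ := Real.exists_rat_abs_sub_le_and_den_le α hn1
    obtain ⟨g, hg⟩ : ∃ g : ℕ, g = q.den := ⟨_, rfl⟩
    rw [← hg] at hq1 hq2
    have hg1 : 1 ≤ g := by
      rw [hg]
      exact q.pos
    have hg0 : (0 : ℝ) < g := by exact_mod_cast hg1
    have hqr : (q : ℝ) = (q.num : ℝ) / g := by
      rw [hg]
      exact_mod_cast (Rat.num_div_den q).symm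
    rw [hqr] at hq1
    obtain ⟨β, hβ⟩ : ∃ β : ℝ, β = α - (q.num : ℝ) / g := ⟨_, rfl⟩
    rw [← hβ] at hq1
    have hαe : α = (q.num : ℝ) / g + β := by
      rw [hβ]
      ring
    have hbd : 1 / (((n : ℝ) + 1) * g) ≤ 1 / (g * Real.sqrt P) := by
      apply one_div_le_one_div_of_le (by positivity)
      nlinarith
    have hg2 : (g : ℝ) ^ 2 ≤ P := by
      have h1 : (g : ℝ) ≤ Real.sqrt P := le_trans (by exact_mod_cast hq2) hn2
      calc (g : ℝ) ^ 2 ≤ Real.sqrt P ^ 2 := pow_le_pow_left₀ hg0.le h1 2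
        _ = P := Real.sq_sqrt hP.le
    have hcop : IsCoprime q.num (g : ℤ) := by
      rw [hg]
      exact Rat.isCoprime_num_den q
    obtain ⟨b1, b2⟩ := hKb Λ P β g q.num hΛ hΛP hg1 hg2 hcop (hq1.trans hbd)
    rw [← hαe] at b1 b2
    have h3 : R < g ∨ R / P < |β| := by
      by_contra hcon
      push Not at hcon
      exact hαM ⟨g, hg1, hcon.1, q.num, by rw [← hβ]; exact hcon.2⟩
    have hp := ptw (α := α) hK hΛ hP hR hg1 (NA_nonneg c Λ P α) b1 b2 h3
    -- the numerator is between 0 and g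
    have hlt : |β| < 1 / g := by
      refine lt_of_le_of_lt hq1 ?_
      apply one_div_lt_one_div_of_lt hg0
      have : (1 : ℝ) ≤ n := by exact_mod_cast hn1
      nlinarith
    rw [abs_lt] at hlt
    have hnum0 : 0 ≤ q.num := by
      have h4 : -(1 / (g : ℝ)) < (q.num : ℝ) / g := by
        rw [hβ] at hlt
        linarith [hlt.2]
      have h5 : (-1 : ℝ) < q.num := by
        have : (-1 : ℝ) / g < (q.num : ℝ) / g := by
          rw [neg_div]
          exact h4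
        exact (div_lt_div_iff_of_pos_right hg0).1 this
      have h6 : (-1 : ℤ) < q.num := by exact_mod_cast h5
      omega
    have hnum1 : q.num ≤ g := by
      have h4 : (q.num : ℝ) / g < ((g : ℝ) + 1) / g := by
        rw [hβ] at hlt
        have : ((g : ℝ) + 1) / g = 1 + 1 / g := by field_simp
        rw [this]
        linarith [hlt.1]
      have h5 := (div_lt_div_iff_of_pos_right hg0).1 h4
      have h6 : q.num < (g : ℤ) + 1 := by exact_mod_cast h5
      omega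
    obtain ⟨a, ha⟩ : ∃ a : ℕ, (a : ℤ) = q.num := ⟨q.num.toNat, Int.toNat_of_nonneg hnum0⟩
    have hag : a ≤ g := by
      rw [← ha] at hnum1
      exact_mod_cast hnum1
    have har : (q.num : ℝ) = (a : ℝ) := by
      rw [← ha]
      simp
    refine hp.trans ?_
    rw [hF]
    show _ ≤ 8 * (K * Λ) ^ 4 * (1 + _)
    apply mul_le_mul_of_nonneg_left _ (by positivity)
    apply add_le_add le_rfl
    have e1 : 2 * (kap R g * (P ^ 2 / (g : ℝ) ^ 4)) * (1 + (P * β) ^ 2)⁻¹ =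
        2 * (kap R g * (P ^ 2 / (g : ℝ) ^ 4)) * ker P ((a : ℝ) / g) α := by
      unfold ker
      rw [hβ, har]
    rw [e1]
    calc 2 * (kap R g * (P ^ 2 / (g : ℝ) ^ 4)) * ker P ((a : ℝ) / g) α
        ≤ ∑ a ∈ Finset.range (g + 1), 2 * (kap R g * (P ^ 2 / (g : ℝ) ^ 4)) *
            ker P ((a : ℝ) / g) α :=
          Finset.single_le_sum (f := fun a : ℕ => 2 * (kap R g * (P ^ 2 / (g : ℝ) ^ 4)) *
            ker P ((a : ℝ) / g) α) (fun a _ => hterm g a α)
            (Finset.mem_range.2 (by omega))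
      _ ≤ _ := Finset.single_le_sum (f := fun g : ℕ => ∑ a ∈ Finset.range (g + 1),
            2 * (kap R g * (P ^ 2 / (g : ℝ) ^ 4)) * ker P ((a : ℝ) / g) α)
            (fun g _ => Finset.sum_nonneg fun a _ => hterm g a α)
            (Finset.mem_Icc.2 ⟨hg1, hq2⟩)
  have hS : MeasurableSet (Set.Icc (0 : ℝ) 1 \ Maj R P) := measurableSet_Icc.diff (Maj_meas R P)
  have hFi : IntegrableOn F (Set.Icc (0 : ℝ) 1) := hFc.continuousOn.integrableOn_Icc
  have hNi : IntegrableOn (fun α => NA c Λ P α ^ 4) (Set.Icc (0 : ℝ) 1) :=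
    (hcont.pow 4).continuousOn.integrableOn_Icc
  have s1 : ∫ α in Set.Icc (0 : ℝ) 1 \ Maj R P, NA c Λ P α ^ 4 ≤
      ∫ α in Set.Icc (0 : ℝ) 1 \ Maj R P, F α :=
    setIntegral_mono_on (hNi.mono_set Set.diff_subset) (hFi.mono_set Set.diff_subset) hS hpt
  have s2 : ∫ α in Set.Icc (0 : ℝ) 1 \ Maj R P, F α ≤ ∫ α in Set.Icc (0 : ℝ) 1, F α :=
    setIntegral_mono_set hFi (Filter.Eventually.of_forall fun α => hF0 α)
      (Filter.Eventually.of_forall Set.diff_subset)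
  have hki : ∀ g a : ℕ, IntegrableOn (fun α => 2 * (kap R g * (P ^ 2 / (g : ℝ) ^ 4)) *
      ker P ((a : ℝ) / g) α) (Set.Icc (0 : ℝ) 1) := fun g a =>
    ((ker_integrable P _ hP).const_mul _).integrableOn
  have s3 : ∫ α in Set.Icc (0 : ℝ) 1, F α = 8 * (K * Λ) ^ 4 * (1 + ∑ g ∈ Finset.Icc 1 n,
      ∑ a ∈ Finset.range (g + 1), ∫ α in Set.Icc (0 : ℝ) 1,
        2 * (kap R g * (P ^ 2 / (g : ℝ) ^ 4)) * ker P ((a : ℝ) / g) α) := by
    rw [hF, integral_const_mul, integral_add (integrable_const _)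
      (integrable_finset_sum _ fun g _ => integrable_finset_sum _ fun a _ => hki g a)]
    congr 1
    congr 1
    · simp
    · rw [integral_finset_sum _ fun g _ => integrable_finset_sum _ fun a _ => hki g a]
      refine Finset.sum_congr rfl fun g _ => ?_
      rw [integral_finset_sum _ fun a _ => hki g a]
  have s4 : ∀ g a : ℕ, ∫ α in Set.Icc (0 : ℝ) 1,
      2 * (kap R g * (P ^ 2 / (g : ℝ) ^ 4)) * ker P ((a : ℝ) / g) α ≤
      2 * (kap R g * (P ^ 2 / (g : ℝ) ^ 4)) * (Real.pi / P) := by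
    intro g a
    rw [integral_const_mul]
    apply mul_le_mul_of_nonneg_left _ (by have := kap_nonneg R g; positivity)
    rw [← ker_int P ((a : ℝ) / g) hP]
    exact setIntegral_le_integral (ker_integrable P _ hP)
      (Filter.Eventually.of_forall fun α => ker_nonneg _ _ _)
  have s5 : ∑ g ∈ Finset.Icc 1 n, ∑ a ∈ Finset.range (g + 1), ∫ α in Set.Icc (0 : ℝ) 1,
        2 * (kap R g * (P ^ 2 / (g : ℝ) ^ 4)) * ker P ((a : ℝ) / g) α ≤
      20 * Real.pi * (P / R ^ 2) := by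
    calc ∑ g ∈ Finset.Icc 1 n, ∑ a ∈ Finset.range (g + 1), ∫ α in Set.Icc (0 : ℝ) 1,
          2 * (kap R g * (P ^ 2 / (g : ℝ) ^ 4)) * ker P ((a : ℝ) / g) α
        ≤ ∑ g ∈ Finset.Icc 1 n, ∑ a ∈ Finset.range (g + 1),
          2 * (kap R g * (P ^ 2 / (g : ℝ) ^ 4)) * (Real.pi / P) :=
          Finset.sum_le_sum fun g _ => Finset.sum_le_sum fun a _ => s4 g a
      _ = ∑ g ∈ Finset.Icc 1 n, ((g : ℝ) + 1) *
          (2 * (kap R g * (P ^ 2 / (g : ℝ) ^ 4)) * (Real.pi / P)) := by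
          refine Finset.sum_congr rfl fun g _ => ?_
          rw [Finset.sum_const, Finset.card_range, nsmul_eq_mul]
          push_cast
          ring
      _ ≤ ∑ g ∈ Finset.Icc 1 n, (4 * Real.pi * P) * (kap R g / (g : ℝ) ^ 3) := by
          refine Finset.sum_le_sum fun g hg => ?_
          have hg1 : (1 : ℝ) ≤ g := by exact_mod_cast (Finset.mem_Icc.1 hg).1
          have hg0 : (0 : ℝ) < g := by linarith
          have hk := kap_nonneg R g
          have e1 : ((g : ℝ) + 1) * (2 * (kap R g * (P ^ 2 / (g : ℝ) ^ 4)) * (Real.pi / P)) =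
              (2 * Real.pi * P * kap R g / (g : ℝ) ^ 4) * ((g : ℝ) + 1) := by
            field_simp
          have e2 : (4 * Real.pi * P) * (kap R g / (g : ℝ) ^ 3) =
              (2 * Real.pi * P * kap R g / (g : ℝ) ^ 4) * (2 * g) := by
            field_simp
            ring
          rw [e1, e2]
          apply mul_le_mul_of_nonneg_left (by linarith) (by positivity)
      _ = (4 * Real.pi * P) * ∑ g ∈ Finset.Icc 1 n, kap R g / (g : ℝ) ^ 3 := by
          rw [Finset.mul_sum]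
      _ ≤ (4 * Real.pi * P) * (5 / R ^ 2) :=
          mul_le_mul_of_nonneg_left (kapsum' R hR n) (by positivity)
      _ = _ := by ring
  calc ∫ α in Set.Icc (0 : ℝ) 1 \ Maj R P, NA c Λ P α ^ 4 ≤ ∫ α in Set.Icc (0 : ℝ) 1, F α :=
        s1.trans s2
    _ ≤ 8 * (K * Λ) ^ 4 * (1 + 20 * Real.pi * (P / R ^ 2)) := by
        rw [s3]
        apply mul_le_mul_of_nonneg_left _ (by positivity)
        linarith
    _ ≤ 8 * (K * Λ) ^ 4 * (20 * Real.pi * (1 + P / R ^ 2)) := by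
        apply mul_le_mul_of_nonneg_left _ (by positivity)
        have : (1 : ℝ) ≤ 20 * Real.pi := by linarith [Real.pi_gt_three]
        linarith
    _ = 160 * Real.pi * K ^ 4 * Λ ^ 4 * (1 + P / R ^ 2) := by ring

end HQ
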