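import Pool.Agent.Work.MP_d2a4bb_nt.QV.Stmts

/-!
# Item MJ: the measure of the major arcs
-/

open UpperHalfPlane MeasureTheory Matrix
open scoped MatrixGroups Manifold Topology ComplexConjugate

namespace HQ

namespace VMJ

theorem maj_eq (R P : ℝ) : Maj R P =
    ⋃ g : ℕ, ⋃ (_ : 1 ≤ g ∧ (g : ℝ) ≤ R), ⋃ a : ℤ,
      Set.Icc ((a : ℝ) / g - R / P) ((a : ℝ) / g + R / P) := by
  ext α
  simp only [Maj, Set.mem_setOf_eq, Set.mem_iUnion, Set.mem_Icc, abs_le]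
  constructor
  · rintro ⟨g, h1, h2, a, h3, h4⟩
    exact ⟨g, ⟨h1, h2⟩, a, by linarith, by linarith⟩
  · rintro ⟨g, ⟨h1, h2⟩, a, h3, h4⟩
    exact ⟨g, h1, h2, a, by linarith, by linarith⟩

theorem meas (R P : ℝ) : MeasurableSet (Maj R P) := by
  rw [maj_eq]
  exact MeasurableSet.iUnion fun g => MeasurableSet.iUnion fun _ =>
    MeasurableSet.iUnion fun a => measurableSet_Icc

theorem sub {R P : ℝ} (hR : 1 ≤ R) (hP : R ^ 2 ≤ P) : Set.Icc (0 : ℝ) 1 ∩ Maj R P ⊆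
    ⋃ g ∈ Finset.Icc 1 ⌊R⌋₊, ⋃ a ∈ Finset.Icc (-1 : ℤ) (g + 1),
      Set.Icc ((a : ℝ) / (g : ℕ) - R / P) ((a : ℝ) / (g : ℕ) + R / P) := by
  rintro α ⟨⟨h0, h1⟩, g, hg1, hgR, a, ha⟩
  have hP0 : 0 < P := by nlinarith
  have hg0 : (0 : ℝ) < g := by
    have : (1 : ℝ) ≤ g := by exact_mod_cast hg1
    linarith
  rw [abs_le] at ha
  have h2 : (g : ℝ) * (R / P) ≤ 1 := by
    rw [← mul_div_assoc, div_le_one hP0]
    calc (g : ℝ) * R ≤ R * R := mul_le_mul_of_nonneg_right hgR (by linarith)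
      _ ≤ P := by rw [← sq]; exact hP
  have h3 : (g : ℝ) * ((a : ℝ) / g) = a := by field_simp
  have h4 : (-1 : ℝ) ≤ a := by
    have : (g : ℝ) * (-(R / P)) ≤ (g : ℝ) * ((a : ℝ) / g) :=
      mul_le_mul_of_nonneg_left (by linarith) hg0.le
    rw [h3] at this
    linarith
  have h5 : (a : ℝ) ≤ g + 1 := by
    have : (g : ℝ) * ((a : ℝ) / g) ≤ (g : ℝ) * (1 + R / P) :=
      mul_le_mul_of_nonneg_left (by linarith) hg0.le
    rw [h3] at this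
    linarith
  refine Set.mem_iUnion₂.2 ⟨g, Finset.mem_Icc.2 ⟨hg1, Nat.le_floor hgR⟩,
    Set.mem_iUnion₂.2 ⟨a, Finset.mem_Icc.2 ⟨by exact_mod_cast h4, by exact_mod_cast h5⟩, ?_⟩⟩
  exact ⟨by linarith, by linarith⟩

theorem sumG (G : ℕ) : ∑ g ∈ Finset.Icc 1 G, ((g : ℝ) + 3) = ((G : ℝ) ^ 2 + 7 * G) / 2 := by
  induction G with
  | zero => simp
  | succ n ih =>
    rw [Finset.sum_Icc_succ_top (by omega), ih]
    push_cast
    ring

end VMJ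

open VMJ in
theorem pvMJ : SvMJ := by
  intro P R hR hP
  refine ⟨meas R P, ?_⟩
  have hP0 : 0 < P := by nlinarith
  have hRP : 0 ≤ R / P := div_nonneg (by linarith) hP0.le
  have hG : ((⌊R⌋₊ : ℕ) : ℝ) ≤ R := Nat.floor_le (by linarith)
  have hG0 : (0 : ℝ) ≤ ((⌊R⌋₊ : ℕ) : ℝ) := Nat.cast_nonneg _
  calc volume (Set.Icc (0 : ℝ) 1 ∩ Maj R P)
      ≤ volume (⋃ g ∈ Finset.Icc 1 ⌊R⌋₊, ⋃ a ∈ Finset.Icc (-1 : ℤ) (g + 1),
          Set.Icc ((a : ℝ) / (g : ℕ) - R / P) ((a : ℝ) / (g : ℕ) + R / P)) :=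
        measure_mono (sub hR hP)
    _ ≤ ∑ g ∈ Finset.Icc 1 ⌊R⌋₊, volume (⋃ a ∈ Finset.Icc (-1 : ℤ) (g + 1),
          Set.Icc ((a : ℝ) / (g : ℕ) - R / P) ((a : ℝ) / (g : ℕ) + R / P)) :=
        measure_biUnion_finset_le _ _
    _ ≤ ∑ g ∈ Finset.Icc 1 ⌊R⌋₊, ∑ a ∈ Finset.Icc (-1 : ℤ) (g + 1),
          volume (Set.Icc ((a : ℝ) / (g : ℕ) - R / P) ((a : ℝ) / (g : ℕ) + R / P)) :=
        Finset.sum_le_sum fun g _ => measure_biUnion_finset_le _ _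
    _ = ∑ g ∈ Finset.Icc 1 ⌊R⌋₊, ENNReal.ofReal (((g : ℝ) + 3) * (2 * (R / P))) := by
        refine Finset.sum_congr rfl fun g _ => ?_
        have e : ∀ a : ℤ, volume (Set.Icc ((a : ℝ) / (g : ℕ) - R / P)
            ((a : ℝ) / (g : ℕ) + R / P)) = ENNReal.ofReal (2 * (R / P)) := by
          intro a
          rw [Real.volume_Icc]
          congr 1
          ring
        simp only [e]
        rw [Finset.sum_const, Int.card_Icc, nsmul_eq_mul,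
          ENNReal.ofReal_mul (by positivity : (0 : ℝ) ≤ (g : ℝ) + 3)]
        congr 1
        have : ((g : ℤ) + 1 + 1 - -1).toNat = g + 3 := by omega
        rw [this, ENNReal.ofReal_add (by positivity) (by norm_num), ENNReal.ofReal_natCast]
        push_cast
        congr 1
        norm_num
    _ = ENNReal.ofReal (∑ g ∈ Finset.Icc 1 ⌊R⌋₊, ((g : ℝ) + 3) * (2 * (R / P))) := by
        rw [ENNReal.ofReal_sum_of_nonneg]
        intro g _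
        positivity
    _ ≤ ENNReal.ofReal (8 * R ^ 3 / P) := by
        refine ENNReal.ofReal_le_ofReal ?_
        rw [← Finset.sum_mul, sumG]
        have h1 : ((⌊R⌋₊ : ℕ) : ℝ) ^ 2 ≤ R ^ 2 := pow_le_pow_left₀ hG0 hG 2
        have h2 : (((⌊R⌋₊ : ℕ) : ℝ) ^ 2 + 7 * ((⌊R⌋₊ : ℕ) : ℝ)) / 2 ≤ 4 * R ^ 2 := by nlinarith
        calc (((⌊R⌋₊ : ℕ) : ℝ) ^ 2 + 7 * ((⌊R⌋₊ : ℕ) : ℝ)) / 2 * (2 * (R / P))
            ≤ (4 * R ^ 2) * (2 * (R / P)) := mul_le_mul_of_nonneg_right h2 (by linarith)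
          _ = 8 * R ^ 3 / P := by ring

end HQ
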