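import Pool.Agent.Work.MP_d2a4bb_nt.QV.Stmts

/-!
# MP_d2a4bb_nt, block QV, item N1 (helper15): the weighted number of small values of a linear form

`k` is sent to the pair `(l, m) = (k / g, a k - g round (α k))`, which is injective since `a` is
invertible modulo `g`; the weight of `k` is at most `exp (2c)` times a Gaussian weight of `(l, m)`, and
the double sum is estimated in the two possible orders by one dimensional Gaussian sums.
-/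

set_option autoImplicit false

open UpperHalfPlane MeasureTheory Matrix
open scoped MatrixGroups Manifold Topology ComplexConjugate

namespace HQ

namespace VN1

/-- one dimensional Gaussian sums with an arbitrary positive parameter -/
theorem gs (hG1 : SvG1) (B s : ℝ) (hB : 0 < B) :
    Summable (fun n : ℤ => Real.exp (-B * ((n : ℝ) + s) ^ 2)) ∧
    ∑' n : ℤ, Real.exp (-B * ((n : ℝ) + s) ^ 2) ≤ 4 * (1 + Real.sqrt (Real.pi / B)) := by
  have hpi := Real.pi_pos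
  have key : ∀ A : ℝ, 0 < A → A ≤ 1 →
      Summable (fun n : ℤ => Real.exp (-(Real.pi * A) * ((n : ℝ) + s) ^ 2)) ∧
      ∑' n : ℤ, Real.exp (-(Real.pi * A) * ((n : ℝ) + s) ^ 2) ≤ 4 * Real.sqrt (1 / A) := by
    intro A hA hA1
    obtain ⟨h1, -, h3⟩ := hG1 A 1 s hA hA1
    have e : (fun n : ℤ => Real.exp (-Real.pi * A * ((n : ℝ) + s) ^ 2 / 1)) =
        fun n : ℤ => Real.exp (-(Real.pi * A) * ((n : ℝ) + s) ^ 2) := by
      funext n
      congr 1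
      ring
    rw [e] at h1 h3
    exact ⟨h1, h3⟩
  rcases le_total B Real.pi with h | h
  · obtain ⟨h1, h2⟩ := key (B / Real.pi) (div_pos hB hpi) ((div_le_one hpi).2 h)
    have e : Real.pi * (B / Real.pi) = B := by field_simp
    rw [e] at h1 h2
    refine ⟨h1, h2.trans ?_⟩
    rw [one_div_div]
    linarith
  · obtain ⟨h1, h2⟩ := key 1 one_pos le_rfl
    rw [mul_one] at h1 h2
    have hle : ∀ n : ℤ, Real.exp (-B * ((n : ℝ) + s) ^ 2) ≤
        Real.exp (-Real.pi * ((n : ℝ) + s) ^ 2) := fun n =>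
      Real.exp_le_exp.2 (by nlinarith [sq_nonneg ((n : ℝ) + s)])
    have hs : Summable (fun n : ℤ => Real.exp (-B * ((n : ℝ) + s) ^ 2)) :=
      Summable.of_nonneg_of_le (fun n => (Real.exp_pos _).le) hle h1
    refine ⟨hs, (hs.tsum_le_tsum hle h1).trans (h2.trans ?_)⟩
    rw [div_one, Real.sqrt_one]
    have := Real.sqrt_nonneg (Real.pi / B)
    linarith

/-- the form in which the Gaussian sums are used -/
theorem gsY (hG1 : SvG1) (c B s Y : ℝ) (hB : 0 < B) (hY : 0 ≤ Y)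
    (h : Real.pi / B ≤ 8 * Real.pi / c * Y ^ 2) (hc : 0 < c) :
    ∑' n : ℤ, Real.exp (-B * ((n : ℝ) + s) ^ 2) ≤
      4 * (1 + Real.sqrt (8 * Real.pi / c) * Y) := by
  refine (gs hG1 B s hB).2.trans ?_
  have h1 : Real.sqrt (Real.pi / B) ≤ Real.sqrt (8 * Real.pi / c) * Y := by
    rw [Real.sqrt_le_left (by positivity), mul_pow, Real.sq_sqrt (by positivity)]
    exact h
  linarith

/-- double sums of nonnegative terms -/
theorem two (f : ℤ × ℤ → ℝ) (h : ℤ → ℝ) (M : ℝ) (hf : ∀ x, 0 ≤ f x)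
    (h1 : ∀ x, Summable fun y => f (x, y)) (h2 : ∀ x, ∑' y, f (x, y) ≤ M * h x)
    (h3 : Summable h) : Summable f ∧ ∑' x, f x ≤ M * ∑' x, h x := by
  have h4 : Summable fun x => ∑' y, f (x, y) :=
    Summable.of_nonneg_of_le (fun x => tsum_nonneg fun y => hf _) h2 (h3.mul_left M)
  have h5 : Summable f := (summable_prod_of_nonneg hf).2 ⟨h1, h4⟩
  refine ⟨h5, ?_⟩
  rw [h5.tsum_prod' h1, ← tsum_mul_left]
  exact h4.tsum_le_tsum h2 (h3.mul_left M)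

theorem beta_sq (P β g : ℝ) (hP : 0 < P) (hg : 0 < g) (hβ : |β| ≤ 1 / (g * Real.sqrt P)) :
    β ^ 2 * g ^ 2 * P ≤ 1 := by
  have h1 : 0 < g * Real.sqrt P := mul_pos hg (Real.sqrt_pos.2 hP)
  have h2 : |β| * (g * Real.sqrt P) ≤ 1 := (le_div_iff₀ h1).1 hβ
  have h3 : (|β| * (g * Real.sqrt P)) ^ 2 ≤ 1 := pow_le_one₀ (by positivity) h2
  rw [mul_pow, mul_pow, Real.sq_sqrt hP.le, sq_abs] at h3
  linarith

/-- the real inequality behind the comparison of one term -/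
theorem expo (c Λ P β g x l j δ : ℝ) (hc : 0 < c) (hΛ : 1 ≤ Λ) (hP : 0 < P) (hg : 0 < g)
    (hgP : g ^ 2 ≤ P) (hβ : β ^ 2 * g ^ 2 * P ≤ 1) (hx : x = g * l + j) (hj : j ^ 2 ≤ g ^ 2) :
    -c * x ^ 2 / P - c * (P / Λ) * δ ^ 2 ≤
      2 * c + (-(c / 2) * (g ^ 2 * l ^ 2) / P - c / 2 * (P / (Λ * g ^ 2)) * (g * (δ - β * j)) ^ 2) := by
  have h1 : c / 2 * (g ^ 2 * l ^ 2) / P ≤ c * x ^ 2 / P + c := by
    have h : c / 2 * (g ^ 2 * l ^ 2) ≤ c * x ^ 2 + c * P := by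
      have h2 : g ^ 2 * l ^ 2 ≤ 2 * x ^ 2 + 2 * j ^ 2 := by
        rw [hx]
        nlinarith [sq_nonneg (g * l + 2 * j)]
      have h3 : g ^ 2 * l ^ 2 ≤ 2 * x ^ 2 + 2 * P := by linarith
      nlinarith [mul_le_mul_of_nonneg_left h3 hc.le]
    have h4 : (c * x ^ 2 + c * P) / P = c * x ^ 2 / P + c := by field_simp
    rw [← h4]
    exact div_le_div_of_nonneg_right h hP.le
  have h5 : c / 2 * (P / (Λ * g ^ 2)) * (g * (δ - β * j)) ^ 2 ≤ c * (P / Λ) * δ ^ 2 + c := by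
    have hΛ0 : 0 < Λ := by linarith
    have e : c / 2 * (P / (Λ * g ^ 2)) * (g * (δ - β * j)) ^ 2 = c / 2 * (P * (δ - β * j) ^ 2) / Λ := by
      field_simp
    have e2 : c * (P / Λ) * δ ^ 2 + c = (c * P * δ ^ 2 + c * Λ) / Λ := by field_simp
    rw [e, e2]
    refine div_le_div_of_nonneg_right ?_ hΛ0.le
    have h6 : (δ - β * j) ^ 2 ≤ 2 * δ ^ 2 + 2 * (β ^ 2 * g ^ 2) := by
      have h7 : β ^ 2 * j ^ 2 ≤ β ^ 2 * g ^ 2 := mul_le_mul_of_nonneg_left hj (sq_nonneg β)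
      nlinarith [sq_nonneg (δ + β * j)]
    have h8 : P * (δ - β * j) ^ 2 ≤ 2 * (P * δ ^ 2) + 2 := by
      nlinarith [mul_le_mul_of_nonneg_left h6 hP.le]
    nlinarith [mul_le_mul_of_nonneg_left h8 hc.le, mul_le_mul_of_nonneg_left hΛ hc.le]
  have e1 : -c * x ^ 2 / P = -(c * x ^ 2 / P) := by ring
  have e3 : -(c / 2) * (g ^ 2 * l ^ 2) / P = -(c / 2 * (g ^ 2 * l ^ 2) / P) := by ring
  rw [e1, e3]
  linarith

/-- comparison of one term -/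
theorem term (c Λ P β : ℝ) (g : ℕ) (a k : ℤ) (hc : 0 < c) (hΛ : 1 ≤ Λ) (hP : 0 < P)
    (hg : 1 ≤ g) (hgP : (g : ℝ) ^ 2 ≤ P) (hβ : |β| ≤ 1 / (g * Real.sqrt P)) :
    Real.exp (-c * (k : ℝ) ^ 2 / P - c * (P / Λ) * dn ((a / g + β) * k) ^ 2) ≤
      Real.exp (2 * c) * Real.exp (-(c / 2) * ((g : ℝ) ^ 2 * ((k / (g : ℤ) : ℤ) : ℝ) ^ 2) / P -
        c / 2 * (P / (Λ * (g : ℝ) ^ 2)) *
          (((a * k - g * round ((a / g + β) * k : ℝ) : ℤ) : ℝ) +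
            β * (g : ℝ) ^ 2 * ((k / (g : ℤ) : ℤ) : ℝ)) ^ 2) := by
  have hg0 : (0 : ℝ) < g := by exact_mod_cast hg
  have hgz : (0 : ℤ) < (g : ℤ) := by exact_mod_cast hg
  have hk : (g : ℤ) * (k / (g : ℤ)) + k % (g : ℤ) = k := Int.mul_ediv_add_emod k g
  have hkr : (k : ℝ) = (g : ℝ) * ((k / (g : ℤ) : ℤ) : ℝ) + ((k % (g : ℤ) : ℤ) : ℝ) := by
    exact_mod_cast hk.symm
  have hj0 : (0 : ℝ) ≤ ((k % (g : ℤ) : ℤ) : ℝ) := by exact_mod_cast Int.emod_nonneg k hgz.ne'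
  have hj1 : ((k % (g : ℤ) : ℤ) : ℝ) ≤ (g : ℝ) := by exact_mod_cast (Int.emod_lt_of_pos k hgz).le
  have hj : ((k % (g : ℤ) : ℤ) : ℝ) ^ 2 ≤ (g : ℝ) ^ 2 := pow_le_pow_left₀ hj0 hj1 2
  have hd : dn ((a / g + β) * k) ^ 2 = ((a / g + β) * k - round ((a / g + β) * k : ℝ)) ^ 2 := by
    unfold dn
    exact sq_abs _
  rw [hd, ← Real.exp_add]
  refine Real.exp_le_exp.2 ?_
  have hb := beta_sq P β g hP hg0 hβ
  have h := expo c Λ P β g k ((k / (g : ℤ) : ℤ) : ℝ) ((k % (g : ℤ) : ℤ) : ℝ)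
    ((a / g + β) * k - round ((a / g + β) * k : ℝ)) hc hΛ hP hg0 hgP hb hkr hj
  have e : (((a * k - g * round ((a / g + β) * k : ℝ) : ℤ) : ℝ) +
            β * (g : ℝ) ^ 2 * ((k / (g : ℤ) : ℤ) : ℝ)) =
      (g : ℝ) * (((a / g + β) * k - round ((a / g + β) * k : ℝ)) - β * ((k % (g : ℤ) : ℤ) : ℝ)) := by
    have e1 : ((k % (g : ℤ) : ℤ) : ℝ) = k - g * ((k / (g : ℤ) : ℤ) : ℝ) := by linarith
    rw [e1]
    push_cast
    field_simp
    ring
  rw [e]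
  exact h

/-- the pair determines the integer -/
theorem inj (α : ℝ) (g : ℕ) (a : ℤ) (hg : 1 ≤ g) (ha : IsCoprime a (g : ℤ)) :
    Function.Injective (fun k : ℤ => ((k / (g : ℤ), a * k - g * round (α * k)) : ℤ × ℤ)) := by
  intro k k' h
  have h1 : k / (g : ℤ) = k' / (g : ℤ) := congrArg Prod.fst h
  have h2 : a * k - g * round (α * k) = a * k' - g * round (α * k') := congrArg Prod.snd h
  have h3 : (g : ℤ) ∣ a * (k - k') := ⟨round (α * k) - round (α * k'), by linarith⟩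
  have h4 : (g : ℤ) ∣ k - k' := ha.symm.dvd_of_dvd_mul_left h3
  have h5 : k % (g : ℤ) = k' % (g : ℤ) :=
    Int.emod_eq_emod_iff_emod_sub_eq_zero.2 (Int.emod_eq_zero_of_dvd h4)
  rw [← Int.mul_ediv_add_emod k g, ← Int.mul_ediv_add_emod k' g, h1, h5]

/-- the Gaussian weight of a pair -/
noncomputable def GG (c B β g P : ℝ) (x : ℤ × ℤ) : ℝ :=
  Real.exp (-(c / 2) * (g ^ 2 * (x.1 : ℝ) ^ 2) / P - B * ((x.2 : ℝ) + β * g ^ 2 * (x.1 : ℝ)) ^ 2)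

theorem GG_nonneg (c B β g P : ℝ) (x : ℤ × ℤ) : 0 ≤ GG c B β g P x := (Real.exp_pos _).le

/-- the counting function is at most the double sum -/
theorem cmp (c Λ P β M : ℝ) (g : ℕ) (a : ℤ) (hc : 0 < c) (hΛ : 1 ≤ Λ) (hP : 0 < P)
    (hg : 1 ≤ g) (hgP : (g : ℝ) ^ 2 ≤ P) (ha : IsCoprime a (g : ℤ))
    (hβ : |β| ≤ 1 / (g * Real.sqrt P))
    (hs : Summable (GG c (c / 2 * (P / (Λ * (g : ℝ) ^ 2))) β g P))
    (hM : ∑' x, GG c (c / 2 * (P / (Λ * (g : ℝ) ^ 2))) β g P x ≤ M) :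
    NA c Λ P (a / g + β) ≤ Real.exp (2 * c) * M := by
  have hi := inj ((a : ℝ) / g + β) g a hg ha
  have ht : ∀ k : ℤ, Real.exp (-c * (k : ℝ) ^ 2 / P -
      c * (P / Λ) * dn (((a : ℝ) / g + β) * k) ^ 2) ≤
      Real.exp (2 * c) * GG c (c / 2 * (P / (Λ * (g : ℝ) ^ 2))) β g P
        ((k / (g : ℤ), a * k - g * round (((a : ℝ) / g + β) * k)) : ℤ × ℤ) := by
    intro k
    unfold GG
    exact term c Λ P β g a k hc hΛ hP hg hgP hβ
  have hs2 : Summable fun x => Real.exp (2 * c) * GG c (c / 2 * (P / (Λ * (g : ℝ) ^ 2))) β g P x :=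
    hs.mul_left _
  have hs3 : Summable fun k : ℤ => Real.exp (2 * c) * GG c (c / 2 * (P / (Λ * (g : ℝ) ^ 2))) β g P
      ((k / (g : ℤ), a * k - g * round (((a : ℝ) / g + β) * k)) : ℤ × ℤ) :=
    hs2.comp_injective hi
  have hF : Summable fun k : ℤ => Real.exp (-c * (k : ℝ) ^ 2 / P -
      c * (P / Λ) * dn (((a : ℝ) / g + β) * k) ^ 2) :=
    Summable.of_nonneg_of_le (fun k => (Real.exp_pos _).le) ht hs3
  have h0 : ∑' k : ℤ, Real.exp (2 * c) * GG c (c / 2 * (P / (Λ * (g : ℝ) ^ 2))) β g P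
      ((k / (g : ℤ), a * k - g * round (((a : ℝ) / g + β) * k)) : ℤ × ℤ) ≤
      ∑' x, Real.exp (2 * c) * GG c (c / 2 * (P / (Λ * (g : ℝ) ^ 2))) β g P x :=
    hs3.tsum_le_tsum_of_inj _ hi
      (fun x _ => mul_nonneg (Real.exp_pos _).le (GG_nonneg _ _ _ _ _ x)) (fun _ => le_rfl) hs2
  have h1 : NA c Λ P (a / g + β) ≤
      ∑' x, Real.exp (2 * c) * GG c (c / 2 * (P / (Λ * (g : ℝ) ^ 2))) β g P x := by
    unfold NA
    exact (hF.tsum_le_tsum ht hs3).trans h0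
  rw [tsum_mul_left] at h1
  exact h1.trans (mul_le_mul_of_nonneg_left hM (Real.exp_pos _).le)

/-- first order of summation -/
theorem bound1 (hG1 : SvG1) (c Λ P β g : ℝ) (hc : 0 < c) (hΛ : 1 ≤ Λ) (hP : 0 < P) (hg : 0 < g)
    (hgP : g ^ 2 ≤ P) :
    Summable (GG c (c / 2 * (P / (Λ * g ^ 2))) β g P) ∧
    ∑' x, GG c (c / 2 * (P / (Λ * g ^ 2))) β g P x ≤
      4 * (1 + Real.sqrt (8 * Real.pi / c) * Real.sqrt Λ) *
        (4 * (1 + Real.sqrt (8 * Real.pi / c) * (Real.sqrt P / g))) := by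
  have hΛ0 : 0 < Λ := by linarith
  have hpi := Real.pi_pos
  have hB : 0 < c / 2 * (P / (Λ * g ^ 2)) := by positivity
  have hD : 0 < c / 2 * (g ^ 2 / P) := by positivity
  have e : ∀ l m : ℤ, GG c (c / 2 * (P / (Λ * g ^ 2))) β g P (l, m) =
      Real.exp (-(c / 2 * (g ^ 2 / P)) * ((l : ℝ) + 0) ^ 2) *
        Real.exp (-(c / 2 * (P / (Λ * g ^ 2))) * ((m : ℝ) + β * g ^ 2 * l) ^ 2) := by
    intro l m
    unfold GG
    rw [← Real.exp_add]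
    congr 1
    simp only
    ring
  have h1 := two (GG c (c / 2 * (P / (Λ * g ^ 2))) β g P)
    (fun l : ℤ => Real.exp (-(c / 2 * (g ^ 2 / P)) * ((l : ℝ) + 0) ^ 2))
    (4 * (1 + Real.sqrt (8 * Real.pi / c) * Real.sqrt Λ)) (GG_nonneg _ _ _ _ _)
    (fun l => by
      simp only [e]
      exact (gs hG1 _ _ hB).1.mul_left _)
    (fun l => by
      simp only [e]
      rw [tsum_mul_left, mul_comm]
      refine mul_le_mul_of_nonneg_right ?_ (Real.exp_pos _).le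
      refine gsY hG1 c _ _ _ hB (Real.sqrt_nonneg _) ?_ hc
      rw [Real.sq_sqrt hΛ0.le, div_le_iff₀ hB]
      have e2 : 8 * Real.pi / c * Λ * (c / 2 * (P / (Λ * g ^ 2))) = 4 * Real.pi * (P / g ^ 2) := by
        field_simp
        ring
      rw [e2]
      have h3 : 1 ≤ P / g ^ 2 := (one_le_div (by positivity)).2 hgP
      nlinarith)
    (gs hG1 _ _ hD).1
  refine ⟨h1.1, h1.2.trans (mul_le_mul_of_nonneg_left ?_ (by positivity))⟩
  refine gsY hG1 c _ _ _ hD (by positivity) ?_ hc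
  rw [div_pow, Real.sq_sqrt hP.le, div_le_iff₀ hD]
  have e3 : 8 * Real.pi / c * (P / g ^ 2) * (c / 2 * (g ^ 2 / P)) = 4 * Real.pi := by
    field_simp
    ring
  rw [e3]
  linarith

/-- the exponent inequality for the second order of summation -/
theorem expo2 (c Λ P β g l m : ℝ) (hc : 0 < c) (hΛ : 1 ≤ Λ) (hP : 0 < P) (hg : 0 < g)
    (hgP : g ^ 2 ≤ P) (hβ : β ^ 2 * g ^ 2 * P ≤ 1) (hβ0 : β ≠ 0) :
    -(c / 2) * (g ^ 2 * l ^ 2) / P - c / 2 * (P / (Λ * g ^ 2)) * (m + β * g ^ 2 * l) ^ 2 ≤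
      -(c / (8 * Λ)) * (m + 0) ^ 2 +
        -(c / 4 * (P * β ^ 2 * g ^ 2 / Λ)) * (l + m / (β * g ^ 2)) ^ 2 := by
  have hΛ0 : 0 < Λ := by linarith
  have e1 : -(c / 4 * (P * β ^ 2 * g ^ 2 / Λ)) * (l + m / (β * g ^ 2)) ^ 2 =
      -(c / 4 * (P / (Λ * g ^ 2)) * (m + β * g ^ 2 * l) ^ 2) := by
    field_simp
    ring
  rw [e1]
  have h1 : (β * g ^ 2 * l) ^ 2 ≤ g ^ 2 * l ^ 2 / P := by
    rw [le_div_iff₀ hP]
    have h2 := mul_le_mul_of_nonneg_right hβ (by positivity : 0 ≤ g ^ 2 * l ^ 2)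
    nlinarith
  have h3 : c / (4 * Λ) * (m + β * g ^ 2 * l) ^ 2 ≤
      c / 4 * (P / (Λ * g ^ 2)) * (m + β * g ^ 2 * l) ^ 2 := by
    refine mul_le_mul_of_nonneg_right ?_ (sq_nonneg _)
    have h4 : 1 ≤ P / g ^ 2 := (one_le_div (by positivity)).2 hgP
    have e2 : c / 4 * (P / (Λ * g ^ 2)) = c / (4 * Λ) * (P / g ^ 2) := by
      field_simp
    rw [e2]
    exact le_mul_of_one_le_right (by positivity) h4
  have h5 : c / (4 * Λ) * (β * g ^ 2 * l) ^ 2 ≤ c / 2 * (g ^ 2 * l ^ 2 / P) := by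
    refine mul_le_mul ?_ h1 (sq_nonneg _) (by positivity)
    rw [div_le_div_iff₀ (by positivity) (by norm_num)]
    nlinarith
  have h6 : c / (8 * Λ) * m ^ 2 ≤
      c / (4 * Λ) * (β * g ^ 2 * l) ^ 2 + c / (4 * Λ) * (m + β * g ^ 2 * l) ^ 2 := by
    have h7 : m ^ 2 ≤ 2 * ((β * g ^ 2 * l) ^ 2 + (m + β * g ^ 2 * l) ^ 2) := by
      nlinarith [sq_nonneg (m + 2 * (β * g ^ 2 * l))]
    have h8 := mul_le_mul_of_nonneg_left h7 (by positivity : 0 ≤ c / (8 * Λ))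
    have e3 : c / (4 * Λ) = c / (8 * Λ) * 2 := by
      field_simp
      ring
    rw [e3]
    linarith
  have e4 : -(c / 2) * (g ^ 2 * l ^ 2) / P = -(c / 2 * (g ^ 2 * l ^ 2 / P)) := by ring
  have e5 : c / 2 * (P / (Λ * g ^ 2)) * (m + β * g ^ 2 * l) ^ 2 =
      2 * (c / 4 * (P / (Λ * g ^ 2)) * (m + β * g ^ 2 * l) ^ 2) := by ring
  rw [e4, e5, add_zero]
  linarith

/-- second order of summation -/
theorem bound2 (hG1 : SvG1) (c Λ P β g : ℝ) (hc : 0 < c) (hΛ : 1 ≤ Λ) (hP : 0 < P) (hg : 0 < g)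
    (hgP : g ^ 2 ≤ P) (hβ : β ^ 2 * g ^ 2 * P ≤ 1) (hβ0 : β ≠ 0) :
    ∑' x, GG c (c / 2 * (P / (Λ * g ^ 2))) β g P x ≤
      4 * (1 + Real.sqrt (8 * Real.pi / c) * (Real.sqrt Λ / (Real.sqrt P * g * |β|))) *
        (4 * (1 + Real.sqrt (8 * Real.pi / c) * Real.sqrt Λ)) := by
  have hΛ0 : 0 < Λ := by linarith
  have hpi := Real.pi_pos
  have hβ2 : 0 < β ^ 2 := by positivity
  have hB : 0 < c / 4 * (P * β ^ 2 * g ^ 2 / Λ) := by positivity
  have hD : 0 < c / (8 * Λ) := by positivity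
  have hle : ∀ m l : ℤ, GG c (c / 2 * (P / (Λ * g ^ 2))) β g P (l, m) ≤
      Real.exp (-(c / (8 * Λ)) * ((m : ℝ) + 0) ^ 2) *
        Real.exp (-(c / 4 * (P * β ^ 2 * g ^ 2 / Λ)) * ((l : ℝ) + m / (β * g ^ 2)) ^ 2) := by
    intro m l
    unfold GG
    rw [← Real.exp_add]
    exact Real.exp_le_exp.2 (expo2 c Λ P β g l m hc hΛ hP hg hgP hβ hβ0)
  have hs : ∀ m : ℤ, Summable fun l : ℤ => GG c (c / 2 * (P / (Λ * g ^ 2))) β g P (l, m) := fun m =>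
    Summable.of_nonneg_of_le (fun l => GG_nonneg _ _ _ _ _ _) (hle m)
      ((gs hG1 _ _ hB).1.mul_left _)
  have h1 := two (fun x : ℤ × ℤ => GG c (c / 2 * (P / (Λ * g ^ 2))) β g P (x.2, x.1))
    (fun m : ℤ => Real.exp (-(c / (8 * Λ)) * ((m : ℝ) + 0) ^ 2))
    (4 * (1 + Real.sqrt (8 * Real.pi / c) * (Real.sqrt Λ / (Real.sqrt P * g * |β|))))
    (fun x => GG_nonneg _ _ _ _ _ _) hs
    (fun m => by
      refine ((hs m).tsum_le_tsum (hle m) ((gs hG1 _ _ hB).1.mul_left _)).trans ?_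
      rw [tsum_mul_left, mul_comm]
      refine mul_le_mul_of_nonneg_right ?_ (Real.exp_pos _).le
      refine gsY hG1 c _ _ _ hB (by positivity) ?_ hc
      rw [div_pow, mul_pow, mul_pow, Real.sq_sqrt hΛ0.le, Real.sq_sqrt hP.le, sq_abs,
        div_le_iff₀ hB]
      have e2 : 8 * Real.pi / c * (Λ / (P * g ^ 2 * β ^ 2)) * (c / 4 * (P * β ^ 2 * g ^ 2 / Λ)) =
          2 * Real.pi := by
        field_simp
        ring
      rw [e2]
      linarith)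
    (gs hG1 _ _ hD).1
  have h2 : ∑' x : ℤ × ℤ, GG c (c / 2 * (P / (Λ * g ^ 2))) β g P (x.2, x.1) =
      ∑' x, GG c (c / 2 * (P / (Λ * g ^ 2))) β g P x :=
    (Equiv.prodComm ℤ ℤ).tsum_eq (GG c (c / 2 * (P / (Λ * g ^ 2))) β g P)
  rw [← h2]
  refine h1.2.trans (mul_le_mul_of_nonneg_left ?_ (by positivity))
  refine gsY hG1 c _ _ _ hD (by positivity) ?_ hc
  rw [Real.sq_sqrt hΛ0.le]
  refine le_of_eq ?_
  field_simp

end VN1

/-- Item N1. -/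
theorem pvN1 (hG1 : SvG1) : SvN1 := by
  intro c hc
  have hκ : 0 ≤ Real.sqrt (8 * Real.pi / c) := Real.sqrt_nonneg _
  refine ⟨Real.exp (2 * c) * (4 * (1 + Real.sqrt (8 * Real.pi / c))) ^ 2, by positivity, ?_⟩
  intro Λ P β g a hΛ hΛP hg hgP ha hβ
  have hP : 0 < P := by linarith
  have hg0 : (0 : ℝ) < g := by exact_mod_cast hg
  obtain ⟨hs, hb1⟩ := VN1.bound1 hG1 c Λ P β g hc hΛ hP hg0 hgP
  have hΛ0 : 0 < Λ := by linarith
  have hr1 : 1 ≤ Real.sqrt Λ := Real.one_le_sqrt.2 hΛ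
  have hr2 : Real.sqrt Λ * Real.sqrt Λ = Λ := Real.mul_self_sqrt hΛ0.le
  have hr3 : Real.sqrt Λ ≤ Λ := by nlinarith
  set κ := Real.sqrt (8 * Real.pi / c) with hκdef
  have h1 : 1 + κ * Real.sqrt Λ ≤ (1 + κ) * Real.sqrt Λ := by linarith
  refine ⟨?_, fun hβ0 => ?_⟩
  · refine (VN1.cmp c Λ P β _ g a hc hΛ hP hg hgP ha hβ hs hb1).trans ?_
    have hY : 0 ≤ Real.sqrt P / g := by positivity
    have h2 : 1 + κ * (Real.sqrt P / g) ≤ (1 + κ) * (1 + Real.sqrt P / g) := by nlinarith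
    have h3 : 4 * (1 + κ * Real.sqrt Λ) * (4 * (1 + κ * (Real.sqrt P / g))) ≤
        (4 * (1 + κ)) ^ 2 * Λ * (1 + Real.sqrt P / g) := by
      have h4 : 1 + κ * Real.sqrt Λ ≤ (1 + κ) * Λ :=
        h1.trans (mul_le_mul_of_nonneg_left hr3 (by linarith))
      calc 4 * (1 + κ * Real.sqrt Λ) * (4 * (1 + κ * (Real.sqrt P / g)))
          ≤ 4 * ((1 + κ) * Λ) * (4 * ((1 + κ) * (1 + Real.sqrt P / g))) := by gcongr
        _ = _ := by ring
    calc Real.exp (2 * c) * (4 * (1 + κ * Real.sqrt Λ) * (4 * (1 + κ * (Real.sqrt P / g))))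
        ≤ Real.exp (2 * c) * ((4 * (1 + κ)) ^ 2 * Λ * (1 + Real.sqrt P / g)) :=
          mul_le_mul_of_nonneg_left h3 (Real.exp_pos _).le
      _ = _ := by ring
  · have hb2 := VN1.bound2 hG1 c Λ P β g hc hΛ hP hg0 hgP (VN1.beta_sq P β g hP hg0 hβ) hβ0
    refine (VN1.cmp c Λ P β _ g a hc hΛ hP hg hgP ha hβ hs hb2).trans ?_
    have hY : 0 ≤ 1 / (Real.sqrt P * g * |β|) := by positivity
    have e : Real.sqrt Λ / (Real.sqrt P * g * |β|) =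
        Real.sqrt Λ * (1 / (Real.sqrt P * g * |β|)) := by ring
    rw [e]
    set Y := 1 / (Real.sqrt P * g * |β|) with hYdef
    have h2 : 1 + κ * (Real.sqrt Λ * Y) ≤ (1 + κ) * Real.sqrt Λ * (1 + Y) := by
      have h5 : 0 ≤ κ * (Real.sqrt Λ * Y) := by positivity
      have h6 : 0 ≤ κ * Real.sqrt Λ := by positivity
      have h7 : 0 ≤ Real.sqrt Λ * Y := by positivity
      nlinarith
    have h3 : 4 * (1 + κ * (Real.sqrt Λ * Y)) * (4 * (1 + κ * Real.sqrt Λ)) ≤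
        (4 * (1 + κ)) ^ 2 * Λ * (1 + Y) := by
      calc 4 * (1 + κ * (Real.sqrt Λ * Y)) * (4 * (1 + κ * Real.sqrt Λ))
          ≤ 4 * ((1 + κ) * Real.sqrt Λ * (1 + Y)) * (4 * ((1 + κ) * Real.sqrt Λ)) := by gcongr
        _ = (4 * (1 + κ)) ^ 2 * (Real.sqrt Λ * Real.sqrt Λ) * (1 + Y) := by ring
        _ = _ := by rw [hr2]
    calc Real.exp (2 * c) * (4 * (1 + κ * (Real.sqrt Λ * Y)) * (4 * (1 + κ * Real.sqrt Λ)))
        ≤ Real.exp (2 * c) * ((4 * (1 + κ)) ^ 2 * Λ * (1 + Y)) :=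
          mul_le_mul_of_nonneg_left h3 (Real.exp_pos _).le
      _ = _ := by ring

end HQ
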