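import Pool.Agent.Work.MP_d2a4bb_nt.QV.Stmts

/-!
# Item PB: Bessel's inequality for absolutely convergent Fourier series
-/

open UpperHalfPlane MeasureTheory Matrix
open scoped MatrixGroups Manifold Topology ComplexConjugate

namespace HQ

namespace VPB

/-- the character `e(n α)` -/
noncomputable def ex (n : ℤ) (α : ℝ) : ℂ :=
  Complex.exp (2 * Real.pi * Complex.I * (((n : ℝ) * α : ℝ) : ℂ))

theorem ex_norm (n : ℤ) (α : ℝ) : ‖ex n α‖ = 1 := by
  have h : (2 * Real.pi * Complex.I * (((n : ℝ) * α : ℝ) : ℂ) : ℂ) =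
      ((2 * Real.pi * (n * α) : ℝ) : ℂ) * Complex.I := by
    push_cast
    ring
  rw [ex, h, Complex.norm_exp_ofReal_mul_I]

theorem ex_cont (n : ℤ) : Continuous (ex n) := by
  unfold ex
  fun_prop

theorem ex_mul (n m : ℤ) (α : ℝ) : ex n α * conj (ex m α) = ex (n - m) α := by
  rw [ex, ex, ex, ← Complex.exp_conj, ← Complex.exp_add]
  congr 1
  simp only [map_mul, Complex.conj_ofReal, Complex.conj_I, map_ofNat]
  push_cast
  ring

theorem ex_int (n : ℤ) : ∫ α in Set.Icc (0 : ℝ) 1, ex n α = if n = 0 then 1 else 0 := by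
  rw [integral_Icc_eq_integral_Ioc, ← intervalIntegral.integral_of_le zero_le_one]
  split_ifs with h
  · subst h
    simp [ex]
  · have hc : (2 * Real.pi * Complex.I * n : ℂ) ≠ 0 := by
      have h1 : (n : ℂ) ≠ 0 := by exact_mod_cast h
      have h2 : (Real.pi : ℂ) ≠ 0 := by exact_mod_cast Real.pi_ne_zero
      exact mul_ne_zero (mul_ne_zero (mul_ne_zero two_ne_zero h2) Complex.I_ne_zero) h1
    have h3 : ∀ α : ℝ, ex n α = Complex.exp ((2 * Real.pi * Complex.I * n : ℂ) * α) := by
      intro α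
      rw [ex]
      congr 1
      push_cast
      ring
    simp only [h3]
    rw [integral_exp_mul_complex hc]
    have h4 : Complex.exp (2 * Real.pi * Complex.I * n * ((1 : ℝ) : ℂ)) = 1 := by
      rw [Complex.exp_eq_one_iff]
      refine ⟨n, ?_⟩
      push_cast
      ring
    rw [h4]
    simp

theorem cont (a : ℤ → ℝ) (ha : Summable fun n => |a n|) :
    Continuous fun α : ℝ => ∑' n : ℤ, (a n : ℂ) * ex n α := by
  refine continuous_tsum (fun n => continuous_const.mul (ex_cont n)) ha fun n α => ?_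
  rw [norm_mul, ex_norm, mul_one, Complex.norm_real, Real.norm_eq_abs]

theorem coef (a : ℤ → ℝ) (ha : Summable fun n => |a n|) (m : ℤ) :
    ∫ α in Set.Icc (0 : ℝ) 1, (∑' n : ℤ, (a n : ℂ) * ex n α) * conj (ex m α) = a m := by
  have h0 : ∀ n : ℤ, Continuous fun α : ℝ => (a n : ℂ) * ex n α * conj (ex m α) := fun n =>
    (continuous_const.mul (ex_cont n)).mul (Complex.continuous_conj.comp (ex_cont m))
  have h1 := hasSum_integral_of_summable_integral_norm
    (μ := volume.restrict (Set.Icc (0 : ℝ) 1))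
    (F := fun (n : ℤ) (α : ℝ) => (a n : ℂ) * ex n α * conj (ex m α))
    (fun n => ((h0 n).continuousOn.integrableOn_compact isCompact_Icc)) (by
      have h2 : ∀ n : ℤ, ∫ α in Set.Icc (0 : ℝ) 1, ‖(a n : ℂ) * ex n α * conj (ex m α)‖ =
          |a n| := by
        intro n
        have h3 : ∀ α : ℝ, ‖(a n : ℂ) * ex n α * conj (ex m α)‖ = |a n| := by
          intro α
          rw [norm_mul, norm_mul, RCLike.norm_conj, ex_norm, ex_norm, mul_one, mul_one,
            Complex.norm_real, Real.norm_eq_abs]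
        simp only [h3]
        simp
      simp only [h2]
      exact ha)
  have h4 : ∀ n : ℤ, ∫ α in Set.Icc (0 : ℝ) 1, (a n : ℂ) * ex n α * conj (ex m α) =
      if n = m then (a n : ℂ) else 0 := by
    intro n
    have h5 : ∀ α : ℝ, (a n : ℂ) * ex n α * conj (ex m α) = (a n : ℂ) * ex (n - m) α := by
      intro α
      rw [mul_assoc, ex_mul]
    simp only [h5]
    rw [integral_const_mul, ex_int]
    simp only [sub_eq_zero]
    split_ifs <;> simp
  simp only [h4] at h1
  have h6 := h1.tsum_eq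
  rw [tsum_ite_eq] at h6
  rw [h6]
  refine integral_congr_ae (Filter.Eventually.of_forall fun α => ?_)
  exact tsum_mul_right.symm

end VPB

open VPB

theorem pvPB : SvPB := by
  intro a ha
  refine ⟨cont a ha, fun T => ?_⟩
  set f : ℝ → ℂ := fun α => ∑' n : ℤ, (a n : ℂ) * ex n α with hf
  set S : ℝ → ℂ := fun α => ∑ n ∈ T, (a n : ℂ) * ex n α with hS
  have hfc : Continuous f := cont a ha
  have hSc : Continuous S := by
    refine continuous_finsetSum _ fun n _ => continuous_const.mul (ex_cont n)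
  have hint : ∀ {g : ℝ → ℂ}, Continuous g → Integrable g (volume.restrict (Set.Icc (0 : ℝ) 1)) :=
    fun hg => hg.continuousOn.integrableOn_compact isCompact_Icc
  have hintR : ∀ {g : ℝ → ℝ}, Continuous g →
      Integrable g (volume.restrict (Set.Icc (0 : ℝ) 1)) :=
    fun hg => hg.continuousOn.integrableOn_compact isCompact_Icc
  -- integral against `S`
  have hexp : ∀ g : ℝ → ℂ, Continuous g → (∀ m ∈ T,
      ∫ α in Set.Icc (0 : ℝ) 1, g α * conj (ex m α) = a m) →
      ∫ α in Set.Icc (0 : ℝ) 1, g α * conj (S α) = ((∑ n ∈ T, a n ^ 2 : ℝ) : ℂ) := by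
    intro g hg hgm
    have h1 : ∀ α, g α * conj (S α) = ∑ m ∈ T, (a m : ℂ) * (g α * conj (ex m α)) := by
      intro α
      rw [hS]
      simp only [map_sum, map_mul, Complex.conj_ofReal, Finset.mul_sum]
      refine Finset.sum_congr rfl fun m _ => ?_
      ring
    simp only [h1]
    have hi : ∀ m ∈ T, Integrable (fun α => (a m : ℂ) * (g α * conj (ex m α)))
        (volume.restrict (Set.Icc (0 : ℝ) 1)) := fun m _ => hint (continuous_const.mul
      (hg.mul (Complex.continuous_conj.comp (ex_cont m))))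
    rw [integral_finsetSum _ hi]
    push_cast
    refine Finset.sum_congr rfl fun m hm => ?_
    rw [integral_const_mul, hgm m hm]
    ring
  have h1 : ∫ α in Set.Icc (0 : ℝ) 1, f α * conj (S α) = ((∑ n ∈ T, a n ^ 2 : ℝ) : ℂ) :=
    hexp f hfc fun m _ => coef a ha m
  have h2 : ∫ α in Set.Icc (0 : ℝ) 1, S α * conj (S α) = ((∑ n ∈ T, a n ^ 2 : ℝ) : ℂ) := by
    refine hexp S hSc fun m hm => ?_
    have h3 : ∀ α, S α * conj (ex m α) = ∑ n ∈ T, (a n : ℂ) * ex (n - m) α := by
      intro α
      rw [hS]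
      simp only [Finset.sum_mul]
      refine Finset.sum_congr rfl fun n _ => ?_
      rw [mul_assoc, ex_mul]
    simp only [h3]
    have hi : ∀ n ∈ T, Integrable (fun α => (a n : ℂ) * ex (n - m) α)
        (volume.restrict (Set.Icc (0 : ℝ) 1)) := fun n _ =>
      hint (continuous_const.mul (ex_cont _))
    rw [integral_finsetSum _ hi]
    simp only [integral_const_mul, ex_int, sub_eq_zero]
    rw [Finset.sum_eq_single m]
    · simp
    · intro n _ hn
      simp [hn]
    · intro h
      exact absurd hm h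
  have h4 : ∀ α, ‖f α - S α‖ ^ 2 = ‖f α‖ ^ 2 - 2 * (f α * conj (S α)).re +
      (S α * conj (S α)).re := by
    intro α
    rw [Complex.sq_norm, Complex.sq_norm, Complex.normSq_sub, Complex.mul_conj,
      Complex.ofReal_re]
    ring
  have h5 : 0 ≤ ∫ α in Set.Icc (0 : ℝ) 1, ‖f α - S α‖ ^ 2 :=
    integral_nonneg fun α => sq_nonneg _
  simp only [h4] at h5
  have c1 : Continuous fun α => f α * conj (S α) := hfc.mul (Complex.continuous_conj.comp hSc)
  have c2 : Continuous fun α => S α * conj (S α) := hSc.mul (Complex.continuous_conj.comp hSc)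
  have c3 : Continuous fun α => ‖f α‖ ^ 2 := (hfc.norm).pow 2
  have i1 : Integrable (fun α => 2 * (f α * conj (S α)).re)
      (volume.restrict (Set.Icc (0 : ℝ) 1)) :=
    hintR (continuous_const.mul (Complex.continuous_re.comp c1))
  have i2 : Integrable (fun α => (S α * conj (S α)).re)
      (volume.restrict (Set.Icc (0 : ℝ) 1)) := hintR (Complex.continuous_re.comp c2)
  have i0 : Integrable (fun α => ‖f α‖ ^ 2 - 2 * (f α * conj (S α)).re)
      (volume.restrict (Set.Icc (0 : ℝ) 1)) := (hintR c3).sub i1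
  rw [integral_add i0 i2, integral_sub (hintR c3) i1, integral_const_mul] at h5
  have h6 : ∫ α in Set.Icc (0 : ℝ) 1, (f α * conj (S α)).re = ∑ n ∈ T, a n ^ 2 := by
    have := integral_re (hint c1)
    have h7 : ∫ α in Set.Icc (0 : ℝ) 1, (f α * conj (S α)).re =
        (∫ α in Set.Icc (0 : ℝ) 1, f α * conj (S α)).re := this
    rw [h7, h1, Complex.ofReal_re]
  have h8 : ∫ α in Set.Icc (0 : ℝ) 1, (S α * conj (S α)).re = ∑ n ∈ T, a n ^ 2 := by
    have h7 : ∫ α in Set.Icc (0 : ℝ) 1, (S α * conj (S α)).re =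
        (∫ α in Set.Icc (0 : ℝ) 1, S α * conj (S α)).re := integral_re (hint c2)
    rw [h7, h2, Complex.ofReal_re]
  rw [h6, h8] at h5
  show ∑ n ∈ T, a n ^ 2 ≤ ∫ α in Set.Icc (0 : ℝ) 1, ‖f α‖ ^ 2
  linarith

end HQ
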