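import Pool.Agent.Work.MP_d2a4bb_nt.QV.Stmts

/-!
# Block [d2a4bb QV], item QF: the forms in coordinates
-/

open UpperHalfPlane MeasureTheory Matrix
open scoped MatrixGroups Manifold Topology ComplexConjugate

namespace HQ

namespace VQF

/-- the form `qm` in real coordinates -/
lemma qm_eq (z w : ℍ) (x : Matrix (Fin 2) (Fin 2) ℝ) : qm z w x =
    ((x 0 0 * z.re + x 0 1 - w.re * (x 1 0 * z.re + x 1 1) + w.im * (x 1 0 * z.im)) ^ 2 +
      (x 0 0 * z.im - w.re * (x 1 0 * z.im) - w.im * (x 1 0 * z.re + x 1 1)) ^ 2) /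
      (z.im * w.im) := by
  unfold qm
  congr 1
  rw [← Complex.normSq_eq_norm_sq, Complex.normSq_apply]
  simp only [Complex.sub_re, Complex.sub_im, Complex.add_re, Complex.add_im, Complex.mul_re,
    Complex.mul_im, Complex.ofReal_re, Complex.ofReal_im, UpperHalfPlane.coe_re,
    UpperHalfPlane.coe_im]
  ring

lemma qm_nonneg (z w : ℍ) (x : Matrix (Fin 2) (Fin 2) ℝ) : 0 ≤ qm z w x := by
  unfold qm
  have h1 := z.im_pos
  have h2 := w.im_pos
  positivity

/-- positivity -/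
lemma QQ_pos (z w : ℍ) (x : Matrix (Fin 2) (Fin 2) ℝ) (hx : x ≠ 0) : 0 < QQ 1 z w x := by
  unfold QQ
  rw [qm_eq, Matrix.det_fin_two]
  have hy := z.im_pos
  have hv := w.im_pos
  set a := x 0 0 with ha
  set b := x 0 1 with hb
  set c := x 1 0 with hc
  set d := x 1 1 with hd
  set X := z.re
  set Y := z.im
  set U := w.re
  set V := w.im
  have hid : 2 * (a * d - b * c) + 1 * (((a * X + b - U * (c * X + d) + V * (c * Y)) ^ 2 +
      (a * Y - U * (c * Y) - V * (c * X + d)) ^ 2) / (Y * V)) =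
      ((a * X + b - U * (c * X + d) + V * (c * Y)) ^ 2 +
      (a * Y - U * (c * Y) - V * (c * X + d)) ^ 2 +
      (a * X + b - U * (c * X + d) - V * (c * Y)) ^ 2 +
      (a * Y - U * (c * Y) + V * (c * X + d)) ^ 2) / (2 * (Y * V)) := by
    field_simp
    ring
  rw [hid]
  apply div_pos _ (by positivity)
  by_contra hcon
  rw [not_lt] at hcon
  have s1 := sq_nonneg (a * X + b - U * (c * X + d) + V * (c * Y))
  have s2 := sq_nonneg (a * Y - U * (c * Y) - V * (c * X + d))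
  have s3 := sq_nonneg (a * X + b - U * (c * X + d) - V * (c * Y))
  have s4 := sq_nonneg (a * Y - U * (c * Y) + V * (c * X + d))
  have e1 : a * X + b - U * (c * X + d) + V * (c * Y) = 0 := by
    apply pow_eq_zero_iff (two_ne_zero) |>.1; linarith
  have e2 : a * Y - U * (c * Y) - V * (c * X + d) = 0 := by
    apply pow_eq_zero_iff (two_ne_zero) |>.1; linarith
  have e3 : a * X + b - U * (c * X + d) - V * (c * Y) = 0 := by
    apply pow_eq_zero_iff (two_ne_zero) |>.1; linarith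
  have e4 : a * Y - U * (c * Y) + V * (c * X + d) = 0 := by
    apply pow_eq_zero_iff (two_ne_zero) |>.1; linarith
  have f1 : V * (c * Y) = 0 := by linarith
  have f2 : V * (c * X + d) = 0 := by linarith
  have c0 : c = 0 := by
    rcases mul_eq_zero.1 f1 with h | h
    · exact absurd h hv.ne'
    · rcases mul_eq_zero.1 h with h | h
      · exact h
      · exact absurd h hy.ne'
  have d0 : d = 0 := by
    rcases mul_eq_zero.1 f2 with h | h
    · exact absurd h hv.ne'
    · rw [c0] at h; linarith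
  have a0 : a = 0 := by
    rw [c0, d0] at e2
    have h : a * Y = 0 := by linarith
    rcases mul_eq_zero.1 h with h | h
    · exact h
    · exact absurd h hy.ne'
  have b0 : b = 0 := by
    rw [c0, d0, a0] at e1
    linarith
  apply hx
  ext i j
  fin_cases i <;> fin_cases j
  · exact a0
  · exact b0
  · exact c0
  · exact d0

/-- linear functions -/
def IsL (f : (Fin 4 → ℝ) → ℝ) : Prop := ∃ a : Fin 4 → ℝ, ∀ t, f t = ∑ i, a i * t i

/-- quadratic forms -/
def IsQd (q : (Fin 4 → ℝ) → ℝ) : Prop :=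
  ∃ M : Matrix (Fin 4) (Fin 4) ℝ, M.IsSymm ∧ ∀ t, q t = ∑ i, ∑ j, M i j * t i * t j

lemma IsL.add {f g : (Fin 4 → ℝ) → ℝ} (hf : IsL f) (hg : IsL g) : IsL (fun t => f t + g t) := by
  obtain ⟨a, ha⟩ := hf
  obtain ⟨b, hb⟩ := hg
  refine ⟨fun i => a i + b i, fun t => ?_⟩
  change f t + g t = ∑ i, (a i + b i) * t i
  rw [ha, hb, ← Finset.sum_add_distrib]
  exact Finset.sum_congr rfl fun i _ => by ring

lemma IsL.smul {f : (Fin 4 → ℝ) → ℝ} (c : ℝ) (hf : IsL f) : IsL (fun t => c * f t) := by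
  obtain ⟨a, ha⟩ := hf
  refine ⟨fun i => c * a i, fun t => ?_⟩
  change c * f t = ∑ i, c * a i * t i
  rw [ha, Finset.mul_sum]
  exact Finset.sum_congr rfl fun i _ => by ring

lemma IsL.congr {f g : (Fin 4 → ℝ) → ℝ} (hf : IsL f) (h : ∀ t, g t = f t) : IsL g := by
  obtain ⟨a, ha⟩ := hf
  exact ⟨a, fun t => by rw [h, ha]⟩

lemma cr_apply (Q : QuatOrder) (t : Fin 4 → ℝ) (i j : Fin 2) :
    cr Q t i j = ∑ k, Q.basis k i j * t k := by
  unfold cr
  rw [Matrix.sum_apply]
  exact Finset.sum_congr rfl fun k _ => by rw [Matrix.smul_apply, smul_eq_mul, mul_comm]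

lemma isL_entry (Q : QuatOrder) (i j : Fin 2) : IsL (fun t => cr Q t i j) :=
  ⟨fun k => Q.basis k i j, fun t => cr_apply Q t i j⟩

lemma IsL.mul {f g : (Fin 4 → ℝ) → ℝ} (hf : IsL f) (hg : IsL g) : IsQd (fun t => f t * g t) := by
  obtain ⟨a, ha⟩ := hf
  obtain ⟨b, hb⟩ := hg
  refine ⟨Matrix.of fun i j => (a i * b j + a j * b i) / 2, ?_, fun t => ?_⟩
  · ext i j
    simp only [Matrix.transpose_apply, Matrix.of_apply]
    ring
  · change f t * g t = ∑ i, ∑ j, (a i * b j + a j * b i) / 2 * t i * t j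
    rw [ha, hb]
    simp only [Fin.sum_univ_four]
    ring

lemma IsQd.add {p q : (Fin 4 → ℝ) → ℝ} (hp : IsQd p) (hq : IsQd q) :
    IsQd (fun t => p t + q t) := by
  obtain ⟨A, hA, ha⟩ := hp
  obtain ⟨B, hB, hb⟩ := hq
  refine ⟨A + B, hA.add hB, fun t => ?_⟩
  change p t + q t = _
  rw [ha, hb, ← Finset.sum_add_distrib]
  refine Finset.sum_congr rfl fun i _ => ?_
  rw [← Finset.sum_add_distrib]
  exact Finset.sum_congr rfl fun j _ => by rw [Matrix.add_apply]; ring

lemma IsQd.smul {p : (Fin 4 → ℝ) → ℝ} (c : ℝ) (hp : IsQd p) : IsQd (fun t => c * p t) := by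
  obtain ⟨A, hA, ha⟩ := hp
  refine ⟨c • A, hA.smul c, fun t => ?_⟩
  change c * p t = _
  rw [ha, Finset.mul_sum]
  refine Finset.sum_congr rfl fun i _ => ?_
  rw [Finset.mul_sum]
  exact Finset.sum_congr rfl fun j _ => by rw [Matrix.smul_apply, smul_eq_mul]; ring

lemma IsQd.congr {f g : (Fin 4 → ℝ) → ℝ} (hf : IsQd f) (h : ∀ t, g t = f t) : IsQd g := by
  obtain ⟨a, ha1, ha⟩ := hf
  exact ⟨a, ha1, fun t => by rw [h, ha]⟩

lemma IsQd.hom {p : (Fin 4 → ℝ) → ℝ} (hp : IsQd p) (s : ℝ) (t : Fin 4 → ℝ) :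
    p (s • t) = s ^ 2 * p t := by
  obtain ⟨A, -, ha⟩ := hp
  rw [ha, ha, Finset.mul_sum]
  refine Finset.sum_congr rfl fun i _ => ?_
  rw [Finset.mul_sum]
  refine Finset.sum_congr rfl fun j _ => ?_
  rw [Pi.smul_apply, Pi.smul_apply, smul_eq_mul, smul_eq_mul]
  ring

lemma isQd_det (Q : QuatOrder) : IsQd (fun t => (cr Q t).det) := by
  have h1 := (isL_entry Q 0 0).mul (isL_entry Q 1 1)
  have h2 := ((isL_entry Q 0 1).mul (isL_entry Q 1 0)).smul (-1)
  refine (h1.add h2).congr fun t => ?_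
  rw [Matrix.det_fin_two]
  ring

lemma isQd_qm (Q : QuatOrder) (z w : ℍ) : IsQd (fun t => qm z w (cr Q t)) := by
  have hP : IsL (fun t => cr Q t 0 0 * z.re + cr Q t 0 1 -
      w.re * (cr Q t 1 0 * z.re + cr Q t 1 1) + w.im * (cr Q t 1 0 * z.im)) := by
    refine ((((isL_entry Q 0 0).smul z.re).add (isL_entry Q 0 1)).add
      (((isL_entry Q 1 0).smul (w.im * z.im - w.re * z.re)).add
        ((isL_entry Q 1 1).smul (-w.re)))).congr fun t => ?_
    ring
  have hR : IsL (fun t => cr Q t 0 0 * z.im - w.re * (cr Q t 1 0 * z.im) -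
      w.im * (cr Q t 1 0 * z.re + cr Q t 1 1)) := by
    refine ((((isL_entry Q 0 0).smul z.im)).add
      (((isL_entry Q 1 0).smul (-(w.re * z.im) - w.im * z.re)).add
        ((isL_entry Q 1 1).smul (-w.im)))).congr fun t => ?_
    ring
  refine (((hP.mul hP).add (hR.mul hR)).smul (1 / (z.im * w.im))).congr fun t => ?_
  rw [qm_eq]
  ring

lemma isQd_QQ (Q : QuatOrder) (lam : ℝ) (z w : ℍ) : IsQd (fun t => QQ lam z w (cr Q t)) :=
  (((isQd_det Q).smul 2).add ((isQd_qm Q z w).smul lam))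

/-- the unit sphere -/
def S3 : Set (Fin 4 → ℝ) := {t | ∑ i, t i ^ 2 = 1}

lemma isCompact_S3 : IsCompact S3 := by
  apply Metric.isCompact_of_isClosed_isBounded
  · exact isClosed_eq (by fun_prop) continuous_const
  · rw [Metric.isBounded_iff_subset_closedBall 0]
    refine ⟨1, fun t ht => ?_⟩
    rw [mem_closedBall_zero_iff, pi_norm_le_iff_of_nonneg zero_le_one]
    intro i
    rw [Real.norm_eq_abs, ← sq_le_one_iff_abs_le_one]
    have h : t i ^ 2 ≤ ∑ i, t i ^ 2 :=
      Finset.single_le_sum (f := fun i => t i ^ 2) (fun j _ => sq_nonneg (t j))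
        (Finset.mem_univ i)
    exact h.trans (le_of_eq ht)

/-- homogeneity: it is enough to look at the unit sphere -/
lemma scale {p : (Fin 4 → ℝ) → ℝ} (hp : IsQd p) (t : Fin 4 → ℝ) (ht : t ≠ 0) :
    ∃ u ∈ S3, p t = (∑ i, t i ^ 2) * p u := by
  set s := ∑ i, t i ^ 2 with hs
  have hs0 : 0 < s := by
    obtain ⟨i, hi⟩ := Function.ne_iff.1 ht
    have h1 : 0 < t i ^ 2 := by
      have : t i ≠ 0 := hi
      positivity
    exact lt_of_lt_of_le h1 (Finset.single_le_sum (f := fun i => t i ^ 2)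
      (fun j _ => sq_nonneg (t j)) (Finset.mem_univ i))
  have hr : Real.sqrt s ^ 2 = s := Real.sq_sqrt hs0.le
  have hr0 : Real.sqrt s ≠ 0 := (Real.sqrt_pos.2 hs0).ne'
  refine ⟨(Real.sqrt s)⁻¹ • t, ?_, ?_⟩
  · change ∑ i, ((Real.sqrt s)⁻¹ • t) i ^ 2 = 1
    have h1 : ∀ i, ((Real.sqrt s)⁻¹ • t) i ^ 2 = s⁻¹ * t i ^ 2 := by
      intro i
      rw [Pi.smul_apply, smul_eq_mul, mul_pow, inv_pow, hr]
    rw [Finset.sum_congr rfl fun i _ => h1 i, ← Finset.mul_sum, ← hs]
    exact inv_mul_cancel₀ hs0.ne'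
  · rw [hp.hom, inv_pow, hr]
    field_simp

lemma cr_ne {Q : QuatOrder} {t : Fin 4 → ℝ} (ht : t ∈ S3) : cr Q t ≠ 0 := by
  intro h
  have h1 : ∀ i, t i = 0 := by
    have h2 := Fintype.linearIndependent_iff.1 Q.basis.linearIndependent t h
    exact h2
  have h3 : ∑ i, t i ^ 2 = 1 := ht
  simp [h1] at h3

lemma continuous_entry (Q : QuatOrder) (i j : Fin 2) : Continuous (fun t => cr Q t i j) := by
  have h : (fun t => cr Q t i j) = fun t => ∑ k, Q.basis k i j * t k :=
    funext fun t => cr_apply Q t i j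
  rw [h]
  fun_prop

lemma continuous_det (Q : QuatOrder) : Continuous (fun t => (cr Q t).det) := by
  have h : (fun t => (cr Q t).det) = fun t => cr Q t 0 0 * cr Q t 1 1 - cr Q t 0 1 * cr Q t 1 0 :=
    funext fun t => Matrix.det_fin_two _
  rw [h]
  exact ((continuous_entry Q 0 0).mul (continuous_entry Q 1 1)).sub
    ((continuous_entry Q 0 1).mul (continuous_entry Q 1 0))

lemma continuous_qm (Q : QuatOrder) :
    Continuous (fun p : ℍ × ℍ × (Fin 4 → ℝ) => qm p.1 p.2.1 (cr Q p.2.2)) := by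
  have h : (fun p : ℍ × ℍ × (Fin 4 → ℝ) => qm p.1 p.2.1 (cr Q p.2.2)) = fun p =>
    ((cr Q p.2.2 0 0 * p.1.re + cr Q p.2.2 0 1 - p.2.1.re * (cr Q p.2.2 1 0 * p.1.re +
      cr Q p.2.2 1 1) + p.2.1.im * (cr Q p.2.2 1 0 * p.1.im)) ^ 2 +
      (cr Q p.2.2 0 0 * p.1.im - p.2.1.re * (cr Q p.2.2 1 0 * p.1.im) -
        p.2.1.im * (cr Q p.2.2 1 0 * p.1.re + cr Q p.2.2 1 1)) ^ 2) /
      (p.1.im * p.2.1.im) := funext fun p => qm_eq _ _ _
  rw [h]
  have e00 : Continuous (fun p : ℍ × ℍ × (Fin 4 → ℝ) => cr Q p.2.2 0 0) :=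
    (continuous_entry Q 0 0).comp (continuous_snd.comp continuous_snd)
  have e01 : Continuous (fun p : ℍ × ℍ × (Fin 4 → ℝ) => cr Q p.2.2 0 1) :=
    (continuous_entry Q 0 1).comp (continuous_snd.comp continuous_snd)
  have e10 : Continuous (fun p : ℍ × ℍ × (Fin 4 → ℝ) => cr Q p.2.2 1 0) :=
    (continuous_entry Q 1 0).comp (continuous_snd.comp continuous_snd)
  have e11 : Continuous (fun p : ℍ × ℍ × (Fin 4 → ℝ) => cr Q p.2.2 1 1) :=
    (continuous_entry Q 1 1).comp (continuous_snd.comp continuous_snd)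
  have r1 : Continuous (fun p : ℍ × ℍ × (Fin 4 → ℝ) => p.1.re) :=
    UpperHalfPlane.continuous_re.comp continuous_fst
  have i1 : Continuous (fun p : ℍ × ℍ × (Fin 4 → ℝ) => p.1.im) :=
    UpperHalfPlane.continuous_im.comp continuous_fst
  have r2 : Continuous (fun p : ℍ × ℍ × (Fin 4 → ℝ) => p.2.1.re) :=
    UpperHalfPlane.continuous_re.comp (continuous_fst.comp continuous_snd)
  have i2 : Continuous (fun p : ℍ × ℍ × (Fin 4 → ℝ) => p.2.1.im) :=
    UpperHalfPlane.continuous_im.comp (continuous_fst.comp continuous_snd)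
  refine Continuous.div ?_ (i1.mul i2) (fun p => (mul_pos p.1.im_pos p.2.1.im_pos).ne')
  exact ((((((e00.mul r1).add e01).sub (r2.mul ((e10.mul r1).add e11))).add
    (i2.mul (e10.mul i1))).pow 2)).add
    ((((e00.mul i1).sub (r2.mul (e10.mul i1))).sub (i2.mul ((e10.mul r1).add e11))).pow 2)

end VQF

open VQF in
theorem pvQF : SvQF := by
  intro Q K hK
  -- the determinant
  obtain ⟨D, hD⟩ := isCompact_S3.exists_bound_of_continuousOn (continuous_det Q).continuousOn
  have hDb : ∀ t : Fin 4 → ℝ, |(cr Q t).det| ≤ (max D 0 + 1) * ∑ i, t i ^ 2 := by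
    intro t
    have hn : 0 ≤ ∑ i, t i ^ 2 := Finset.sum_nonneg fun i _ => sq_nonneg _
    by_cases ht : t = 0
    · subst ht
      have h0 := (isQd_det Q).hom 0 0
      simp only [smul_zero] at h0
      rw [h0]
      simp
    · obtain ⟨u, hu, h⟩ := scale (isQd_det Q) t ht
      have h1 := hD u hu
      rw [Real.norm_eq_abs] at h1
      have h2 : |(cr Q t).det| = (∑ i, t i ^ 2) * |(cr Q u).det| := by
        rw [h, abs_mul, abs_of_nonneg hn]
      rw [h2, mul_comm]
      exact mul_le_mul_of_nonneg_right (h1.trans ((le_max_left D 0).trans (by linarith))) hn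
  -- the compact set
  have hC : IsCompact (K ×ˢ (K ×ˢ S3)) := hK.prod (hK.prod isCompact_S3)
  have hc1 : Continuous (fun p : ℍ × ℍ × (Fin 4 → ℝ) => QQ 1 p.1 p.2.1 (cr Q p.2.2)) := by
    unfold QQ
    exact (continuous_const.mul ((continuous_det Q).comp (continuous_snd.comp continuous_snd))).add
      (continuous_const.mul (continuous_qm Q))
  obtain ⟨m, hm0, hm⟩ := hC.exists_forall_le' hc1.continuousOn (a := (0 : ℝ)) (by
    rintro ⟨z, w, t⟩ ⟨-, -, ht⟩
    exact QQ_pos z w _ (cr_ne ht))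
  obtain ⟨B, hB⟩ := hC.exists_bound_of_continuousOn (continuous_qm Q).continuousOn
  refine ⟨min m 1, 2 * (max D 0 + 1) + (max B 0), max D 0 + 1, lt_min hm0 one_pos,
    min_le_right _ _, ?_, by positivity, ⟨isQd_det Q, hDb⟩, ?_⟩
  · have h1 := le_max_right D 0
    have h2 := le_max_right B 0
    linarith
  intro z hz w hw lam hlam
  have hlow : ∀ t : Fin 4 → ℝ, min m 1 * ∑ i, t i ^ 2 ≤ QQ 1 z w (cr Q t) := by
    intro t
    have hn : 0 ≤ ∑ i, t i ^ 2 := Finset.sum_nonneg fun i _ => sq_nonneg _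
    by_cases ht : t = 0
    · subst ht
      have h0 := (isQd_QQ Q 1 z w).hom 0 0
      simp only [smul_zero] at h0
      rw [h0]
      simp
    · obtain ⟨u, hu, h⟩ := scale (isQd_QQ Q 1 z w) t ht
      have h1 := hm (z, w, u) ⟨hz, hw, hu⟩
      have h2 : QQ 1 z w (cr Q t) = (∑ i, t i ^ 2) * QQ 1 z w (cr Q u) := h
      rw [h2, mul_comm]
      exact mul_le_mul_of_nonneg_left ((min_le_left m 1).trans h1) hn
  have hqm : ∀ t : Fin 4 → ℝ, qm z w (cr Q t) ≤ max B 0 * ∑ i, t i ^ 2 := by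
    intro t
    have hn : 0 ≤ ∑ i, t i ^ 2 := Finset.sum_nonneg fun i _ => sq_nonneg _
    by_cases ht : t = 0
    · subst ht
      have h0 := (isQd_qm Q z w).hom 0 0
      simp only [smul_zero] at h0
      rw [h0]
      simp
    · obtain ⟨u, hu, h⟩ := scale (isQd_qm Q z w) t ht
      have h1 := hB (z, w, u) ⟨hz, hw, hu⟩
      have h2 : qm z w (cr Q t) = (∑ i, t i ^ 2) * qm z w (cr Q u) := h
      rw [h2, mul_comm]
      refine mul_le_mul_of_nonneg_right ?_ hn
      exact (le_trans (le_abs_self _) h1).trans (le_max_left B 0)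
  refine ⟨isQd_QQ Q lam z w, fun t => (hlow t).trans ?_, fun t => ?_⟩
  · unfold QQ
    have h := mul_le_mul_of_nonneg_right hlam (qm_nonneg z w (cr Q t))
    linarith
  · have h1 := hDb t
    have h2 := hqm t
    have h3 := le_abs_self (cr Q t).det
    have hn : 0 ≤ ∑ i, t i ^ 2 := Finset.sum_nonneg fun i _ => sq_nonneg _
    have h4 : QQ lam z w (cr Q t) ≤ lam * (2 * |(cr Q t).det| + qm z w (cr Q t)) := by
      unfold QQ
      have h5 := mul_le_mul_of_nonneg_right hlam (abs_nonneg (cr Q t).det)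
      nlinarith
    refine h4.trans ?_
    have h6 : 2 * |(cr Q t).det| + qm z w (cr Q t) ≤
        (2 * (max D 0 + 1) + max B 0) * ∑ i, t i ^ 2 := by nlinarith
    have h7 := mul_le_mul_of_nonneg_left h6 (le_trans zero_le_one hlam)
    calc lam * (2 * |(cr Q t).det| + qm z w (cr Q t))
        ≤ lam * ((2 * (max D 0 + 1) + max B 0) * ∑ i, t i ^ 2) := h7
      _ = (2 * (max D 0 + 1) + max B 0) * lam * ∑ i, t i ^ 2 := by ring

end HQ
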