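import Pool.Agent.Work.MP_d2a4bb_nt.QV.Stmts

open UpperHalfPlane MeasureTheory Matrix
open scoped MatrixGroups Manifold Topology ComplexConjugate

namespace HQ

namespace VQN

/-- The polar form of the determinant, as a linear map of the first argument. -/
noncomputable def pb (y : Matrix (Fin 2) (Fin 2) ℝ) : Matrix (Fin 2) (Fin 2) ℝ →ₗ[ℝ] ℝ where
  toFun x := x 0 0 * y 1 1 + x 1 1 * y 0 0 - x 0 1 * y 1 0 - x 1 0 * y 0 1
  map_add' x x' := by simp only [Matrix.add_apply]; ring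
  map_smul' r x := by simp only [Matrix.smul_apply, smul_eq_mul, RingHom.id_apply]; ring

theorem pb_apply (x y : Matrix (Fin 2) (Fin 2) ℝ) :
    pb y x = x 0 0 * y 1 1 + x 1 1 * y 0 0 - x 0 1 * y 1 0 - x 1 0 * y 0 1 := rfl

theorem pb_symm (x y : Matrix (Fin 2) (Fin 2) ℝ) : pb y x = pb x y := by
  rw [pb_apply, pb_apply]; ring

theorem det_add_two (x y : Matrix (Fin 2) (Fin 2) ℝ) : (x + y).det = x.det + y.det + pb y x := by
  rw [Matrix.det_fin_two, Matrix.det_fin_two, Matrix.det_fin_two, pb_apply]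
  simp only [Matrix.add_apply]
  ring

theorem pb_nondeg (y : Matrix (Fin 2) (Fin 2) ℝ) (h : ∀ x, pb y x = 0) : y = 0 := by
  have h00 := h !![1, 0; 0, 0]
  have h01 := h !![0, 1; 0, 0]
  have h10 := h !![0, 0; 1, 0]
  have h11 := h !![0, 0; 0, 1]
  simp [pb_apply] at h00 h01 h10 h11
  ext i j
  fin_cases i <;> fin_cases j <;> simp_all

theorem cs_add (Q : QuatOrder) (c h : Fin 4 → ℤ) : cs Q (c + h) = cs Q c + cs Q h := by
  simp only [cs, Pi.add_apply, Int.cast_add, add_smul, Finset.sum_add_distrib]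

theorem cs_mem (Q : QuatOrder) (c : Fin 4 → ℤ) : cs Q c ∈ Q.O := (Q.mem_iff _).2 ⟨c, rfl⟩

theorem cs_single (Q : QuatOrder) (j : Fin 4) : cs Q (Pi.single j 1) = Q.basis j := by
  unfold cs
  rw [Finset.sum_eq_single j]
  · simp
  · intro i _ hij
    simp [Pi.single_eq_of_ne hij]
  · intro h; exact absurd (Finset.mem_univ j) h

theorem cs_inj (Q : QuatOrder) {c h : Fin 4 → ℤ} (e : cs Q c = cs Q h) : c = h := by
  have h1 : ∀ c : Fin 4 → ℤ, Q.basis.equivFun (cs Q c) = fun i => (c i : ℝ) := by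
    intro c
    have : cs Q c = Q.basis.equivFun.symm (fun i => (c i : ℝ)) := by
      rw [Module.Basis.equivFun_symm_apply]; rfl
    rw [this, LinearEquiv.apply_symm_apply]
  have h2 := congrArg Q.basis.equivFun e
  rw [h1, h1] at h2
  funext i
  have := congrFun h2 i
  exact_mod_cast this

end VQN

open VQN in
theorem pvQN : SvQN := by
  intro Q
  have hN : ∀ c : Fin 4 → ℤ, ∃ n : ℤ, (cs Q c).det = n := fun c => (HQ.prINT Q _ (cs_mem Q c)).2.1
  choose N hN using hN
  -- the linear map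
  have hL : ∀ (h : Fin 4 → ℤ) (j : Fin 4),
      ((N (Pi.single j 1 + h) - N (Pi.single j 1) - N h : ℤ) : ℝ) = pb (cs Q h) (Q.basis j) := by
    intro h j
    push_cast
    rw [← hN, ← hN, ← hN, cs_add, cs_single, det_add_two]
    ring
  have hpb : ∀ (c h : Fin 4 → ℤ), pb (cs Q h) (cs Q c) = ∑ j, (c j : ℝ) * pb (cs Q h) (Q.basis j) := by
    intro c h
    unfold cs
    rw [map_sum]
    simp only [map_smul, smul_eq_mul]
  refine ⟨N, fun h j => N (Pi.single j 1 + h) - N (Pi.single j 1) - N h,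
    1 + ∑ j, ∑ i, (pb (Q.basis j) (Q.basis i)) ^ 2, ?_, fun c => (hN c).symm, ?_, ?_, ?_⟩
  · have : 0 ≤ ∑ j, ∑ i, (pb (Q.basis j) (Q.basis i)) ^ 2 :=
      Finset.sum_nonneg fun _ _ => Finset.sum_nonneg fun _ _ => sq_nonneg _
    linarith
  · intro c h
    have : ((N (c + h) : ℤ) : ℝ) =
        ((N c + N h + ∑ j, c j * (N (Pi.single j 1 + h) - N (Pi.single j 1) - N h) : ℤ) : ℝ) := by
      rw [← hN, cs_add, det_add_two, hpb, Int.cast_add, Int.cast_add, ← hN, ← hN, Int.cast_sum]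
      congr 1
      refine Finset.sum_congr rfl fun j _ => ?_
      rw [Int.cast_mul, hL]
    exact_mod_cast this
  · intro h h' e
    have e1 : ∀ j, pb (cs Q h) (Q.basis j) = pb (cs Q h') (Q.basis j) := by
      intro j
      rw [← hL, ← hL]
      exact_mod_cast congrFun e j
    have e2 : pb (cs Q h) = pb (cs Q h') := Q.basis.ext e1
    have e3 : cs Q h - cs Q h' = 0 := by
      refine pb_nondeg _ fun x => ?_
      rw [pb_symm, map_sub, pb_symm, pb_symm (cs Q h') x, e2, sub_self]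
    exact cs_inj Q (sub_eq_zero.1 e3)
  · intro h
    have e1 : ∀ j, ((N (Pi.single j 1 + h) - N (Pi.single j 1) - N h : ℤ) : ℝ) ^ 2 ≤
        (∑ i, (pb (Q.basis j) (Q.basis i)) ^ 2) * ∑ i, (h i : ℝ) ^ 2 := by
      intro j
      rw [hL, pb_symm]
      have : pb (Q.basis j) (cs Q h) = ∑ i, pb (Q.basis j) (Q.basis i) * (h i : ℝ) := by
        unfold cs
        rw [map_sum]
        refine Finset.sum_congr rfl fun i _ => ?_
        rw [map_smul, smul_eq_mul, mul_comm]
      rw [this]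
      exact Finset.sum_mul_sq_le_sq_mul_sq _ _ _
    calc _ ≤ ∑ j, (∑ i, (pb (Q.basis j) (Q.basis i)) ^ 2) * ∑ i, (h i : ℝ) ^ 2 :=
          Finset.sum_le_sum fun j _ => e1 j
      _ = (∑ j, ∑ i, (pb (Q.basis j) (Q.basis i)) ^ 2) * ∑ i, (h i : ℝ) ^ 2 := by
          rw [Finset.sum_mul]
      _ ≤ _ := by
          have : 0 ≤ ∑ i, (h i : ℝ) ^ 2 := Finset.sum_nonneg fun _ _ => sq_nonneg _
          nlinarith

end HQ
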