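import Pool.Agent.Work.MP_d2a4bb_nt.QV.Stmts

/-!
# Item SM of the block [d2a4bb QV]: the second moment
-/

open UpperHalfPlane MeasureTheory Matrix
open scoped MatrixGroups Manifold Topology ComplexConjugate

namespace HQ

namespace VSM

/-- The bound for one theta sum. -/
theorem one (Q : QuatOrder) (lam P cw Cw c₁ C₁ C₂ α : ℝ) (z w : ℍ) (N : (Fin 4 → ℤ) → ℤ)
    (L : (Fin 4 → ℤ) → Fin 4 → ℤ) (h1 : c₁ ≤ C₁ * lam) (h2 : 0 < C₁ * lam)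
    (h3 : 2 * (C₁ * lam) ≤ P) (hq : PosForm c₁ (C₁ * lam) (fun t => QQ lam z w (cr Q t)))
    (hN : ∀ c, (N c : ℝ) = (cs Q c).det) (hI : IntForm N L) (hinj : Function.Injective L)
    (hL : ∀ h, ∑ j, (L h j : ℝ) ^ 2 ≤ C₂ * ∑ j, (h j : ℝ) ^ 2)
    (hW : ∀ (Λ P : ℝ) (q : (Fin 4 → ℝ) → ℝ) (N : (Fin 4 → ℤ) → ℤ)
      (L : (Fin 4 → ℤ) → Fin 4 → ℤ) (α : ℝ), c₁ ≤ Λ → 0 < Λ → 2 * Λ ≤ P → PosForm c₁ Λ q →
      IntForm N L → Function.Injective L →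
      (∀ h, ∑ j, (L h j : ℝ) ^ 2 ≤ C₂ * ∑ j, (h j : ℝ) ^ 2) →
      ‖∑' c : Fin 4 → ℤ, Complex.exp (((-Real.pi * q (fun i => (c i : ℝ)) / P : ℝ) : ℂ) +
        2 * Real.pi * Complex.I * ((α * (N c : ℝ) : ℝ) : ℂ))‖ ^ 2 ≤ Cw * P ^ 2 * NA cw Λ P α ^ 4) :
    ‖SS Q lam P z w α‖ ^ 2 ≤ Cw * P ^ 2 * NA cw (C₁ * lam) P α ^ 4 := by
  have h := hW (C₁ * lam) P (fun t => QQ lam z w (cr Q t)) N L α h1 h2 h3 hq hI hinj hL
  simp only [hN] at h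
  exact h

/-- `‖x - y‖² ≤ 2 ‖x‖² + 2 ‖y‖²`. -/
theorem sub_sq (x y : ℂ) (A : ℝ) (hx : ‖x‖ ^ 2 ≤ A) (hy : ‖y‖ ^ 2 ≤ A) : ‖x - y‖ ^ 2 ≤ 4 * A := by
  have h1 : ‖x - y‖ ≤ ‖x‖ + ‖y‖ := norm_sub_le x y
  have h2 : ‖x - y‖ ^ 2 ≤ (‖x‖ + ‖y‖) ^ 2 := pow_le_pow_left₀ (norm_nonneg _) h1 2
  nlinarith [sq_nonneg (‖x‖ - ‖y‖)]

/-- The splitting of the integral. -/
theorem split (F : ℝ → ℂ) (G : ℝ → ℝ) (M : Set ℝ) (A B v I : ℝ) (hF : Continuous F)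
    (hG : Continuous G) (hM : MeasurableSet M) (hA : 0 ≤ A) (hB : 0 ≤ B)
    (h1 : ∀ x ∈ Set.Icc (0 : ℝ) 1 \ M, ‖F x‖ ^ 2 ≤ A * G x)
    (h2 : ∀ x ∈ Set.Icc (0 : ℝ) 1 ∩ M, ‖F x‖ ^ 2 ≤ B)
    (hv : volume (Set.Icc (0 : ℝ) 1 ∩ M) ≤ ENNReal.ofReal v) (hv0 : 0 ≤ v)
    (hI : ∫ x in Set.Icc (0 : ℝ) 1 \ M, G x ≤ I) :
    ∫ x in Set.Icc (0 : ℝ) 1, ‖F x‖ ^ 2 ≤ B * v + A * I := by
  have hFc : Continuous fun x => ‖F x‖ ^ 2 := hF.norm.pow 2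
  have hint : IntegrableOn (fun x => ‖F x‖ ^ 2) (Set.Icc (0 : ℝ) 1) :=
    hFc.continuousOn.integrableOn_compact isCompact_Icc
  have hG1 : IntegrableOn G (Set.Icc (0 : ℝ) 1) :=
    hG.continuousOn.integrableOn_compact isCompact_Icc
  rw [← integral_inter_add_diff hM hint]
  have hd : MeasurableSet (Set.Icc (0 : ℝ) 1 \ M) := measurableSet_Icc.diff hM
  refine add_le_add ?_ ?_
  · have hfin : volume (Set.Icc (0 : ℝ) 1 ∩ M) < ⊤ := lt_of_le_of_lt hv ENNReal.ofReal_lt_top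
    have h3 := norm_setIntegral_le_of_norm_le_const (μ := volume) (f := fun x => ‖F x‖ ^ 2)
      (C := B) hfin (fun x hx => by
        rw [Real.norm_of_nonneg (by positivity)]
        exact h2 x hx)
    have h4 : volume.real (Set.Icc (0 : ℝ) 1 ∩ M) ≤ v := ENNReal.toReal_le_of_le_ofReal hv0 hv
    exact (le_abs_self _).trans (h3.trans (mul_le_mul_of_nonneg_left h4 hB))
  · calc ∫ x in Set.Icc (0 : ℝ) 1 \ M, ‖F x‖ ^ 2 ≤ ∫ x in Set.Icc (0 : ℝ) 1 \ M, A * G x :=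
          setIntegral_mono_on (hint.mono_set Set.diff_subset)
            ((hG1.mono_set Set.diff_subset).const_mul A) hd h1
      _ = A * ∫ x in Set.Icc (0 : ℝ) 1 \ M, G x := integral_const_mul A _
      _ ≤ A * I := mul_le_mul_of_nonneg_left hI hA

/-- Summability of the Fourier series. -/
theorem smb (a : ℤ → ℝ) (ha : Summable fun n => |a n|) (α : ℝ) :
    Summable fun n : ℤ => (a n : ℂ) * Complex.exp (2 * Real.pi * Complex.I * (((n : ℝ) * α : ℝ) : ℂ)) := by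
  refine Summable.of_norm (ha.congr fun n => ?_)
  rw [norm_mul, Complex.norm_real, Real.norm_eq_abs]
  have h1 : 2 * Real.pi * Complex.I * (((n : ℝ) * α : ℝ) : ℂ) =
      ((2 * Real.pi * ((n : ℝ) * α) : ℝ) : ℂ) * Complex.I := by
    push_cast
    ring
  rw [h1, Complex.norm_exp_ofReal_mul_I, mul_one]

/-- The final arithmetic. -/
theorem fin (lam P R Cw Cm C₁ C3 : ℝ) (hlam : 1 ≤ lam) (hP : 1 ≤ P) (hR : R = P ^ (1 / 10 : ℝ))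
    (hCw : 0 < Cw) (hCm : 0 < Cm) (hC1 : 1 ≤ C₁) (hC3 : 0 < C3) :
    (2 * C3 * lam * R ^ 2 * P ^ (3 / 2 : ℝ)) ^ 2 * (8 * R ^ 3 / P) +
      4 * (Cw * P ^ 2) * (Cm * (C₁ * lam) ^ 4 * (1 + P / R ^ 2)) ≤
    (32 * C3 ^ 2 + 8 * Cw * Cm * C₁ ^ 4) * lam ^ 4 * P ^ (14 / 5 : ℝ) := by
  have hP0 : 0 < P := by linarith
  have e1 : (P ^ (3 / 2 : ℝ)) ^ 2 = P ^ 3 := by
    rw [← Real.rpow_natCast (P ^ (3 / 2 : ℝ)) 2, ← Real.rpow_mul hP0.le, ← Real.rpow_natCast P 3]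
    norm_num
  have e2 : R ^ 7 = P ^ (7 / 10 : ℝ) := by
    rw [hR, ← Real.rpow_natCast, ← Real.rpow_mul hP0.le]
    norm_num
  have e3 : P ^ 2 * P ^ (7 / 10 : ℝ) ≤ P ^ (14 / 5 : ℝ) := by
    rw [← Real.rpow_natCast P 2, ← Real.rpow_add hP0]
    exact Real.rpow_le_rpow_of_exponent_le hP (by norm_num)
  have hR0 : 0 < R := hR ▸ Real.rpow_pos_of_pos hP0 _
  have e4 : P / R ^ 2 = P ^ (4 / 5 : ℝ) := by
    have h1 : R ^ 2 = P ^ (1 / 5 : ℝ) := by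
      rw [hR, ← Real.rpow_natCast, ← Real.rpow_mul hP0.le]
      norm_num
    rw [h1]
    nth_rewrite 1 [← Real.rpow_one P]
    rw [← Real.rpow_sub hP0]
    norm_num
  have e5 : P ^ 2 * P ^ (4 / 5 : ℝ) = P ^ (14 / 5 : ℝ) := by
    rw [← Real.rpow_natCast P 2, ← Real.rpow_add hP0]
    norm_num
  have e6 : 1 ≤ P ^ (4 / 5 : ℝ) := Real.one_le_rpow hP (by norm_num)
  have hX : 0 ≤ P ^ (14 / 5 : ℝ) := Real.rpow_nonneg hP0.le _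
  have t1 : (2 * C3 * lam * R ^ 2 * P ^ (3 / 2 : ℝ)) ^ 2 * (8 * R ^ 3 / P) =
      32 * C3 ^ 2 * lam ^ 2 * (P ^ 2 * P ^ (7 / 10 : ℝ)) := by
    have : (2 * C3 * lam * R ^ 2 * P ^ (3 / 2 : ℝ)) ^ 2 * (8 * R ^ 3 / P) =
        32 * C3 ^ 2 * lam ^ 2 * R ^ 7 * ((P ^ (3 / 2 : ℝ)) ^ 2 / P) := by
      field_simp
      ring
    rw [this, e1, e2]
    field_simp
  have t2 : 4 * (Cw * P ^ 2) * (Cm * (C₁ * lam) ^ 4 * (1 + P / R ^ 2)) ≤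
      8 * Cw * Cm * C₁ ^ 4 * lam ^ 4 * P ^ (14 / 5 : ℝ) := by
    rw [e4, ← e5]
    have : 1 + P ^ (4 / 5 : ℝ) ≤ 2 * P ^ (4 / 5 : ℝ) := by linarith
    calc 4 * (Cw * P ^ 2) * (Cm * (C₁ * lam) ^ 4 * (1 + P ^ (4 / 5 : ℝ)))
        ≤ 4 * (Cw * P ^ 2) * (Cm * (C₁ * lam) ^ 4 * (2 * P ^ (4 / 5 : ℝ))) := by
          gcongr
      _ = 8 * Cw * Cm * C₁ ^ 4 * lam ^ 4 * (P ^ 2 * P ^ (4 / 5 : ℝ)) := by ring
  have t3 : 32 * C3 ^ 2 * lam ^ 2 * (P ^ 2 * P ^ (7 / 10 : ℝ)) ≤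
      32 * C3 ^ 2 * lam ^ 4 * P ^ (14 / 5 : ℝ) := by
    have hl : lam ^ 2 ≤ lam ^ 4 := pow_le_pow_right₀ hlam (by norm_num)
    gcongr
  rw [t1]
  calc _ ≤ 32 * C3 ^ 2 * lam ^ 4 * P ^ (14 / 5 : ℝ) +
        8 * Cw * Cm * C₁ ^ 4 * lam ^ 4 * P ^ (14 / 5 : ℝ) := add_le_add t3 t2
    _ = _ := by ring

end VSM

open VSM in
theorem pvSM (hW2 : SvW2) (hMI : SvMI) (hMJ : SvMJ) (hM3 : SvM3) (hSR : SvSR) (hPB : SvPB)
    (hQF : SvQF) (hQN : SvQN) : SvSM := by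
  intro Q K hK
  obtain ⟨c₁, C₁, C₃, hc1, hc1', hC1, -, -, hPF⟩ := hQF Q K hK
  obtain ⟨N, L, C₂, hC2, hN, hI, hinj, hL⟩ := hQN Q
  obtain ⟨Cw, cw, hCw, hcw, hW⟩ := hW2 c₁ C₂ hc1 hC2
  obtain ⟨Cm, hCm, hMI'⟩ := hMI cw hcw
  obtain ⟨C3, C0, hC3, hC0, hM3'⟩ := hM3 Q K hK
  obtain ⟨C0', hC0', hSR'⟩ := hSR Q K hK
  refine ⟨32 * C3 ^ 2 + 8 * Cw * Cm * C₁ ^ 4, 2 * C₁ + C0 + C0', by positivity, by positivity, ?_⟩
  intro lam P hlam hP z hz w hw z' hz' w' hw' T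
  have hlam0 : 0 < lam := by linarith
  have hb : 2 * (C₁ * lam) ≤ P ∧ C0 * lam ≤ P ∧ C0' * lam ≤ P := by
    have h1 : 0 < C₁ * lam := by positivity
    have h2 : 0 < C0 * lam := by positivity
    have h3 : 0 < C0' * lam := by positivity
    have h4 : (2 * C₁ + C0 + C0') * lam = 2 * (C₁ * lam) + C0 * lam + C0' * lam := by ring
    rw [h4] at hP
    refine ⟨by linarith, by linarith, by linarith⟩
  have hCl : 1 ≤ C₁ * lam := by nlinarith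
  have hP1 : 1 ≤ P := by linarith [hb.1]
  have hP0 : 0 < P := by linarith
  set R : ℝ := P ^ (1 / 10 : ℝ) with hR
  have hR1 : 1 ≤ R := Real.one_le_rpow hP1 (by norm_num)
  have hR2 : R ^ 2 ≤ P := by
    rw [hR, ← Real.rpow_natCast, ← Real.rpow_mul hP0.le]
    nth_rewrite 2 [← Real.rpow_one P]
    exact Real.rpow_le_rpow_of_exponent_le hP1 (by norm_num)
  obtain ⟨hs1, hs2, hs3⟩ := hSR' lam P hlam hb.2.2 z hz w hw
  obtain ⟨ht1, ht2, ht3⟩ := hSR' lam P hlam hb.2.2 z' hz' w' hw'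
  obtain ⟨hNc, hNI⟩ := hMI' (C₁ * lam) P R hCl (by linarith [hb.1]) hR1 hR2
  obtain ⟨hMm, hMv⟩ := hMJ P R hR1 hR2
  have ha : Summable fun n => |rr Q lam P z w n - rr Q lam P z' w' n| := by
    refine Summable.of_nonneg_of_le (fun n => abs_nonneg _) (fun n => abs_sub _ _) (hs2.add ht2)
  obtain ⟨hc, hB⟩ := hPB (fun n => rr Q lam P z w n - rr Q lam P z' w' n) ha
  have hD : ∀ α : ℝ, ∑' n : ℤ, ((rr Q lam P z w n - rr Q lam P z' w' n : ℝ) : ℂ) *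
      Complex.exp (2 * Real.pi * Complex.I * (((n : ℝ) * α : ℝ) : ℂ)) =
      SS Q lam P z w α - SS Q lam P z' w' α := by
    intro α
    rw [hs3 α, ht3 α, ← (smb _ hs2 α).tsum_sub (smb _ ht2 α)]
    refine tsum_congr fun n => ?_
    push_cast
    ring
  refine (hB T).trans ?_
  have hsp := split (fun α : ℝ => ∑' n : ℤ, ((rr Q lam P z w n - rr Q lam P z' w' n : ℝ) : ℂ) *
      Complex.exp (2 * Real.pi * Complex.I * (((n : ℝ) * α : ℝ) : ℂ)))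
    (fun α => NA cw (C₁ * lam) P α ^ 4) (Maj R P) (4 * (Cw * P ^ 2))
    ((2 * C3 * lam * R ^ 2 * P ^ (3 / 2 : ℝ)) ^ 2) (8 * R ^ 3 / P)
    (Cm * (C₁ * lam) ^ 4 * (1 + P / R ^ 2)) hc (hNc.pow 4) hMm (by positivity) (by positivity)
    ?_ ?_ hMv (by positivity) hNI
  · exact hsp.trans (fin lam P R Cw Cm C₁ C3 hlam hP1 hR hCw hCm hC1 hC3)
  · intro α _
    beta_reduce
    rw [hD α, mul_assoc]
    have o1 := one Q lam P cw Cw c₁ C₁ C₂ α z w N L (by linarith) (by linarith) hb.1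
      (hPF z hz w hw lam hlam) hN hI hinj hL hW
    have o2 := one Q lam P cw Cw c₁ C₁ C₂ α z' w' N L (by linarith) (by linarith) hb.1
      (hPF z' hz' w' hw' lam hlam) hN hI hinj hL hW
    exact sub_sq _ _ _ o1 o2
  · rintro α ⟨-, g, hg1, hgR, a, haα⟩
    beta_reduce
    rw [hD α]
    have hg2 : (g : ℝ) ^ 2 ≤ P := (pow_le_pow_left₀ (Nat.cast_nonneg g) hgR 2).trans hR2
    have h1 := hM3' lam P (α - a / g) g a hlam hb.2.1 hg1 hg2 z hz w hw z' hz' w' hw'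
    rw [add_sub_cancel] at h1
    refine pow_le_pow_left₀ (norm_nonneg _) (h1.trans ?_) 2
    have h2 : |α - a / g| * P ≤ R := by
      rw [← le_div_iff₀ hP0]
      exact haα
    have h3 : lam + |α - a / g| * P ≤ 2 * lam * R := by nlinarith
    have hg0 : (0 : ℝ) ≤ g := Nat.cast_nonneg g
    calc C3 * (lam + |α - a / g| * P) * g * P ^ (3 / 2 : ℝ)
        ≤ C3 * (2 * lam * R) * R * P ^ (3 / 2 : ℝ) := by gcongr
      _ = 2 * C3 * lam * R ^ 2 * P ^ (3 / 2 : ℝ) := by ring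

end HQ
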