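import Pool.Agent.Work.MP_d2a4bb_nt.QV.Stmts

/-!
# Item SR of the block [d2a4bb QV]: the theta sum is a Fourier series
-/

open UpperHalfPlane MeasureTheory Matrix
open scoped MatrixGroups Manifold Topology ComplexConjugate

namespace HQ

namespace VSR

/-- The weight of an element. -/
noncomputable def wt (Q : QuatOrder) (lam P : ℝ) (z w : ℍ) (c : Fin 4 → ℤ) : ℝ :=
  Real.exp (-Real.pi * QQ lam z w (cs Q c) / P)

/-- `rr` as a sum over a fibre of the norm form. -/
theorem rr_eq (Q : QuatOrder) (N : (Fin 4 → ℤ) → ℤ) (hN : ∀ c, (N c : ℝ) = (cs Q c).det)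
    (lam P : ℝ) (z w : ℍ) (n : ℤ) :
    rr Q lam P z w n = ∑' c : (N ⁻¹' {n} : Set (Fin 4 → ℤ)), wt Q lam P z w c := by
  classical
  rw [tsum_subtype (N ⁻¹' {n}) (wt Q lam P z w)]
  unfold rr
  refine tsum_congr fun c => ?_
  have h1 : (cs Q c).det = (n : ℝ) ↔ c ∈ N ⁻¹' {n} := by
    rw [← hN, Set.mem_preimage, Set.mem_singleton_iff]
    exact Int.cast_inj
  by_cases h : c ∈ N ⁻¹' {n}
  · rw [Set.indicator_of_mem h, if_pos (h1.2 h)]; rfl
  · rw [Set.indicator_of_notMem h, if_neg (fun h2 => h (h1.1 h2))]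

end VSR

open VSR in
/-- SR: the theta sum is the Fourier series with coefficients `rr`. -/
theorem pvSR (hQF : SvQF) (hQN : SvQN) (hG4 : SvG4) : SvSR := by
  intro Q K hK
  obtain ⟨c₁, C₁, C₃, hc₁, hc₁1, hC₁, -, -, hF⟩ := hQF Q K hK
  obtain ⟨N, -, -, -, hN, -, -, -⟩ := hQN Q
  refine ⟨C₁, lt_of_lt_of_le one_pos hC₁, fun lam P hlam hP z hz w hw => ?_⟩
  have hPF := hF z hz w hw lam hlam
  have hΛ : c₁ ≤ C₁ * lam := by nlinarith
  have hsum0 := (hG4 c₁ (C₁ * lam) P _ hc₁ hΛ hP hPF (fun _ => 0)).1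
  have hsum : Summable (wt Q lam P z w) := by
    refine hsum0.congr fun c => ?_
    simp only [add_zero]
    rfl
  have hnn : ∀ n, 0 ≤ rr Q lam P z w n := by
    intro n
    rw [rr_eq Q N hN]
    exact tsum_nonneg fun c => (Real.exp_pos _).le
  have hfib := hsum.hasSum.tsum_fiberwise N
  have hsr : Summable (fun n => rr Q lam P z w n) := by
    refine hfib.summable.congr fun n => ?_
    exact (rr_eq Q N hN lam P z w n).symm
  refine ⟨hnn, hsr.congr fun n => (abs_of_nonneg (hnn n)).symm, fun α => ?_⟩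
  set F : (Fin 4 → ℤ) → ℂ := fun c => Complex.exp (((-Real.pi * QQ lam z w (cs Q c) / P : ℝ) : ℂ) +
    2 * Real.pi * Complex.I * ((α * (cs Q c).det : ℝ) : ℂ)) with hFdef
  have hFeq : ∀ c, F c = (wt Q lam P z w c : ℂ) *
      Complex.exp (2 * Real.pi * Complex.I * (((N c : ℝ) * α : ℝ) : ℂ)) := by
    intro c
    rw [hFdef]
    simp only
    rw [Complex.exp_add, wt, Complex.ofReal_exp, ← hN, mul_comm α]
  have hFn : ∀ c, ‖F c‖ = wt Q lam P z w c := by
    intro c
    have h0 : 0 ≤ wt Q lam P z w c := (Real.exp_pos _).le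
    rw [hFeq, norm_mul, Complex.norm_real, Real.norm_of_nonneg h0]
    have h1 : (2 * (Real.pi : ℂ) * Complex.I * (((N c : ℝ) * α : ℝ) : ℂ)) =
        ((2 * Real.pi * ((N c : ℝ) * α) : ℝ) : ℂ) * Complex.I := by
      push_cast; ring
    rw [h1, Complex.norm_exp_ofReal_mul_I, mul_one]
  have hFs : Summable F := by
    refine Summable.of_norm ?_
    exact hsum.congr fun c => (hFn c).symm
  have h2 := (hFs.hasSum.tsum_fiberwise N).tsum_eq
  show ∑' c, F c = _
  rw [← h2]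
  refine tsum_congr fun n => ?_
  rw [rr_eq Q N hN, Complex.ofReal_tsum, ← tsum_mul_right]
  refine tsum_congr fun c => ?_
  have h3 : N (c : Fin 4 → ℤ) = n := c.2
  rw [hFeq, h3]

end HQ
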