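import Pool.Agent.Work.MP_d2a4bb_nt.QV.Stmts

/-!
# Item UF of block QV (helper36): unfolding
-/

open UpperHalfPlane MeasureTheory Matrix
open scoped MatrixGroups Manifold Topology ComplexConjugate

namespace HQ

namespace VUF

open scoped ENNReal
open Filter

/-- a sum of functions with summable norms is integrable -/
theorem int_tsum {α ι : Type} [MeasurableSpace α] {μ : Measure α} [Countable ι] {F : ι → α → ℝ}
    (h1 : ∀ i, Integrable (F i) μ) (h2 : Summable fun i => ∫ a, ‖F i a‖ ∂μ) :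
    Integrable (fun a => ∑' i, F i a) μ := by
  have key : ∑' i, ∫⁻ a, ‖F i a‖ₑ ∂μ ≠ ∞ := by
    have (i : ι) : ∫⁻ a, ‖F i a‖ₑ ∂μ = ‖∫ a, ‖F i a‖ ∂μ‖ₑ := by
      rw [← ofReal_integral_norm_eq_lintegral_enorm (h1 i), ← ofReal_norm,
        Real.norm_of_nonneg (integral_nonneg fun a => norm_nonneg _)]
    rw [tsum_congr this, tsum_enorm_ne_top_iff_summable_norm]
    exact h2.norm
  have hm : ∀ i, AEMeasurable (fun a => ‖F i a‖ₑ) μ := fun i => (h1 i).1.enorm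
  have hlt : ∫⁻ a, ∑' i, ‖F i a‖ₑ ∂μ ≠ ∞ := by rwa [lintegral_tsum hm]
  have hae : ∀ᵐ a ∂μ, ∑' i, ‖F i a‖ₑ < ∞ := ae_lt_top' (AEMeasurable.tsum hm) hlt
  refine ⟨?_, ?_⟩
  · refine aestronglyMeasurable_of_tendsto_ae (atTop : Filter (Finset ι))
      (f := fun s a => ∑ i ∈ s, F i a) (fun s => ?_) ?_
    · exact Finset.aestronglyMeasurable_fun_sum _ fun i _ => (h1 i).1
    · filter_upwards [hae] with a ha
      exact (tsum_enorm_ne_top_iff_summable_norm.1 ha.ne).of_norm.hasSum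
  · refine lt_of_le_of_lt (lintegral_mono fun a => enorm_tsum_le_tsum_enorm) ?_
    exact hlt.lt_top

/-- the kernel -/
noncomputable def kk (s : ℝ) (u w : ℍ) : ℝ := Real.exp (-s * (Real.cosh (dist u w) - 1))

theorem kk_cont (s : ℝ) (u : ℍ) : Continuous (kk s u) := by
  unfold kk
  fun_prop

theorem kk_nonneg (s : ℝ) (u w : ℍ) : 0 ≤ kk s u w := (Real.exp_pos _).le

theorem kk_smul (s : ℝ) (g : SL(2, ℝ)) (u w : ℍ) : kk s (g • u) (g • w) = kk s u w := by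
  unfold kk
  rw [dist_smul]

section
variable {Γ : Subgroup SL(2, ℝ)} (W : Weight Γ)

theorem w_sum (z : ℍ) : HasSum (fun γ : Γ => W.w ((γ : SL(2, ℝ)) • z)) 1 := by
  have hf : (Function.support fun γ : Γ => W.w ((γ : SL(2, ℝ)) • z)).Finite := by
    have h := (W.fin {z} isCompact_singleton).preimage (f := fun γ : Γ => (γ : SL(2, ℝ)))
      Subtype.val_injective.injOn
    refine h.subset ?_
    intro γ hγ
    exact ⟨γ.2, z, rfl, hγ⟩
  have hs : Summable (fun γ : Γ => W.w ((γ : SL(2, ℝ)) • z)) := summable_of_finite_support hf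
  have h := hs.hasSum
  rwa [tsum_eq_finsum hf, W.sum z] at h

theorem w_fin (z : ℍ) (S : Finset Γ) : ∑ γ ∈ S, W.w ((γ : SL(2, ℝ)) • z) ≤ 1 :=
  sum_le_hasSum S (fun _ _ => W.nonneg _) (w_sum W z)

theorem w_le (z : ℍ) : W.w z ≤ 1 := by
  have h := w_fin W z {1}
  simpa using h

variable {ψ : ℍ → ℝ} {B s : ℝ}

/-- the unfolded function -/
noncomputable def FF0 (ψ : ℍ → ℝ) (s : ℝ) (v w : ℍ) : ℝ := W.w w * (ψ w * kk s v w)

theorem FF0_cont (hψ : Test Γ ψ) (v : ℍ) : Continuous (FF0 W ψ s v) :=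
  W.cont.mul (hψ.1.mul (kk_cont s v))

theorem FF0_smul (hψ : Test Γ ψ) (γ : Γ) (u w : ℍ) :
    FF0 W ψ s ((γ : SL(2, ℝ)) • u) ((γ : SL(2, ℝ)) • w) =
      W.w ((γ : SL(2, ℝ)) • w) * (ψ w * kk s u w) := by
  unfold FF0
  rw [hψ.2 _ γ.2, kk_smul]

theorem FF0_int (hψ : Test Γ ψ) (hB : ∀ z, |ψ z| ≤ B) (hk : ∀ u, Integrable (kk s u) volume)
    (v : ℍ) : Integrable (FF0 W ψ s v) volume := by
  refine Integrable.mono' ((hk v).const_mul B) (FF0_cont W hψ v).aestronglyMeasurable ?_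
  refine Eventually.of_forall fun w => ?_
  unfold FF0
  rw [Real.norm_eq_abs, abs_mul, abs_mul, abs_of_nonneg (W.nonneg w), abs_of_nonneg (kk_nonneg s v w)]
  have h1 := w_le W w
  have h2 := hB w
  have h3 := kk_nonneg s v w
  have h4 : 0 ≤ |ψ w| * kk s v w := mul_nonneg (abs_nonneg _) h3
  calc W.w w * (|ψ w| * kk s v w) ≤ 1 * (|ψ w| * kk s v w) := by gcongr
    _ = |ψ w| * kk s v w := one_mul _
    _ ≤ B * kk s v w := by gcongr

theorem stepA (hψ : Test Γ ψ) (hB : ∀ z, |ψ z| ≤ B) (hk : ∀ u, Integrable (kk s u) volume)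
    (hc : Countable Γ) (u : ℍ) :
    HasSum (fun γ : Γ => ∫ w, FF0 W ψ s ((γ : SL(2, ℝ)) • u) w) (∫ w, ψ w * kk s u w) ∧
      Summable (fun γ : Γ => ∫ w, ‖FF0 W ψ s ((γ : SL(2, ℝ)) • u) w‖) := by
  have e1 : ∀ γ : Γ, ∫ w, FF0 W ψ s ((γ : SL(2, ℝ)) • u) w =
      ∫ w, W.w ((γ : SL(2, ℝ)) • w) * (ψ w * kk s u w) := by
    intro γ
    rw [← (prVOL.2.2 (γ : SL(2, ℝ)) (FF0 W ψ s ((γ : SL(2, ℝ)) • u)))]
    exact integral_congr_ae (Eventually.of_forall fun w => FF0_smul W hψ γ u w)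
  have e2 : ∀ γ : Γ, ∫ w, ‖FF0 W ψ s ((γ : SL(2, ℝ)) • u) w‖ =
      ∫ w, ‖W.w ((γ : SL(2, ℝ)) • w) * (ψ w * kk s u w)‖ := by
    intro γ
    rw [← (prVOL.2.2 (γ : SL(2, ℝ)) (fun w => ‖FF0 W ψ s ((γ : SL(2, ℝ)) • u) w‖))]
    refine integral_congr_ae (Eventually.of_forall fun w => ?_)
    change ‖FF0 W ψ s ((γ : SL(2, ℝ)) • u) ((γ : SL(2, ℝ)) • w)‖ = _
    rw [FF0_smul W hψ γ u w]
  have hcont : ∀ γ : Γ, Continuous fun w : ℍ => W.w ((γ : SL(2, ℝ)) • w) * (ψ w * kk s u w) :=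
    fun γ => (W.cont.comp (continuous_const_smul _)).mul (hψ.1.mul (kk_cont s u))
  have hbd : ∀ w, |ψ w * kk s u w| ≤ B * kk s u w := by
    intro w
    rw [abs_mul, abs_of_nonneg (kk_nonneg s u w)]
    have h2 := hB w
    have h3 := kk_nonneg s u w
    gcongr
  have hint : ∀ γ : Γ, Integrable (fun w : ℍ => W.w ((γ : SL(2, ℝ)) • w) * (ψ w * kk s u w))
      volume := by
    intro γ
    refine Integrable.mono' ((hk u).const_mul B) (hcont γ).aestronglyMeasurable ?_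
    refine Eventually.of_forall fun w => ?_
    rw [Real.norm_eq_abs, abs_mul, abs_of_nonneg (W.nonneg _)]
    have h1 := w_le W ((γ : SL(2, ℝ)) • w)
    have h4 : 0 ≤ |ψ w * kk s u w| := abs_nonneg _
    calc W.w ((γ : SL(2, ℝ)) • w) * |ψ w * kk s u w| ≤ 1 * |ψ w * kk s u w| := by gcongr
      _ = |ψ w * kk s u w| := one_mul _
      _ ≤ B * kk s u w := hbd w
  have hsum : Summable (fun γ : Γ => ∫ w, ‖W.w ((γ : SL(2, ℝ)) • w) * (ψ w * kk s u w)‖) := by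
    refine summable_of_sum_le (c := ∫ w, B * kk s u w)
      (fun γ => integral_nonneg fun w => norm_nonneg _) fun S => ?_
    rw [← integral_finsetSum S fun γ _ => (hint γ).norm]
    refine integral_mono (integrable_finsetSum S fun γ _ => (hint γ).norm) ((hk u).const_mul B) ?_
    intro w
    have h1 : ∑ γ ∈ S, ‖W.w ((γ : SL(2, ℝ)) • w) * (ψ w * kk s u w)‖ =
        (∑ γ ∈ S, W.w ((γ : SL(2, ℝ)) • w)) * |ψ w * kk s u w| := by
      rw [Finset.sum_mul]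
      refine Finset.sum_congr rfl fun γ _ => ?_
      rw [Real.norm_eq_abs, abs_mul, abs_of_nonneg (W.nonneg _)]
    change ∑ γ ∈ S, ‖W.w ((γ : SL(2, ℝ)) • w) * (ψ w * kk s u w)‖ ≤ B * kk s u w
    rw [h1]
    have h2 := w_fin W w S
    have h4 : 0 ≤ |ψ w * kk s u w| := abs_nonneg _
    calc _ ≤ 1 * |ψ w * kk s u w| := by gcongr
      _ = |ψ w * kk s u w| := one_mul _
      _ ≤ B * kk s u w := hbd w
  refine ⟨?_, ?_⟩
  · have h := hasSum_integral_of_summable_integral_norm hint hsum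
    have e3 : (fun w : ℍ => ∑' γ : Γ, W.w ((γ : SL(2, ℝ)) • w) * (ψ w * kk s u w)) =
        fun w => ψ w * kk s u w := by
      funext w
      rw [tsum_mul_right, (w_sum W w).tsum_eq, one_mul]
    rw [e3] at h
    rw [funext e1]
    exact h
  · rw [funext e2]
    exact hsum

end

/-- sums over `E p` by the classes -/
theorem has_sum_E {Γ : Subgroup SL(2, ℝ)} {E : Set SL(2, ℝ)} {R : Finset SL(2, ℝ)}
    (hR : Reps Γ E R) (hE : ∀ γ ∈ Γ, ∀ x ∈ E, γ * x ∈ E) (A : SL(2, ℝ) → ℝ) (a : SL(2, ℝ) → ℝ)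
    (h : ∀ β ∈ R, HasSum (fun γ : Γ => A ((γ : SL(2, ℝ)) * β)) (a β)) :
    HasSum (fun g : E => A g) (∑ β ∈ R, a β) := by
  classical
  let i : SL(2, ℝ) → Set E := fun β => {g | (g : SL(2, ℝ)) * β⁻¹ ∈ Γ}
  have h1 : ∀ β ∈ R, HasSum ((i β).indicator fun g : E => A g) (a β) := by
    intro β hβ
    let f : Γ → E := fun γ => ⟨(γ : SL(2, ℝ)) * β, hE _ γ.2 _ (hR.1 β hβ)⟩
    have hf : Function.Injective f := by
      intro γ γ' hh
      have h2 : (γ : SL(2, ℝ)) * β = (γ' : SL(2, ℝ)) * β := congrArg Subtype.val hh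
      exact Subtype.ext (mul_right_cancel h2)
    have h3 : ∀ g ∉ Set.range f, (i β).indicator (fun g : E => A g) g = 0 := by
      intro g hg
      refine Set.indicator_of_notMem ?_ _
      intro hgi
      apply hg
      refine ⟨⟨(g : SL(2, ℝ)) * β⁻¹, hgi⟩, Subtype.ext ?_⟩
      change (g : SL(2, ℝ)) * β⁻¹ * β = g
      rw [inv_mul_cancel_right]
    refine (hf.hasSum_iff h3).1 ?_
    have h4 : (i β).indicator (fun g : E => A g) ∘ f = fun γ : Γ => A ((γ : SL(2, ℝ)) * β) := by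
      funext γ
      refine Set.indicator_of_mem ?_ _
      change (γ : SL(2, ℝ)) * β * β⁻¹ ∈ Γ
      rw [mul_inv_cancel_right]
      exact γ.2
    rw [h4]
    exact h β hβ
  have h2 := hasSum_sum h1
  have h3 : (fun g : E => ∑ β ∈ R, (i β).indicator (fun g : E => A g) g) = fun g : E => A g := by
    funext g
    obtain ⟨β, hβ, hg⟩ := hR.2.1 g g.2
    rw [Finset.sum_eq_single β]
    · exact Set.indicator_of_mem (s := i β) hg _
    · intro β' hβ' hne
      refine Set.indicator_of_notMem ?_ _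
      intro hg'
      apply hne
      refine hR.2.2 β' hβ' β hβ ?_
      have h5 : (((g : SL(2, ℝ)) * β'⁻¹)⁻¹) * ((g : SL(2, ℝ)) * β⁻¹) ∈ Γ :=
        Γ.mul_mem (Γ.inv_mem hg') hg
      have h6 : (((g : SL(2, ℝ)) * β'⁻¹)⁻¹) * ((g : SL(2, ℝ)) * β⁻¹) = β' * β⁻¹ := by group
      rwa [h6] at h5
    · intro hn
      exact absurd hβ hn
  rwa [h3] at h2

theorem countable_E {Γ : Subgroup SL(2, ℝ)} {E : Set SL(2, ℝ)} {R : Finset SL(2, ℝ)}
    (hR : Reps Γ E R) (hc : (Γ : Set SL(2, ℝ)).Countable) : E.Countable := by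
  have h : E ⊆ ⋃ β ∈ (R : Set SL(2, ℝ)), (fun γ : SL(2, ℝ) => γ * β) '' (Γ : Set SL(2, ℝ)) := by
    intro x hx
    obtain ⟨β, hβ, hg⟩ := hR.2.1 x hx
    refine Set.mem_biUnion (show β ∈ (R : Set SL(2, ℝ)) from hβ) ⟨x * β⁻¹, hg, ?_⟩
    exact inv_mul_cancel_right _ _
  exact (Set.Countable.biUnion R.countable_toSet fun β _ => hc.image _).mono h

end VUF

open VUF in
theorem pvUF (hCS : SvCS) : SvUF := by
  intro Q W p R hR ψ B s hψ hB hs z
  obtain ⟨I, c, C, -, -, hI⟩ := hCS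
  have hk : ∀ u, Integrable (kk s u) volume := fun u => ((hI s hs).2.2 u).1
  have hcG := IFUN.countable_G prFIW Q
  have hc1 : Countable Q.Γ := hcG.to_subtype
  have hc2 : Countable (Q.E p) := (countable_E hR hcG).to_subtype
  have hmul : ∀ γ ∈ Q.Γ, ∀ x ∈ Q.E p, γ * x ∈ Q.E p := ((prGAM Q).2.2 p).2.1
  have hA : HasSum (fun g : Q.E p => ∫ w, FF0 W ψ s ((g : SL(2, ℝ)) • z) w)
      (∑ β ∈ R, ∫ w, ψ w * kk s (β • z) w) := by
    refine has_sum_E hR hmul (fun g => ∫ w, FF0 W ψ s (g • z) w)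
      (fun β => ∫ w, ψ w * kk s (β • z) w) fun β _ => ?_
    have h := (stepA W hψ hB hk hc1 (β • z)).1
    simp only [mul_smul]
    exact h
  have hN : Summable (fun g : Q.E p => ∫ w, ‖FF0 W ψ s ((g : SL(2, ℝ)) • z) w‖) := by
    refine (has_sum_E hR hmul (fun g => ∫ w, ‖FF0 W ψ s (g • z) w‖)
      (fun β => ∑' γ : Q.Γ, ∫ w, ‖FF0 W ψ s (((γ : SL(2, ℝ)) * β) • z) w‖) fun β _ => ?_).summable
    have h := (stepA W hψ hB hk hc1 (β • z)).2
    simp only [mul_smul]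
    exact h.hasSum
  have hint : ∀ g : Q.E p, Integrable (FF0 W ψ s ((g : SL(2, ℝ)) • z)) volume :=
    fun g => FF0_int W hψ hB hk _
  have e : (fun w : ℍ => ∑' g : Q.E p, FF0 W ψ s ((g : SL(2, ℝ)) • z) w) =
      fun w => W.w w * (ψ w * ∑' g : Q.E p,
        Real.exp (-s * (Real.cosh (dist ((g : SL(2, ℝ)) • z) w) - 1))) := by
    funext w
    unfold FF0
    rw [tsum_mul_left, tsum_mul_left]
    rfl
  have h1 := int_tsum hint hN
  have h2 := hasSum_integral_of_summable_integral_norm hint hN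
  rw [e] at h1 h2
  exact ⟨h1, hA.unique h2⟩

end HQ
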