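import Pool.Agent.Work.MP_d2a4bb_nt.QV.Stmts

/-!
# W1 of the block [d2a4bb QV]: Weyl differencing.
-/

open UpperHalfPlane MeasureTheory Matrix
open scoped MatrixGroups Manifold Topology ComplexConjugate

namespace HQ
namespace VW1

/-- The shear of a product of two copies of an abelian group. -/
def shear (ι : Type*) [AddCommGroup ι] : ι × ι ≃ ι × ι where
  toFun x := (x.2 + x.1, x.2)
  invFun x := (x.1 - x.2, x.2)
  left_inv := by rintro ⟨a, b⟩; simp
  right_inv := by rintro ⟨a, b⟩; simp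

theorem sA1 {ι : Type*} (F G : ι → ℂ) (hF : Summable (fun c => ‖F c‖))
    (hG : Summable (fun c => ‖G c‖)) :
    Summable (fun x : ι × ι => ‖F x.1 * G x.2‖) := Summable.mul_norm hF hG

theorem sA2 {ι : Type*} [AddCommGroup ι] (f : ι × ι → ℝ) (hf : Summable f) :
    Summable (fun x : ι × ι => f (x.2 + x.1, x.2)) :=
  (shear ι).summable_iff.2 hf

theorem sA3 {ι : Type*} [AddCommGroup ι] (F G : ι → ℂ) (hF : Summable (fun c => ‖F c‖))
    (hG : Summable (fun c => ‖G c‖)) :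
    Summable (fun x : ι × ι => ‖F (x.2 + x.1) * G x.2‖) :=
  sA2 (fun x => ‖F x.1 * G x.2‖) (sA1 F G hF hG)

theorem sA4 {ι : Type*} [AddCommGroup ι] (f : ι × ι → ℂ) :
    ∑' x : ι × ι, f (x.2 + x.1, x.2) = ∑' x : ι × ι, f x :=
  (shear ι).tsum_eq f

theorem sA5 {ι : Type*} [AddCommGroup ι] (F G : ι → ℂ) (hF : Summable (fun c => ‖F c‖))
    (hG : Summable (fun c => ‖G c‖)) :
    (∑' c, F c) * (∑' c, G c) = ∑' h, ∑' c, F (c + h) * G c := by
  have h1 : (∑' c, F c) * (∑' c, G c) = ∑' x : ι × ι, F x.1 * G x.2 :=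
    tsum_mul_tsum_of_summable_norm hF hG
  have h2 := sA4 (fun x : ι × ι => F x.1 * G x.2)
  have h3 : Summable (fun x : ι × ι => F (x.2 + x.1) * G x.2) := (sA3 F G hF hG).of_norm
  rw [h1, ← h2]
  exact h3.tsum_prod

theorem sA6 {ι : Type*} [AddCommGroup ι] (F G : ι → ℂ) (hF : Summable (fun c => ‖F c‖))
    (hG : Summable (fun c => ‖G c‖)) :
    Summable (fun h : ι => ‖∑' c, F (c + h) * G c‖) ∧
      ‖(∑' c, F c) * (∑' c, G c)‖ ≤ ∑' h, ‖∑' c, F (c + h) * G c‖ := by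
  have hsn2 := sA3 F G hF hG
  have hin : ∀ h, Summable (fun c => ‖F (c + h) * G c‖) := fun h => hsn2.prod_factor h
  have hout : Summable (fun h => ∑' c, ‖F (c + h) * G c‖) := hsn2.prod
  have hsum : Summable (fun h : ι => ‖∑' c, F (c + h) * G c‖) :=
    Summable.of_nonneg_of_le (fun h => norm_nonneg _)
      (fun h => norm_tsum_le_tsum_norm (hin h)) hout
  refine ⟨hsum, ?_⟩
  rw [sA5 F G hF hG]
  exact norm_tsum_le_tsum_norm hsum

/-- Weyl differencing for an absolutely summable family on an abelian group. -/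
theorem weyl {ι : Type*} [AddCommGroup ι] (F G : ι → ℂ) (hF : Summable (fun c => ‖F c‖))
    (hG : ∀ c, G c = conj (F c)) :
    Summable (fun h : ι => ‖∑' c, F (c + h) * G c‖) ∧
      ‖∑' c, F c‖ ^ 2 ≤ ∑' h, ‖∑' c, F (c + h) * G c‖ := by
  have hn : ∀ c, ‖G c‖ = ‖F c‖ := fun c => by rw [hG c, Complex.norm_conj]
  have hG' : Summable (fun c => ‖G c‖) := by simpa only [hn] using hF
  have h := sA6 F G hF hG'
  refine ⟨h.1, ?_⟩
  have h5 : ∑' c, G c = conj (∑' c, F c) := by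
    rw [Complex.conj_tsum]
    exact tsum_congr hG
  have h4 : ‖∑' c, F c‖ ^ 2 = ‖(∑' c, F c) * (∑' c, G c)‖ := by
    rw [norm_mul, h5, Complex.norm_conj, pow_two]
  rw [h4]
  exact h.2

/-- Parallelogram law. -/
theorem par {c₁ Λ : ℝ} {q : (Fin 4 → ℝ) → ℝ} (hq : PosForm c₁ Λ q) (x y : Fin 4 → ℝ) :
    q (fun i => x i + y i) + q x = 2 * q (fun i => x i + y i / 2) + q y / 2 := by
  obtain ⟨M, -, hM⟩ := hq.quad
  rw [hM, hM, hM, hM, Finset.mul_sum, Finset.sum_div, ← Finset.sum_add_distrib,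
    ← Finset.sum_add_distrib]
  refine Finset.sum_congr rfl fun i _ => ?_
  rw [Finset.mul_sum, Finset.sum_div, ← Finset.sum_add_distrib, ← Finset.sum_add_distrib]
  refine Finset.sum_congr rfl fun j _ => ?_
  ring

/-- The differenced summand. -/
theorem term {c₁ Λ P : ℝ} {q : (Fin 4 → ℝ) → ℝ} {N : (Fin 4 → ℤ) → ℤ}
    {L : (Fin 4 → ℤ) → Fin 4 → ℤ} (α : ℝ) (hq : PosForm c₁ Λ q) (hN : IntForm N L)
    (h c : Fin 4 → ℤ) :
    Complex.exp (((-Real.pi * q (fun i => ((c + h) i : ℝ)) / P : ℝ) : ℂ) +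
        2 * Real.pi * Complex.I * ((α * (N (c + h) : ℝ) : ℝ) : ℂ)) *
      conj (Complex.exp (((-Real.pi * q (fun i => (c i : ℝ)) / P : ℝ) : ℂ) +
        2 * Real.pi * Complex.I * ((α * (N c : ℝ) : ℝ) : ℂ))) =
    Complex.exp (((-Real.pi * q (fun i => (h i : ℝ)) / (2 * P) : ℝ) : ℂ) +
        2 * Real.pi * Complex.I * ((α * (N h : ℝ) : ℝ) : ℂ)) *
      Complex.exp (((-2 * Real.pi * q (fun i => (c i : ℝ) + (h i : ℝ) / 2) / P : ℝ) : ℂ) +
        2 * Real.pi * Complex.I * ((α * ∑ j, (c j : ℝ) * (L h j : ℝ) : ℝ) : ℂ)) := by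
  rw [← Complex.exp_conj, ← Complex.exp_add, ← Complex.exp_add]
  congr 1
  have h1 : conj (((-Real.pi * q (fun i => (c i : ℝ)) / P : ℝ) : ℂ) +
        2 * Real.pi * Complex.I * ((α * (N c : ℝ) : ℝ) : ℂ)) =
      ((-Real.pi * q (fun i => (c i : ℝ)) / P : ℝ) : ℂ) -
        2 * Real.pi * Complex.I * ((α * (N c : ℝ) : ℝ) : ℂ) := by
    simp only [map_add, map_mul, Complex.conj_ofReal, Complex.conj_I, map_ofNat]
    ring
  rw [h1]
  have h2 : (N (c + h) : ℝ) = (N c : ℝ) + (N h : ℝ) + ∑ j, (c j : ℝ) * (L h j : ℝ) := by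
    rw [hN c h]; push_cast; ring
  have h3 : q (fun i => ((c + h) i : ℝ)) =
      2 * q (fun i => (c i : ℝ) + (h i : ℝ) / 2) + q (fun i => (h i : ℝ)) / 2 -
        q (fun i => (c i : ℝ)) := by
    have := par hq (fun i => (c i : ℝ)) (fun i => (h i : ℝ))
    simp only [Pi.add_apply, Int.cast_add]
    linarith
  rw [h2, h3]
  push_cast
  ring

end VW1

/-- W1: Weyl differencing. -/
theorem pvW1 (hG4 : SvG4) : SvW1 := by
  intro c₁ Λ P q N L α hc hcΛ hP hq hN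
  have hΛ : 0 < Λ := lt_of_lt_of_le hc hcΛ
  have hG := (hG4 c₁ Λ P q hc hcΛ (by linarith) hq (fun _ => 0)).1
  simp only [add_zero] at hG
  set F : (Fin 4 → ℤ) → ℂ := fun c =>
    Complex.exp (((-Real.pi * q (fun i => (c i : ℝ)) / P : ℝ) : ℂ) +
      2 * Real.pi * Complex.I * ((α * (N c : ℝ) : ℝ) : ℂ)) with hFdef
  have hnorm : ∀ (x y : ℝ), ‖Complex.exp ((x : ℂ) + 2 * Real.pi * Complex.I * (y : ℂ))‖ =
      Real.exp x := by
    intro x y
    rw [Complex.norm_exp]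
    congr 1
    simp [Complex.add_re, Complex.mul_re]
  have hFn : ∀ c, ‖F c‖ = Real.exp (-Real.pi * q (fun i => (c i : ℝ)) / P) := fun c => hnorm _ _
  have hFs : Summable (fun c => ‖F c‖) := by
    simp only [hFn]
    exact hG
  set G : (Fin 4 → ℤ) → ℂ := fun c => conj (F c) with hGdef
  have key : ∀ h : Fin 4 → ℤ, ‖∑' c, F (c + h) * G c‖ =
      Real.exp (-Real.pi * q (fun i => (h i : ℝ)) / (2 * P)) *
      ‖∑' c : Fin 4 → ℤ, Complex.exp (((-2 * Real.pi * q (fun i => (c i : ℝ) + (h i : ℝ) / 2) / P : ℝ) : ℂ) + 2 * Real.pi * Complex.I * ((α * ∑ j, (c j : ℝ) * (L h j : ℝ) : ℝ) : ℂ))‖ := by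
    intro h
    have : ∀ c, F (c + h) * G c = _ := fun c => VW1.term (P := P) α hq hN h c
    rw [tsum_congr this, tsum_mul_left, norm_mul, hnorm]
  have hw := VW1.weyl F G hFs (fun c => rfl)
  simp only [key] at hw
  exact hw

end HQ
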