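import Pool.Agent.Work.MP_d2a4bb_nt.QV.Stmts
import Pool.Agent.Work.MP_d2a4bb_nt.QV.I_G4
import Pool.Agent.Work.MP_d2a4bb_nt.QV.I_MI

/-!
# W2 of the block [d2a4bb QV]: Weyl's inequality.
-/

open UpperHalfPlane MeasureTheory Matrix
open scoped MatrixGroups Manifold Topology ComplexConjugate

namespace HQ

namespace VW2

/-- The one dimensional Gaussian weight. -/
noncomputable def gk (c Λ P α : ℝ) (k : ℤ) : ℝ :=
  Real.exp (-c * (k : ℝ) ^ 2 / P - c * (P / Λ) * dn (α * k) ^ 2)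

theorem gk_nonneg (c Λ P α : ℝ) (k : ℤ) : 0 ≤ gk c Λ P α k := (Real.exp_pos _).le

theorem gk_summable (c Λ P α : ℝ) (hc : 0 < c) (hΛ : 0 < Λ) (hP : 0 < P) :
    Summable (gk c Λ P α) := by
  refine Summable.of_nonneg_of_le (gk_nonneg c Λ P α) (fun k => ?_)
    (VMI.gsum (c / P) (by positivity))
  unfold gk
  apply Real.exp_le_exp.2
  have h1 : 0 ≤ c * (P / Λ) * dn (α * k) ^ 2 := by positivity
  have h2 : -c * (k : ℝ) ^ 2 / P = -(c / P) * (k : ℝ) ^ 2 := by ring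
  rw [h2]
  linarith

theorem gk_tsum (c Λ P α : ℝ) : ∑' k, gk c Λ P α k = NA c Λ P α := rfl

/-- Geometric mean of four bounds. -/
theorem geo (X K : ℝ) (hK : 0 ≤ K) (a : Fin 4 → ℝ) (h : ∀ i, X ≤ K * Real.exp (-a i)) :
    X ≤ K * Real.exp (-((∑ i, a i) / 4)) := by
  obtain ⟨i, -, hi⟩ : ∃ i ∈ (Finset.univ : Finset (Fin 4)), (∑ j, a j) / 4 ≤ a i := by
    apply Finset.exists_le_of_sum_le Finset.univ_nonempty
    rw [Finset.sum_const, Finset.card_univ, Fintype.card_fin]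
    simp only [nsmul_eq_mul]
    push_cast
    linarith
  refine (h i).trans ?_
  apply mul_le_mul_of_nonneg_left _ hK
  apply Real.exp_le_exp.2
  linarith

theorem prod_gk (c Λ P α : ℝ) (k : Fin 4 → ℤ) :
    ∏ i, gk c Λ P α (k i) = Real.exp (-c / P * ∑ i, (k i : ℝ) ^ 2 -
      c * (P / Λ) * ∑ i, dn (α * k i) ^ 2) := by
  unfold gk
  rw [← Real.exp_sum, Finset.sum_sub_distrib, Finset.mul_sum, Finset.mul_sum]
  congr 2
  refine Finset.sum_congr rfl fun i _ => ?_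
  ring

/-- The bound of one term. -/
theorem term (hG4 : SvG4) (c₁ C₂ c : ℝ) (hc₁ : 0 < c₁) (hC₂ : 0 < C₂) (hc : 0 < c)
    (hcA : c ≤ Real.pi * c₁ / (2 * C₂)) (hcB : c ≤ Real.pi / 16) (Λ P : ℝ)
    (q : (Fin 4 → ℝ) → ℝ) (L : (Fin 4 → ℤ) → Fin 4 → ℤ) (α : ℝ) (h1 : c₁ ≤ Λ) (h2 : 0 < Λ)
    (h3 : 2 * Λ ≤ P) (hq : PosForm c₁ Λ q)
    (hL : ∀ h, ∑ j, (L h j : ℝ) ^ 2 ≤ C₂ * ∑ j, (h j : ℝ) ^ 2) (h : Fin 4 → ℤ) :
    Real.exp (-Real.pi * q (fun i => (h i : ℝ)) / (2 * P)) *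
      ‖∑' c : Fin 4 → ℤ, Complex.exp (((-2 * Real.pi * q (fun i => (c i : ℝ) + (h i : ℝ) / 2) / P :
        ℝ) : ℂ) + 2 * Real.pi * Complex.I * ((α * ∑ j, (c j : ℝ) * (L h j : ℝ) : ℝ) : ℂ))‖ ≤
    64 * P ^ 2 / c₁ ^ 2 * ∏ i, gk c Λ P α (L h i) := by
  have hP : 0 < P := by linarith
  set X := ‖∑' c : Fin 4 → ℤ, Complex.exp (((-2 * Real.pi *
        q (fun i => (c i : ℝ) + (h i : ℝ) / 2) / P :
        ℝ) : ℂ) + 2 * Real.pi * Complex.I * ((α * ∑ j, (c j : ℝ) * (L h j : ℝ) : ℝ) : ℂ))‖ with hX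
  have hX1 : ∀ i, X ≤ 64 * P ^ 2 / c₁ ^ 2 *
      Real.exp (-((Real.pi / 4) * (P / Λ) * dn (α * L h i) ^ 2)) := by
    intro i
    have h4 := (hG4 c₁ Λ (P / 2) q hc₁ h1 (by linarith) hq (fun i => (h i : ℝ) / 2)).2
      (fun j => α * L h j) i
    have e1 : (256 * (P / 2) ^ 2 / c₁ ^ 2 *
        Real.exp (-(Real.pi / 2) * (P / 2 / Λ) * dn (α * L h i) ^ 2)) =
        64 * P ^ 2 / c₁ ^ 2 * Real.exp (-((Real.pi / 4) * (P / Λ) * dn (α * L h i) ^ 2)) := by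
      congr 1
      · ring
      · congr 1
        ring
    rw [← e1]
    refine le_trans (le_of_eq ?_) h4
    rw [hX]
    congr 1
    apply tsum_congr
    intro c
    congr 2
    · congr 1
      field_simp
    · congr 1
      congr 1
      rw [Finset.mul_sum]
      refine Finset.sum_congr rfl fun j _ => ?_
      ring
  have hK : 0 ≤ 64 * P ^ 2 / c₁ ^ 2 := by positivity
  have hX2 := geo X _ hK _ hX1
  have hq1 : Real.exp (-Real.pi * q (fun i => (h i : ℝ)) / (2 * P)) ≤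
      Real.exp (-c / P * ∑ j, (L h j : ℝ) ^ 2) := by
    apply Real.exp_le_exp.2
    have hl := hq.lower (fun i => (h i : ℝ))
    have hl2 := hL h
    have hs : 0 ≤ ∑ j, (L h j : ℝ) ^ 2 := Finset.sum_nonneg fun _ _ => sq_nonneg _
    have e2 : c * ∑ j, (L h j : ℝ) ^ 2 ≤ Real.pi * q (fun i => (h i : ℝ)) / 2 := by
      calc c * ∑ j, (L h j : ℝ) ^ 2 ≤ (Real.pi * c₁ / (2 * C₂)) * ∑ j, (L h j : ℝ) ^ 2 :=
            mul_le_mul_of_nonneg_right hcA hs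
        _ ≤ (Real.pi * c₁ / (2 * C₂)) * (C₂ * ∑ j, (h j : ℝ) ^ 2) :=
            mul_le_mul_of_nonneg_left hl2 (by positivity)
        _ = Real.pi / 2 * (c₁ * ∑ j, (h j : ℝ) ^ 2) := by
            field_simp
        _ ≤ Real.pi / 2 * q (fun i => (h i : ℝ)) :=
            mul_le_mul_of_nonneg_left hl (by positivity)
        _ = Real.pi * q (fun i => (h i : ℝ)) / 2 := by ring
    have e3 : -Real.pi * q (fun i => (h i : ℝ)) / (2 * P) =
        -(Real.pi * q (fun i => (h i : ℝ)) / 2) / P := by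
      field_simp
    have e4 : -c / P * ∑ j, (L h j : ℝ) ^ 2 = -(c * ∑ j, (L h j : ℝ) ^ 2) / P := by ring
    rw [e3, e4]
    apply div_le_div_of_nonneg_right _ hP.le
    linarith
  have hX0 : 0 ≤ X := norm_nonneg _
  rw [prod_gk, sub_eq_add_neg, Real.exp_add]
  calc Real.exp (-Real.pi * q (fun i => (h i : ℝ)) / (2 * P)) * X
      ≤ Real.exp (-c / P * ∑ j, (L h j : ℝ) ^ 2) * (64 * P ^ 2 / c₁ ^ 2 *
        Real.exp (-(c * (P / Λ) * ∑ i, dn (α * L h i) ^ 2))) := by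
        apply mul_le_mul hq1 _ hX0 (Real.exp_pos _).le
        refine hX2.trans ?_
        apply mul_le_mul_of_nonneg_left _ hK
        apply Real.exp_le_exp.2
        rw [← Finset.mul_sum]
        have hs : 0 ≤ (P / Λ) * ∑ i, dn (α * L h i) ^ 2 :=
          mul_nonneg (by positivity) (Finset.sum_nonneg fun _ _ => sq_nonneg _)
        have := mul_le_mul_of_nonneg_right hcB hs
        have e5 : (Real.pi / 4 * (P / Λ) * ∑ i, dn (α * L h i) ^ 2) / 4 =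
          Real.pi / 16 * ((P / Λ) * ∑ i, dn (α * L h i) ^ 2) := by
          ring
        nlinarith
    _ = _ := by ring

end VW2

theorem pvW2 (hG4 : SvG4) (hW1 : SvW1) : SvW2 := by
  intro c₁ C₂ hc₁ hC₂
  set c := min (Real.pi * c₁ / (2 * C₂)) (Real.pi / 16) with hc
  have hc0 : 0 < c := by
    rw [hc]
    exact lt_min (by positivity) (by positivity)
  refine ⟨64 / c₁ ^ 2, c, by positivity, hc0, ?_⟩
  intro Λ P q N L α h1 h2 h3 hq hN hinj hL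
  have hP : 0 < P := by linarith
  obtain ⟨hs, hb⟩ := hW1 c₁ Λ P q N L α hc₁ h1 h3 hq hN
  refine hb.trans ?_
  have hpi := VG4.piSum 4 (fun _ => VW2.gk c Λ P α) (fun _ k => VW2.gk_nonneg c Λ P α k)
    (fun _ => VW2.gk_summable c Λ P α hc0 h2 hP)
  have hprod : ∏ _j : Fin 4, ∑' k, VW2.gk c Λ P α k = NA c Λ P α ^ 4 := by
    rw [Finset.prod_const, Finset.card_univ, Fintype.card_fin, VW2.gk_tsum]
  have hnn : ∀ k : Fin 4 → ℤ, 0 ≤ ∏ i, VW2.gk c Λ P α (k i) := fun k =>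
    Finset.prod_nonneg fun i _ => VW2.gk_nonneg c Λ P α (k i)
  have hs2 : Summable (fun h : Fin 4 → ℤ => ∏ i, VW2.gk c Λ P α (L h i)) :=
    hpi.summable.comp_injective hinj
  have hle : ∑' h : Fin 4 → ℤ, ∏ i, VW2.gk c Λ P α (L h i) ≤ NA c Λ P α ^ 4 := by
    rw [← hprod, ← hpi.tsum_eq]
    exact tsum_comp_le_tsum_of_inj hpi.summable hnn hinj
  calc _ ≤ ∑' h : Fin 4 → ℤ, 64 * P ^ 2 / c₁ ^ 2 * ∏ i, VW2.gk c Λ P α (L h i) := by
        refine hs.tsum_le_tsum (fun h => ?_) (hs2.mul_left _)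
        exact VW2.term hG4 c₁ C₂ c hc₁ hC₂ hc0 (min_le_left _ _) (min_le_right _ _) Λ P q L α h1 h2
          h3 hq hL h
    _ = 64 * P ^ 2 / c₁ ^ 2 * ∑' h : Fin 4 → ℤ, ∏ i, VW2.gk c Λ P α (L h i) := tsum_mul_left
    _ ≤ 64 * P ^ 2 / c₁ ^ 2 * NA c Λ P α ^ 4 := mul_le_mul_of_nonneg_left hle (by positivity)
    _ = 64 / c₁ ^ 2 * P ^ 2 * NA c Λ P α ^ 4 := by ring

end HQ
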