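import Pool.Agent.Work.MP_d2a4bb_nt.QV.I_G1
import Pool.Agent.Work.MP_d2a4bb_nt.QV.I_G4
import Pool.Agent.Work.MP_d2a4bb_nt.QV.I_W1
import Pool.Agent.Work.MP_d2a4bb_nt.QV.I_W2
import Pool.Agent.Work.MP_d2a4bb_nt.QV.I_N1
import Pool.Agent.Work.MP_d2a4bb_nt.QV.I_MI
import Pool.Agent.Work.MP_d2a4bb_nt.QV.I_MJ
import Pool.Agent.Work.MP_d2a4bb_nt.QV.I_M1
import Pool.Agent.Work.MP_d2a4bb_nt.QV.I_PB
import Pool.Agent.Work.MP_d2a4bb_nt.QV.I_QI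
import Pool.Agent.Work.MP_d2a4bb_nt.QV.I_QF
import Pool.Agent.Work.MP_d2a4bb_nt.QV.I_QN
import Pool.Agent.Work.MP_d2a4bb_nt.QV.I_M2
import Pool.Agent.Work.MP_d2a4bb_nt.QV.I_M3
import Pool.Agent.Work.MP_d2a4bb_nt.QV.I_SR
import Pool.Agent.Work.MP_d2a4bb_nt.QV.I_SM
import Pool.Agent.Work.MP_d2a4bb_nt.QV.I_EQ
import Pool.Agent.Work.MP_d2a4bb_nt.QV.I_CS
import Pool.Agent.Work.MP_d2a4bb_nt.QV.I_UF
import Pool.Agent.Work.MP_d2a4bb_nt.QV.I_HP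
import Pool.Agent.Work.MP_d2a4bb_nt.QV.I_D1
import Pool.Agent.Work.MP_d2a4bb_nt.QV.I_D2
import Pool.Agent.Work.MP_d2a4bb_nt.QV.I_D3
import Pool.Agent.Work.MP_d2a4bb_nt.QV.I_D4
import Pool.Agent.Work.MP_d2a4bb_nt.QV.I_D5
import Pool.Agent.Work.MP_d2a4bb_nt.QV.I_D6
import Pool.Agent.Work.MP_d2a4bb_nt.QV.I_D7
import Pool.Agent.Work.MP_d2a4bb_nt.QV.I_I1
import Pool.Agent.Work.MP_d2a4bb_nt.QV.I_I2
import Pool.Agent.Work.MP_d2a4bb_nt.QV.I_FA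
import Pool.Agent.Work.MP_d2a4bb_nt.QV.I_FB

/-!
# Assembly of the block [d2a4bb QV]
-/

namespace HQ

theorem cvG1 : SvG1 := pvG1
theorem cvG4 : SvG4 := pvG4 cvG1
theorem cvW1 : SvW1 := pvW1 cvG4
theorem cvW2 : SvW2 := pvW2 cvG4 cvW1
theorem cvN1 : SvN1 := pvN1 cvG1
theorem cvMI : SvMI := pvMI cvN1
theorem cvMJ : SvMJ := pvMJ
theorem cvM1 : SvM1 := pvM1 cvG4
theorem cvPB : SvPB := pvPB
theorem cvQI : SvQI := pvQI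
theorem cvQF : SvQF := pvQF
theorem cvQN : SvQN := pvQN
theorem cvM2 : SvM2 := pvM2
theorem cvM3 : SvM3 := pvM3 cvM1 cvM2 cvQF cvQN cvG4
theorem cvSR : SvSR := pvSR cvQF cvQN cvG4
theorem cvSM : SvSM := pvSM cvW2 cvMI cvMJ cvM3 cvSR cvPB cvQF cvQN
theorem cvEQ : SvEQ := pvEQ cvQI
theorem cvCS : SvCS := pvCS
theorem cvUF : SvUF := pvUF cvCS
theorem cvHP : SvHP := pvHP cvSM cvEQ cvCS cvUF
theorem cvD1 : SvD1 := pvD1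
theorem cvD2 : SvD2 := pvD2 cvD1
theorem cvD3 : SvD3 := pvD3
theorem cvD4 : SvD4 := pvD4 cvD3 cvQI
theorem cvD5 : SvD5 := pvD5 cvD1
theorem cvD6 : SvD6 := pvD6 cvD2 cvD4 cvD5
theorem cvD7 : SvD7 := pvD7
theorem cvI1 : SvI1 := pvI1
theorem cvI2 : SvI2 := pvI2
theorem cvFA : SvFA := pvFA cvHP cvD1 cvD6 cvD7 cvI1 cvI2
theorem cvFB : SvFB := pvFB cvFA

/-- THEOREM QV, without hypotheses. -/
theorem mainV : MainV := cvFB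

end HQ
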