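import Pool.Agent.Work.MP_d2a4bb_nt.QV.Stmts
import Pool.Agent.Work.MP_d2a4bb_nt.QE.Closed

open UpperHalfPlane MeasureTheory Matrix
open scoped MatrixGroups Manifold Topology ComplexConjugate

namespace HQ
namespace VFA

/-- the size of `P` -/
theorem floor_facts (m : ℕ) (hm : 1 ≤ m) : 1 ≤ ⌊(m : ℝ) ^ (1 / 30 : ℝ)⌋₊ ∧ ⌊(m : ℝ) ^ (1 / 30 : ℝ)⌋₊ ^ 30 ≤ m ∧
    (m : ℝ) ^ (1 / 30 : ℝ) < (⌊(m : ℝ) ^ (1 / 30 : ℝ)⌋₊ : ℝ) + 1 := by
  have hmR : (1 : ℝ) ≤ (m : ℝ) := by exact_mod_cast hm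
  have h1 : (1 : ℝ) ≤ (m : ℝ) ^ (1 / 30 : ℝ) := Real.one_le_rpow hmR (by norm_num)
  refine ⟨Nat.le_floor (by exact_mod_cast h1), ?_, Nat.lt_floor_add_one _⟩
  have h2 : ((⌊(m : ℝ) ^ (1 / 30 : ℝ)⌋₊ : ℕ) : ℝ) ≤ (m : ℝ) ^ (1 / 30 : ℝ) := Nat.floor_le (by linarith)
  have h3 : ((⌊(m : ℝ) ^ (1 / 30 : ℝ)⌋₊ : ℕ) : ℝ) ^ 30 ≤ ((m : ℝ) ^ (1 / 30 : ℝ)) ^ 30 := pow_le_pow_left₀ (Nat.cast_nonneg _) h2 30
  have h4 : ((m : ℝ) ^ (1 / 30 : ℝ)) ^ 30 = m := by
    rw [← Real.rpow_natCast, ← Real.rpow_mul (by linarith)]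
    norm_num
  rw [h4] at h3
  exact_mod_cast h3

/-- comparison of the powers -/
theorem pow_cmp (m P : ℕ) (hm : 1 ≤ m) (hP : 1 ≤ P) (h : (m : ℝ) ^ (1 / 30 : ℝ) < (P : ℝ) + 1) :
    (P : ℝ) ^ (-(13 / 700) : ℝ) ≤ 2 * (m : ℝ) ^ (-1 / 2000 : ℝ) := by
  have hmR : (1 : ℝ) ≤ (m : ℝ) := by exact_mod_cast hm
  have hPR : (1 : ℝ) ≤ (P : ℝ) := by exact_mod_cast hP
  have h1 : (m : ℝ) ^ (1 / 30 : ℝ) / 2 ≤ (P : ℝ) := by linarith
  have h0 : 0 < (m : ℝ) ^ (1 / 30 : ℝ) / 2 := by positivity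
  calc (P : ℝ) ^ (-(13 / 700) : ℝ) ≤ ((m : ℝ) ^ (1 / 30 : ℝ) / 2) ^ (-(13 / 700) : ℝ) :=
        Real.rpow_le_rpow_of_nonpos h0 h1 (by norm_num)
    _ = ((m : ℝ) ^ (1 / 30 : ℝ)) ^ (-(13 / 700) : ℝ) / 2 ^ (-(13 / 700) : ℝ) := by
        rw [Real.div_rpow (by positivity) (by norm_num)]
    _ = (m : ℝ) ^ (-(13 / 21000) : ℝ) * 2 ^ (13 / 700 : ℝ) := by
        rw [← Real.rpow_mul (by linarith), Real.rpow_neg (by norm_num : (0:ℝ) ≤ 2), div_inv_eq_mul]
        norm_num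
    _ ≤ (m : ℝ) ^ (-1 / 2000 : ℝ) * 2 := by
        refine mul_le_mul ?_ ?_ (by positivity) (by positivity)
        · exact Real.rpow_le_rpow_of_exponent_le hmR (by norm_num)
        · calc (2 : ℝ) ^ (13 / 700 : ℝ) ≤ 2 ^ (1 : ℝ) := Real.rpow_le_rpow_of_exponent_le (by norm_num) (by norm_num)
            _ = 2 := Real.rpow_one 2
    _ = _ := by ring

theorem sum_M (Q : QuatOrder) (T : Finset ℕ) (R : ℕ → Finset SL(2, ℝ)) (hT : T.Nonempty) (hR : ∀ p ∈ T, HeckR Q p (R p)) (B : ℝ)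
    (hd : ∀ p ∈ T, ∀ p' ∈ T, p ≠ p' → Disjoint (words Q.Γ (R p) 2) (words Q.Γ (R p') 2)) (M : List SL(2, ℝ) → ℝ)
    (hM : ∀ p ∈ T, ∀ a ∈ words Q.Γ (R p) 2, M a = 2 * B / ((p + 1) * T.card)) :
    ∑ a ∈ VV Q T R, M a ^ 2 ≤ 4 * B ^ 2 / T.card := by
  classical
  have hc : (0 : ℝ) < (T.card : ℝ) := by exact_mod_cast hT.card_pos
  unfold VV
  rw [Finset.sum_biUnion (fun p hp p' hp' hne => hd p hp p' hp' hne)]
  calc ∑ p ∈ T, ∑ a ∈ words Q.Γ (R p) 2, M a ^ 2 = ∑ p ∈ T, ((p + 1 : ℝ) * p) * (2 * B / ((p + 1) * T.card)) ^ 2 := by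
        refine Finset.sum_congr rfl fun p hp => ?_
        rw [Finset.sum_congr rfl fun a ha => by rw [hM p hp a ha], Finset.sum_const, (hR p hp).count, nsmul_eq_mul]
        push_cast
        ring
    _ ≤ ∑ p ∈ T, 4 * B ^ 2 / (T.card : ℝ) ^ 2 := by
        refine Finset.sum_le_sum fun p _ => ?_
        have hp1 : (0 : ℝ) < (p : ℝ) + 1 := by positivity
        have e : ((p + 1 : ℝ) * p) * (2 * B / ((p + 1) * T.card)) ^ 2 = (p / (p + 1)) * (4 * B ^ 2 / (T.card : ℝ) ^ 2) := by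
          field_simp
          ring
        rw [e]
        have h1 : (p : ℝ) / (p + 1) ≤ 1 := by rw [div_le_one hp1]; linarith
        have h2 : 0 ≤ 4 * B ^ 2 / (T.card : ℝ) ^ 2 := by positivity
        calc (p : ℝ) / (p + 1) * (4 * B ^ 2 / (T.card : ℝ) ^ 2) ≤ 1 * (4 * B ^ 2 / (T.card : ℝ) ^ 2) := mul_le_mul_of_nonneg_right h1 h2
          _ = _ := one_mul _
    _ = 4 * B ^ 2 / T.card := by
        rw [Finset.sum_const, nsmul_eq_mul]
        field_simp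

theorem bdd_int (Q : QuatOrder) (W : Weight Q.Γ) (ψ : ℍ → ℝ) (B : ℝ) (hB : ∀ z, |ψ z| ≤ B) (m : ℕ) (f : ℍ → ℂ) (hf : Form Q.Γ m f)
    (h1 : ∫ z : ℍ, W.w z * FF m f z ^ 2 = 1) : |∫ z : ℍ, W.w z * (ψ z * FF m f z ^ 2)| ≤ B := by
  have hi : Integrable (fun z : ℍ => W.w z * FF m f z ^ 2) volume :=
    IBAS.intgR W ((clPHB.2.2.1 Q.Γ m f hf).2.pow 2)
  calc |∫ z : ℍ, W.w z * (ψ z * FF m f z ^ 2)| ≤ ∫ z : ℍ, B * (W.w z * FF m f z ^ 2) := by
        rw [← Real.norm_eq_abs]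
        refine norm_integral_le_of_norm_le (hi.const_mul B) (Filter.Eventually.of_forall fun z => ?_)
        rw [Real.norm_eq_abs, abs_mul, abs_mul, abs_of_nonneg (W.nonneg z), abs_of_nonneg (sq_nonneg (FF m f z))]
        have h2 := hB z
        have h3 : 0 ≤ W.w z * FF m f z ^ 2 := mul_nonneg (W.nonneg z) (sq_nonneg _)
        calc W.w z * (|ψ z| * FF m f z ^ 2) = |ψ z| * (W.w z * FF m f z ^ 2) := by ring
          _ ≤ B * (W.w z * FF m f z ^ 2) := mul_le_mul_of_nonneg_right h2 h3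
    _ = B := by rw [integral_const_mul, h1, mul_one]

end VFA

open Classical in
theorem pvFA (hHP : SvHP) (hD1 : SvD1) (hD6 : SvD6) (hD7 : SvD7) (hI1 : SvI1) (hI2 : SvI2) : SvFA := by
  intro Q S hS W ψ L hψ hL hz
  obtain ⟨K, hK, hKc⟩ := clCOC Q
  obtain ⟨B₀, hB₀⟩ := IEQD.bdd Q.Γ K hK hKc ψ hψ.1 hψ.2
  set B : ℝ := |B₀| with hBdef
  have hB : ∀ z, |ψ z| ≤ B := fun z => (hB₀ z).trans (le_abs_self _)
  have hB0 : 0 ≤ B := abs_nonneg _
  obtain ⟨C₇, hC₇, h7⟩ := hD7 Q W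
  obtain ⟨C₆, hC₆, h6⟩ := hD6 Q W
  obtain ⟨CH, hCH, hHP'⟩ := hHP Q W ψ L hψ hL hz
  obtain ⟨N₀, hN₀⟩ := hS.plenty (1 / 100) (by norm_num)
  have hex : ∀ p : ℕ, ∃ R : Finset SL(2, ℝ), p ∈ S → HeckR Q p R := by
    intro p
    by_cases hp : p ∈ S
    · obtain ⟨R, hR⟩ := hI1 Q p (hS.prime p hp) (hS.good p hp) (hS.index p hp)
      exact ⟨R, fun _ => hR⟩
    · exact ⟨∅, fun h => absurd h hp⟩
  choose R hR using hex
  refine ⟨C₇ * B ^ 2 * ((N₀ : ℝ) + 1) ^ 30 + 2 * (2 * CH * C₇ + 8 * C₆ * B ^ 2) + 1, by positivity, ?_⟩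
  intro m hm ι _ f hf hfe
  have hmR : (1 : ℝ) ≤ (m : ℝ) := by exact_mod_cast hm
  have hmpos : (0 : ℝ) < (m : ℝ) := by linarith
  have hpw : (1 : ℝ) ≤ (m : ℝ) ^ (1 - 1 / 2000 : ℝ) := Real.one_le_rpow hmR (by norm_num)
  have hpw' : (m : ℝ) ^ (1 - 1 / 2000 : ℝ) = m * (m : ℝ) ^ (-1 / 2000 : ℝ) := by
    have := Real.rpow_add hmpos 1 (-1 / 2000)
    rw [Real.rpow_one] at this
    rw [← this]
    norm_num
  have hcard := h7 m hm ι f hf
  obtain ⟨hP1, hP30, hPlt⟩ := VFA.floor_facts m hm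
  set P : ℕ := ⌊(m : ℝ) ^ (1 / 30 : ℝ)⌋₊ with hPdef
  have hPR : (1 : ℝ) ≤ (P : ℝ) := by exact_mod_cast hP1
  rcases Nat.lt_or_ge P N₀ with hsmall | hlarge
  · -- small weights
    have h1 : ∑ i, (∫ z : ℍ, W.w z * (ψ z * FF m (f i) z ^ 2)) ^ 2 ≤ C₇ * m * B ^ 2 := by
      calc ∑ i, (∫ z : ℍ, W.w z * (ψ z * FF m (f i) z ^ 2)) ^ 2 ≤ ∑ _i : ι, B ^ 2 := by
            refine Finset.sum_le_sum fun i _ => ?_
            have := VFA.bdd_int Q W ψ B hB m (f i) (hf.1 i) (hf.2.2 i)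
            exact sq_le_sq' (by linarith [(abs_le.1 this).1]) (abs_le.1 this).2
        _ = (Fintype.card ι : ℝ) * B ^ 2 := by rw [Finset.sum_const, nsmul_eq_mul, Finset.card_univ]
        _ ≤ C₇ * m * B ^ 2 := mul_le_mul_of_nonneg_right hcard (sq_nonneg _)
    have h2 : (m : ℝ) ≤ ((N₀ : ℝ) + 1) ^ 30 := by
      have h3 : (m : ℝ) ^ (1 / 30 : ℝ) ≤ (N₀ : ℝ) + 1 := by
        have : (P : ℝ) ≤ (N₀ : ℝ) := by exact_mod_cast hsmall.le
        linarith
      have h4 : ((m : ℝ) ^ (1 / 30 : ℝ)) ^ 30 = m := by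
        rw [← Real.rpow_natCast, ← Real.rpow_mul (by linarith)]
        norm_num
      calc (m : ℝ) = ((m : ℝ) ^ (1 / 30 : ℝ)) ^ 30 := h4.symm
        _ ≤ _ := pow_le_pow_left₀ (by positivity) h3 30
    calc _ ≤ C₇ * m * B ^ 2 := h1
      _ ≤ C₇ * B ^ 2 * ((N₀ : ℝ) + 1) ^ 30 := by
          have : C₇ * m * B ^ 2 = C₇ * B ^ 2 * m := by ring
          rw [this]
          exact mul_le_mul_of_nonneg_left h2 (by positivity)
      _ ≤ (C₇ * B ^ 2 * ((N₀ : ℝ) + 1) ^ 30 + 2 * (2 * CH * C₇ + 8 * C₆ * B ^ 2) + 1) * 1 := by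
          have : 0 ≤ 2 * (2 * CH * C₇ + 8 * C₆ * B ^ 2) := by positivity
          linarith
      _ ≤ _ := mul_le_mul_of_nonneg_left hpw (by positivity)
  · -- large weights
    set T : Finset ℕ := (Finset.Ioc P (3 * P)).filter (fun n => n ∈ S) with hTdef
    have hTcard : (P : ℝ) ^ (99 / 100 : ℝ) ≤ (T.card : ℝ) := by
      have h1 := hN₀ P hlarge
      have h2 : {n : ℕ | n ∈ S ∧ P < n ∧ n ≤ 3 * P} = (T : Set ℕ) := by
        ext n
        simp only [hTdef, Finset.coe_filter, Finset.mem_Ioc, Set.mem_ofPred_eq]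
        tauto
      rw [h2, Set.ncard_coe_finset] at h1
      have h3 : (1 - 1 / 100 : ℝ) = 99 / 100 := by norm_num
      rw [h3] at h1
      exact h1
    have hTpos : (0 : ℝ) < (T.card : ℝ) := lt_of_lt_of_le (by positivity) hTcard
    have hTne : T.Nonempty := by
      rw [← Finset.card_pos]
      exact_mod_cast hTpos
    have hTR : ∀ p ∈ T, P < p ∧ p ≤ 3 * P ∧ HeckR Q p (R p) := by
      intro p hp
      rw [hTdef, Finset.mem_filter, Finset.mem_Ioc] at hp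
      exact ⟨hp.1.1, hp.1.2, hR p hp.2⟩
    have hTS : ∀ p ∈ T, p ∈ S := fun p hp => (Finset.mem_filter.1 hp).2
    -- Hecke points
    set E : ℝ := CH * (P : ℝ) ^ (1 - 1 / 35 : ℝ) with hE
    have hEpos : 0 ≤ E := by positivity
    have hsumT : ∀ z : ℍ, ∑ p ∈ T, (Tf (R p) ψ z / (p + 1)) ^ 2 ≤ E := by
      intro z
      have h1 := hHP' P T R hP1 hTR z
      have h2 : ∑ p ∈ T, (Tf (R p) ψ z / (p + 1)) ^ 2 ≤ ∑ p ∈ T, (Tf (R p) ψ z) ^ 2 / (P : ℝ) ^ 2 := by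
        refine Finset.sum_le_sum fun p hp => ?_
        rw [div_pow]
        refine div_le_div_of_nonneg_left (sq_nonneg _) (by positivity) ?_
        have : (P : ℝ) ≤ (p : ℝ) + 1 := by
          have : (P : ℝ) < (p : ℝ) := by exact_mod_cast (hTR p hp).1
          linarith
        exact pow_le_pow_left₀ (by positivity) this 2
      rw [← Finset.sum_div] at h2
      refine h2.trans ?_
      rw [div_le_iff₀ (by positivity)]
      refine h1.trans (le_of_eq ?_)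
      rw [hE, mul_assoc, ← Real.rpow_natCast (P : ℝ) 2, ← Real.rpow_add (by positivity)]
      norm_num
    set η : ℝ := Real.sqrt (E / T.card) with hη
    have hη2 : η ^ 2 = E / T.card := Real.sq_sqrt (by positivity)
    have hη3 : η ^ 2 * T.card = E := by rw [hη2]; field_simp
    -- the kernel
    set κ : List SL(2, ℝ) → ℍ → ℝ := fun a z => ∑ p ∈ T, if a ∈ words Q.Γ (R p) 2 then (ψ (vtx a 1 • z) - ψ z) / ((p + 1) * T.card) else 0 with hκ
    set M : List SL(2, ℝ) → ℝ := fun a => ∑ p ∈ T, if a ∈ words Q.Γ (R p) 2 then 2 * B / ((p + 1) * T.card) else 0 with hM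
    obtain ⟨hdist, hdisj⟩ := hD1 Q T R (fun p hp => (hTR p hp).2.2)
    have hκc : ∀ a, Continuous (κ a) := by
      intro a
      rw [hκ]
      refine continuous_finset_sum _ fun p _ => ?_
      by_cases h : a ∈ words Q.Γ (R p) 2
      · simp only [h, if_true]
        exact ((hψ.1.comp (continuous_const_smul _)).sub hψ.1).div_const _
      · simp only [h, if_false]
        exact continuous_const
    have hκM : ∀ a z, |κ a z| ≤ M a := by
      intro a z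
      simp only [hκ, hM]
      refine (Finset.abs_sum_le_sum_abs _ _).trans (Finset.sum_le_sum fun p _ => ?_)
      by_cases h : a ∈ words Q.Γ (R p) 2
      · simp only [h, if_true]
        rw [abs_div, abs_of_pos (by positivity : (0 : ℝ) < ((p : ℝ) + 1) * T.card)]
        refine div_le_div_of_nonneg_right ?_ (by positivity)
        calc |ψ (vtx a 1 • z) - ψ z| ≤ |ψ (vtx a 1 • z)| + |ψ z| := abs_sub _ _
          _ ≤ 2 * B := by linarith [hB (vtx a 1 • z), hB z]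
      · simp only [h, if_false, abs_zero, le_refl]
    have hMval : ∀ p ∈ T, ∀ a ∈ words Q.Γ (R p) 2, M a = 2 * B / ((p + 1) * T.card) := by
      intro p hp a ha
      simp only [hM]
      rw [Finset.sum_eq_single p]
      · simp only [ha, if_true]
      · intro p' hp' hne
        have : a ∉ words Q.Γ (R p') 2 := fun h => (Finset.disjoint_left.1 (hdisj p hp p' hp' hne.symm)) ha h
        simp only [this, if_false]
      · intro h; exact absurd hp h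
    have hsM := VFA.sum_M Q T R hTne (fun p hp => (hTR p hp).2.2) B hdisj M hMval
    have htr := h6 P T R hP1 (fun p hp => ⟨(hTR p hp).2.1, (hTR p hp).2.2⟩) κ M (fun a _ => hκc a) (fun a _ z => hκM a z) m hP30 ι f hf
    -- each form
    have hone : ∀ i, (∫ z : ℍ, W.w z * (ψ z * FF m (f i) z ^ 2)) ^ 2 ≤ 2 * η ^ 2 +
        2 * ∫ z : ℍ, W.w z * ‖∑ a ∈ VV Q T R, (κ a z : ℂ) * phi m (f i) z a.prod‖ ^ 2 := by
      intro i
      have h1 := hI2 Q W T R hTne (fun p hp => (hTR p hp).2.2) ψ m (f i) η hψ (hf.1 i) (by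
        intro p hp
        obtain ⟨l, hl⟩ := hfe i p (hTS p hp)
        refine ⟨l, fun z => ?_⟩
        rw [← hl z, (hTR p hp).2.2.hecke]) (hf.2.2 i) (Real.sqrt_nonneg _) (fun z => by rw [hη3]; exact hsumT z)
      refine h1.trans (le_of_eq ?_)
      congr 3
      funext z
      congr 3
      symm
      calc ∑ a ∈ VV Q T R, (κ a z : ℂ) * phi m (f i) z a.prod
          = ∑ a ∈ VV Q T R, ∑ p ∈ T, (if a ∈ words Q.Γ (R p) 2 then ((((ψ (vtx a 1 • z) - ψ z) / ((p + 1) * T.card) : ℝ) : ℂ) * phi m (f i) z a.prod) else 0) := by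
            refine Finset.sum_congr rfl fun a _ => ?_
            simp only [hκ]
            push_cast
            rw [Finset.sum_mul]
            refine Finset.sum_congr rfl fun p _ => ?_
            by_cases h : a ∈ words Q.Γ (R p) 2
            · simp only [h, if_true]
              push_cast
              ring
            · simp only [h, if_false]
              push_cast
              ring
        _ = ∑ p ∈ T, ∑ a ∈ VV Q T R, (if a ∈ words Q.Γ (R p) 2 then ((((ψ (vtx a 1 • z) - ψ z) / ((p + 1) * T.card) : ℝ) : ℂ) * phi m (f i) z a.prod) else 0) := Finset.sum_comm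
        _ = _ := by
            refine Finset.sum_congr rfl fun p hp => ?_
            rw [← Finset.sum_filter]
            refine Finset.sum_congr ?_ fun _ _ => rfl
            ext a
            rw [Finset.mem_filter]
            refine ⟨fun h => h.2, fun h => ⟨?_, h⟩⟩
            unfold VV
            rw [Finset.mem_biUnion]
            exact ⟨p, hp, h⟩
    have hsum : ∑ i, (∫ z : ℍ, W.w z * (ψ z * FF m (f i) z ^ 2)) ^ 2 ≤ 2 * η ^ 2 * (C₇ * m) + 2 * (C₆ * m * (4 * B ^ 2 / T.card)) := by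
      calc ∑ i, (∫ z : ℍ, W.w z * (ψ z * FF m (f i) z ^ 2)) ^ 2 ≤ ∑ i, (2 * η ^ 2 +
            2 * ∫ z : ℍ, W.w z * ‖∑ a ∈ VV Q T R, (κ a z : ℂ) * phi m (f i) z a.prod‖ ^ 2) := Finset.sum_le_sum fun i _ => hone i
        _ = 2 * η ^ 2 * (Fintype.card ι : ℝ) + 2 * ∑ i, ∫ z : ℍ, W.w z * ‖∑ a ∈ VV Q T R, (κ a z : ℂ) * phi m (f i) z a.prod‖ ^ 2 := by
            rw [Finset.sum_add_distrib, Finset.sum_const, nsmul_eq_mul, Finset.card_univ, Finset.mul_sum]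
            ring
        _ ≤ _ := by
            refine add_le_add (mul_le_mul_of_nonneg_left hcard (by positivity)) (mul_le_mul_of_nonneg_left (htr.trans ?_) (by norm_num))
            exact mul_le_mul_of_nonneg_left hsM (by positivity)
    -- exponents
    have hT1 : 1 / (T.card : ℝ) ≤ (P : ℝ) ^ (-(99 / 100) : ℝ) := by
      rw [Real.rpow_neg (by positivity), ← one_div]
      exact one_div_le_one_div_of_le (by positivity) hTcard
    have hT2 : 1 / (T.card : ℝ) ≤ (P : ℝ) ^ (-(13 / 700) : ℝ) :=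
      hT1.trans (Real.rpow_le_rpow_of_exponent_le hPR (by norm_num))
    have hη4 : η ^ 2 ≤ CH * (P : ℝ) ^ (-(13 / 700) : ℝ) := by
      rw [hη2, hE, div_eq_mul_one_div]
      calc CH * (P : ℝ) ^ (1 - 1 / 35 : ℝ) * (1 / (T.card : ℝ)) ≤ CH * (P : ℝ) ^ (1 - 1 / 35 : ℝ) * (P : ℝ) ^ (-(99 / 100) : ℝ) :=
            mul_le_mul_of_nonneg_left hT1 (by positivity)
        _ = CH * (P : ℝ) ^ (-(13 / 700) : ℝ) := by
            rw [mul_assoc, ← Real.rpow_add (by positivity)]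
            norm_num
    have hcmp := VFA.pow_cmp m P hm hP1 hPlt
    calc _ ≤ 2 * η ^ 2 * (C₇ * m) + 2 * (C₆ * m * (4 * B ^ 2 / T.card)) := hsum
      _ ≤ 2 * (CH * (P : ℝ) ^ (-(13 / 700) : ℝ)) * (C₇ * m) + 2 * (C₆ * m * (4 * B ^ 2 * (P : ℝ) ^ (-(13 / 700) : ℝ))) := by
          refine add_le_add ?_ ?_
          · exact mul_le_mul_of_nonneg_right (mul_le_mul_of_nonneg_left hη4 (by norm_num)) (by positivity)
          · refine mul_le_mul_of_nonneg_left (mul_le_mul_of_nonneg_left ?_ (by positivity)) (by norm_num)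
            rw [div_eq_mul_one_div]
            exact mul_le_mul_of_nonneg_left hT2 (by positivity)
      _ = (2 * CH * C₇ + 8 * C₆ * B ^ 2) * m * (P : ℝ) ^ (-(13 / 700) : ℝ) := by ring
      _ ≤ (2 * CH * C₇ + 8 * C₆ * B ^ 2) * m * (2 * (m : ℝ) ^ (-1 / 2000 : ℝ)) := mul_le_mul_of_nonneg_left hcmp (by positivity)
      _ = 2 * (2 * CH * C₇ + 8 * C₆ * B ^ 2) * (m : ℝ) ^ (1 - 1 / 2000 : ℝ) := by rw [hpw']; ring
      _ ≤ _ := by
          refine mul_le_mul_of_nonneg_right ?_ (by positivity)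
          have : 0 ≤ C₇ * B ^ 2 * ((N₀ : ℝ) + 1) ^ 30 := by positivity
          linarith

end HQ
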