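import Pool.Agent.Work.MP_d2a4bb_nt.QV.Stmts

/-!
# Item G1 of the block [d2a4bb QV]: one dimensional Gaussian sums
-/

open UpperHalfPlane MeasureTheory Matrix
open scoped MatrixGroups Manifold Topology ComplexConjugate

namespace HQ
namespace VG1

/-- shifted Gaussian sums over the integers -/
theorem gauss_shift (a s : ℝ) (ha : 0 < a) (h0 : 0 ≤ s) (h1 : s ≤ 1) :
    Summable (fun m : ℤ => Real.exp (-a * ((m : ℝ) + 1 - s) ^ 2)) ∧
      ∑' m : ℤ, Real.exp (-a * ((m : ℝ) + 1 - s) ^ 2) ≤ 2 / (1 - Real.exp (-a)) := by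
  have hr0 : 0 ≤ Real.exp (-a) := (Real.exp_pos _).le
  have hr1 : Real.exp (-a) < 1 := by
    rw [Real.exp_lt_one_iff]
    linarith
  have hgeo : HasSum (fun n : ℕ => Real.exp (-a) ^ n) (1 - Real.exp (-a))⁻¹ :=
    hasSum_geometric_of_lt_one hr0 hr1
  have hcmp : ∀ (n : ℕ) (x : ℝ), (n : ℝ) ≤ |x| → Real.exp (-a * x ^ 2) ≤ Real.exp (-a) ^ n := by
    intro n x hx
    rw [← Real.exp_nat_mul]
    apply Real.exp_le_exp.mpr
    have h2 : (n : ℝ) ^ 2 ≤ x ^ 2 := by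
      rw [← sq_abs x]
      exact pow_le_pow_left₀ (Nat.cast_nonneg n) hx 2
    have h3 : (n : ℝ) ≤ (n : ℝ) ^ 2 := by
      rcases Nat.eq_zero_or_pos n with h | h
      · subst h; simp
      · have : (1 : ℝ) ≤ n := by exact_mod_cast h
        nlinarith
    nlinarith
  have e1 : ∀ n : ℕ, Real.exp (-a * (((n : ℤ) : ℝ) + 1 - s) ^ 2) ≤ Real.exp (-a) ^ n := by
    intro n
    apply hcmp
    have h2 : (0 : ℝ) ≤ n := Nat.cast_nonneg n
    rw [abs_of_nonneg (by push_cast; linarith)]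
    push_cast
    linarith
  have e2 : ∀ n : ℕ, Real.exp (-a * (((-((n : ℤ) + 1) : ℤ) : ℝ) + 1 - s) ^ 2) ≤
      Real.exp (-a) ^ n := by
    intro n
    apply hcmp
    have h2 : (0 : ℝ) ≤ n := Nat.cast_nonneg n
    rw [abs_of_nonpos (by push_cast; linarith)]
    push_cast
    linarith
  have s1 : Summable (fun n : ℕ => Real.exp (-a * (((n : ℤ) : ℝ) + 1 - s) ^ 2)) :=
    Summable.of_nonneg_of_le (fun n => (Real.exp_pos _).le) e1 hgeo.summable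
  have s2 : Summable (fun n : ℕ => Real.exp (-a * (((-((n : ℤ) + 1) : ℤ) : ℝ) + 1 - s) ^ 2)) :=
    Summable.of_nonneg_of_le (fun n => (Real.exp_pos _).le) e2 hgeo.summable
  have t1 : ∑' n : ℕ, Real.exp (-a * (((n : ℤ) : ℝ) + 1 - s) ^ 2) ≤ (1 - Real.exp (-a))⁻¹ := by
    rw [← hgeo.tsum_eq]
    exact s1.tsum_le_tsum e1 hgeo.summable
  have t2 : ∑' n : ℕ, Real.exp (-a * (((-((n : ℤ) + 1) : ℤ) : ℝ) + 1 - s) ^ 2) ≤
      (1 - Real.exp (-a))⁻¹ := by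
    rw [← hgeo.tsum_eq]
    exact s2.tsum_le_tsum e2 hgeo.summable
  have hs := HasSum.of_nat_of_neg_add_one
    (f := fun m : ℤ => Real.exp (-a * ((m : ℝ) + 1 - s) ^ 2)) s1.hasSum s2.hasSum
  refine ⟨hs.summable, ?_⟩
  rw [hs.tsum_eq]
  have h3 : 2 / (1 - Real.exp (-a)) = (1 - Real.exp (-a))⁻¹ + (1 - Real.exp (-a))⁻¹ := by
    ring
  rw [h3]
  exact add_le_add t1 t2

theorem gauss (a ξ : ℝ) (ha : 0 < a) :
    Summable (fun m : ℤ => Real.exp (-a * ((m : ℝ) - ξ) ^ 2)) ∧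
      ∑' m : ℤ, Real.exp (-a * ((m : ℝ) - ξ) ^ 2) ≤ 2 / (1 - Real.exp (-a)) := by
  have h := gauss_shift a (Int.fract ξ) ha (Int.fract_nonneg ξ) (Int.fract_lt_one ξ).le
  have he : (fun m : ℤ => Real.exp (-a * ((m : ℝ) + 1 - Int.fract ξ) ^ 2)) =
      (fun m : ℤ => Real.exp (-a * ((m : ℝ) - ξ) ^ 2)) ∘ (Equiv.addRight (1 + ⌊ξ⌋)) := by
    funext m
    simp only [Function.comp_apply, Equiv.coe_addRight]
    congr 3
    push_cast
    have := Int.self_sub_floor ξ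
    linarith
  rw [he] at h
  constructor
  · exact (Equiv.summable_iff _).1 h.1
  · have h2 := h.2
    have h3 := (Equiv.addRight (1 + ⌊ξ⌋)).tsum_eq (fun m : ℤ => Real.exp (-a * ((m : ℝ) - ξ) ^ 2))
    rw [← h3]
    exact h2

theorem four : 2 / (1 - Real.exp (-(Real.pi / 2))) ≤ 4 := by
  have h1 : Real.exp (-(Real.pi / 2)) ≤ 1 / 2 := by
    have h2 : Real.exp (-(Real.pi / 2)) ≤ Real.exp (-1) := by
      apply Real.exp_le_exp.mpr
      have := Real.pi_gt_three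
      linarith
    have h3 : Real.exp (-1) ≤ 1 / 2 := by
      rw [Real.exp_neg]
      have h4 : (2 : ℝ) ≤ Real.exp 1 := by
        have := Real.add_one_le_exp (1 : ℝ)
        linarith
      rw [inv_le_comm₀ (Real.exp_pos _) (by norm_num)]
      linarith
    exact h2.trans h3
  rw [div_le_iff₀ (by linarith)]
  linarith

theorem norm_cpow_half {τ : ℝ} (hτ : 0 < τ) : ‖1 / (τ : ℂ) ^ (1 / 2 : ℂ)‖ = (Real.sqrt τ)⁻¹ := by
  have h : (τ : ℂ) ^ (1 / 2 : ℂ) = ((Real.sqrt τ : ℝ) : ℂ) := by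
    rw [Real.sqrt_eq_rpow, Complex.ofReal_cpow hτ.le]
    norm_num
  rw [h, norm_div, norm_one, Complex.norm_real, Real.norm_eq_abs,
    abs_of_nonneg (Real.sqrt_nonneg _), one_div]

theorem norm_term {τ : ℝ} (hτ : 0 < τ) (l ξ : ℝ) (n : ℤ) :
    ‖Complex.exp (-Real.pi / (τ : ℂ) * ((n : ℂ) + Complex.I * (-((τ : ℂ) * l) + Complex.I * ξ)) ^ 2)‖ =
      Real.exp (Real.pi * τ * l ^ 2) * Real.exp (-(Real.pi / τ) * ((n : ℝ) - ξ) ^ 2) := by
  have hτc : (τ : ℂ) ≠ 0 := by exact_mod_cast hτ.ne'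
  have h1 : (n : ℂ) + Complex.I * (-((τ : ℂ) * l) + Complex.I * ξ) =
      ((n : ℂ) - ξ) - τ * l * Complex.I := by
    linear_combination (ξ : ℂ) * Complex.I_sq
  have h2 : -Real.pi / (τ : ℂ) * (((n : ℂ) - ξ) - τ * l * Complex.I) ^ 2 =
      ((Real.pi * τ * l ^ 2 + -(Real.pi / τ) * ((n : ℝ) - ξ) ^ 2 : ℝ) : ℂ) +
        ((2 * Real.pi * l * ((n : ℝ) - ξ) : ℝ) : ℂ) * Complex.I := by
    have h3 : (((n : ℂ) - ξ) - τ * l * Complex.I) ^ 2 =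
        ((n : ℂ) - ξ) ^ 2 - 2 * τ * l * ((n : ℂ) - ξ) * Complex.I - τ ^ 2 * l ^ 2 := by
      linear_combination ((τ : ℂ) ^ 2 * (l : ℂ) ^ 2) * Complex.I_sq
    rw [h3]
    push_cast
    field_simp
    ring
  rw [h1, h2, Complex.norm_exp, ← Real.exp_add, Complex.add_re, Complex.ofReal_re,
    Complex.re_ofReal_mul, Complex.I_re, mul_zero, add_zero]

theorem poisson {τ : ℝ} (hτ : 0 < τ) (l ξ : ℝ) :
    ‖∑' n : ℤ, Complex.exp (((-Real.pi * τ * ((n : ℝ) + l) ^ 2 : ℝ) : ℂ) +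
      2 * Real.pi * Complex.I * (((n : ℝ) * ξ : ℝ) : ℂ))‖ ≤
    (Real.sqrt τ)⁻¹ * ∑' n : ℤ, Real.exp (-(Real.pi / τ) * ((n : ℝ) - ξ) ^ 2) := by
  have h := Complex.tsum_exp_neg_quadratic (a := (τ : ℂ)) (by simpa using hτ)
    (-((τ : ℂ) * l) + Complex.I * ξ)
  have e1 : (fun n : ℤ => Complex.exp (((-Real.pi * τ * ((n : ℝ) + l) ^ 2 : ℝ) : ℂ) +
      2 * Real.pi * Complex.I * (((n : ℝ) * ξ : ℝ) : ℂ))) =
      fun n : ℤ => Complex.exp (((-Real.pi * τ * l ^ 2 : ℝ) : ℂ)) *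
        Complex.exp (-Real.pi * (τ : ℂ) * n ^ 2 +
          2 * Real.pi * (-((τ : ℂ) * l) + Complex.I * ξ) * n) := by
    funext n
    rw [← Complex.exp_add]
    congr 1
    push_cast
    ring
  have hsum : Summable (fun n : ℤ => ‖Complex.exp (-Real.pi / (τ : ℂ) *
      ((n : ℂ) + Complex.I * (-((τ : ℂ) * l) + Complex.I * ξ)) ^ 2)‖) := by
    simp_rw [norm_term hτ l ξ]
    exact (gauss (Real.pi / τ) ξ (div_pos Real.pi_pos hτ)).1.mul_left _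
  have h4 : ‖∑' n : ℤ, Complex.exp (-Real.pi / (τ : ℂ) *
      ((n : ℂ) + Complex.I * (-((τ : ℂ) * l) + Complex.I * ξ)) ^ 2)‖ ≤
      Real.exp (Real.pi * τ * l ^ 2) *
        ∑' n : ℤ, Real.exp (-(Real.pi / τ) * ((n : ℝ) - ξ) ^ 2) := by
    refine (norm_tsum_le_tsum_norm hsum).trans (le_of_eq ?_)
    simp_rw [norm_term hτ l ξ]
    exact tsum_mul_left
  have h5 : ‖Complex.exp (((-Real.pi * τ * l ^ 2 : ℝ) : ℂ))‖ = Real.exp (-Real.pi * τ * l ^ 2) := by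
    rw [Complex.norm_exp, Complex.ofReal_re]
  rw [e1, tsum_mul_left, h, norm_mul, norm_mul, norm_cpow_half hτ, h5]
  calc Real.exp (-Real.pi * τ * l ^ 2) * ((Real.sqrt τ)⁻¹ * ‖∑' n : ℤ, Complex.exp (-Real.pi / (τ : ℂ) *
      ((n : ℂ) + Complex.I * (-((τ : ℂ) * l) + Complex.I * ξ)) ^ 2)‖)
      ≤ Real.exp (-Real.pi * τ * l ^ 2) * ((Real.sqrt τ)⁻¹ * (Real.exp (Real.pi * τ * l ^ 2) *
        ∑' n : ℤ, Real.exp (-(Real.pi / τ) * ((n : ℝ) - ξ) ^ 2))) := by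
        gcongr
    _ = (Real.exp (-Real.pi * τ * l ^ 2) * Real.exp (Real.pi * τ * l ^ 2)) *
        ((Real.sqrt τ)⁻¹ * ∑' n : ℤ, Real.exp (-(Real.pi / τ) * ((n : ℝ) - ξ) ^ 2)) := by ring
    _ = (Real.sqrt τ)⁻¹ * ∑' n : ℤ, Real.exp (-(Real.pi / τ) * ((n : ℝ) - ξ) ^ 2) := by
        rw [← Real.exp_add]
        have : -Real.pi * τ * l ^ 2 + Real.pi * τ * l ^ 2 = 0 := by ring
        rw [this, Real.exp_zero, one_mul]

theorem theta_le {τ : ℝ} (hτ : 0 < τ) (hτ1 : τ ≤ 1) (ξ : ℝ) :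
    ∑' n : ℤ, Real.exp (-(Real.pi / τ) * ((n : ℝ) - ξ) ^ 2) ≤
      4 * Real.exp (-(Real.pi / 2) * (1 / τ) * |ξ - round ξ| ^ 2) := by
  have hg := gauss (Real.pi / 2) ξ (by positivity)
  have hterm : ∀ n : ℤ, Real.exp (-(Real.pi / τ) * ((n : ℝ) - ξ) ^ 2) ≤
      Real.exp (-(Real.pi / 2) * (1 / τ) * |ξ - round ξ| ^ 2) *
        Real.exp (-(Real.pi / 2) * ((n : ℝ) - ξ) ^ 2) := by
    intro n
    rw [← Real.exp_add]
    apply Real.exp_le_exp.mpr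
    have h1 : |ξ - round ξ| ^ 2 ≤ ((n : ℝ) - ξ) ^ 2 := by
      have h2 : |ξ - round ξ| ≤ |ξ - n| := round_le ξ n
      have h3 : ((n : ℝ) - ξ) ^ 2 = |ξ - n| ^ 2 := by
        rw [sq_abs]
        ring
      rw [h3]
      exact pow_le_pow_left₀ (abs_nonneg _) h2 2
    have h4 : 1 ≤ 1 / τ := by
      rw [le_div_iff₀ hτ]
      linarith
    have h5 : 0 ≤ ((n : ℝ) - ξ) ^ 2 := sq_nonneg _
    have h6 : Real.pi / τ = Real.pi * (1 / τ) := by ring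
    have h7 : (1 / τ) * |ξ - round ξ| ^ 2 ≤ (1 / τ) * ((n : ℝ) - ξ) ^ 2 :=
      mul_le_mul_of_nonneg_left h1 (by linarith)
    have h8 : 1 * ((n : ℝ) - ξ) ^ 2 ≤ (1 / τ) * ((n : ℝ) - ξ) ^ 2 :=
      mul_le_mul_of_nonneg_right h4 h5
    rw [h6]
    have hpi := Real.pi_pos
    have h9 : (Real.pi / 2) * ((1 / τ) * |ξ - round ξ| ^ 2 + 1 * ((n : ℝ) - ξ) ^ 2) ≤
        (Real.pi / 2) * ((1 / τ) * ((n : ℝ) - ξ) ^ 2 + (1 / τ) * ((n : ℝ) - ξ) ^ 2) :=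
      mul_le_mul_of_nonneg_left (add_le_add h7 h8) (by positivity)
    linarith
  calc ∑' n : ℤ, Real.exp (-(Real.pi / τ) * ((n : ℝ) - ξ) ^ 2)
      ≤ ∑' n : ℤ, Real.exp (-(Real.pi / 2) * (1 / τ) * |ξ - round ξ| ^ 2) *
        Real.exp (-(Real.pi / 2) * ((n : ℝ) - ξ) ^ 2) :=
        (gauss (Real.pi / τ) ξ (div_pos Real.pi_pos hτ)).1.tsum_le_tsum hterm (hg.1.mul_left _)
    _ = Real.exp (-(Real.pi / 2) * (1 / τ) * |ξ - round ξ| ^ 2) *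
        ∑' n : ℤ, Real.exp (-(Real.pi / 2) * ((n : ℝ) - ξ) ^ 2) := tsum_mul_left
    _ ≤ Real.exp (-(Real.pi / 2) * (1 / τ) * |ξ - round ξ| ^ 2) * 4 :=
        mul_le_mul_of_nonneg_left (hg.2.trans four) (Real.exp_pos _).le
    _ = _ := mul_comm _ _

end VG1

open VG1 in
theorem pvG1 : SvG1 := by
  intro A P l hA hAP
  have hP : 0 < P := lt_of_lt_of_le hA hAP
  have hτ : 0 < A / P := div_pos hA hP
  have hτ1 : A / P ≤ 1 := by
    rw [div_le_one hP]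
    exact hAP
  have e0 : ∀ n : ℤ, -Real.pi * A * ((n : ℝ) + l) ^ 2 / P =
      -Real.pi * (A / P) * ((n : ℝ) + l) ^ 2 := fun n => by ring
  have hsum : Summable (fun n : ℤ => Real.exp (-Real.pi * A * ((n : ℝ) + l) ^ 2 / P)) := by
    have h := (gauss (Real.pi * (A / P)) (-l) (mul_pos Real.pi_pos hτ)).1
    refine h.congr fun n => ?_
    congr 1
    ring
  have hmain : ∀ ξ : ℝ, ‖∑' n : ℤ, Complex.exp (((-Real.pi * A * ((n : ℝ) + l) ^ 2 / P : ℝ) : ℂ) +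
      2 * Real.pi * Complex.I * (((n : ℝ) * ξ : ℝ) : ℂ))‖ ≤
      4 * Real.sqrt (P / A) * Real.exp (-(Real.pi / 2) * (P / A) * dn ξ ^ 2) := by
    intro ξ
    simp_rw [e0]
    refine (poisson hτ l ξ).trans ?_
    have h1 : (Real.sqrt (A / P))⁻¹ = Real.sqrt (P / A) := by
      rw [← Real.sqrt_inv, inv_div]
    have h2 : 1 / (A / P) = P / A := one_div_div A P
    have h3 := theta_le hτ hτ1 ξ
    rw [h2] at h3
    rw [h1]
    calc Real.sqrt (P / A) * ∑' n : ℤ, Real.exp (-(Real.pi / (A / P)) * ((n : ℝ) - ξ) ^ 2)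
        ≤ Real.sqrt (P / A) *
          (4 * Real.exp (-(Real.pi / 2) * (P / A) * |ξ - round ξ| ^ 2)) :=
          mul_le_mul_of_nonneg_left h3 (Real.sqrt_nonneg _)
      _ = _ := by
        rw [dn]
        ring
  refine ⟨hsum, hmain, ?_⟩
  have h := hmain 0
  have h1 : dn 0 = 0 := by simp [dn]
  rw [h1] at h
  have h2 : (fun n : ℤ => Complex.exp (((-Real.pi * A * ((n : ℝ) + l) ^ 2 / P : ℝ) : ℂ) +
      2 * Real.pi * Complex.I * (((n : ℝ) * (0 : ℝ) : ℝ) : ℂ))) =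
      fun n : ℤ => ((Real.exp (-Real.pi * A * ((n : ℝ) + l) ^ 2 / P) : ℝ) : ℂ) := by
    funext n
    rw [mul_zero, Complex.ofReal_zero, mul_zero, add_zero, Complex.ofReal_exp]
  rw [h2, ← Complex.ofReal_tsum, Complex.norm_real, Real.norm_eq_abs,
    abs_of_nonneg (tsum_nonneg fun n => (Real.exp_pos _).le)] at h
  simpa using h

end HQ
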