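import Pool.Agent.Work.MP_d2a4bb_nt.QV.Stmts

/-!
# HP: Hecke points equidistribute on average
-/

open UpperHalfPlane MeasureTheory Matrix
open scoped MatrixGroups Manifold Topology ComplexConjugate

namespace HQ
namespace VHP

lemma bdd (Q : QuatOrder) (ψ : ℍ → ℝ) (h : Test Q.Γ ψ) : ∃ B : ℝ, 0 ≤ B ∧ ∀ z, |ψ z| ≤ B := by
  obtain ⟨K, hK, hc⟩ := prCOC Q
  obtain ⟨B, hB⟩ := hK.exists_bound_of_continuousOn h.1.continuousOn
  refine ⟨max B 0, le_max_right _ _, fun z => ?_⟩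
  obtain ⟨γ, hγ, hz⟩ := hc z
  rw [← h.2 γ hγ z]
  exact (hB _ hz).trans (le_max_left _ _)

/-- Duality. -/
lemma dual {α : Type*} [MeasurableSpace α] (μ : Measure α) (T : Finset ℕ) (F : ℕ → α → ℝ) (g : α → ℝ) (M : ℝ) (hM : 0 ≤ M)
    (hF : ∀ p ∈ T, Integrable (F p) μ) (hg : Integrable g μ) (hg0 : ∀ x, 0 ≤ g x)
    (hb : ∀ x, ∑ p ∈ T, (F p x) ^ 2 ≤ (g x) ^ 2 * M) :
    ∑ p ∈ T, (∫ x, F p x ∂μ) ^ 2 ≤ (∫ x, g x ∂μ) ^ 2 * M := by
  set X : ℕ → ℝ := fun p => ∫ x, F p x ∂μ with hX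
  set S : ℝ := ∑ p ∈ T, (X p) ^ 2 with hS
  have hS0 : 0 ≤ S := Finset.sum_nonneg fun p _ => sq_nonneg _
  have hG0 : 0 ≤ ∫ x, g x ∂μ := integral_nonneg hg0
  have h1 : S = ∫ x, ∑ p ∈ T, X p * F p x ∂μ := by
    rw [integral_finsetSum _ (fun p hp => (hF p hp).const_mul _)]
    refine Finset.sum_congr rfl fun p _ => ?_
    rw [integral_const_mul, sq]
  have h2 : ∀ x, ∑ p ∈ T, X p * F p x ≤ Real.sqrt S * Real.sqrt M * g x := by
    intro x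
    have h3 : (∑ p ∈ T, X p * F p x) ^ 2 ≤ (Real.sqrt S * Real.sqrt M * g x) ^ 2 := by
      calc (∑ p ∈ T, X p * F p x) ^ 2 ≤ (∑ p ∈ T, X p ^ 2) * (∑ p ∈ T, F p x ^ 2) := Finset.sum_mul_sq_le_sq_mul_sq _ _ _
        _ ≤ S * ((g x) ^ 2 * M) := mul_le_mul_of_nonneg_left (hb x) hS0
        _ = (Real.sqrt S * Real.sqrt M * g x) ^ 2 := by
          rw [mul_pow, mul_pow, Real.sq_sqrt hS0, Real.sq_sqrt hM]; ring
    exact (abs_le_of_sq_le_sq' h3 (mul_nonneg (mul_nonneg (Real.sqrt_nonneg _) (Real.sqrt_nonneg _)) (hg0 x))).2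
  have h4 : S ≤ Real.sqrt S * Real.sqrt M * ∫ x, g x ∂μ := by
    calc S = ∫ x, ∑ p ∈ T, X p * F p x ∂μ := h1
      _ ≤ ∫ x, Real.sqrt S * Real.sqrt M * g x ∂μ :=
        integral_mono (integrable_finsetSum _ (fun p hp => (hF p hp).const_mul _)) (hg.const_mul _) h2
      _ = _ := by rw [integral_const_mul]
  rcases hS0.eq_or_lt with h0 | h0
  · rw [← h0]; positivity
  · have hs : 0 < Real.sqrt S := Real.sqrt_pos.2 h0
    have h5 : Real.sqrt S ≤ Real.sqrt M * ∫ x, g x ∂μ := by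
      have h6 : Real.sqrt S * Real.sqrt S ≤ Real.sqrt S * (Real.sqrt M * ∫ x, g x ∂μ) := by
        rw [Real.mul_self_sqrt hS0, ← mul_assoc]; exact h4
      exact le_of_mul_le_mul_left h6 hs
    calc S = Real.sqrt S ^ 2 := (Real.sq_sqrt hS0).symm
      _ ≤ (Real.sqrt M * ∫ x, g x ∂μ) ^ 2 := pow_le_pow_left₀ hs.le h5 2
      _ = (∫ x, g x ∂μ) ^ 2 * M := by rw [mul_pow, Real.sq_sqrt hM]; ring

/-- The smoothing error at one point. -/
lemma smooth (ψ : ℍ → ℝ) (L B s I C : ℝ) (hψ : Continuous ψ) (hB : ∀ z, |ψ z| ≤ B) (hL : ∀ z w : ℍ, |ψ z - ψ w| ≤ L * dist z w)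
    (hL0 : 0 ≤ L) (u : ℍ)
    (h1 : Integrable (fun w : ℍ => Real.exp (-s * (Real.cosh (dist u w) - 1))) volume)
    (h2 : ∫ w : ℍ, Real.exp (-s * (Real.cosh (dist u w) - 1)) = I)
    (h3 : Integrable (fun w : ℍ => dist u w * Real.exp (-s * (Real.cosh (dist u w) - 1))) volume)
    (h4 : ∫ w : ℍ, dist u w * Real.exp (-s * (Real.cosh (dist u w) - 1)) ≤ C * s ^ (-3 / 2 : ℝ)) :
    |ψ u * I - ∫ w : ℍ, ψ w * Real.exp (-s * (Real.cosh (dist u w) - 1))| ≤ L * (C * s ^ (-3 / 2 : ℝ)) := by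
  have h5 : Integrable (fun w : ℍ => ψ w * Real.exp (-s * (Real.cosh (dist u w) - 1))) volume :=
    h1.bdd_mul (c := B) hψ.aestronglyMeasurable (Filter.Eventually.of_forall fun w => by
      rw [Real.norm_eq_abs]; exact hB w)
  rw [← h2, ← integral_const_mul, ← integral_sub (h1.const_mul _) h5]
  refine (abs_integral_le_integral_abs).trans ?_
  calc ∫ w : ℍ, |ψ u * Real.exp (-s * (Real.cosh (dist u w) - 1)) - ψ w * Real.exp (-s * (Real.cosh (dist u w) - 1))|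
      ≤ ∫ w : ℍ, L * (dist u w * Real.exp (-s * (Real.cosh (dist u w) - 1))) := by
        refine integral_mono ((h1.const_mul _).sub h5).abs (h3.const_mul _) fun w => ?_
        show |ψ u * Real.exp (-s * (Real.cosh (dist u w) - 1)) - ψ w * Real.exp (-s * (Real.cosh (dist u w) - 1))| ≤ L * (dist u w * Real.exp (-s * (Real.cosh (dist u w) - 1)))
        rw [← sub_mul, abs_mul, abs_of_pos (Real.exp_pos _), ← mul_assoc]
        exact mul_le_mul_of_nonneg_right (hL u w) (Real.exp_pos _).le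
    _ = L * ∫ w : ℍ, dist u w * Real.exp (-s * (Real.cosh (dist u w) - 1)) := by rw [integral_const_mul]
    _ ≤ L * (C * s ^ (-3 / 2 : ℝ)) := mul_le_mul_of_nonneg_left h4 hL0

/-- The value of the Hecke operator at one point and one prime. -/
lemma one (Q : QuatOrder) (W : Weight Q.Γ) (hEQ : SvEQ) (hUF : SvUF) (ψ : ℍ → ℝ) (L B c C : ℝ) (I : ℝ → ℝ) (hψ : Test Q.Γ ψ) (hB : ∀ z, |ψ z| ≤ B)
    (hL : ∀ z w : ℍ, |ψ z - ψ w| ≤ L * dist z w) (hL0 : 0 ≤ L) (h0 : ∫ z : ℍ, W.w z * ψ z = 0) (hc : 0 < c)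
    (hI : ∀ s : ℝ, 1 ≤ s → c / s ≤ I s ∧ I s ≤ C / s ∧ ∀ u : ℍ, Integrable (fun w : ℍ => Real.exp (-s * (Real.cosh (dist u w) - 1))) volume ∧
      ∫ w : ℍ, Real.exp (-s * (Real.cosh (dist u w) - 1)) = I s ∧ Integrable (fun w : ℍ => dist u w * Real.exp (-s * (Real.cosh (dist u w) - 1))) volume ∧
      ∫ w : ℍ, dist u w * Real.exp (-s * (Real.cosh (dist u w) - 1)) ≤ C * s ^ (-3 / 2 : ℝ))
    (P p : ℕ) (hP : 1 ≤ P) (hp : P < p) (hp3 : p ≤ 3 * P) (R : Finset SL(2, ℝ)) (hR : HeckR Q p R) (lam : ℝ) (hlam : 1 ≤ lam) (z w₀ : ℍ) :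
    Integrable (fun w : ℍ => W.w w * (ψ w * (rr Q lam P z w (p : ℤ) - rr Q lam P z w₀ (p : ℤ)))) volume ∧
    (Tf R ψ z) ^ 2 ≤ 72 * Real.pi ^ 2 * Real.exp (12 * Real.pi) / c ^ 2 * lam ^ 2 * (∫ w : ℍ, W.w w * (ψ w * (rr Q lam P z w (p : ℤ) - rr Q lam P z w₀ (p : ℤ)))) ^ 2 +
      16 * L ^ 2 * C ^ 2 / c ^ 2 * (P : ℝ) ^ 2 / lam := by
  have hP0 : (0 : ℝ) < P := by exact_mod_cast hP
  have hpR : (P : ℝ) < p := by exact_mod_cast hp
  have hp3R : (p : ℝ) ≤ 3 * P := by exact_mod_cast hp3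
  have hp0 : 0 < p := by omega
  have hp0R : (0 : ℝ) < p := by exact_mod_cast hp0
  have hpi := Real.pi_gt_three
  set s : ℝ := 2 * Real.pi * lam * p / P with hs
  have hs1 : 2 * Real.pi * lam ≤ s := by
    rw [hs, le_div_iff₀ hP0]
    exact mul_le_mul_of_nonneg_left hpR.le (by positivity)
  have hs2 : s ≤ 6 * Real.pi * lam := by
    rw [hs, div_le_iff₀ hP0]
    calc 2 * Real.pi * lam * p ≤ 2 * Real.pi * lam * (3 * P) := mul_le_mul_of_nonneg_left hp3R (by positivity)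
      _ = _ := by ring
  have hs3 : 6 * lam ≤ s := by nlinarith
  have hs4 : 1 ≤ s := by linarith
  have hs0 : 0 < s := by linarith
  obtain ⟨hIl, hIu, hk⟩ := hI s hs4
  -- the kernel sums
  have hrr : ∀ w : ℍ, rr Q lam P z w (p : ℤ) = Real.exp (-2 * Real.pi * p / P) *
      ∑' g : Q.E p, Real.exp (-s * (Real.cosh (dist ((g : SL(2, ℝ)) • z) w) - 1)) := fun w => hEQ Q p hp0 lam P z w
  set e : ℝ := Real.exp (2 * Real.pi * p / P) with he
  have hee : e * Real.exp (-2 * Real.pi * p / P) = 1 := by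
    rw [he, ← Real.exp_add, show 2 * Real.pi * (p : ℝ) / P + -2 * Real.pi * p / P = 0 by ring, Real.exp_zero]
  have hrr' : ∀ w : ℍ, ∑' g : Q.E p, Real.exp (-s * (Real.cosh (dist ((g : SL(2, ℝ)) • z) w) - 1)) = e * rr Q lam P z w (p : ℤ) := by
    intro w
    rw [hrr w, ← mul_assoc, hee, one_mul]
  have he0 : 0 < e := Real.exp_pos _
  have he1 : e ^ 2 ≤ Real.exp (12 * Real.pi) := by
    rw [he, ← Real.exp_nat_mul]
    apply Real.exp_le_exp.2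
    have : 2 * Real.pi * (p : ℝ) / P ≤ 6 * Real.pi := by
      rw [div_le_iff₀ hP0]
      calc 2 * Real.pi * (p : ℝ) ≤ 2 * Real.pi * (3 * P) := mul_le_mul_of_nonneg_left hp3R (by positivity)
        _ = _ := by ring
    push_cast
    linarith
  obtain ⟨hint, hsum⟩ := hUF Q W p R hR.reps ψ B s hψ hB hs4 z
  have hint2 : Integrable (fun w : ℍ => W.w w * (ψ w * rr Q lam P z w (p : ℤ))) volume := by
    have h1 := hint.const_mul (Real.exp (-2 * Real.pi * p / P))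
    refine h1.congr (Filter.Eventually.of_forall fun w => ?_)
    show Real.exp (-2 * Real.pi * p / P) * (W.w w * (ψ w * ∑' g : Q.E p, Real.exp (-s * (Real.cosh (dist ((g : SL(2, ℝ)) • z) w) - 1)))) = W.w w * (ψ w * rr Q lam P z w (p : ℤ))
    rw [hrr w]; ring
  have hWψ : Integrable (fun w : ℍ => W.w w * ψ w) volume :=
    (W.cont.mul hψ.1).integrable_of_hasCompactSupport W.supp.mul_right
  have hint3 : Integrable (fun w : ℍ => W.w w * (ψ w * (rr Q lam P z w (p : ℤ) - rr Q lam P z w₀ (p : ℤ)))) volume := by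
    refine (hint2.sub (hWψ.const_mul (rr Q lam P z w₀ (p : ℤ)))).congr (Filter.Eventually.of_forall fun w => ?_)
    show W.w w * (ψ w * rr Q lam P z w (p : ℤ)) - rr Q lam P z w₀ (p : ℤ) * (W.w w * ψ w) = W.w w * (ψ w * (rr Q lam P z w (p : ℤ) - rr Q lam P z w₀ (p : ℤ)))
    ring
  refine ⟨hint3, ?_⟩
  set x : ℝ := ∫ w : ℍ, W.w w * (ψ w * (rr Q lam P z w (p : ℤ) - rr Q lam P z w₀ (p : ℤ))) with hx
  have hx1 : x = ∫ w : ℍ, W.w w * (ψ w * rr Q lam P z w (p : ℤ)) := by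
    have h1 : x = ∫ w : ℍ, (W.w w * (ψ w * rr Q lam P z w (p : ℤ)) - rr Q lam P z w₀ (p : ℤ) * (W.w w * ψ w)) := by
      rw [hx]; congr 1; funext w; ring
    rw [h1, integral_sub hint2 (hWψ.const_mul _), integral_const_mul, h0, mul_zero, sub_zero]
  have hX : ∑ β ∈ R, ∫ w : ℍ, ψ w * Real.exp (-s * (Real.cosh (dist (β • z) w) - 1)) = e * x := by
    rw [hsum, hx1, ← integral_const_mul]
    congr 1; funext w
    rw [hrr' w]; ring
  -- smoothing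
  have hsm : |Tf R ψ z * I s - e * x| ≤ (p + 1) * (L * (C * s ^ (-3 / 2 : ℝ))) := by
    rw [← hX, Tf, Finset.sum_mul, ← Finset.sum_sub_distrib]
    refine (Finset.abs_sum_le_sum_abs _ _).trans ?_
    refine (Finset.sum_le_card_nsmul _ _ (L * (C * s ^ (-3 / 2 : ℝ))) fun β _ => ?_).trans ?_
    · obtain ⟨k1, k2, k3, k4⟩ := hk (β • z)
      exact smooth ψ L B s (I s) C hψ.1 hB hL hL0 (β • z) k1 k2 k3 k4
    · rw [hR.card, nsmul_eq_mul]; push_cast; exact le_rfl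
  have hIpos : 0 < I s := lt_of_lt_of_le (by positivity) hIl
  have hC0 : 0 ≤ C := by
    have : 0 < C / s := lt_of_lt_of_le hIpos hIu
    have h7 := mul_pos this hs0
    rw [div_mul_cancel₀ _ hs0.ne'] at h7
    exact h7.le
  have hT1 : |Tf R ψ z| * I s ≤ e * |x| + (p + 1) * (L * (C * s ^ (-3 / 2 : ℝ))) := by
    calc |Tf R ψ z| * I s = |Tf R ψ z * I s| := by rw [abs_mul, abs_of_pos hIpos]
      _ = |(Tf R ψ z * I s - e * x) + e * x| := by rw [sub_add_cancel]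
      _ ≤ |Tf R ψ z * I s - e * x| + |e * x| := abs_add_le _ _
      _ ≤ (p + 1) * (L * (C * s ^ (-3 / 2 : ℝ))) + e * |x| := by
        rw [abs_mul e x, abs_of_pos he0]; exact add_le_add hsm le_rfl
      _ = _ := by ring
  have hT2 : |Tf R ψ z| ≤ s / c * (e * |x| + (p + 1) * (L * (C * s ^ (-3 / 2 : ℝ)))) := by
    have h8 : |Tf R ψ z| * (c / s) ≤ e * |x| + (p + 1) * (L * (C * s ^ (-3 / 2 : ℝ))) :=
      (mul_le_mul_of_nonneg_left hIl (abs_nonneg _)).trans hT1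
    calc |Tf R ψ z| = s / c * (|Tf R ψ z| * (c / s)) := by field_simp
      _ ≤ _ := mul_le_mul_of_nonneg_left h8 (by positivity)
  set A1 : ℝ := s / c * (e * |x|) with hA1
  set A2 : ℝ := s / c * ((p + 1) * (L * (C * s ^ (-3 / 2 : ℝ)))) with hA2
  have hT3 : (Tf R ψ z) ^ 2 ≤ 2 * A1 ^ 2 + 2 * A2 ^ 2 := by
    have h9 : |Tf R ψ z| ≤ A1 + A2 := by rw [hA1, hA2, ← mul_add]; exact hT2
    have h10 : (Tf R ψ z) ^ 2 ≤ (A1 + A2) ^ 2 := by
      rw [← sq_abs]; exact pow_le_pow_left₀ (abs_nonneg _) h9 2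
    nlinarith [sq_nonneg (A1 - A2)]
  have hA1b : 2 * A1 ^ 2 ≤ 72 * Real.pi ^ 2 * Real.exp (12 * Real.pi) / c ^ 2 * lam ^ 2 * x ^ 2 := by
    have h11 : A1 ^ 2 = s ^ 2 * e ^ 2 * x ^ 2 / c ^ 2 := by
      rw [hA1, mul_pow, mul_pow, div_pow, sq_abs]; ring
    have h12 : s ^ 2 ≤ (6 * Real.pi * lam) ^ 2 := pow_le_pow_left₀ hs0.le hs2 2
    have h13 : s ^ 2 * e ^ 2 ≤ (6 * Real.pi * lam) ^ 2 * Real.exp (12 * Real.pi) := mul_le_mul h12 he1 (sq_nonneg _) (sq_nonneg _)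
    rw [h11]
    calc 2 * (s ^ 2 * e ^ 2 * x ^ 2 / c ^ 2) = (s ^ 2 * e ^ 2) * (2 * x ^ 2 / c ^ 2) := by ring
      _ ≤ ((6 * Real.pi * lam) ^ 2 * Real.exp (12 * Real.pi)) * (2 * x ^ 2 / c ^ 2) := mul_le_mul_of_nonneg_right h13 (by positivity)
      _ = _ := by ring
  have hA2b : 2 * A2 ^ 2 ≤ 16 * L ^ 2 * C ^ 2 / c ^ 2 * (P : ℝ) ^ 2 / lam := by
    have h14 : (s ^ (-3 / 2 : ℝ)) ^ 2 = 1 / s ^ 3 := by
      rw [← Real.rpow_natCast (s ^ (-3 / 2 : ℝ)) 2, ← Real.rpow_mul hs0.le, show (-3 / 2 : ℝ) * ((2 : ℕ) : ℝ) = -((3 : ℕ) : ℝ) by norm_num,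
        Real.rpow_neg hs0.le, Real.rpow_natCast, one_div]
    have h15 : A2 ^ 2 = (p + 1) ^ 2 * (L ^ 2 * C ^ 2 / c ^ 2) * (1 / s) := by
      rw [hA2]
      have : (s / c * ((p + 1) * (L * (C * s ^ (-3 / 2 : ℝ))))) ^ 2 = (s ^ 2 / c ^ 2) * ((p + 1) ^ 2 * (L ^ 2 * C ^ 2) * (s ^ (-3 / 2 : ℝ)) ^ 2) := by ring
      rw [this, h14]
      field_simp
    have h16 : ((p : ℝ) + 1) ^ 2 ≤ (4 * P) ^ 2 := by
      have hP1 : (1 : ℝ) ≤ P := by exact_mod_cast hP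
      exact pow_le_pow_left₀ (by positivity) (by linarith) 2
    have h17 : 1 / s ≤ 1 / (6 * lam) := one_div_le_one_div_of_le (by positivity) hs3
    have h18 : A2 ^ 2 ≤ (4 * P) ^ 2 * (L ^ 2 * C ^ 2 / c ^ 2) * (1 / (6 * lam)) := by
      rw [h15]
      exact mul_le_mul (mul_le_mul_of_nonneg_right h16 (by positivity)) h17 (by positivity) (by positivity)
    calc 2 * A2 ^ 2 ≤ 2 * ((4 * P) ^ 2 * (L ^ 2 * C ^ 2 / c ^ 2) * (1 / (6 * lam))) := by linarith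
      _ = (16 / 3) * L ^ 2 * C ^ 2 / c ^ 2 * (P : ℝ) ^ 2 / lam := by field_simp; ring
      _ ≤ 16 * L ^ 2 * C ^ 2 / c ^ 2 * (P : ℝ) ^ 2 / lam := by
        have h19 : 0 ≤ L ^ 2 * C ^ 2 / c ^ 2 * (P : ℝ) ^ 2 / lam := by positivity
        have e1 : (16 / 3) * L ^ 2 * C ^ 2 / c ^ 2 * (P : ℝ) ^ 2 / lam = (16 / 3) * (L ^ 2 * C ^ 2 / c ^ 2 * (P : ℝ) ^ 2 / lam) := by ring
        have e2 : 16 * L ^ 2 * C ^ 2 / c ^ 2 * (P : ℝ) ^ 2 / lam = 16 * (L ^ 2 * C ^ 2 / c ^ 2 * (P : ℝ) ^ 2 / lam) := by ring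
        rw [e1, e2]; linarith
  linarith

lemma card_le (P : ℕ) (T : Finset ℕ) (h : ∀ p ∈ T, P < p ∧ p ≤ 3 * P) : (T.card : ℝ) ≤ 2 * P := by
  have h1 : T ⊆ Finset.Ioc P (3 * P) := fun p hp => Finset.mem_Ioc.2 (h p hp)
  have h2 := Finset.card_le_card h1
  rw [Nat.card_Ioc] at h2
  have h3 : T.card ≤ 2 * P := by omega
  exact_mod_cast h3

end VHP

theorem pvHP (hSM : SvSM) (hEQ : SvEQ) (hCS : SvCS) (hUF : SvUF) : SvHP := by
  intro Q W ψ L hψ hL h0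
  obtain ⟨B, hB0, hB⟩ := VHP.bdd Q ψ hψ
  obtain ⟨K₀, hK₀, hcov⟩ := prCOC Q
  set K : Set ℍ := K₀ ∪ tsupport W.w with hK
  have hKc : IsCompact K := hK₀.union W.supp
  obtain ⟨C₁, C₀, hC₁, hC₀, hsm⟩ := hSM Q K hKc
  obtain ⟨I, c, C, hc, hC, hI⟩ := hCS
  set L' : ℝ := max L 0 with hL'
  have hL2 : ∀ z w : ℍ, |ψ z - ψ w| ≤ L' * dist z w := fun z w =>
    (hL z w).trans (mul_le_mul_of_nonneg_right (le_max_left _ _) dist_nonneg)
  have hL0 : 0 ≤ L' := le_max_right _ _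
  set G : ℝ := ∫ w : ℍ, B * W.w w with hG
  set D1 : ℝ := 72 * Real.pi ^ 2 * Real.exp (12 * Real.pi) / c ^ 2 * (G ^ 2 * C₁) with hD1
  set D2 : ℝ := 32 * L' ^ 2 * C ^ 2 / c ^ 2 with hD2
  set D3 : ℝ := 32 * B ^ 2 * C₀ with hD3
  have hD1p : 0 ≤ D1 := by positivity
  have hD2p : 0 ≤ D2 := by positivity
  have hD3p : 0 ≤ D3 := by positivity
  refine ⟨D1 + D2 + D3 + 1, by positivity, ?_⟩
  intro P T R hP hT z
  have hP0 : (0 : ℝ) < P := by exact_mod_cast hP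
  have hP1 : (1 : ℝ) ≤ P := by exact_mod_cast hP
  -- move `z` into `K`
  obtain ⟨γ, hγ, hzK⟩ := hcov z
  have hinv : ∀ p ∈ T, Tf (R p) ψ z = Tf (R p) ψ (γ • z) := fun p hp => (((hT p hp).2.2.test ψ hψ).2 γ hγ z).symm
  rw [Finset.sum_congr rfl fun p hp => by rw [hinv p hp]]
  set z' : ℍ := γ • z with hz'
  have hz'K : z' ∈ K := Or.inl hzK
  have hcard := VHP.card_le P T (fun p hp => ⟨(hT p hp).1, (hT p hp).2.1⟩)
  set lam : ℝ := (P : ℝ) ^ (1 / 35 : ℝ) with hlam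
  have hlam1 : 1 ≤ lam := Real.one_le_rpow hP1 (by norm_num)
  have hlam0 : 0 < lam := by linarith
  set E : ℝ := (P : ℝ) ^ (3 - 1 / 35 : ℝ) with hE
  have hE0 : 0 < E := Real.rpow_pos_of_pos hP0 _
  have hE1 : E * lam = (P : ℝ) ^ 3 := by
    rw [hE, hlam, ← Real.rpow_add hP0, show (3 - 1 / 35 + 1 / 35 : ℝ) = ((3 : ℕ) : ℝ) by norm_num, Real.rpow_natCast]
  by_cases hcase : C₀ * lam ≤ P
  · -- the main case
    set M : ℝ := C₁ * lam ^ 4 * (P : ℝ) ^ (14 / 5 : ℝ) with hM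
    have hM0 : 0 ≤ M := by positivity
    have hone := fun p (hp : p ∈ T) => VHP.one Q W hEQ hUF ψ L' B c C I hψ hB hL2 hL0 h0 hc hI P p hP (hT p hp).1 (hT p hp).2.1 (R p) (hT p hp).2.2 lam hlam1 z' z'
    have hdual := VHP.dual volume T (fun p w => W.w w * (ψ w * (rr Q lam P z' w (p : ℤ) - rr Q lam P z' z' (p : ℤ)))) (fun w => B * W.w w) M hM0
      (fun p hp => (hone p hp).1) ((W.cont.integrable_of_hasCompactSupport W.supp).const_mul B) (fun w => mul_nonneg hB0 (W.nonneg w)) (by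
        intro w
        by_cases hw : W.w w = 0
        · simp [hw]
        · have hwK : w ∈ K := Or.inr (subset_tsupport _ hw)
          have h1 : ∑ p ∈ T, (rr Q lam P z' w (p : ℤ) - rr Q lam P z' z' (p : ℤ)) ^ 2 ≤ M := by
            have h2 := hsm lam P hlam1 hcase z' hz'K w hwK z' hz'K z' hz'K (T.map Nat.castEmbedding)
            rw [Finset.sum_map] at h2
            exact h2
          calc ∑ p ∈ T, (W.w w * (ψ w * (rr Q lam P z' w (p : ℤ) - rr Q lam P z' z' (p : ℤ)))) ^ 2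
              = (W.w w * ψ w) ^ 2 * ∑ p ∈ T, (rr Q lam P z' w (p : ℤ) - rr Q lam P z' z' (p : ℤ)) ^ 2 := by
                rw [Finset.mul_sum]; exact Finset.sum_congr rfl fun p _ => by ring
            _ ≤ (B * W.w w) ^ 2 * M := by
                refine mul_le_mul ?_ h1 (Finset.sum_nonneg fun p _ => sq_nonneg _) (sq_nonneg _)
                rw [mul_pow, mul_pow, mul_comm (B ^ 2)]
                refine mul_le_mul_of_nonneg_left ?_ (sq_nonneg _)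
                rw [← sq_abs]
                exact pow_le_pow_left₀ (abs_nonneg _) (hB w) 2)
    have h3 : ∑ p ∈ T, (Tf (R p) ψ z') ^ 2 ≤ 72 * Real.pi ^ 2 * Real.exp (12 * Real.pi) / c ^ 2 * lam ^ 2 * (G ^ 2 * M) +
        (T.card : ℝ) * (16 * L' ^ 2 * C ^ 2 / c ^ 2 * (P : ℝ) ^ 2 / lam) := by
      calc ∑ p ∈ T, (Tf (R p) ψ z') ^ 2 ≤ ∑ p ∈ T, (72 * Real.pi ^ 2 * Real.exp (12 * Real.pi) / c ^ 2 * lam ^ 2 *
              (∫ w : ℍ, W.w w * (ψ w * (rr Q lam P z' w (p : ℤ) - rr Q lam P z' z' (p : ℤ)))) ^ 2 +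
            16 * L' ^ 2 * C ^ 2 / c ^ 2 * (P : ℝ) ^ 2 / lam) := Finset.sum_le_sum fun p hp => (hone p hp).2
        _ = 72 * Real.pi ^ 2 * Real.exp (12 * Real.pi) / c ^ 2 * lam ^ 2 *
              (∑ p ∈ T, (∫ w : ℍ, W.w w * (ψ w * (rr Q lam P z' w (p : ℤ) - rr Q lam P z' z' (p : ℤ)))) ^ 2) +
            (T.card : ℝ) * (16 * L' ^ 2 * C ^ 2 / c ^ 2 * (P : ℝ) ^ 2 / lam) := by
              rw [Finset.sum_add_distrib, Finset.mul_sum, Finset.sum_const, nsmul_eq_mul]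
        _ ≤ _ := by
              refine add_le_add (mul_le_mul_of_nonneg_left ?_ (by positivity)) le_rfl
              exact hdual
    have h4 : lam ^ 2 * (G ^ 2 * M) = G ^ 2 * C₁ * E := by
      have h5 : lam ^ 6 * (P : ℝ) ^ (14 / 5 : ℝ) = E := by
        rw [hE, hlam, ← Real.rpow_natCast ((P : ℝ) ^ (1 / 35 : ℝ)) 6, ← Real.rpow_mul hP0.le, ← Real.rpow_add hP0]
        congr 1; norm_num
      rw [hM, ← h5]; ring
    have h6 : 72 * Real.pi ^ 2 * Real.exp (12 * Real.pi) / c ^ 2 * lam ^ 2 * (G ^ 2 * M) = D1 * E := by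
      rw [mul_assoc, h4, hD1]; ring
    have h7 : (T.card : ℝ) * (16 * L' ^ 2 * C ^ 2 / c ^ 2 * (P : ℝ) ^ 2 / lam) ≤ D2 * E := by
      calc (T.card : ℝ) * (16 * L' ^ 2 * C ^ 2 / c ^ 2 * (P : ℝ) ^ 2 / lam) ≤ (2 * P) * (16 * L' ^ 2 * C ^ 2 / c ^ 2 * (P : ℝ) ^ 2 / lam) :=
            mul_le_mul_of_nonneg_right hcard (by positivity)
        _ = D2 * ((P : ℝ) ^ 3 / lam) := by rw [hD2]; ring
        _ = D2 * E := by rw [← hE1, mul_div_assoc, div_self hlam0.ne', mul_one]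
    calc ∑ p ∈ T, (Tf (R p) ψ z') ^ 2 ≤ D1 * E + D2 * E := by rw [← h6]; linarith
      _ ≤ (D1 + D2 + D3 + 1) * E := by nlinarith [mul_nonneg hD3p hE0.le]
  · -- small `P`
    push Not at hcase
    have h1 : ∀ p ∈ T, (Tf (R p) ψ z') ^ 2 ≤ (4 * P * B) ^ 2 := by
      intro p hp
      obtain ⟨hp1, hp2, hp3⟩ := hT p hp
      have h2 : |Tf (R p) ψ z'| ≤ 4 * P * B := by
        rw [Tf]
        refine (Finset.abs_sum_le_sum_abs _ _).trans ((Finset.sum_le_card_nsmul _ _ B fun β _ => hB _).trans ?_)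
        rw [hp3.card, nsmul_eq_mul]
        refine mul_le_mul_of_nonneg_right ?_ hB0
        have h5 : (p : ℝ) ≤ 3 * P := by exact_mod_cast hp2
        push_cast; linarith
      rw [← sq_abs]
      exact pow_le_pow_left₀ (abs_nonneg _) h2 2
    have h2 : ∑ p ∈ T, (Tf (R p) ψ z') ^ 2 ≤ (2 * P) * (4 * P * B) ^ 2 := by
      refine (Finset.sum_le_card_nsmul _ _ _ h1).trans ?_
      rw [nsmul_eq_mul]
      exact mul_le_mul_of_nonneg_right hcard (sq_nonneg _)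
    -- `lam ≤ C₀`
    have h3 : lam ≤ C₀ := by
      have h4 : lam ^ 2 ≤ P := by
        rw [hlam, ← Real.rpow_natCast ((P : ℝ) ^ (1 / 35 : ℝ)) 2, ← Real.rpow_mul hP0.le]
        calc (P : ℝ) ^ (1 / 35 * ((2 : ℕ) : ℝ) : ℝ) ≤ (P : ℝ) ^ (1 : ℝ) := Real.rpow_le_rpow_of_exponent_le hP1 (by norm_num)
          _ = P := Real.rpow_one _
      have h5 : lam * lam ≤ C₀ * lam := by nlinarith
      exact le_of_mul_le_mul_right h5 hlam0
    calc ∑ p ∈ T, (Tf (R p) ψ z') ^ 2 ≤ (2 * P) * (4 * P * B) ^ 2 := h2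
      _ = 32 * B ^ 2 * ((P : ℝ) ^ 3) := by ring
      _ = 32 * B ^ 2 * (E * lam) := by rw [hE1]
      _ ≤ 32 * B ^ 2 * (E * C₀) := by
        refine mul_le_mul_of_nonneg_left (mul_le_mul_of_nonneg_left h3 hE0.le) (by positivity)
      _ = D3 * E := by rw [hD3]; ring
      _ ≤ (D1 + D2 + D3 + 1) * E := by nlinarith [mul_nonneg hD1p hE0.le, mul_nonneg hD2p hE0.le]

end HQ
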