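import Pool.Agent.Work.MP_d2a4bb_nt.QV.Stmts

/-!
# Item QI of the block [d2a4bb QV]
-/

open UpperHalfPlane MeasureTheory Matrix
open scoped MatrixGroups Manifold Topology ComplexConjugate

namespace HQ

namespace VQI

theorem num_eq (z w : ℍ) (g : SL(2, ℝ)) (s : ℝ) :
    (((s • (g : Matrix (Fin 2) (Fin 2) ℝ)) 0 0 : ℝ) : ℂ) * (z : ℂ) +
        (((s • (g : Matrix (Fin 2) (Fin 2) ℝ)) 0 1 : ℝ) : ℂ) -
      (w : ℂ) * ((((s • (g : Matrix (Fin 2) (Fin 2) ℝ)) 1 0 : ℝ) : ℂ) * (z : ℂ) +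
        (((s • (g : Matrix (Fin 2) (Fin 2) ℝ)) 1 1 : ℝ) : ℂ)) =
      (s : ℂ) * (jj g z * (((g • z : ℍ) : ℂ) - (w : ℂ))) := by
  have hne := IJJ.ne g z
  have e : jj g z * ((g • z : ℍ) : ℂ) = ((g 0 0 : ℝ) : ℂ) * (z : ℂ) + ((g 0 1 : ℝ) : ℂ) := by
    rw [IJJ.coe_smul, mul_div_cancel₀ _ hne]
  rw [mul_sub, e]
  simp only [Matrix.smul_apply, smul_eq_mul, Complex.ofReal_mul]
  unfold jj
  ring

end VQI

theorem pvQI : SvQI := by
  intro z w g s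
  have hne := IJJ.ne g z
  have hn : 0 < ‖jj g z‖ := norm_pos_iff.2 hne
  have him := IJJ.im g z
  have hz : 0 < z.im := z.im_pos
  have hw : 0 < w.im := w.im_pos
  have hc := UpperHalfPlane.cosh_dist (g • z) w
  unfold qm
  rw [VQI.num_eq, hc, him, dist_eq_norm, norm_mul, norm_mul, Complex.norm_real, Real.norm_eq_abs,
    mul_pow, mul_pow, sq_abs]
  field_simp
  ring

end HQ
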