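import Pool.Agent.Work.MP_d2a4bb_nt.QE.Main
import Pool.Agent.Work.MP_d2a4bb_nt.QV.Defs

/-!
# Statements of the block [d2a4bb QV].  Captain helper41.

THEOREM QV (`MainV` in `QV/Defs.lean`): power saving in the quantum variance of joint Hecke eigenforms.
Each `def SvXXX : Prop` is one item; its docstring contains the complete proof.  All theorems `HQ.prXXX : StXXX` of block QE (files `QE/I_XXX.lean`, `QA/Final.lean`) are proved and may be used.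

PLAN.  For a prime `p` the first case of the exact identity (`StBAS`) with `y = ψ/(p+1)` reads
`μ_f(ψ) = μ_f(T_p ψ)/(p+1) + Re ∫ w φ_z(1) conj Σ_(a word of length 2) (ψ(vtx a 1 z) - ψ(z))/(p+1) φ_z(a)`.  Average over the primes `p ∈ T` in `(P, 3P]`, `P = m^(1/30)`: (A) `Σ_(p ∈ T) |T_p ψ(z)|² ≤ C P^(3 - 1/35)` for mean zero Lipschitz `ψ` (elementary circle method for the quaternary form `nrd`,
Gaussian weights), (B) the trace bound for the words of all `p ∈ T` together, quantitative in `P`.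
-/

open UpperHalfPlane MeasureTheory Matrix
open scoped MatrixGroups Manifold Topology ComplexConjugate

namespace HQ

/-! ## Definitions -/

/-- `Σ t_i b_i`, real coordinates. -/
noncomputable def cr (Q : QuatOrder) (t : Fin 4 → ℝ) : Matrix (Fin 2) (Fin 2) ℝ := ∑ i, t i • Q.basis i

/-- `Σ c_i b_i`, integer coordinates: the elements of the order. -/
noncomputable def cs (Q : QuatOrder) (c : Fin 4 → ℤ) : Matrix (Fin 2) (Fin 2) ℝ := ∑ i, (c i : ℝ) • Q.basis i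

/-- `|a z + b - w (c z + d)|² / (im z im w)`; it is `2 s² (cosh dist (g z) w - 1)` for `x = s g`, `g ∈ SL(2, ℝ)`. -/
noncomputable def qm (z w : ℍ) (x : Matrix (Fin 2) (Fin 2) ℝ) : ℝ :=
  ‖((x 0 0 : ℝ) : ℂ) * (z : ℂ) + ((x 0 1 : ℝ) : ℂ) - (w : ℂ) * (((x 1 0 : ℝ) : ℂ) * (z : ℂ) + ((x 1 1 : ℝ) : ℂ))‖ ^ 2 / (z.im * w.im)

/-- The positive definite form `2 det x + lam qm z w x`, `lam ≥ 1`. -/
noncomputable def QQ (lam : ℝ) (z w : ℍ) (x : Matrix (Fin 2) (Fin 2) ℝ) : ℝ := 2 * x.det + lam * qm z w x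

/-- Distance to the nearest integer. -/
noncomputable def dn (x : ℝ) : ℝ := |x - round x|

/-- The weighted number of elements of determinant `n` of the order. -/
noncomputable def rr (Q : QuatOrder) (lam P : ℝ) (z w : ℍ) (n : ℤ) : ℝ := by
  classical
  exact ∑' c : Fin 4 → ℤ, if (cs Q c).det = (n : ℝ) then Real.exp (-Real.pi * QQ lam z w (cs Q c) / P) else 0

/-- The theta sum. -/
noncomputable def SS (Q : QuatOrder) (lam P : ℝ) (z w : ℍ) (α : ℝ) : ℂ :=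
  ∑' c : Fin 4 → ℤ, Complex.exp (((-Real.pi * QQ lam z w (cs Q c) / P : ℝ) : ℂ) + 2 * Real.pi * Complex.I * ((α * (cs Q c).det : ℝ) : ℂ))

/-- Number of `k`, `|k| ≤ √P`, with `α k` at distance `≤ √(lam/P)` of an integer (with Gaussian weights). -/
noncomputable def NA (c lam P α : ℝ) : ℝ := ∑' k : ℤ, Real.exp (-c * (k : ℝ) ^ 2 / P - c * (P / lam) * dn (α * k) ^ 2)

/-- `q` is a positive definite quadratic form on `ℝ⁴`, between `c₁ |t|²` and `Λ |t|²`. -/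
structure PosForm (c₁ Λ : ℝ) (q : (Fin 4 → ℝ) → ℝ) : Prop where
  quad : ∃ M : Matrix (Fin 4) (Fin 4) ℝ, M.IsSymm ∧ ∀ t, q t = ∑ i, ∑ j, M i j * t i * t j
  lower : ∀ t, c₁ * ∑ i, t i ^ 2 ≤ q t
  upper : ∀ t, q t ≤ Λ * ∑ i, t i ^ 2

/-- A quadratic form bounded by `C |t|²`. -/
structure BddForm (C : ℝ) (q : (Fin 4 → ℝ) → ℝ) : Prop where
  quad : ∃ M : Matrix (Fin 4) (Fin 4) ℝ, M.IsSymm ∧ ∀ t, q t = ∑ i, ∑ j, M i j * t i * t j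
  bdd : ∀ t, |q t| ≤ C * ∑ i, t i ^ 2

/-- `N` is an integral quadratic form with associated linear map `L`. -/
def IntForm (N : (Fin 4 → ℤ) → ℤ) (L : (Fin 4 → ℤ) → Fin 4 → ℤ) : Prop := ∀ c h, N (c + h) = N c + N h + ∑ j, c j * L h j

/-- The major arcs. -/
def Maj (R P : ℝ) : Set ℝ := {α | ∃ g : ℕ, 1 ≤ g ∧ (g : ℝ) ≤ R ∧ ∃ a : ℤ, |α - a / g| ≤ R / P}

/-- What we need from one Hecke operator. -/
structure HeckR (Q : QuatOrder) (p : ℕ) (R : Finset SL(2, ℝ)) : Prop where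
  prime : p.Prime
  reps : Reps Q.Γ (Q.E p) R
  card : R.card = p + 1
  hecke : ∀ (k : ℕ) (f : ℍ → ℂ) (z : ℍ), Q.T p k f z = ∑ β ∈ R, f (β • z) / jj β z ^ k
  mem : ∀ a : List SL(2, ℝ), a ∈ words Q.Γ R 2 ↔ a.length = 2 ∧ IsWord Q.Γ R a
  count : (words Q.Γ R 2).card = (p + 1) * p
  inj : ∀ a ∈ words Q.Γ R 2, ∀ b ∈ words Q.Γ R 2, a.prod * b.prod⁻¹ ∈ Q.Γ → a = b
  test : ∀ y : ℍ → ℝ, Test Q.Γ y → Test Q.Γ (Tf R y)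
  real : ∀ (W : Weight Q.Γ) (m : ℕ) (f : ℍ → ℂ) (l : ℂ), Form Q.Γ m f → Eigen R m f l → ∫ z : ℍ, W.w z * FF m f z ^ 2 = 1 → l.im = 0
  ident : ∀ (W : Weight Q.Γ) (m : ℕ) (f : ℍ → ℂ) (l : ℝ) (y : ℍ → ℝ), Form Q.Γ m f → Eigen R m f (l : ℂ) → Test Q.Γ y →
    (∫ z : ℍ, (W.w z : ℂ) * ∑ a ∈ words Q.Γ R 2, ((y (vtx a 1 • z) - y z : ℝ) : ℂ) * (phi m f z 1 * conj (phi m f z a.prod))).re =
      ∫ z : ℍ, W.w z * (((p + 1 : ℝ) * y z - Tf R y z) * FF m f z ^ 2)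

open Classical in
/-- All words of length two of the Hecke operators `T_p`, `p ∈ T`. -/
noncomputable def VV (Q : QuatOrder) (T : Finset ℕ) (R : ℕ → Finset SL(2, ℝ)) : Finset (List SL(2, ℝ)) := T.biUnion (fun p => words Q.Γ (R p) 2)

/-! ## A. Gaussian sums (no arithmetic) -/

/-- G1 (MEDIUM; no hypotheses).  One dimensional Gaussian sums.  Proof: `τ = A/P ≤ 1`.  Poisson (Mathlib `Complex.tsum_exp_neg_quadratic` with `a = τ`, `b = -τ l + i ξ` and the factor `exp(-π τ l²)`; or the Jacobi theta functional equation `jacobiTheta₂_functional_equation`):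
the sum is `τ^(-1/2) Σ_k exp(-π (k - ξ)²/τ)` times phases.  `(k - ξ)² ≥ dn(ξ)²/2 + (k - ξ)²/2`, so `Σ_k exp(-π(k-ξ)²/τ) ≤ exp(-(π/2) dn(ξ)²/τ) Σ_k exp(-(π/2)(k-ξ)²)` and the last sum is at most `4` (two values of `k` within distance 1, then geometric).  The last claim is the case `ξ = 0`. -/
def SvG1 : Prop := ∀ A P l : ℝ, 0 < A → A ≤ P → Summable (fun n : ℤ => Real.exp (-Real.pi * A * ((n : ℝ) + l) ^ 2 / P)) ∧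
  (∀ ξ : ℝ, ‖∑' n : ℤ, Complex.exp (((-Real.pi * A * ((n : ℝ) + l) ^ 2 / P : ℝ) : ℂ) + 2 * Real.pi * Complex.I * (((n : ℝ) * ξ : ℝ) : ℂ))‖ ≤
    4 * Real.sqrt (P / A) * Real.exp (-(Real.pi / 2) * (P / A) * dn ξ ^ 2)) ∧
  ∑' n : ℤ, Real.exp (-Real.pi * A * ((n : ℝ) + l) ^ 2 / P) ≤ 4 * Real.sqrt (P / A)

/-- G4 (MEDIUM-HARD; uses SvG1).  Four dimensional Gaussian sums.  Proof: `q ≥ c₁ |t|²` gives summability (product of four one dimensional sums, `Fin 4 → ℤ`, e.g. by `Fin.insertNthEquiv` / `Fin.consEquiv`).  For the bound fix `i` and the other coordinates; as a function of `t_i`, `q(t) = A (t_i + l)² + c'` with `A = q(e_i) ∈ [c₁, Λ]` and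
`c' = min ≥ c₁ Σ_(j ≠ i) t_j²` (because `q(t) ≥ c₁ Σ_(j ≠ i) t_j²` for every `t_i`).  By G1 the sum over `c_i` is at most `4 √(P/c₁) exp(-(π/2)(P/Λ) dn(ξ_i)²) exp(-π c₁ Σ_(j≠i) (c_j + s_j)²/P)`; then sum over the other three coordinates (G1, last claim, `A = c₁`): `(4 √(P/c₁))³`. -/
def SvG4 : Prop := ∀ (c₁ Λ P : ℝ) (q : (Fin 4 → ℝ) → ℝ), 0 < c₁ → c₁ ≤ Λ → Λ ≤ P → PosForm c₁ Λ q → ∀ s : Fin 4 → ℝ,
  Summable (fun c : Fin 4 → ℤ => Real.exp (-Real.pi * q (fun i => (c i : ℝ) + s i) / P)) ∧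
  ∀ (ξ : Fin 4 → ℝ) (i : Fin 4), ‖∑' c : Fin 4 → ℤ, Complex.exp (((-Real.pi * q (fun i => (c i : ℝ) + s i) / P : ℝ) : ℂ) + 2 * Real.pi * Complex.I * ((∑ j, (c j : ℝ) * ξ j : ℝ) : ℂ))‖ ≤
    256 * P ^ 2 / c₁ ^ 2 * Real.exp (-(Real.pi / 2) * (P / Λ) * dn (ξ i) ^ 2)

/-- W1 (MEDIUM; uses SvG4 for summability).  Weyl differencing.  Proof: `F(c) = exp(-π q(c)/P) e(α N(c))` is absolutely summable; `‖Σ F‖² = Σ_h Σ_c F(c + h) conj F(c)` (absolutely convergent double sum, substitution `(c + h, c)`).  `q(c + h) + q(c) = 2 q(c + h/2) + q(h)/2` (parallelogram law) and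
`N(c + h) - N(c) = N(h) + Σ_j c_j L(h)_j`.  Take absolute values in the sum over `h` (summable: the inner sums are bounded by `Σ_c exp(-2π q(c + h/2)/P) ≤ 256 (P/2)²/c₁²`, SvG4). -/
def SvW1 : Prop := ∀ (c₁ Λ P : ℝ) (q : (Fin 4 → ℝ) → ℝ) (N : (Fin 4 → ℤ) → ℤ) (L : (Fin 4 → ℤ) → Fin 4 → ℤ) (α : ℝ), 0 < c₁ → c₁ ≤ Λ → 2 * Λ ≤ P → PosForm c₁ Λ q → IntForm N L →
  Summable (fun h : Fin 4 → ℤ => Real.exp (-Real.pi * q (fun i => (h i : ℝ)) / (2 * P)) *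
      ‖∑' c : Fin 4 → ℤ, Complex.exp (((-2 * Real.pi * q (fun i => (c i : ℝ) + (h i : ℝ) / 2) / P : ℝ) : ℂ) + 2 * Real.pi * Complex.I * ((α * ∑ j, (c j : ℝ) * (L h j : ℝ) : ℝ) : ℂ))‖) ∧
  ‖∑' c : Fin 4 → ℤ, Complex.exp (((-Real.pi * q (fun i => (c i : ℝ)) / P : ℝ) : ℂ) + 2 * Real.pi * Complex.I * ((α * (N c : ℝ) : ℝ) : ℂ))‖ ^ 2 ≤
    ∑' h : Fin 4 → ℤ, Real.exp (-Real.pi * q (fun i => (h i : ℝ)) / (2 * P)) *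
      ‖∑' c : Fin 4 → ℤ, Complex.exp (((-2 * Real.pi * q (fun i => (c i : ℝ) + (h i : ℝ) / 2) / P : ℝ) : ℂ) + 2 * Real.pi * Complex.I * ((α * ∑ j, (c j : ℝ) * (L h j : ℝ) : ℝ) : ℂ))‖

/-- W2 (MEDIUM; uses SvG4, SvW1).  Weyl's inequality.  Proof: in W1 the inner norm is, by G4 with `P/2` for `P` (`Λ ≤ P/2`), `s = h/2`, `ξ_j = α L(h)_j`, at most `64 P²/c₁² exp(-(π/4)(P/Λ) dn(α L(h)_i)²)` for every `i`, hence (geometric mean over `i`) at most `64 P²/c₁² Π_i exp(-(π/16)(P/Λ) dn(α L(h)_i)²)`; and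
`exp(-π q(h)/(2P)) ≤ exp(-π c₁ |h|²/(2P)) ≤ Π_i exp(-π c₁ L(h)_i²/(2 C₂ P))`.  With `c = min(π c₁/(2 C₂), π/16)` the sum over `h` is a sum of `Π_i g(L(h)_i)`, `g(k) = exp(-c k²/P - c (P/Λ) dn(α k)²)`; `L` is injective, so it is at most `Σ_(k ∈ ℤ⁴) Π_i g(k_i) = (Σ_k g(k))⁴`. -/
def SvW2 : Prop := ∀ c₁ C₂ : ℝ, 0 < c₁ → 0 < C₂ → ∃ C c : ℝ, 0 < C ∧ 0 < c ∧ ∀ (Λ P : ℝ) (q : (Fin 4 → ℝ) → ℝ) (N : (Fin 4 → ℤ) → ℤ) (L : (Fin 4 → ℤ) → Fin 4 → ℤ) (α : ℝ), c₁ ≤ Λ → 0 < Λ → 2 * Λ ≤ P → PosForm c₁ Λ q → IntForm N L → Function.Injective L →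
  (∀ h, ∑ j, (L h j : ℝ) ^ 2 ≤ C₂ * ∑ j, (h j : ℝ) ^ 2) →
  ‖∑' c : Fin 4 → ℤ, Complex.exp (((-Real.pi * q (fun i => (c i : ℝ)) / P : ℝ) : ℂ) + 2 * Real.pi * Complex.I * ((α * (N c : ℝ) : ℝ) : ℂ))‖ ^ 2 ≤ C * P ^ 2 * NA c Λ P α ^ 4

/-- N1 (MEDIUM-HARD; uses SvG1).  Counting.  `α = a/g + β`.  Proof: write `k = g l + j`, `0 ≤ j < g`.  `α k ≡ a j/g + β g l + β j` mod 1 and `|β j| ≤ |β| g ≤ 1/√P`; so with `t = β g l`, `dn(α k)² ≥ dn(a j/g + t)²/2 - 1/P`, and `P/(Λ P) ≤ 1`.  Also `exp(-c k²/P) ≤ C exp(-c' g² l²/P)` as `g² ≤ P`.  For fixed `l` the residues `a j` run over all residues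
mod `g`; with `ρ = ρ_l` = distance of `t` to `(1/g)ℤ`: `Σ_j exp(-(c/2)(P/Λ) dn(a j/g + t)²) ≤ 2 exp(-(c/2)(P/Λ) ρ²) Σ_(i ≥ 0) exp(-(c/2)(P/(Λ g²)) i²) ≤ C √Λ exp(-(c/2)(P/Λ) ρ²)` (`P/g² ≥ 1`, `Λ ≥ 1`).  First bound: drop the last factor, `Σ_l exp(-c' g² l²/P) ≤ C (1 + √P/g)`.
Second bound: let `i` be the integer nearest to `t g = β g² l`.  For `i ≠ 0`: `|l| ≥ (|i| - 1/2)/(|β| g²) ≥ |i| √P/(2 g)` (as `|β| ≤ 1/(g √P)`), so `exp(-c' g² l²/P) ≤ exp(-(c'/8) i²) exp(-(c'/2) g² l²/P)`; for fixed `i` the sum over all `l ∈ ℤ` of `exp(-(c/2)(P/Λ)(β g)² (l - l_i)²)` is at most `C (1 + √Λ/(√P g |β|))` (G1 or comparison with an integral).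
Total `C √Λ · (1 + √Λ/(√P g |β|)) ≤ C Λ (1 + 1/(√P g |β|))`. -/
def SvN1 : Prop := ∀ c : ℝ, 0 < c → ∃ C : ℝ, 0 < C ∧ ∀ (Λ P β : ℝ) (g : ℕ) (a : ℤ), 1 ≤ Λ → Λ ≤ P → 1 ≤ g → (g : ℝ) ^ 2 ≤ P → IsCoprime a (g : ℤ) → |β| ≤ 1 / (g * Real.sqrt P) →
  NA c Λ P (a / g + β) ≤ C * Λ * (1 + Real.sqrt P / g) ∧ (β ≠ 0 → NA c Λ P (a / g + β) ≤ C * Λ * (1 + 1 / (Real.sqrt P * g * |β|)))

/-- MI (MEDIUM-HARD; uses SvN1).  The minor arcs.  Proof: `NA` is continuous in `α` (uniformly convergent series of continuous functions).  Dirichlet (`Real.exists_rat_abs_sub_le_and_den_le` with `⌊√P⌋`): every `α ∈ [0,1]` is `a/g + β`, `g ≤ √P`, `(a,g) = 1`, `0 ≤ a ≤ g`, `|β| ≤ 1/(g √P)`.  If `α ∉ Maj R P` then `g > R` or `|β| > R/P`.  So the integral is at most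
the sum over `g ≤ √P`, `0 ≤ a ≤ g`, of `∫ (CΛ)⁴ 8 (1 + min(√P/g, 1/(√P g |β|))⁴) dβ` over `|β| ≤ 1/(g √P)` with the restriction `g > R` or `|β| > R/P`.  The part `1`: `Σ_g (g+1) 2/(g √P) ≤ 4`.  The other part: `∫ min(√P/g, 1/(√P g|β|))⁴ dβ ≤ 3 P²/g⁴ · 1/P` in general and `≤ (2/3) (P²/g⁴) P⁻¹ R⁻³` over `|β| > R/P`;
`Σ_(g > R) (g+1) 3P/g⁴ ≤ C P/R²`, `Σ_g (g+1) P/(g⁴ R³) ≤ C P/R³`. -/
def SvMI : Prop := ∀ c : ℝ, 0 < c → ∃ C : ℝ, 0 < C ∧ ∀ Λ P R : ℝ, 1 ≤ Λ → Λ ≤ P → 1 ≤ R → R ^ 2 ≤ P → Continuous (fun α : ℝ => NA c Λ P α) ∧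
  ∫ α in Set.Icc (0 : ℝ) 1 \ Maj R P, NA c Λ P α ^ 4 ≤ C * Λ ^ 4 * (1 + P / R ^ 2)

/-- MJ (EASY; no hypotheses).  Measure of the major arcs: a finite union of closed intervals of length `2R/P`; for `α ∈ [0,1]` and `|α - a/g| ≤ R/P`, `g ≤ R`, `R² ≤ P`: `-1 ≤ a ≤ g + 1`; `Σ_(g ≤ R) (g + 3) 2R/P ≤ 8 R³/P`. -/
def SvMJ : Prop := ∀ P R : ℝ, 1 ≤ R → R ^ 2 ≤ P → MeasurableSet (Maj R P) ∧ volume (Set.Icc (0 : ℝ) 1 ∩ Maj R P) ≤ ENNReal.ofReal (8 * R ^ 3 / P)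

/-- M1 (MEDIUM-HARD; uses SvG4).  Riemann sums.  `f(t) = exp(-π q(t)/P + 2π i β D(t))`.  Proof: the integral is the sum over `c ∈ ℤ⁴` of the integrals over the cubes `b + g c + [0,g)⁴`.  For `t` in the cube of `x = b + g c`: with `y = √P`, `|q(t) - q(x)|/P ≤ C Λ (g/y)(|x|/y + 1)`, `|β||D(t) - D(x)| ≤ C C₃ |β| P (g/y)(|x|/y + 1)` (Cauchy-Schwarz for the forms; `g ≤ y`), and
`|e^(-A+iu) - e^(-B+iv)| ≤ (|A - B| + |u - v|) max(e^(-A), e^(-B))`, `q(t) ≥ c₁|t|² ≥ (c₁/2)|x|² - 4 c₁ g²`.  So `|f(t) - f(x)| ≤ C (Λ + |β|P)(g/y) exp(-(π c₁/4)|x|²/P)`, and `Σ_c exp(-(π c₁/4)|b + g c|²/P) ≤ C (y/g)⁴` (G1 for each coordinate with `A = c₁ g²/4`, if `c₁ g²/4 ≤ P`; we may take `c₁ ≤ 1`).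
Total for `g⁴ Σ_c f(x) - ∫ f`: `g⁴ C (Λ + |β|P)(g/y)(y/g)⁴`; divide by `g⁴`: `C (Λ + |β| P) P^(3/2)/g³`. -/
def SvM1 : Prop := ∀ c₁ C₃ : ℝ, 0 < c₁ → c₁ ≤ 1 → 0 < C₃ → ∃ C : ℝ, 0 < C ∧ ∀ (Λ P β : ℝ) (q D : (Fin 4 → ℝ) → ℝ) (g : ℕ) (b : Fin 4 → ℝ), 1 ≤ Λ → Λ ≤ P → 1 ≤ g → (g : ℝ) ^ 2 ≤ P → PosForm c₁ Λ q → BddForm C₃ D →
  ‖(∑' c : Fin 4 → ℤ, Complex.exp (((-Real.pi * q (fun i => b i + g * (c i : ℝ)) / P : ℝ) : ℂ) + 2 * Real.pi * Complex.I * ((β * D (fun i => b i + g * (c i : ℝ)) : ℝ) : ℂ))) -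
    (1 / (g : ℂ) ^ 4) * ∫ t : Fin 4 → ℝ, Complex.exp (((-Real.pi * q t / P : ℝ) : ℂ) + 2 * Real.pi * Complex.I * ((β * D t : ℝ) : ℂ))‖ ≤
  C * (Λ + |β| * P) * P ^ (3 / 2 : ℝ) / (g : ℝ) ^ 3

/-- PB (MEDIUM; no hypotheses).  Bessel's inequality for absolutely convergent Fourier series.  Proof: the functions `e(nα)` are orthonormal on `[0,1]`; expand `∫ ‖Σ‖²` (uniform convergence) `= Σ_n a_n²`; or `hasSum_sq_fourierCoeff` on `AddCircle`. -/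
def SvPB : Prop := ∀ a : ℤ → ℝ, Summable (fun n => |a n|) → Continuous (fun α : ℝ => ∑' n : ℤ, (a n : ℂ) * Complex.exp (2 * Real.pi * Complex.I * (((n : ℝ) * α : ℝ) : ℂ))) ∧
  ∀ T : Finset ℤ, ∑ n ∈ T, a n ^ 2 ≤ ∫ α in Set.Icc (0 : ℝ) 1, ‖∑' n : ℤ, (a n : ℂ) * Complex.exp (2 * Real.pi * Complex.I * (((n : ℝ) * α : ℝ) : ℂ))‖ ^ 2

/-! ## B. The order and its theta sums -/

/-- QI (EASY-MEDIUM; no hypotheses).  `x = s g`, `g ∈ SL(2,ℝ)`: `x z - w` etc.: `|s|² |a z + b - w(c z + d)|² = s² |c z + d|² |g z - w|²`, `im(g z) = im z/|c z + d|²` (`HQ.prJJ`, `HQ.IJJ.coe_smul`), `cosh dist(g z, w) = 1 + |g z - w|²/(2 im(g z) im w)` (`UpperHalfPlane.cosh_dist`). -/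
def SvQI : Prop := ∀ (z w : ℍ) (g : SL(2, ℝ)) (s : ℝ), qm z w (s • (g : Matrix (Fin 2) (Fin 2) ℝ)) = 2 * s ^ 2 * (Real.cosh (dist (g • z) w) - 1)

/-- QF (MEDIUM; no hypotheses).  The forms in coordinates.  Proof: all are quadratic forms in the entries of `x`, so in the coordinates.  With `q⁺ = |a z + b - conj w (c z + d)|²/(im z im w)`: `q⁺ - qm = 4 det x` (expand), so `2 det x + qm z w x = (q⁺ + qm)/2`, which is positive for `x ≠ 0` (if `a z + b = w(c z + d)` and `a z + b = conj w (c z + d)` then `c z + d = 0`, so `c = d = 0`,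
`a = b = 0`).  It is continuous in `(z, w, x)`, so on the compact set `K × K × {unit sphere}` it is between two positive constants; `lam ≥ 1`: `QQ lam ≥ QQ 1` and `QQ lam = 2 det + lam qm ≤ lam (2|det| + qm)`. -/
def SvQF : Prop := ∀ (Q : QuatOrder) (K : Set ℍ), IsCompact K → ∃ c₁ C₁ C₃ : ℝ, 0 < c₁ ∧ c₁ ≤ 1 ∧ 1 ≤ C₁ ∧ 0 < C₃ ∧ BddForm C₃ (fun t => (cr Q t).det) ∧
  ∀ z ∈ K, ∀ w ∈ K, ∀ lam : ℝ, 1 ≤ lam → PosForm c₁ (C₁ * lam) (fun t => QQ lam z w (cr Q t))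

/-- QN (MEDIUM; no hypotheses).  The norm form is integral and nondegenerate.  Proof: `det (cs Q c) ∈ ℤ` (`HQ.prINT`); `det(x + y) = det x + det y + tr(x adj y)`, bilinear in `x`, so `L h j = tr(b_j adj(cs Q h)) = N(e_j + h) - N(e_j) - N(h) ∈ ℤ`.  Injective: if `L h = L h'` then `tr(x adj y) = 0` for `y = cs Q h - cs Q h'` and all `x` in the span of the basis, i.e. all
matrices, so `y = 0` and `h = h'`.  The bound: `L` is linear. -/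
def SvQN : Prop := ∀ Q : QuatOrder, ∃ (N : (Fin 4 → ℤ) → ℤ) (L : (Fin 4 → ℤ) → Fin 4 → ℤ) (C₂ : ℝ), 0 < C₂ ∧ (∀ c, (N c : ℝ) = (cs Q c).det) ∧ IntForm N L ∧ Function.Injective L ∧ ∀ h, ∑ j, (L h j : ℝ) ^ 2 ≤ C₂ * ∑ j, (h j : ℝ) ^ 2

/-- M2 (MEDIUM; no hypotheses).  The main term does not depend on the points.  Proof: `z = h_z • I`, `w = h_w • I` (`h ∈ SL(2,ℝ)`, `UpperHalfPlane.toSL2R` or transitivity).  `qm (h_z I) (h_w I) (h_w y h_z⁻¹) = qm I I y`: (for `det y > 0` this is QI and the isometry property; as an identity of polynomials, or directly: `|a z + b - w(cz+d)|²/(im z im w)` is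
invariant).  The linear map `y ↦ h_w y h_z⁻¹` of `M₂(ℝ)` has determinant `(det h_w)² (det h_z)⁻² = 1` and preserves `det`; transport it to `ℝ⁴` by the basis (same determinant) and change variables (`Real.map_linearMap_volume_pi_eq_smul_volume_pi`).  See `QA/I_MINK.lean` for the determinant of left multiplication. -/
def SvM2 : Prop := ∀ (Q : QuatOrder) (lam P β : ℝ) (z w z' w' : ℍ),
  ∫ t : Fin 4 → ℝ, Complex.exp (((-Real.pi * QQ lam z w (cr Q t) / P : ℝ) : ℂ) + 2 * Real.pi * Complex.I * ((β * (cr Q t).det : ℝ) : ℂ)) =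
    ∫ t : Fin 4 → ℝ, Complex.exp (((-Real.pi * QQ lam z' w' (cr Q t) / P : ℝ) : ℂ) + 2 * Real.pi * Complex.I * ((β * (cr Q t).det : ℝ) : ℂ))

/-- M3 (MEDIUM; uses SvM1, SvM2, SvQF, SvQN, SvG4).  Major arcs.  `α = a/g + β`.  Proof: split `c = b + g c'` with `b ∈ {0, …, g-1}⁴`; `det(cs Q c) = N(c) ≡ N(b)` mod `g` (IntForm), so `e(α N(c)) = e(a N(b)/g) e(β det(cs Q c))` and `SS(α) = Σ_b e(a N(b)/g) Σ_(c') f(b + g c')`, `f` as in M1 with `q = QQ lam z w ∘ cr Q`, `D = det ∘ cr Q`.  Replace the inner sums by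
`g⁻⁴ ∫ f` (M1); the integrals for `(z,w)` and `(z',w')` are equal (M2).  There are `g⁴` values of `b`. -/
def SvM3 : Prop := ∀ (Q : QuatOrder) (K : Set ℍ), IsCompact K → ∃ C C₀ : ℝ, 0 < C ∧ 0 < C₀ ∧ ∀ (lam P β : ℝ) (g : ℕ) (a : ℤ), 1 ≤ lam → C₀ * lam ≤ P → 1 ≤ g → (g : ℝ) ^ 2 ≤ P → ∀ z ∈ K, ∀ w ∈ K, ∀ z' ∈ K, ∀ w' ∈ K,
  ‖SS Q lam P z w (a / g + β) - SS Q lam P z' w' (a / g + β)‖ ≤ C * (lam + |β| * P) * g * P ^ (3 / 2 : ℝ)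

/-- SR (MEDIUM; uses SvQF, SvQN, SvG4).  The theta sum is the Fourier series with coefficients `rr`.  Proof: absolutely summable family over `c ∈ ℤ⁴`; group by the value `n = N(c)` (`tsum` over the fibres, `Equiv.sigmaFiberEquiv` / `HasSum.sigma`).  (Take `K = {z, w}` in QF.) -/
def SvSR : Prop := ∀ (Q : QuatOrder) (K : Set ℍ), IsCompact K → ∃ C₀ : ℝ, 0 < C₀ ∧ ∀ (lam P : ℝ), 1 ≤ lam → C₀ * lam ≤ P → ∀ z ∈ K, ∀ w ∈ K, (∀ n, 0 ≤ rr Q lam P z w n) ∧ Summable (fun n => |rr Q lam P z w n|) ∧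
  ∀ α : ℝ, SS Q lam P z w α = ∑' n : ℤ, (rr Q lam P z w n : ℂ) * Complex.exp (2 * Real.pi * Complex.I * (((n : ℝ) * α : ℝ) : ℂ))

/-- SM (MEDIUM; uses SvW2, SvMI, SvMJ, SvM3, SvSR, SvPB, SvQF, SvQN): THE SECOND MOMENT.  Proof: `a_n = rr(z,w,n) - rr(z',w',n)`; by PB and SR the sum is at most `∫_0^1 |SS(α) - SS'(α)|² dα`.  `R = P^(1/10)`.  Outside `Maj R P`: `|SS - SS'|² ≤ 2|SS|² + 2|SS'|² ≤ 4 C P² NA⁴` (W2 with `Λ = C₁ lam`), integral `≤ C P² lam⁴ (1 + P/R²) ≤ C lam⁴ P^(14/5)` (MI).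
On `Maj R P`: `|SS - SS'| ≤ C (lam + R) R P^(3/2) ≤ 2 C lam R² P^(3/2)` (M3, `|β| ≤ R/P`, `g ≤ R`), measure `≤ 8 R³/P` (MJ): `≤ C lam² R⁴ P³ R³/P = C lam² P^(27/10)`. -/
def SvSM : Prop := ∀ (Q : QuatOrder) (K : Set ℍ), IsCompact K → ∃ C C₀ : ℝ, 0 < C ∧ 0 < C₀ ∧ ∀ (lam P : ℝ), 1 ≤ lam → C₀ * lam ≤ P → ∀ z ∈ K, ∀ w ∈ K, ∀ z' ∈ K, ∀ w' ∈ K, ∀ T : Finset ℤ,
  ∑ n ∈ T, (rr Q lam P z w n - rr Q lam P z' w' n) ^ 2 ≤ C * lam ^ 4 * P ^ (14 / 5 : ℝ)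

/-! ## C. Hecke points -/

/-- EQ (MEDIUM; uses SvQI).  `rr` as a sum over `E p`.  Proof: `c ↦ (cs Q c)/√p` is a bijection from `{c : det (cs Q c) = p}` onto `Q.E p` (`Q.mem_iff`, coordinates in a basis are unique), and `QQ lam z w (√p g) = 2p + 2 p lam (cosh dist(g z, w) - 1)` (QI).  `tsum` over a subtype. -/
def SvEQ : Prop := ∀ (Q : QuatOrder) (p : ℕ), 0 < p → ∀ (lam P : ℝ) (z w : ℍ), rr Q lam P z w (p : ℤ) =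
  Real.exp (-2 * Real.pi * p / P) * ∑' g : Q.E p, Real.exp (-(2 * Real.pi * lam * p / P) * (Real.cosh (dist ((g : SL(2, ℝ)) • z) w) - 1))

/-- CS (MEDIUM-HARD; no hypotheses).  The mass of the heat-like kernel.  Proof: by transitivity and invariance of `volume` (`HQ.prVOL`) the integral does not depend on `u`; take `u = I`: `cosh dist(I, x + iy) - 1 = (x² + (y-1)²)/(2y)` and `volume = dx dy/y²`.  The integral over `x` is `√(2π y/s) exp(-s (y-1)²/(2y))`, so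
`I(s) = √(2π/s) ∫_0^∞ y^(-3/2) exp(-(s/2)(y-1)²/y) dy`.  (It is exactly `2π/s`.)  Upper bound `C/s`: on `[1/2, 2]` the integrand is at most `3 exp(-s (y-1)²/4)`, integral `≤ C/√s`; for `y < 1/2`, `(y-1)²/y ≥ 1/(4y)`; for `y > 2`, `(y-1)²/y ≥ y/4`.  Lower bound: on `|y - 1| ≤ s^(-1/2)/2` the integrand is `≥ c`.
Second moment: `dist² ≤ 2 (cosh dist - 1)` and `X exp(-s X) ≤ (2/s) exp(-s X/2)`, so `∫ dist · k ≤ (∫ k)^(1/2) (∫ dist² k)^(1/2) ≤ C s^(-3/2)` (use the upper bound for `s/2`). -/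
def SvCS : Prop := ∃ (I : ℝ → ℝ) (c C : ℝ), 0 < c ∧ 0 < C ∧ ∀ s : ℝ, 1 ≤ s → c / s ≤ I s ∧ I s ≤ C / s ∧ ∀ u : ℍ, Integrable (fun w : ℍ => Real.exp (-s * (Real.cosh (dist u w) - 1))) volume ∧
  ∫ w : ℍ, Real.exp (-s * (Real.cosh (dist u w) - 1)) = I s ∧ Integrable (fun w : ℍ => dist u w * Real.exp (-s * (Real.cosh (dist u w) - 1))) volume ∧
  ∫ w : ℍ, dist u w * Real.exp (-s * (Real.cosh (dist u w) - 1)) ≤ C * s ^ (-3 / 2 : ℝ)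

/-- UF (MEDIUM-HARD; uses SvCS).  Unfolding.  `k(u,w) = exp(-s (cosh dist(u,w) - 1))`.  Proof: `∫_ℍ ψ(w) k(βz, w) dw = ∫ Σ_(γ ∈ Γ) W(γ w) ψ(w) k(βz,w) dw = Σ_γ ∫ W(w) ψ(w) k(βz, γ⁻¹ w) dw` (`γ⁻¹ w` substituted, `ψ` invariant, `HQ.prVOL`) `= Σ_γ ∫ W(w) ψ(w) k(γβ z, w) dw`; all sums and integrals converge absolutely because `∫ k(βz, ·) < ∞` (Tonelli for the
absolute values, `Γ` is countable: `HQ.IFUN.countable_G`).  `(γ, β) ↦ γ β` is a bijection `Γ × R → E p` (Reps).  Then exchange `Σ_(g ∈ E p)` and `∫ W ψ`. -/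
def SvUF : Prop := ∀ (Q : QuatOrder) (W : Weight Q.Γ) (p : ℕ) (R : Finset SL(2, ℝ)), Reps Q.Γ (Q.E p) R → ∀ (ψ : ℍ → ℝ) (B s : ℝ), Test Q.Γ ψ → (∀ z, |ψ z| ≤ B) → 1 ≤ s → ∀ z : ℍ,
  Integrable (fun w : ℍ => W.w w * (ψ w * ∑' g : Q.E p, Real.exp (-s * (Real.cosh (dist ((g : SL(2, ℝ)) • z) w) - 1)))) volume ∧
  ∑ β ∈ R, ∫ w : ℍ, ψ w * Real.exp (-s * (Real.cosh (dist (β • z) w) - 1)) =
    ∫ w : ℍ, W.w w * (ψ w * ∑' g : Q.E p, Real.exp (-s * (Real.cosh (dist ((g : SL(2, ℝ)) • z) w) - 1)))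

/-- HP (MEDIUM-HARD; uses SvSM, SvEQ, SvCS, SvUF): HECKE POINTS EQUIDISTRIBUTE ON AVERAGE.  `∫ w ψ = 0`, `|ψ| ≤ B`.  Proof: `T_p ψ` is invariant (`HeckR.test`), so let `z` be in a compact set `K` which contains the support of `W.w` and satisfies `Γ K = ℍ` (`HQ.prCOC`).  `lam = P^(1/35)`, `s = 2π lam p/P ∈ [2π lam, 6π lam]`.  By CS and the Lipschitz property
`|ψ(u) I(s) - ∫ ψ(w) k(u,w) dw| ≤ C L s^(-3/2)`, so `|T_p ψ(z)| ≤ (s/c) (|Σ_β ∫ ψ(w) k(βz,w) dw| + (p+1) C L s^(-3/2))`.  By UF and EQ `Σ_β ∫ ψ k(βz, ·) = e^(2πp/P) ∫ W(w) ψ(w) rr(z,w,p) dw = e^(2πp/P) ∫ W(w) ψ(w) (rr(z,w,p) - rr(z,w₀,p)) dw` (`∫ W ψ = 0`), whose square is at most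
`e^(12π) B² (∫ W) ∫ W(w) (rr(z,w,p) - rr(z,w₀,p))² dw`; sum over `p ∈ T`, SM: `≤ C lam⁴ P^(14/5)`.  So `Σ_p |T_p ψ(z)|² ≤ C lam² lam⁴ P^(14/5) + C (2P) (4P)² /lam ≤ C P^(3 - 1/35)` (`6/35 + 14/5 = 3 - 1/35`).  For small `P` (`C₀ lam > P`): trivially `|T_p ψ| ≤ (p+1) B ≤ 4 P B`. -/
def SvHP : Prop := ∀ (Q : QuatOrder) (W : Weight Q.Γ) (ψ : ℍ → ℝ) (L : ℝ), Test Q.Γ ψ → (∀ z w : ℍ, |ψ z - ψ w| ≤ L * dist z w) → ∫ z : ℍ, W.w z * ψ z = 0 →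
  ∃ C : ℝ, 0 < C ∧ ∀ (P : ℕ) (T : Finset ℕ) (R : ℕ → Finset SL(2, ℝ)), 1 ≤ P → (∀ p ∈ T, P < p ∧ p ≤ 3 * P ∧ HeckR Q p (R p)) → ∀ z : ℍ,
    ∑ p ∈ T, (Tf (R p) ψ z) ^ 2 ≤ C * (P : ℝ) ^ (3 - 1 / 35 : ℝ)

/-! ## D. The trace bound for many primes -/

/-- D1 (EASY-MEDIUM; no hypotheses).  Proof: for one `p` this is `HeckR.inj`.  Let `p ≠ p'`, `a` a word of `R p`, `b` a word of `R p'`, `a.prod = γ * b.prod`.  `X = p a.prod ∈ O` (product of two elements `√p α ∈ O`), `p' b.prod ∈ O`; so `p' X = p γ (p' b.prod) ∈ p O`, and `X = u p X + v p' X ∈ p O` (`u p + v p' = 1`), i.e. `a.prod ∈ O`, so `a.prod ∈ Γ` (`HQ.prGAM`); but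
`a = [β, α]` and `a.prod = β * α ∉ Γ` (IsWord).  Disjointness: a common word would satisfy this with `γ = 1`. -/
def SvD1 : Prop := ∀ (Q : QuatOrder) (T : Finset ℕ) (R : ℕ → Finset SL(2, ℝ)), (∀ p ∈ T, HeckR Q p (R p)) → (∀ a ∈ VV Q T R, ∀ b ∈ VV Q T R, a.prod * b.prod⁻¹ ∈ Q.Γ → a = b) ∧
  ∀ p ∈ T, ∀ p' ∈ T, p ≠ p' → Disjoint (words Q.Γ (R p) 2) (words Q.Γ (R p') 2)

/-- D2 (MEDIUM; uses SvD1).  Polynomial bound for the multiplicities.  Proof: the pair `(γ, a)`, `a` a word of `R p`, is determined by `p` and `x = p γ⁻¹ a.prod ∈ O` (if `γ⁻¹ a.prod = γ'⁻¹ a'.prod` then `a = a'` by D1, `γ = γ'`).  `g = γ⁻¹ a.prod` satisfies `dist(u, g z) < 1`, `u, z ∈ K`: `g` lies in a compact subset of `SL(2,ℝ)` (proper action), so its entries are at most `C`,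
those of `x` at most `3 C P`; the coordinates of `x` in `Q.basis` are at most `C' P`: at most `(2 C' P + 1)⁴` elements `x` for each of the at most `3P` primes `p`. -/
def SvD2 : Prop := ∀ (Q : QuatOrder) (K : Set ℍ), IsCompact K → ∃ C : ℝ, 0 < C ∧ ∀ (P : ℕ) (T : Finset ℕ) (R : ℕ → Finset SL(2, ℝ)), 1 ≤ P → (∀ p ∈ T, p ≤ 3 * P ∧ HeckR Q p (R p)) → ∃ M : ℕ, (M : ℝ) ≤ C * (P : ℝ) ^ 5 ∧
  ∀ z ∈ K, ∀ u ∈ K, ∀ r ≤ (1 : ℝ), {x : SL(2, ℝ) × List SL(2, ℝ) | x.1 ∈ Q.Γ ∧ x.2 ∈ VV Q T R ∧ dist (x.1 • u) (x.2.prod • z) < r}.encard ≤ M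

/-- D3 (MEDIUM; no hypotheses).  Sublevel sets of quadratic polynomials.  On `K`: `0 < y₀ ≤ y ≤ Y`, `|x| ≤ X` (`z = x + iy`), volume `≤ y₀⁻² dx dy`.  The polynomial is `e z² + a z - b`, imaginary part `y (2 e x + a)`.  `ε₁` small (depending on `c₀, K`).  Case `|e| ≥ ε₁`: `|2 e x + a| ≤ ρ/y₀`, so `x` lies in an interval of length `ρ/(y₀ ε₁)`.  Case `|e| < ε₁`, `|a| ≥ ε₂ = 4 ε₁ X + ε₁`: `|2 e x + a| ≥ ε₂/2`, so the set is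
empty if `ρ < y₀ ε₂/2`, otherwise use `volume K < ∞`.  Case both small: `|b| ≥ c₀` and `|e z² + a z - b| ≥ c₀ - ε₁ (X² + Y²) - ε₂ (X + Y) ≥ c₀/2`, same conclusion. -/
def SvD3 : Prop := ∀ (K : Set ℍ) (c₀ : ℝ), IsCompact K → 0 < c₀ → ∃ C : ℝ, 0 < C ∧ ∀ (e a b ρ : ℝ), (c₀ ≤ |e| ∨ c₀ ≤ |a| ∨ c₀ ≤ |b|) → 0 ≤ ρ →
  volume {z : ℍ | z ∈ K ∧ ‖(e : ℂ) * (z : ℂ) ^ 2 + (a : ℂ) * (z : ℂ) - (b : ℂ)‖ ≤ ρ} ≤ ENNReal.ofReal (C * ρ)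

/-- D4 (MEDIUM-HARD; uses SvD3).  The bad set.  Proof: for `x = N g ∈ O` with `g ≠ ±1`, `1 ≤ N ≤ 9P²`, `dist(g z, z) ≤ 2r ≤ 2`, `z ∈ K`: the entries of `g` are at most `C`, those of `x = (a b; e d)` at most `9 C P²`, so `x` is one of at most `C P⁸` elements (coordinates in `Q.basis`).  `x` is not scalar, `2x - tr x ∈ O` is not `0` and `O` is discrete (`HQ.prDSC`), so `max(|e|, |d - a|, |b|) ≥ c₀`.
`|g z - z|² = 2 im(g z) im z (cosh dist - 1) ≤ C r²` and `g z - z = (a z + b - z(e z + d))/(e z + d)` for `x`, `|e z + d| ≤ C P²`, so `|e z² + (d - a) z - b| ≤ C P² r`.  `A` = union over these finitely many `x` (and `N = √det x`) of the closed sets `{z ∈ K : dist(g z, z) ≤ 2r}`; by D3 the volume is at most `C P⁸ · C P² r`. -/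
def SvD4 : Prop := ∀ (Q : QuatOrder) (K : Set ℍ), IsCompact K → ∃ C : ℝ, 0 < C ∧ ∀ (P : ℕ) (r : ℝ), 1 ≤ P → 0 < r → r ≤ 1 → ∃ A : Set ℍ, IsClosed A ∧ A ⊆ K ∧ volume A ≤ ENNReal.ofReal (C * (P : ℝ) ^ 10 * r) ∧
  ∀ z ∈ K, z ∉ A → ∀ (g : SL(2, ℝ)) (N : ℕ), 1 ≤ N → N ≤ 9 * P ^ 2 → (N : ℝ) • (g : Matrix (Fin 2) (Fin 2) ℝ) ∈ Q.O → dist (g • z) z < 2 * r → g = 1 ∨ g = -1

/-- D5 (EASY-MEDIUM; uses SvD1).  Proof: for two pairs `(γ, a)`, `(γ', a')` in the set, `a` a word of `R p`, `a'` of `R p'`: `δ = a'.prod⁻¹ γ' γ⁻¹ a.prod` has `dist(δ z, z) < 2r` and `p p' δ ∈ O` (`p' a'.prod⁻¹ ∈ O`: adjugate, `HQ.prGAM`), `p p' ≤ 9P²`, so `δ = ±1`, `γ' γ⁻¹ a.prod = ± a'.prod`, `a = a'` (D1, `-1 ∈ Γ`), `γ' = ± γ`. -/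
def SvD5 : Prop := ∀ (Q : QuatOrder) (P : ℕ) (T : Finset ℕ) (R : ℕ → Finset SL(2, ℝ)), 1 ≤ P → (∀ p ∈ T, p ≤ 3 * P ∧ HeckR Q p (R p)) → ∀ (z : ℍ) (r : ℝ),
  (∀ (g : SL(2, ℝ)) (N : ℕ), 1 ≤ N → N ≤ 9 * P ^ 2 → (N : ℝ) • (g : Matrix (Fin 2) (Fin 2) ℝ) ∈ Q.O → dist (g • z) z < 2 * r → g = 1 ∨ g = -1) →
  ∀ u : ℍ, {x : SL(2, ℝ) × List SL(2, ℝ) | x.1 ∈ Q.Γ ∧ x.2 ∈ VV Q T R ∧ dist (x.1 • u) (x.2.prod • z) < r}.encard ≤ 2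

/-- D6 (MEDIUM; uses SvD2, SvD4, SvD5).  The trace bound (as `QE/I_TRC.lean`).  Proof: `K = tsupport W.w`, `r = m^(-1/2)`, `A` from D4, `M₁` from D2.  `HQ.prPTW` (see `QE/Asm.lean` for its hypotheses): for `z ∈ K \ A` multiplicity `2`, for `z ∈ A` multiplicity `M₁ ≤ C P⁵`; integrate: `≤ C m Σ M_a² (2 ∫ w + M₁ sup w volume(A))` and `M₁ volume(A) ≤ C P^15 m^(-1/2) ≤ C` as `P^30 ≤ m`. -/
def SvD6 : Prop := ∀ (Q : QuatOrder) (W : Weight Q.Γ), ∃ C : ℝ, 0 < C ∧ ∀ (P : ℕ) (T : Finset ℕ) (R : ℕ → Finset SL(2, ℝ)), 1 ≤ P → (∀ p ∈ T, p ≤ 3 * P ∧ HeckR Q p (R p)) →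
  ∀ (κ : List SL(2, ℝ) → ℍ → ℝ) (M : List SL(2, ℝ) → ℝ), (∀ a ∈ VV Q T R, Continuous (κ a)) → (∀ a ∈ VV Q T R, ∀ z, |κ a z| ≤ M a) → ∀ m : ℕ, P ^ 30 ≤ m → ∀ (ι : Type) [Fintype ι] (f : ι → ℍ → ℂ), Ortho Q.Γ W m f →
    ∑ i, ∫ z : ℍ, W.w z * ‖∑ a ∈ VV Q T R, (κ a z : ℂ) * phi m (f i) z a.prod‖ ^ 2 ≤ C * m * ∑ a ∈ VV Q T R, M a ^ 2

/-- D7 (EASY-MEDIUM; no hypotheses).  At most `C m` orthonormal forms.  Proof: `HQ.prPTW` with `V = {[]}`, `κ = 1`, `r = 1`: `Σ_i ‖phi m (f i) z 1‖² ≤ C m M`, where `M` bounds the number of `γ ∈ Γ` with `dist(γ u, z) < 1`, `u, z ∈ tsupport W.w` (`HQ.prFIW` with `n = 1`); `‖phi m f z 1‖ = FF m f z` (`HQ.prPHA`); multiply by `w` and integrate. -/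
def SvD7 : Prop := ∀ (Q : QuatOrder) (W : Weight Q.Γ), ∃ C : ℝ, 0 < C ∧ ∀ m : ℕ, 1 ≤ m → ∀ (ι : Type) [Fintype ι] (f : ι → ℍ → ℂ), Ortho Q.Γ W m f → (Fintype.card ι : ℝ) ≤ C * m

/-! ## E. The identity and the assembly -/

/-- I1 (MEDIUM; no hypotheses).  Proof: `S` from `HQ.prSTP` (`p + 1 ≥ 3`), `R = S.R`.  `reps`: from the fields of `S` (`S.Γ = Q.Γ`, `S.E = Q.E p`; to transport a `Weight Q.Γ` state a lemma for a group `Γ'` with `h : Γ' = S.Γ` and `subst h`, as in `QE/I_EQD.lean`).  `card`: use `HQ.prREP` (`R'.card = index`) and the bijection between two sets of representatives.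
`mem`, `count`: `HQ.prWRD`.  `inj`: `S.inj`.  `test`: `HQ.prTFI`.  `real`: `HQ.prRED`.  `ident`: `HQ.prBAS`, `NN 2 1 - NN 2 0` and `vtx a 0 = 1` (all integrands continuous with compact support, see `HQ.IBAS.intgC`). -/
def SvI1 : Prop := ∀ (Q : QuatOrder) (p : ℕ), p.Prime → Q.Good p → Q.index p = p + 1 → ∃ R : Finset SL(2, ℝ), HeckR Q p R

/-- I2 (MEDIUM; no hypotheses).  Average of the identities.  Proof: `HeckR.ident` with `y = ψ/(p+1)` for `p ∈ T`, averaged: `∫ w ψ FF² = ∫ w A FF² + Re ∫ w phi(1) conj (Σ_p Σ_a κ phi(a))`, `A(z) = |T|⁻¹ Σ_p T_p ψ(z)/(p+1)`, `|A| ≤ η` by Cauchy-Schwarz and the hypothesis; second term: Cauchy-Schwarz for integrals and `∫ w ‖phi(1)‖² = ∫ w FF² = 1` (as in `QE/I_CSI.lean`).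
`(x + y)² ≤ 2x² + 2y²`. -/
def SvI2 : Prop := ∀ (Q : QuatOrder) (W : Weight Q.Γ) (T : Finset ℕ) (R : ℕ → Finset SL(2, ℝ)), T.Nonempty → (∀ p ∈ T, HeckR Q p (R p)) → ∀ (ψ : ℍ → ℝ) (m : ℕ) (f : ℍ → ℂ) (η : ℝ), Test Q.Γ ψ → Form Q.Γ m f → (∀ p ∈ T, ∃ l : ℂ, Eigen (R p) m f l) →
  ∫ z : ℍ, W.w z * FF m f z ^ 2 = 1 → 0 ≤ η → (∀ z : ℍ, ∑ p ∈ T, (Tf (R p) ψ z / (p + 1)) ^ 2 ≤ η ^ 2 * T.card) →
  (∫ z : ℍ, W.w z * (ψ z * FF m f z ^ 2)) ^ 2 ≤ 2 * η ^ 2 +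
    2 * ∫ z : ℍ, W.w z * ‖∑ p ∈ T, ∑ a ∈ words Q.Γ (R p) 2, (((ψ (vtx a 1 • z) - ψ z) / ((p + 1) * T.card) : ℝ) : ℂ) * phi m f z a.prod‖ ^ 2

/-- FA (MEDIUM-HARD; uses SvHP, SvD1, SvD6, SvD7, SvI1, SvI2).  The variance in terms of a weight.  Proof: `|ψ| ≤ B` (`HQ.prMOD`-like: continuous invariant function on a cocompact quotient, `HQ.prCOC`).  `N₀` from Plenty with `ε = 1/100`.  `P = ⌊m^(1/30)⌋`; if `P < N₀ + 1` then `m` is bounded and the sum is at most `C m B²` (D7; `|∫ w ψ FF²| ≤ B`).  Otherwise `T` = elements of the set in `(P, 3P]`,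
`|T| ≥ P^(99/100)`, `R p` from I1.  HP: `Σ_(p ∈ T) (T_p ψ/(p+1))² ≤ C P^(1 - 1/35) = η² |T|` with `η² ≤ C P^(1/100 - 1/35)`.  I2 for every `f_i`; sum over `i`: first term `≤ 2 η² C m` (D7), second: D6 with `κ a z = Σ_(p ∈ T) [a ∈ words (R p) 2] (ψ(vtx a 1 z) - ψ z)/((p+1)|T|)` (D1: at most one `p` for each `a`), `M_a = 2B/((p+1)|T|)`:
`Σ_a M_a² ≤ Σ_p (p+1) p 4B²/((p+1)²|T|²) ≤ 4B²/|T|`.  Total `≤ C m P^(1/100 - 1/35) ≤ C m^(1 - 13/21000)` as `P ≥ m^(1/30)/2`. -/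
def SvFA : Prop := ∀ (Q : QuatOrder) (S : Set ℕ), Q.PlentyGood S → ∀ (W : Weight Q.Γ) (ψ : ℍ → ℝ) (L : ℝ), Test Q.Γ ψ → (∀ z w : ℍ, |ψ z - ψ w| ≤ L * dist z w) → ∫ z : ℍ, W.w z * ψ z = 0 →
  ∃ C : ℝ, 0 < C ∧ ∀ m : ℕ, 1 ≤ m → ∀ (ι : Type) [Fintype ι] (f : ι → ℍ → ℂ), Ortho Q.Γ W m f → (∀ i, ∀ p ∈ S, Q.IsEigen p (2 * m) (f i)) →
    ∑ i, (∫ z : ℍ, W.w z * (ψ z * FF m (f i) z ^ 2)) ^ 2 ≤ C * (m : ℝ) ^ (1 - 1 / 2000 : ℝ)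

/-- FB (MEDIUM; uses SvFA).  The final statement.  Proof: as `QE/I_EQD.lean`: `W` from `HQ.prWGT`, `HQ.prFUN` (closed: see `QE/Asm.lean`), the functions `√2 f`, `ψ₀ = ψ - mean` (Lipschitz with the same constant).  Second part: `HQ.prDIM` (`c m ≤ card B` for `m ≥ m₁` if `B` spans, see `IMAI.card_ge`); for `m < m₁` either `B` is empty or `card B ≥ 1`; enlarge `C`. -/
def SvFB : Prop := MainV

end HQ
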